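import Mathlib

/-! Relative Dobrowolski in all dimensions (text DR_PROOF.md): definitions of the geometric part. -/

open MvPolynomial

namespace DR

/-- polynomials with all partial degrees at most `ν` -/
def V (Ω : Type) [Field Ω] (n ν : ℕ) : Submodule Ω (MvPolynomial (Fin n) Ω) where
  carrier := {f | ∀ i, f.degreeOf i ≤ ν}
  add_mem' := fun {f g} hf hg i => (degreeOf_add_le i f g).trans (max_le (hf i) (hg i))
  zero_mem' := fun i => by simp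
  smul_mem' := fun c f hf i => by
    rw [MvPolynomial.smul_eq_C_mul]
    exact (degreeOf_C_mul_le f i c).trans (hf i)

section
variable {Ω : Type} [Field Ω] {n : ℕ}

/-- Hilbert function: the dimension of the image of `V ν` modulo `I` -/
noncomputable def H (I : Ideal (MvPolynomial (Fin n) Ω)) (ν : ℕ) : ℕ :=
  Module.finrank Ω ((V Ω n ν).map (Ideal.Quotient.mkₐ Ω I).toLinearMap)

/-- cumulative Hilbert function -/
noncomputable def S (I : Ideal (MvPolynomial (Fin n) Ω)) (ν : ℕ) : ℕ := ∑ μ ∈ Finset.range ν, H I μ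

/-- dimension (transcendence degree of the quotient) -/
noncomputable def dm (P : Ideal (MvPolynomial (Fin n) Ω)) : ℕ :=
  Cardinal.toNat (Algebra.trdeg Ω (MvPolynomial (Fin n) Ω ⧸ P))

/-- degree (normalised cumulative growth) -/
noncomputable def e (P : Ideal (MvPolynomial (Fin n) Ω)) : ℝ :=
  Filter.liminf (fun ν : ℕ => ((dm P : ℝ) + 1) * (S P ν : ℝ) / (ν : ℝ) ^ (dm P + 1)) Filter.atTop

/-- a ring automorphism of the polynomial ring, semilinear with respect to `σ`, preserving all `V ν` -/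
structure Sym (φ : MvPolynomial (Fin n) Ω ≃+* MvPolynomial (Fin n) Ω) (σ : Ω ≃+* Ω) : Prop where
  const : ∀ a, φ (C a) = C (σ a)
  box : ∀ ν f, f ∈ V Ω n ν ↔ φ f ∈ V Ω n ν

/-- automorphism of the coefficients -/
noncomputable def cf (σ : Ω ≃+* Ω) : MvPolynomial (Fin n) Ω ≃+* MvPolynomial (Fin n) Ω :=
  MvPolynomial.mapEquiv (Fin n) σ

/-- translation `x i ↦ ξ i * x i` -/
noncomputable def trh (ξ : Fin n → Ωˣ) : MvPolynomial (Fin n) Ω →+* MvPolynomial (Fin n) Ω :=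
  (aeval fun i => C (ξ i : Ω) * X i : MvPolynomial (Fin n) Ω →ₐ[Ω] MvPolynomial (Fin n) Ω).toRingHom

theorem trh_trh (ξ η : Fin n → Ωˣ) (h : ∀ i, η i * ξ i = 1) (f : MvPolynomial (Fin n) Ω) :
    trh ξ (trh η f) = f := by
  have : (trh ξ).comp (trh η) = RingHom.id _ := by
    apply MvPolynomial.ringHom_ext
    · intro a
      simp [trh]
    · intro i
      have h1 : (η i : Ω) * (ξ i : Ω) = 1 := by rw [← Units.val_mul, h i, Units.val_one]
      simp only [trh, AlgHom.toRingHom_eq_coe, RingHom.coe_comp, RingHom.coe_coe, Function.comp_apply,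
        aeval_X, map_mul, algHom_C, algebraMap_eq, RingHom.id_apply]
      rw [← mul_assoc, ← C_mul, h1, C_1, one_mul]
  exact congrArg (fun g => g f) this

/-- translation as an automorphism -/
noncomputable def tr (ξ : Fin n → Ωˣ) : MvPolynomial (Fin n) Ω ≃+* MvPolynomial (Fin n) Ω :=
  { trh ξ with
    invFun := trh fun i => (ξ i)⁻¹
    left_inv := fun f => trh_trh _ _ (fun i => by simp) f
    right_inv := fun f => trh_trh _ _ (fun i => by simp) f }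

/-- `G ↦ (ρ⁻¹ G)(x_1^q, .., x_n^q)` -/
noncomputable def th (q : ℕ) (ρ : Ω ≃+* Ω) : MvPolynomial (Fin n) Ω →+* MvPolynomial (Fin n) Ω :=
  (expand q : MvPolynomial (Fin n) Ω →ₐ[Ω] MvPolynomial (Fin n) Ω).toRingHom.comp
    (MvPolynomial.map (ρ.symm : Ω ≃+* Ω).toRingHom)

/-- maximal ideal of a point -/
noncomputable def mx (z : Fin n → Ω) : Ideal (MvPolynomial (Fin n) Ω) :=
  RingHom.ker (eval z : MvPolynomial (Fin n) Ω →+* Ω)

/-- weight of an exponent -/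
def wgt (w : Fin n → ℤ) (a : Fin n →₀ ℕ) : ℤ := ∑ i, w i * (a i : ℤ)

/-- component of weight `c` -/
noncomputable def wc (w : Fin n → ℤ) (c : ℤ) (f : MvPolynomial (Fin n) Ω) : MvPolynomial (Fin n) Ω :=
  ∑ a ∈ f.support.filter (fun a => wgt w a = c), monomial a (coeff a f)

/-- the ideal contains the weight components of its elements -/
def WHom (w : Fin n → ℤ) (P : Ideal (MvPolynomial (Fin n) Ω)) : Prop := ∀ f ∈ P, ∀ c, wc w c f ∈ P

/-- roots of unity of order dividing `q`, `n` coordinates -/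
def Mu (Ω : Type) [Field Ω] (n q : ℕ) : Set (Fin n → Ωˣ) := {ξ | ∀ i, ξ i ^ q = 1}

/-- number of translates by `Mu q` in a set of ideals -/
noncomputable def nq (SS : Set (Ideal (MvPolynomial (Fin n) Ω))) (q : ℕ)
    (P : Ideal (MvPolynomial (Fin n) Ω)) : ℕ :=
  Set.ncard {ξ : Fin n → Ωˣ | ξ ∈ Mu Ω n q ∧ P.map (tr ξ).toRingHom ∈ SS}

/-- polynomials of degree at most `l` vanishing on `E` -/
def GG (E : Set (Fin n → Ω)) (l : ℕ) : Set (MvPolynomial (Fin n) Ω) :=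
  {G | G ∈ V Ω n l ∧ ∀ z ∈ E, eval z G = 0}

/-- minimal primes over `GG E l` inside the maximal ideal of a point of `E`, of dimension `j` -/
noncomputable def ZJ (E : Set (Fin n → Ω)) (l j : ℕ) : Finset (Ideal (MvPolynomial (Fin n) Ω)) := by
  classical
  exact (Ideal.finite_minimalPrimes_of_isNoetherianRing (MvPolynomial (Fin n) Ω)
    (Ideal.span (GG E l))).toFinset.filter fun P => (∃ z ∈ E, P ≤ mx z) ∧ dm P = j

theorem mem_ZJ {E : Set (Fin n → Ω)} {l j : ℕ} {P : Ideal (MvPolynomial (Fin n) Ω)} :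
    P ∈ ZJ E l j ↔ P ∈ (Ideal.span (GG E l)).minimalPrimes ∧ (∃ z ∈ E, P ≤ mx z) ∧ dm P = j := by
  classical
  simp [ZJ, Finset.mem_filter, Set.Finite.mem_toFinset]

/-- total degree of the components of dimension `j` -/
noncomputable def mj (E : Set (Fin n → Ω)) (l j : ℕ) : ℝ := ∑ P ∈ ZJ E l j, e P

end

/-- the data of the geometric theorem (DR_PROOF.md, section 6) -/
structure Dat (Ω : Type) [Field Ω] (n : ℕ) where
  X : ℕ
  r : ℕ
  h0 : ℕ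
  L : ℕ
  om : ℕ
  C1 : ℕ
  t : ℕ
  P : ℕ → Finset ℕ
  E : ℕ → Set (Fin n → Ω)
  Γ : Set (Ω ≃+* Ω)
  ρ : ℕ → (Ω ≃+* Ω)
  hn : 1 ≤ n
  hX : 2 ≤ X
  hL : 1 ≤ L
  hom : 1 ≤ om
  hC1 : 1 ≤ C1
  hP : ∀ i, 2 * h0 < i → i ≤ r → ∀ q ∈ P i, q.Prime ∧ X < q ∧ q ≤ 8 * X
  hE : ∀ i, ∀ z ∈ E i, ∀ j, z j ≠ 0
  hEf : ∀ i, (E i).Finite
  hΓ1 : RingEquiv.refl Ω ∈ Γ
  hΓs : ∀ γ ∈ Γ, γ.symm ∈ Γ
  hΓE : ∀ γ ∈ Γ, ∀ i, ∀ z ∈ E i, (fun j => γ (z j)) ∈ E i
  hρ : ∀ i, 2 * h0 < i → i ≤ r → ∀ q ∈ P i, ∀ z ∈ E (i - 1), (fun j => ρ q (z j ^ q)) ∈ E i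
  /-- (G1) -/
  g1 : ∃ G ∈ V Ω n L, G ≠ 0 ∧ ∀ z ∈ E r, eval z G = 0
  /-- (G2) -/
  g2 : ∀ z ∈ E (2 * h0), ∀ (ν : ℕ) (F : MvPolynomial (Fin n) Ω), F ∈ V Ω n ν → F ≠ 0 →
    (∀ γ ∈ Γ, eval (fun j => γ (z j)) F = 0) → om ≤ (8 * X) ^ (2 * h0) * ν
  /-- (G3) -/
  g3 : ∀ i, 2 * h0 ≤ i → i ≤ r → ∀ z ∈ E i, ∀ w : Fin n → ℤ, w ≠ 0 →
    ∀ F ∈ V Ω n (3 * n.factorial * n.factorial * ((8 * X) ^ r * L)), F ≠ 0 →
    (∀ a ∈ F.support, ∀ b ∈ F.support, wgt w a = wgt w b) →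
    (∀ γ ∈ Γ, eval (fun j => γ (z j)) F = 0) → False
  /-- (G4) -/
  g4 : L ≤ C1 * om
  g4' : X ^ h0 * om ^ n ≤ (E (2 * h0)).ncard
  /-- (G5) -/
  g5 : ∀ i, 2 * h0 < i → i ≤ r → t ≤ (P i).card
  g5' : 4 * Real.log ((n.factorial : ℝ) * ((8 * X : ℝ) ^ r * L) ^ n) ≤
    t * (1 / (4 * r : ℝ)) * Real.log X
  /-- (G6) -/
  g6a : (n + 2) * (n - 1) + 1 ≤ h0
  g6b : (n + 1) * (2 * h0) + (n + 2) * (n - 1) + 2 ≤ r
  g6c : 2 * (8 : ℝ) ^ n + n * n.factorial * 8 ^ (n + 1) ≤ (X : ℝ) ^ (1 / (4 * r : ℝ))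
  g6d : (2 * C1) ^ n * (3 * n.factorial * n.factorial) < 8 * X
  g6e : (n.factorial : ℝ) * C1 ^ n < (X : ℝ) ^ (1 / 2 : ℝ)

namespace Dat
variable {Ω : Type} [Field Ω] {n : ℕ} (d : Dat Ω n)

/-- degree at level `i` -/
def l (i : ℕ) : ℕ := (8 * d.X) ^ (d.r - i) * d.L

/-- the number `a_i^(j)` -/
noncomputable def a (i j : ℕ) : ℝ := (d.l i : ℝ) ^ j * mj (d.E i) (d.l i) j

end Dat

end DR
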