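import Pool.Agent.Lib.MP_a325a5_ag.F.Def
import Pool.Agent.Lib.MP_a325a5_ag.DR.GDef

/-! Definitions of the arithmetic part of DR_PROOF.md (sections 7, 8): as F/Def.lean, but `n` variables and one common
bound `L` for the partial degrees.  `BMF.Cyc`, `BMF.ht` are those of F. -/

open NumberField MvPolynomial

namespace DR

section poly
variable {k : Type} [Field k] {n : ℕ}

/-- binomial derivative: `x^m` goes to `∏ choose (m j) (i j) * x^m` -/
noncomputable def hd (i : Fin n → ℕ) : MvPolynomial (Fin n) k →ₗ[k] MvPolynomial (Fin n) k :=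
  (MvPolynomial.basisMonomials (Fin n) k).constr k
    (fun m => monomial m (∏ j, ((m j).choose (i j) : k)))

/-- vanishing of order at least `T` at a point with nonzero coordinates -/
def van (T : ℕ) (f : MvPolynomial (Fin n) k) (z : Fin n → k) : Prop :=
  ∀ i : Fin n → ℕ, ∑ j, i j < T → eval z (hd i f) = 0

end poly

section dat
variable {M : ℕ} {k K : Type} [Field k] [NumberField k] [Field K] [NumberField K] [Algebra k K]
  {n : ℕ}

/-- coefficients conjugated by `φ` and mapped to `K` -/
noncomputable def toK (K : Type) [Field K] [Algebra k K] (φ : k →+* k) :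
    MvPolynomial (Fin n) k →+* MvPolynomial (Fin n) K :=
  MvPolynomial.map ((algebraMap k K).comp φ)

/-- value of the conjugate polynomial at the `m`-th power of the point -/
noncomputable def ev (φ : k →+* k) (m : ℕ) (g : Fin n → K) : MvPolynomial (Fin n) k →+* K :=
  eval₂Hom ((algebraMap k K).comp φ) (fun i => g i ^ m)

/-- multiplicative independence -/
def MInd (g : Fin n → K) : Prop := ∀ a : Fin n → ℤ, ∏ i, g i ^ a i = 1 → a = 0

/-- degree of the field generated over `k` by the `m`-th powers -/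
noncomputable def dg (k : Type) {K : Type} [Field k] [Field K] [Algebra k K] {n : ℕ}
    (g : Fin n → K) (m : ℕ) : ℕ :=
  Module.finrank k (IntermediateField.adjoin k (Set.range fun i => g i ^ m))

/-- integral coefficients with all conjugates at most `A` -/
def House (A : ℝ) (G : MvPolynomial (Fin n) k) : Prop :=
  ∀ m, IsIntegral ℤ (coeff m G) ∧ ∀ σ : k →+* ℂ, ‖σ (coeff m G)‖ ≤ A

/-- polynomials in the box vanishing to order `T` at `g` -/
noncomputable def vanSub (k : Type) {K : Type} [Field k] [Field K] [Algebra k K] {n : ℕ} (T L : ℕ)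
    (g : Fin n → K) : Submodule k (MvPolynomial (Fin n) k) where
  carrier := {G | G ∈ V k n L ∧ van T (toK K (RingHom.id k) G) g}
  add_mem' := fun {f h} hf hh => ⟨(V k n L).add_mem hf.1 hh.1, fun i hi => by
    rw [map_add, map_add, map_add, hf.2 i hi, hh.2 i hi, add_zero]⟩
  zero_mem' := ⟨(V k n L).zero_mem, fun i hi => by simp⟩
  smul_mem' := fun c f hf => ⟨(V k n L).smul_mem c hf.1, fun i hi => by
    have h1 : toK K (RingHom.id k) (c • f) = (algebraMap k K c) • toK K (RingHom.id k) f := by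
      rw [MvPolynomial.smul_eq_C_mul, map_mul, MvPolynomial.smul_eq_C_mul]
      simp [toK]
    rw [h1, map_smul, MvPolynomial.smul_eval, hf.2 i hi, mul_zero]⟩

/-- obstruction index: the least degree of a nonzero polynomial over `k` vanishing at `g` -/
noncomputable def om (k : Type) {K : Type} [Field k] [Field K] [Algebra k K] {n : ℕ}
    (g : Fin n → K) : ℕ :=
  sInf {b | 1 ≤ b ∧ ∃ A ∈ V k n b, A ≠ 0 ∧ ev (RingHom.id k) 1 g A = 0}

/-- the conjugate orbit `s(m)` in an algebraically closed field `Ω ⊇ k` (`ι : k → Ω`) -/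
def sm {Ω : Type} [Field Ω] (ι : k →+* Ω) (Z : BMF.Cyc M k) (g : Fin n → K) (m : ℕ) :
    Set (Fin n → Ω) :=
  {z | ∃ τ : K →+* Ω, (∀ x, τ (algebraMap k K (Z.fr m x)) = ι x) ∧ z = fun i => τ (g i) ^ m}

/-- products of one element from each set of a list -/
def MM (P : ℕ → Finset ℕ) : ℕ → Set ℕ
  | 0 => {1}
  | i + 1 => {m | ∃ m' ∈ MM P i, ∃ q ∈ P (i + 1), m = m' * q}

end dat

/-- `U_n`: DR_PROOF.md, section 0 -/
def Un (n : ℕ) : Prop :=
  ∀ η : ℝ, 0 < η → ∃ c : ℝ, 0 < c ∧ ∀ (M : ℕ) (k K : Type) [Field k] [NumberField k] [Field K]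
    [NumberField K] [Algebra k K] (_ : BMF.Cyc M k) (g : Fin n → K), (∀ i, g i ≠ 0) → MInd g →
    ∀ (b : ℕ) (A : MvPolynomial (Fin n) k), 1 ≤ b → A ∈ V k n b → A ≠ 0 →
      ev (RingHom.id k) 1 g A = 0 →
      ∀ h : ℝ, (∀ i, BMF.ht (g i) ≤ h) → c * (Module.finrank ℚ K : ℝ) ^ (-η) ≤ b * h

end DR
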