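import Pool.Agent.Lib.MP_a325a5_ag.DR.ADef

/-! n-variable version of F/A2: binomial derivatives and orders of vanishing. -/

open NumberField MvPolynomial

namespace DR

variable {k : Type} [Field k] {n : ℕ}

theorem AR1_hd_monomial (i : Fin n → ℕ) (v : Fin n →₀ ℕ) (c : k) :
    hd i (monomial v c) = monomial v (c * ∏ j, (((v j).choose (i j) : ℕ) : k)) := by
  have h1 : (monomial v c : MvPolynomial (Fin n) k) = c • (MvPolynomial.basisMonomials (Fin n) k) v := by
    rw [MvPolynomial.coe_basisMonomials, MvPolynomial.smul_monomial, smul_eq_mul, mul_one]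
  unfold hd
  rw [h1, map_smul, Module.Basis.constr_basis, MvPolynomial.smul_monomial, smul_eq_mul]

theorem coeff_hd (i : Fin n → ℕ) (f : MvPolynomial (Fin n) k) (m : Fin n →₀ ℕ) :
    coeff m (hd i f) = coeff m f * ∏ j, ((m j).choose (i j) : k) := by
  classical
  induction f using MvPolynomial.induction_on' with
  | monomial v c =>
    rw [AR1_hd_monomial, coeff_monomial, coeff_monomial]
    split_ifs with h
    · rw [h]
    · rw [zero_mul]
  | add p q hp hq =>
    rw [map_add, coeff_add, coeff_add, hp, hq, add_mul]

theorem AR1_choose (m n i : ℕ) : (((m + n).choose i : ℕ) : k) =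
    ∑ a ∈ Finset.range (i + 1), ((m.choose a : ℕ) : k) * ((n.choose (i - a) : ℕ) : k) := by
  rw [Nat.add_choose_eq, Finset.Nat.sum_antidiagonal_eq_sum_range_succ
    (fun a b => m.choose a * n.choose b)]
  push_cast
  rfl

/-- Leibniz rule -/
theorem AR1_hd_mul (i : Fin n → ℕ) (f h : MvPolynomial (Fin n) k) :
    hd i (f * h) = ∑ a ∈ Fintype.piFinset (fun j => Finset.range (i j + 1)),
      hd a f * hd (fun j => i j - a j) h := by
  classical
  induction f using MvPolynomial.induction_on' with
  | monomial v c =>
    induction h using MvPolynomial.induction_on' with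
    | monomial v' c' =>
      rw [monomial_mul, AR1_hd_monomial]
      have h1 : ∀ a : Fin n → ℕ, hd a (monomial v c : MvPolynomial (Fin n) k) *
          hd (fun j => i j - a j) (monomial v' c' : MvPolynomial (Fin n) k) =
          monomial (v + v') ((c * c') * ∏ j, ((((v j).choose (a j) : ℕ) : k) *
            (((v' j).choose (i j - a j) : ℕ) : k))) := by
        intro a
        rw [AR1_hd_monomial, AR1_hd_monomial, monomial_mul, Finset.prod_mul_distrib]
        congr 1
        ring
      simp only [h1]
      have h2 := Finset.prod_univ_sum (fun j => Finset.range (i j + 1))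
        (fun j a => (((v j).choose a : ℕ) : k) * (((v' j).choose (i j - a) : ℕ) : k))
      rw [← map_sum, ← Finset.mul_sum, ← h2]
      congr 2
      refine Finset.prod_congr rfl fun j _ => ?_
      rw [Finsupp.add_apply, AR1_choose]
    | add p q hp hq =>
      rw [mul_add, map_add, hp, hq, ← Finset.sum_add_distrib]
      refine Finset.sum_congr rfl fun a _ => ?_
      rw [map_add, mul_add]
  | add p q hp hq =>
    rw [add_mul, map_add, hp, hq, ← Finset.sum_add_distrib]
    refine Finset.sum_congr rfl fun a _ => ?_
    rw [map_add, add_mul]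

theorem van_one_iff (f : MvPolynomial (Fin n) k) (z : Fin n → k) : van 1 f z ↔ eval z f = 0 := by
  have h0 : hd (fun _ => 0) f = f := by
    ext m
    rw [coeff_hd]
    simp
  constructor
  · intro h
    have := h (fun _ => 0) (by simp)
    rwa [h0] at this
  · intro h i hi
    have hi0 : i = fun _ => 0 := by
      funext j
      have h1 : i j ≤ ∑ j, i j := Finset.single_le_sum (fun _ _ => Nat.zero_le _)
        (Finset.mem_univ j)
      change i j = 0
      omega
    rw [hi0, h0, h]

theorem van_mul {s t : ℕ} {f h : MvPolynomial (Fin n) k} {z : Fin n → k} (hf : van s f z) (hh : van t h z) :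
    van (s + t) (f * h) z := by
  classical
  intro i hi
  rw [AR1_hd_mul, map_sum]
  refine Finset.sum_eq_zero fun a ha => ?_
  rw [map_mul]
  rw [Fintype.mem_piFinset] at ha
  have ha' : ∀ j, a j ≤ i j := fun j => Nat.lt_succ_iff.1 (Finset.mem_range.1 (ha j))
  by_cases hab : ∑ j, a j < s
  · rw [hf a hab, zero_mul]
  · have h1 : ∑ j, (i j - a j) + ∑ j, a j = ∑ j, i j := by
      rw [← Finset.sum_add_distrib]
      exact Finset.sum_congr rfl fun j _ => Nat.sub_add_cancel (ha' j)
    rw [hh (fun j => i j - a j) (by omega), mul_zero]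

theorem van_mono {s t : ℕ} (hst : s ≤ t) {f : MvPolynomial (Fin n) k} {z : Fin n → k} (hf : van t f z) :
    van s f z := fun i hi => hf i (hi.trans_le hst)

theorem van_pow (T : ℕ) {f : MvPolynomial (Fin n) k} {z : Fin n → k} (hf : eval z f = 0) : van T (f ^ T) z := by
  induction T with
  | zero =>
    intro i hi
    exact absurd hi (Nat.not_lt_zero _)
  | succ T ih =>
    rw [pow_succ]
    exact van_mul ih ((van_one_iff f z).mpr hf)

end DR
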