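import Pool.Agent.Lib.MP_a325a5_ag.DR.H1a

/-! Basic facts on the Hilbert function `H` (images of `V` in quotients). `H_inf_le`: the image of `V` in the quotient by the intersection embeds into the product of the quotients. -/

open MvPolynomial

namespace DR

variable {Ω : Type} [Field Ω] {n : ℕ}

/-- the ideal as a subspace -/
noncomputable abbrev H1b_sub (I : Ideal (MvPolynomial (Fin n) Ω)) : Submodule Ω (MvPolynomial (Fin n) Ω) :=
  I.restrictScalars Ω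

theorem H1b_ker (I : Ideal (MvPolynomial (Fin n) Ω)) :
    LinearMap.ker (Ideal.Quotient.mkₐ Ω I).toLinearMap = H1b_sub I := by
  ext f
  rw [LinearMap.mem_ker, Submodule.restrictScalars_mem]
  exact Ideal.Quotient.eq_zero_iff_mem

/-- dimension formula -/
theorem H1b_add (I : Ideal (MvPolynomial (Fin n) Ω)) (ν : ℕ) :
    H I ν + Module.finrank Ω ↥(V Ω n ν ⊓ H1b_sub I) = (ν + 1) ^ n := by
  have h := LinearMap.finrank_range_add_finrank_ker
    ((Ideal.Quotient.mkₐ Ω I).toLinearMap.domRestrict (V Ω n ν))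
  rw [LinearMap.range_domRestrict, LinearMap.ker_domRestrict, H1b_ker, finrank_V] at h
  rw [H, ← h]
  congr 1
  rw [← Submodule.map_comap_subtype]
  exact Submodule.finrank_map_subtype_eq _ _

instance H1b_fin (I : Ideal (MvPolynomial (Fin n) Ω)) (ν : ℕ) :
    Module.Finite Ω ↥(V Ω n ν ⊓ H1b_sub I) :=
  Submodule.finiteDimensional_of_le (S₂ := V Ω n ν) inf_le_left

theorem H_mono (I : Ideal (MvPolynomial (Fin n) Ω)) {μ ν : ℕ} (h : μ ≤ ν) : H I μ ≤ H I ν := by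
  have h1 : V Ω n μ ≤ V Ω n ν := fun f hf => V_mono h hf
  exact Submodule.finrank_mono (Submodule.map_mono h1)

theorem H_anti {I J : Ideal (MvPolynomial (Fin n) Ω)} (h : I ≤ J) (ν : ℕ) : H J ν ≤ H I ν := by
  have h1 := H1b_add I ν
  have h2 := H1b_add J ν
  have h3 : Module.finrank Ω ↥(V Ω n ν ⊓ H1b_sub I) ≤ Module.finrank Ω ↥(V Ω n ν ⊓ H1b_sub J) :=
    Submodule.finrank_mono (inf_le_inf_left _ fun f hf => h hf)
  omega

theorem H_bot (ν : ℕ) : H (⊥ : Ideal (MvPolynomial (Fin n) Ω)) ν = (ν + 1) ^ n := by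
  have h1 := H1b_add (⊥ : Ideal (MvPolynomial (Fin n) Ω)) ν
  have h2 : V Ω n ν ⊓ H1b_sub (⊥ : Ideal (MvPolynomial (Fin n) Ω)) = ⊥ := by
    rw [eq_bot_iff]
    rintro f ⟨_, hf⟩
    exact hf
  rw [h2, finrank_bot, add_zero] at h1
  exact h1

theorem exists_mem (I : Ideal (MvPolynomial (Fin n) Ω)) (ν : ℕ) (h : H I ν < (ν + 1) ^ n) :
    ∃ F ∈ V Ω n ν, F ≠ 0 ∧ F ∈ I := by
  have h1 := H1b_add I ν
  have h2 : V Ω n ν ⊓ H1b_sub I ≠ ⊥ := by
    intro h3
    rw [h3, finrank_bot, add_zero] at h1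
    exact absurd h1 h.ne
  obtain ⟨F, hF, h0⟩ := Submodule.exists_mem_ne_zero_of_ne_bot h2
  exact ⟨F, hF.1, h0, hF.2⟩

theorem H1b_inf (I J : Ideal (MvPolynomial (Fin n) Ω)) (ν : ℕ) :
    H (I ⊓ J) ν ≤ H I ν + H J ν := by
  have h1 := H1b_add I ν
  have h2 := H1b_add J ν
  have h3 := H1b_add (I ⊓ J) ν
  have h4 := Submodule.finrank_sup_add_finrank_inf_eq (V Ω n ν ⊓ H1b_sub I)
    (V Ω n ν ⊓ H1b_sub J)
  have h5 : (V Ω n ν ⊓ H1b_sub I) ⊓ (V Ω n ν ⊓ H1b_sub J) = V Ω n ν ⊓ H1b_sub (I ⊓ J) := by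
    ext f
    constructor
    · rintro ⟨⟨a, b⟩, _, c⟩
      exact ⟨a, b, c⟩
    · rintro ⟨a, b, c⟩
      exact ⟨⟨a, b⟩, a, c⟩
  have h6 : Module.finrank Ω ↥((V Ω n ν ⊓ H1b_sub I) ⊔ (V Ω n ν ⊓ H1b_sub J)) ≤
      Module.finrank Ω (V Ω n ν) :=
    Submodule.finrank_mono (sup_le inf_le_left inf_le_left)
  rw [finrank_V] at h6
  rw [h5] at h4
  omega

theorem H_inf_le (s : Finset (Ideal (MvPolynomial (Fin n) Ω))) (ν : ℕ) :
    H (s.inf id) ν ≤ ∑ P ∈ s, H P ν := by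
  classical
  induction s using Finset.induction_on with
  | empty =>
    rw [Finset.inf_empty, Finset.sum_empty]
    have h1 := H1b_add (⊤ : Ideal (MvPolynomial (Fin n) Ω)) ν
    have h2 : V Ω n ν ⊓ H1b_sub (⊤ : Ideal (MvPolynomial (Fin n) Ω)) = V Ω n ν := by
      ext f
      exact ⟨fun h => h.1, fun h => ⟨h, trivial⟩⟩
    rw [h2, finrank_V] at h1
    omega
  | insert P s hP ih =>
    rw [Finset.inf_insert, Finset.sum_insert hP]
    exact (H1b_inf _ _ ν).trans (Nat.add_le_add_left ih _)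

end DR
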