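import Pool.Agent.Lib.MP_a325a5_ag.DR.AR1
import Pool.Agent.Lib.MP_a325a5_ag.DR.H1b

/-! 7.1: codimension of vanSub (as F/B6 vanSub_dim) and existence of a small polynomial (F/B6 b6_exists). -/

open NumberField MvPolynomial

namespace DR

variable {M : ℕ} {k K : Type} [Field k] [NumberField k] [Field K] [NumberField K] [Algebra k K]
  {n : ℕ}

omit [NumberField k] [NumberField K] in
theorem AR2_eval (g : Fin n → K) (f : MvPolynomial (Fin n) k) :
    ev (RingHom.id k) 1 g f = eval g (toK K (RingHom.id k) f) := by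
  unfold ev toK
  rw [eval_map]
  simp only [pow_one, RingHom.comp_id, coe_eval₂Hom]

omit [NumberField k] [NumberField K] in
theorem AR2_aeval (g : Fin n → K) (f : MvPolynomial (Fin n) k) :
    ev (RingHom.id k) 1 g f = aeval g f := by
  unfold ev
  simp only [pow_one, RingHom.comp_id, coe_eval₂Hom]
  rfl

omit [NumberField k] [NumberField K] in
theorem AR2_le (T L : ℕ) (g : Fin n → K) : vanSub k T L g ≤ V k n L :=
  fun _ hG => hG.1

instance AR2_fin (T L : ℕ) (g : Fin n → K) : Module.Finite k (vanSub k T L g) :=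
  Submodule.finiteDimensional_of_le (AR2_le T L g)

omit [NumberField k] [NumberField K] in
theorem AR2_mem (T L b : ℕ) (g : Fin n → K) {A : MvPolynomial (Fin n) k}
    (hAb : A ∈ V k n b) (hAg : ev (RingHom.id k) 1 g A = 0) (hL : T * b ≤ L)
    {G : MvPolynomial (Fin n) k} (hG : G ∈ V k n (L - T * b)) : A ^ T * G ∈ vanSub k T L g := by
  refine ⟨fun i => ?_, ?_⟩
  · have h1 := degreeOf_mul_le i (A ^ T) G
    have h2 := degreeOf_pow_le i A T
    have h3 : G.degreeOf i ≤ L - T * b := hG i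
    have h4 : T * A.degreeOf i ≤ T * b := Nat.mul_le_mul_left _ (hAb i)
    omega
  · rw [map_mul, map_pow]
    have h1 : van T ((toK K (RingHom.id k) A) ^ T) g := van_pow T (by rw [← AR2_eval, hAg])
    have h2 : van 0 (toK K (RingHom.id k) G) g := fun i hi => absurd hi (Nat.not_lt_zero _)
    exact van_mul h1 h2

theorem AR2_pow (x c n : ℕ) : (x + c) ^ n ≤ x ^ n + n * c * (x + c) ^ (n - 1) := by
  induction n with
  | zero => simp
  | succ n ih =>
    rw [Nat.add_sub_cancel]
    rcases Nat.eq_zero_or_pos n with h0 | h0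
    · subst h0
      simp
    · have h1 : (x + c) * (x + c) ^ (n - 1) = (x + c) ^ n := by
        rw [← pow_succ', Nat.sub_add_cancel h0]
      calc (x + c) ^ (n + 1) = x * (x + c) ^ n + c * (x + c) ^ n := by ring
        _ ≤ x * (x ^ n + n * c * (x + c) ^ (n - 1)) + c * (x + c) ^ n :=
            Nat.add_le_add_right (Nat.mul_le_mul_left _ ih) _
        _ = x ^ (n + 1) + n * c * (x * (x + c) ^ (n - 1)) + c * (x + c) ^ n := by ring
        _ ≤ x ^ (n + 1) + n * c * ((x + c) * (x + c) ^ (n - 1)) + c * (x + c) ^ n := by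
            gcongr
            exact Nat.le_add_right _ _
        _ = x ^ (n + 1) + (n + 1) * c * (x + c) ^ n := by rw [h1]; ring

theorem vanSub_dim (T L b : ℕ) (g : Fin n → K) (hn : 1 ≤ n) (hL : T * b ≤ L)
    {A : MvPolynomial (Fin n) k} (hA : A ≠ 0) (hAb : A ∈ V k n b)
    (hAg : ev (RingHom.id k) 1 g A = 0) :
    (L + 1) ^ n ≤ Module.finrank k (vanSub k T L g) + n * T * b * (L + 1) ^ (n - 1) := by
  let φ : V k n (L - T * b) →ₗ[k] vanSub k T L g :=
    { toFun := fun G => ⟨A ^ T * G.1, AR2_mem T L b g hAb hAg hL G.2⟩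
      map_add' := fun x y => Subtype.ext (mul_add _ _ _)
      map_smul' := fun c x => Subtype.ext (mul_smul_comm _ _ _) }
  have hφ : Function.Injective φ := by
    intro x y hxy
    have h1 : A ^ T * x.1 = A ^ T * y.1 := congrArg Subtype.val hxy
    exact Subtype.ext (mul_left_cancel₀ (pow_ne_zero T hA) h1)
  have h1 := LinearMap.finrank_le_finrank_of_injective hφ
  rw [finrank_V] at h1
  have h2 := AR2_pow (L - T * b + 1) (T * b) n
  have h3 : L - T * b + 1 + T * b = L + 1 := by omega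
  rw [h3] at h2
  calc (L + 1) ^ n ≤ _ := h2
    _ ≤ Module.finrank k (vanSub k T L g) + n * (T * b) * (L + 1) ^ (n - 1) :=
        Nat.add_le_add_right h1 _
    _ = _ := by rw [← mul_assoc n T b]

theorem exists_of_dg_lt (g : Fin n → K) (a : ℕ) (h : dg k g 1 < (a + 1) ^ n) :
    ∃ A ∈ V k n a, A ≠ 0 ∧ ev (RingHom.id k) 1 g A = 0 := by
  let u : Fin n → IntermediateField.adjoin k (Set.range fun i => g i ^ 1) :=
    fun i => ⟨g i ^ 1, IntermediateField.subset_adjoin k _ ⟨i, rfl⟩⟩
  let ψ : MvPolynomial (Fin n) k →ₐ[k]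
    IntermediateField.adjoin k (Set.range fun i => g i ^ 1) := aeval u
  have hψ : ∀ f : MvPolynomial (Fin n) k,
      ((ψ f : IntermediateField.adjoin k (Set.range fun i => g i ^ 1)) : K) =
        ev (RingHom.id k) 1 g f := by
    intro f
    rw [AR2_aeval]
    have h1 : (IntermediateField.val _).comp ψ = (aeval g : MvPolynomial (Fin n) k →ₐ[k] K) := by
      refine MvPolynomial.algHom_ext fun i => ?_
      simp [ψ, u]
    exact congrArg (fun F : MvPolynomial (Fin n) k →ₐ[k] K => F f) h1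
  have h1 : Module.finrank k (IntermediateField.adjoin k (Set.range fun i => g i ^ 1)) <
      Module.finrank k (V k n a) := by
    rw [finrank_V]
    exact h
  have h2 := LinearMap.ker_ne_bot_of_finrank_lt (f := ψ.toLinearMap.comp (V k n a).subtype) h1
  obtain ⟨x, hx, hx0⟩ := Submodule.exists_mem_ne_zero_of_ne_bot h2
  refine ⟨x.1, x.2, fun h3 => hx0 (Subtype.ext h3), ?_⟩
  rw [← hψ]
  have h3 : ψ x.1 = 0 := hx
  rw [h3]
  rfl

omit [NumberField k] [NumberField K] in
theorem AR2_const {A : MvPolynomial (Fin n) k} (hA : A ∈ V k n 0) : A = C (coeff 0 A) := by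
  classical
  ext m
  rw [coeff_C]
  split_ifs with h
  · rw [h]
  · by_contra h1
    apply h
    have h2 : m ∈ A.support := mem_support_iff.mpr h1
    ext i
    have h3 := (monomial_le_degreeOf i h2).trans (hA i)
    rw [Finsupp.zero_apply]
    omega

/-- facts about the obstruction index -/
theorem om_spec (g : Fin n → K) (hn : 1 ≤ n) : 1 ≤ om k g ∧
    ∃ A ∈ V k n (om k g), A ≠ 0 ∧ ev (RingHom.id k) 1 g A = 0 := by
  have hne : {b | 1 ≤ b ∧ ∃ A ∈ V k n b, A ≠ 0 ∧ ev (RingHom.id k) 1 g A = 0}.Nonempty := by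
    obtain ⟨A, hA, hA0, hAg⟩ := exists_of_dg_lt (k := k) g (dg k g 1) (by
      calc dg k g 1 < dg k g 1 + 1 := Nat.lt_succ_self _
        _ ≤ (dg k g 1 + 1) ^ n := Nat.le_self_pow (by omega) _)
    exact ⟨dg k g 1 + 1, Nat.le_add_left _ _, A, V_mono (Nat.le_succ _) hA, hA0, hAg⟩
  exact Nat.sInf_mem hne

theorem om_le (g : Fin n → K) {b : ℕ} (hb : 1 ≤ b) {A : MvPolynomial (Fin n) k} (hA : A ∈ V k n b)
    (hA0 : A ≠ 0) (hAg : ev (RingHom.id k) 1 g A = 0) : om k g ≤ b :=
  Nat.sInf_le ⟨hb, A, hA, hA0, hAg⟩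

theorem om_pow_le (g : Fin n → K) (hn : 1 ≤ n) : om k g ^ n ≤ dg k g 1 := by
  by_contra hlt
  push Not at hlt
  obtain ⟨h1, -⟩ := om_spec (k := k) g hn
  obtain ⟨A, hA, hA0, hAg⟩ := exists_of_dg_lt (k := k) g (om k g - 1) (by
    rwa [Nat.sub_add_cancel h1])
  rcases Nat.eq_zero_or_pos (om k g - 1) with h0 | h0
  · rw [h0] at hA
    have h2 := AR2_const hA
    rw [h2, AR2_aeval, aeval_C] at hAg
    have h3 : coeff 0 A = 0 := (map_eq_zero _).mp hAg
    rw [h3, map_zero] at h2
    exact hA0 h2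
  · have h2 := om_le g h0 hA hA0 hAg
    omega

end DR
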