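import Pool.Agent.Lib.MP_a325a5_ag.DR.AR2
import Pool.Agent.Lib.MP_a325a5_ag.F.B3
import Pool.Agent.Lib.MP_a325a5_ag.F.B4

/-! 7.2: the box principle (n-variable version of F/B5 box_family; only one polynomial is needed). -/

open NumberField MvPolynomial
open BMF (Cyc Pl av lg ht FS tot fs_ht fs_lg tot_mono tot_add tot_lg tot_inf_const tot_const_mul
  av_pos av_inl av_inr real_rank_le box_abs)

namespace DR

section aux

variable {d M : ℕ} {k K : Type} [Field k] [NumberField k] [Field K] [NumberField K] [Algebra k K]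

private theorem AR3_cyc (Z : Cyc M k) : IsCyclotomicExtension {M} ℚ k := by
  have : NeZero M := ⟨Z.pos.ne'⟩
  have h := Z.prim.intermediateField_adjoin_isCyclotomicExtension ℚ
  rw [Z.gen] at h
  have h' : IsCyclotomicExtension {M} ℚ (⊤ : IntermediateField ℚ k) := h
  exact IsCyclotomicExtension.equiv {M} ℚ (⊤ : IntermediateField ℚ k) IntermediateField.topEquiv

private theorem AR3_basis (Z : Cyc M k) :
    ∃ b : Module.Basis (Fin M.totient) ℚ k, ∀ l, b l = Z.ζ ^ (l : ℕ) := by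
  have : NeZero M := ⟨Z.pos.ne'⟩
  have := AR3_cyc Z
  have h1 : Module.finrank ℚ k = M.totient :=
    IsCyclotomicExtension.finrank k (Polynomial.cyclotomic.irreducible_rat Z.pos)
  have h2 : (Z.prim.powerBasis ℚ).dim = M.totient := by
    rw [← h1, PowerBasis.finrank (Z.prim.powerBasis ℚ)]
  refine ⟨(Z.prim.powerBasis ℚ).basis.reindex (finCongr h2), fun l => ?_⟩
  rw [Module.Basis.reindex_apply, PowerBasis.basis_eq_pow, IsPrimitiveRoot.powerBasis_gen]
  rfl

/-- exponent vector -/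
private noncomputable def AR3mn (L : ℕ) (q : Fin d → Fin (L + 1)) : Fin d →₀ ℕ :=
  Finsupp.equivFunOnFinite.symm fun j => (q j : ℕ)

private theorem AR3mn_apply (L : ℕ) (q : Fin d → Fin (L + 1)) (j : Fin d) :
    AR3mn L q j = q j := rfl

private theorem AR3mn_inj (L : ℕ) : Function.Injective (AR3mn (d := d) L) := by
  intro q q' h
  funext j
  apply Fin.ext
  rw [← AR3mn_apply, ← AR3mn_apply, h]

private theorem AR3mn_surj (L : ℕ) {m : Fin d →₀ ℕ} (h : ∀ j, m j ≤ L) :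
    ∃ q, AR3mn L q = m := by
  refine ⟨fun j => ⟨m j, Nat.lt_succ_of_le (h j)⟩, ?_⟩
  ext j
  rfl

/-- the polynomial with given coordinates -/
private noncomputable def AR3P {n : ℕ} (b : Module.Basis (Fin n) ℚ k) (L : ℕ) :
    (Fin n × (Fin d → Fin (L + 1)) → ℚ) →ₗ[ℚ] MvPolynomial (Fin d) k where
  toFun F := ∑ q, monomial (AR3mn L q) (∑ l, F (l, q) • b l)
  map_add' F F' := by
    rw [← Finset.sum_add_distrib]
    refine Finset.sum_congr rfl (fun q _ => ?_)
    rw [← map_add, ← Finset.sum_add_distrib]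
    congr 1
    refine Finset.sum_congr rfl (fun l _ => ?_)
    rw [Pi.add_apply, add_smul]
  map_smul' c F := by
    rw [RingHom.id_apply, Finset.smul_sum]
    refine Finset.sum_congr rfl (fun q _ => ?_)
    rw [smul_monomial, Finset.smul_sum]
    congr 1
    refine Finset.sum_congr rfl (fun l _ => ?_)
    rw [Pi.smul_apply, smul_eq_mul, mul_smul]

private theorem AR3P_coeff {n : ℕ} (b : Module.Basis (Fin n) ℚ k) (L : ℕ)
    (F : Fin n × (Fin d → Fin (L + 1)) → ℚ) (q : Fin d → Fin (L + 1)) :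
    coeff (AR3mn L q) (AR3P b L F) = ∑ l, F (l, q) • b l := by
  classical
  show coeff (AR3mn L q) (∑ q, monomial (AR3mn L q) (∑ l, F (l, q) • b l)) = _
  rw [coeff_sum, Finset.sum_eq_single q]
  · rw [coeff_monomial, if_pos rfl]
  · intro q' _ hq'
    rw [coeff_monomial, if_neg (fun h => hq' (AR3mn_inj L h))]
  · intro h
    exact absurd (Finset.mem_univ _) h

private theorem AR3P_coeff' {n : ℕ} (b : Module.Basis (Fin n) ℚ k) (L : ℕ)
    (F : Fin n × (Fin d → Fin (L + 1)) → ℚ) (m : Fin d →₀ ℕ) (hm : ∀ q, AR3mn L q ≠ m) :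
    coeff m (AR3P b L F) = 0 := by
  classical
  show coeff m (∑ q, monomial (AR3mn L q) (∑ l, F (l, q) • b l)) = _
  rw [coeff_sum]
  refine Finset.sum_eq_zero (fun q _ => ?_)
  rw [coeff_monomial, if_neg (hm q)]

private theorem AR3P_mem {n : ℕ} (b : Module.Basis (Fin n) ℚ k) (L : ℕ)
    (F : Fin n × (Fin d → Fin (L + 1)) → ℚ) : AR3P b L F ∈ V k d L := by
  intro i
  refine degreeOf_le_iff.2 (fun m hm => ?_)
  by_cases h : ∃ q, AR3mn L q = m
  · obtain ⟨q, rfl⟩ := h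
    exact Nat.lt_succ_iff.1 (q i).2
  · exact absurd (AR3P_coeff' b L F m (fun q hq => h ⟨q, hq⟩)) (mem_support_iff.1 hm)

/-- the coordinates of a polynomial -/
private noncomputable def AR3Q {n : ℕ} (b : Module.Basis (Fin n) ℚ k) (L : ℕ) :
    MvPolynomial (Fin d) k →ₗ[ℚ] (Fin n × (Fin d → Fin (L + 1)) → ℚ) where
  toFun G j := b.repr (coeff (AR3mn L j.2) G) j.1
  map_add' G G' := by
    funext j
    rw [coeff_add, map_add]
    rfl
  map_smul' c G := by
    funext j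
    rw [coeff_smul, map_smul]
    rfl

private theorem AR3QP {n : ℕ} (b : Module.Basis (Fin n) ℚ k) (L : ℕ)
    (F : Fin n × (Fin d → Fin (L + 1)) → ℚ) : AR3Q b L (AR3P b L F) = F := by
  funext j
  show b.repr (coeff (AR3mn L j.2) (AR3P b L F)) j.1 = F j
  rw [AR3P_coeff, Module.Basis.repr_sum_self]

private theorem AR3PQ {n : ℕ} (b : Module.Basis (Fin n) ℚ k) (L : ℕ) {G : MvPolynomial (Fin d) k}
    (hG : G ∈ V k d L) : AR3P b L (AR3Q b L G) = G := by
  ext m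
  by_cases h : ∃ q, AR3mn L q = m
  · obtain ⟨q, rfl⟩ := h
    rw [AR3P_coeff]
    exact b.sum_repr (coeff (AR3mn L q) G)
  · rw [AR3P_coeff' b L _ m (fun q hq => h ⟨q, hq⟩)]
    by_contra h0
    refine h (AR3mn_surj L (fun j => ?_))
    exact degreeOf_le_iff.1 (hG j) m (mem_support_iff.2 (fun h1 => h0 h1.symm))

/-- values of the derivatives -/
private noncomputable def AR3E (g : Fin d → K) (i : Fin d → ℕ) : MvPolynomial (Fin d) k →ₗ[ℚ] K :=
  AddMonoidHom.toRatLinearMap ((eval g).toAddMonoidHom.comp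
    ((hd i).toAddMonoidHom.comp (toK K (RingHom.id k)).toAddMonoidHom))

private theorem AR3E_apply (g : Fin d → K) (i : Fin d → ℕ) (G : MvPolynomial (Fin d) k) :
    AR3E g i G = eval g (hd i (toK K (RingHom.id k) G)) := rfl

private noncomputable def AR3v {n : ℕ} (b : Module.Basis (Fin n) ℚ k) (L : ℕ)
    (g : Fin d → K) (i : Fin d → ℕ) (j : Fin n × (Fin d → Fin (L + 1))) : K :=
  algebraMap k K (b j.1) * (∏ t, (((j.2 t : ℕ).choose (i t) : ℕ) : K)) *
    ∏ t, g t ^ (j.2 t : ℕ)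

private theorem AR3E_mono (g : Fin d → K) (i : Fin d → ℕ) (m : Fin d →₀ ℕ) (c : k) :
    AR3E g i (monomial m c) = algebraMap k K c * (∏ t, (((m t).choose (i t) : ℕ) : K)) *
      ∏ t, g t ^ m t := by
  classical
  have h : hd i (toK K (RingHom.id k) (monomial m c)) = monomial m (algebraMap k K c *
      ∏ t, (((m t).choose (i t) : ℕ) : K)) := by
    ext m'
    rw [coeff_hd, toK, coeff_map, coeff_monomial, coeff_monomial]
    by_cases hm : m = m'
    · subst hm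
      rw [if_pos rfl, if_pos rfl, RingHom.comp_apply, RingHom.id_apply]
    · rw [if_neg hm, if_neg hm, map_zero, zero_mul]
  rw [AR3E_apply, h, eval_monomial, Finsupp.prod_fintype _ _ (fun j => pow_zero _)]

private theorem AR3E_P {n : ℕ} (b : Module.Basis (Fin n) ℚ k) (L : ℕ)
    (g : Fin d → K) (i : Fin d → ℕ) (F : Fin n × (Fin d → Fin (L + 1)) → ℚ) :
    AR3E g i (AR3P b L F) = ∑ j, F j • AR3v b L g i j := by
  have h0 : ∀ q, AR3E g i (monomial (AR3mn L q) (∑ l, F (l, q) • b l)) =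
      ∑ l, F (l, q) • AR3v b L g i (l, q) := by
    intro q
    rw [AR3E_mono, map_sum, Finset.sum_mul, Finset.sum_mul]
    refine Finset.sum_congr rfl (fun l _ => ?_)
    have h1 : algebraMap k K (F (l, q) • b l) = F (l, q) • algebraMap k K (b l) := by
      rw [Rat.smul_def, Rat.smul_def, map_mul, map_ratCast]
    rw [AR3v, h1]
    simp only [smul_mul_assoc]
    rfl
  calc AR3E g i (AR3P b L F) = ∑ q, AR3E g i (monomial (AR3mn L q) (∑ l, F (l, q) • b l)) :=
        map_sum (AR3E g i) (fun q => monomial (AR3mn L q) (∑ l, F (l, q) • b l)) Finset.univ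
    _ = ∑ q, ∑ l, F (l, q) • AR3v b L g i (l, q) := Finset.sum_congr rfl (fun q _ => h0 q)
    _ = ∑ j, F j • AR3v b L g i j :=
        (Fintype.sum_prod_type_right (fun j => F j • AR3v b L g i j)).symm


private theorem AR3_le_one (w : FinitePlace K) {x : K} (hx : IsIntegral ℤ x) : w x ≤ 1 := by
  have h := FinitePlace.norm_le_one K w.maximalIdeal (⟨x, hx⟩ : 𝓞 K)
  rwa [FinitePlace.norm_embedding_eq] at h

omit [NumberField K] in
private theorem AR3_nat (n : ℕ) : IsIntegral ℤ (n : K) := by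
  have h := isIntegral_algebraMap (R := ℤ) (A := K) (x := (n : ℤ))
  simpa using h

private theorem AR3_log_max {a : ℝ} (ha : 0 ≤ a) : Real.log (max 1 a) = max (Real.log a) 0 := by
  rcases le_total a 1 with h | h
  · rw [max_eq_left h, Real.log_one, max_eq_right (Real.log_nonpos ha h)]
  · rw [max_eq_right h, max_eq_left (Real.log_nonneg h)]

private theorem AR3_mono {a : ℝ} (ha : 0 ≤ a) {m L : ℕ} (h : m ≤ L) :
    a ^ m ≤ max 1 a ^ L :=
  (pow_le_pow_left₀ ha (le_max_right _ _) m).trans (pow_le_pow_right₀ (le_max_left _ _) h)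

private theorem AR3_fin {L : ℕ} {G : MvPolynomial (Fin d) k} (hGL : G ∈ V k d L)
    (hG : ∀ m, IsIntegral ℤ (coeff m G)) (g : Fin d → K) (i : Fin d → ℕ) (w : FinitePlace K) :
    w (AR3E g i G) ≤ ∏ t, max 1 (w (g t)) ^ L := by
  have hB : (0 : ℝ) ≤ ∏ t, max 1 (w (g t)) ^ L := Finset.prod_nonneg fun t _ => by positivity
  have hsum : ∀ (s : Finset (Fin d →₀ ℕ)) (f : (Fin d →₀ ℕ) → K),
      (∀ m ∈ s, w (f m) ≤ ∏ t, max 1 (w (g t)) ^ L) →
      w (∑ m ∈ s, f m) ≤ ∏ t, max 1 (w (g t)) ^ L := by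
    classical
    intro s f
    induction s using Finset.induction_on with
    | empty =>
      intro _
      rw [Finset.sum_empty, map_zero]
      exact hB
    | insert a s ha ih =>
      intro h
      rw [Finset.sum_insert ha]
      exact (FinitePlace.add_le w _ _).trans (max_le (h a (Finset.mem_insert_self _ _))
        (ih (fun m hm => h m (Finset.mem_insert_of_mem hm))))
  have hGs : AR3E g i G = ∑ m ∈ G.support, AR3E g i (monomial m (coeff m G)) := by
    conv_lhs => rw [G.as_sum]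
    rw [map_sum]
  rw [hGs]
  refine hsum _ _ (fun m hm => ?_)
  have h0 : ∀ t, m t ≤ L := fun t => degreeOf_le_iff.1 (hGL t) m hm
  have h2 : IsIntegral ℤ (algebraMap k K (coeff m G)) :=
    (hG m).map ((algebraMap k K).toIntAlgHom)
  have hint : IsIntegral ℤ (algebraMap k K (coeff m G) *
      ∏ t, (((m t).choose (i t) : ℕ) : K)) :=
    h2.mul (IsIntegral.prod _ fun t _ => AR3_nat (K := K) _)
  rw [AR3E_mono, map_mul]
  have e6 := AR3_le_one w hint
  have e7 : w (∏ t, g t ^ m t) ≤ ∏ t, max 1 (w (g t)) ^ L := by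
    rw [map_prod]
    refine Finset.prod_le_prod (fun t _ => apply_nonneg w _) fun t _ => ?_
    rw [map_pow]
    exact AR3_mono (apply_nonneg w (g t)) (h0 t)
  exact (mul_le_mul e6 e7 (apply_nonneg w _) zero_le_one).trans_eq (one_mul _)

private theorem AR3v_norm {n : ℕ} (b : Module.Basis (Fin n) ℚ k) (L : ℕ)
    (hbn : ∀ l (σ : k →+* ℂ), ‖σ (b l)‖ ≤ 1) {R : ℝ} (hR : 0 ≤ R) (hL : (L : ℝ) ≤ R)
    (g : Fin d → K) (i : Fin d → ℕ) (j : Fin n × (Fin d → Fin (L + 1)))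
    (σ : K →+* ℂ) :
    ‖σ (AR3v b L g i j)‖ ≤ R ^ (∑ t, i t) * ∏ t, max 1 ‖σ (g t)‖ ^ L := by
  have h0 : ∀ t, (j.2 t : ℕ) ≤ L := fun t => Nat.lt_succ_iff.1 (j.2 t).2
  have e1 : ‖σ (algebraMap k K (b j.1))‖ ≤ 1 := hbn j.1 (σ.comp (algebraMap k K))
  have e2 : ∀ t, ((((j.2 t : ℕ).choose (i t) : ℕ)) : ℝ) ≤ R ^ i t := by
    intro t
    have h2 : ((((j.2 t : ℕ).choose (i t) : ℕ)) : ℝ) ≤ (((j.2 t : ℕ)) : ℝ) ^ (i t) := by
      exact_mod_cast Nat.choose_le_pow _ _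
    refine h2.trans (pow_le_pow_left₀ (Nat.cast_nonneg _) ?_ _)
    exact le_trans (by exact_mod_cast h0 t) hL
  rw [AR3v]
  simp only [map_mul, map_prod, map_pow, norm_mul, norm_prod, norm_pow, map_natCast,
    Complex.norm_natCast]
  rw [← Finset.prod_pow_eq_pow_sum]
  refine mul_le_mul ?_ (Finset.prod_le_prod (fun t _ => by positivity) fun t _ =>
    AR3_mono (norm_nonneg (σ (g t))) (h0 t)) (Finset.prod_nonneg fun t _ => by positivity)
    (Finset.prod_nonneg fun t _ => pow_nonneg hR _)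
  calc ‖σ (algebraMap k K (b j.1))‖ * ∏ t, ((((j.2 t : ℕ).choose (i t) : ℕ)) : ℝ)
      ≤ 1 * ∏ t, R ^ i t :=
        mul_le_mul e1 (Finset.prod_le_prod (fun t _ => Nat.cast_nonneg _) fun t _ => e2 t)
          (Finset.prod_nonneg fun t _ => Nat.cast_nonneg _) zero_le_one
    _ = _ := one_mul _

/-- a complex functional of a real vector -/
private noncomputable def AR3U {N : ℕ} (u : Fin N → ℂ) : (Fin N → ℝ) →ₗ[ℝ] ℂ :=
  ∑ j, (LinearMap.proj j : (Fin N → ℝ) →ₗ[ℝ] ℝ).smulRight (u j)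

private theorem AR3U_apply {N : ℕ} (u : Fin N → ℂ) (F : Fin N → ℝ) :
    AR3U u F = ∑ j, ((F j : ℝ) : ℂ) * u j := by
  rw [AR3U, LinearMap.sum_apply]
  refine Finset.sum_congr rfl (fun j _ => ?_)
  rw [LinearMap.smulRight_apply, LinearMap.proj_apply, Complex.real_smul]

private theorem AR3U_norm {N : ℕ} (u : Fin N → ℂ) (hu : ∑ j, ‖u j‖ ≤ 1) (F : Fin N → ℝ) :
    ‖AR3U u F‖ ≤ ‖F‖ := by
  rw [AR3U_apply]
  calc ‖∑ j, ((F j : ℝ) : ℂ) * u j‖ ≤ ∑ j, ‖((F j : ℝ) : ℂ) * u j‖ := norm_sum_le _ _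
    _ ≤ ∑ j, ‖F‖ * ‖u j‖ := Finset.sum_le_sum (fun j _ => by
        rw [norm_mul, Complex.norm_real]
        exact mul_le_mul_of_nonneg_right (norm_le_pi_norm F j) (norm_nonneg _))
    _ = ‖F‖ * ∑ j, ‖u j‖ := by rw [Finset.mul_sum]
    _ ≤ ‖F‖ * 1 := mul_le_mul_of_nonneg_left hu (norm_nonneg _)
    _ = ‖F‖ := mul_one _

private noncomputable def AR3part (t : Bool) : ℂ →ₗ[ℝ] ℝ := cond t Complex.reLm Complex.imLm

private theorem AR3part_le (t : Bool) (z : ℂ) : |AR3part t z| ≤ ‖z‖ := by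
  cases t
  · exact Complex.abs_im_le_norm z
  · exact Complex.abs_re_le_norm z

private theorem AR3part_norm {z : ℂ} {c : ℝ} (h : ∀ t, |AR3part t z| ≤ c) : ‖z‖ ≤ 2 * c := by
  have h1 : |z.re| ≤ c := h true
  have h2 : |z.im| ≤ c := h false
  have h3 := Complex.norm_le_abs_re_add_abs_im z
  linarith

private theorem AR3_house {n : ℕ} (b : Module.Basis (Fin n) ℚ k) (hbi : ∀ l, IsIntegral ℤ (b l))
    (hbn : ∀ l (σ : k →+* ℂ), ‖σ (b l)‖ ≤ 1) (L : ℕ) (D : ℕ)
    (F : Fin n × (Fin d → Fin (L + 1)) → ℤ) (hF : ∀ j, |F j| ≤ (D : ℤ)) :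
    House ((n : ℝ) * D) (AR3P b L (fun j => (F j : ℚ))) := by
  intro m
  by_cases h : ∃ q, AR3mn L q = m
  · obtain ⟨q, rfl⟩ := h
    rw [AR3P_coeff]
    have e : ∀ l, ((F (l, q) : ℤ) : ℚ) • b l = ((F (l, q) : ℤ) : k) * b l := by
      intro l
      rw [Rat.smul_def, Rat.cast_intCast]
    simp only [e]
    constructor
    · refine IsIntegral.sum _ (fun l _ => ?_)
      have h1 := isIntegral_algebraMap (R := ℤ) (A := k) (x := F (l, q))
      rw [eq_intCast] at h1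
      exact h1.mul (hbi l)
    · intro σ
      rw [map_sum]
      have h1 : ∀ l ∈ (Finset.univ : Finset (Fin n)), ‖σ (((F (l, q) : ℤ) : k) * b l)‖ ≤ (D : ℝ) := by
        intro l _
        rw [map_mul, map_intCast, norm_mul, Complex.norm_intCast]
        have h2 : |((F (l, q) : ℤ) : ℝ)| ≤ (D : ℝ) := by exact_mod_cast hF (l, q)
        exact (mul_le_mul h2 (hbn l σ) (norm_nonneg _) (Nat.cast_nonneg _)).trans_eq (mul_one _)
      refine (norm_sum_le_of_le _ h1).trans_eq ?_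
      rw [Finset.sum_const, Finset.card_univ, Fintype.card_fin, nsmul_eq_mul]
  · rw [AR3P_coeff' b L _ m (fun q hq => h ⟨q, hq⟩)]
    refine ⟨isIntegral_zero, fun σ => ?_⟩
    rw [map_zero, norm_zero]
    positivity


/-- the ℚ-dimension of the kernel of the evaluation map -/
private theorem AR3_ker {n : ℕ} (b : Module.Basis (Fin n) ℚ k) (T : ℕ) (g : Fin d → K)
    (L : ℕ) {N : ℕ} (e : (Fin n × (Fin d → Fin (L + 1))) ≃ Fin N)
    (Λ : (Fin N → ℚ) →ₗ[ℚ] ({p : Fin d → Fin T // ∑ j, (p j : ℕ) < T} → K))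
    (hΛ : ∀ F p, Λ F p = AR3E g (fun j => (p.1 j : ℕ)) (AR3P b L (fun j => F (e j)))) :
    Module.finrank ℚ (LinearMap.range Λ) + n * Module.finrank k (vanSub k T L g) ≤ N := by
  have h0 : Module.finrank ℚ k = n := by
    rw [Module.finrank_eq_card_basis b, Fintype.card_fin]
  have h1 := LinearMap.finrank_range_add_finrank_ker Λ
  rw [Module.finrank_fin_fun] at h1
  have h2 := Module.finrank_mul_finrank ℚ k (vanSub k T L g)
  rw [h0] at h2
  have hf : ∀ G : vanSub k T L g, (LinearEquiv.funCongrLeft ℚ ℚ e.symm)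
      (AR3Q b L ((vanSub k T L g).subtype G)) ∈ LinearMap.ker Λ := by
    intro G
    rw [LinearMap.mem_ker]
    funext p
    rw [hΛ]
    have h3 : (fun j => (LinearEquiv.funCongrLeft ℚ ℚ e.symm)
        (AR3Q b L ((vanSub k T L g).subtype G)) (e j)) = AR3Q b L G.1 := by
      funext j
      show AR3Q b L G.1 (e.symm (e j)) = _
      rw [e.symm_apply_apply]
    rw [h3, AR3PQ b L G.2.1]
    exact G.2.2 _ p.2
  obtain ⟨f, hfd⟩ : ∃ f : vanSub k T L g →ₗ[ℚ] LinearMap.ker Λ, ∀ G, (f G : Fin N → ℚ) =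
      (LinearEquiv.funCongrLeft ℚ ℚ e.symm) (AR3Q b L G.1) :=
    ⟨LinearMap.codRestrict (LinearMap.ker Λ)
      ((LinearEquiv.funCongrLeft ℚ ℚ e.symm).toLinearMap ∘ₗ (AR3Q b L) ∘ₗ
        ((vanSub k T L g).subtype.restrictScalars ℚ)) hf, fun G => rfl⟩
  have hinj : Function.Injective f := by
    intro G G' hGG
    have h3 : (f G : Fin N → ℚ) = f G' := by rw [hGG]
    rw [hfd, hfd] at h3
    have h4 := (LinearEquiv.funCongrLeft ℚ ℚ e.symm).injective h3
    apply Subtype.ext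
    rw [← AR3PQ b L G.2.1, ← AR3PQ b L G'.2.1, h4]
  have h5 := LinearMap.finrank_le_finrank_of_injective hinj
  omega

private theorem AR3_span {n : ℕ} (b : Module.Basis (Fin n) ℚ k)
    (L : ℕ) {N : ℕ} (e : (Fin n × (Fin d → Fin (L + 1))) ≃ Fin N)
    (X : Set (Fin N → ℚ)) :
    Module.finrank ℚ (Submodule.span ℚ X) ≤
      n * Module.finrank k (Submodule.span k ((fun F => AR3P b L (fun j => F (e j))) '' X)) := by
  obtain ⟨Y, hY⟩ : ∃ Y : Submodule k (MvPolynomial (Fin d) k), Y =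
    Submodule.span k ((fun F : Fin N → ℚ => AR3P b L (fun j => F (e j))) '' X) := ⟨_, rfl⟩
  rw [← hY]
  have h0 : Module.finrank ℚ k = n := by
    rw [Module.finrank_eq_card_basis b, Fintype.card_fin]
  have hYb : Y ≤ V k d L := by
    rw [hY, Submodule.span_le]
    rintro _ ⟨F, _, rfl⟩
    exact AR3P_mem b L _
  have : Module.Finite k Y := Submodule.finiteDimensional_of_le hYb
  have : Module.Finite ℚ Y := Module.Finite.trans k Y
  have h2 := Module.finrank_mul_finrank ℚ k Y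
  rw [h0] at h2
  rw [h2]
  obtain ⟨Θ, hΘ⟩ : ∃ Θ : (Fin N → ℚ) →ₗ[ℚ] MvPolynomial (Fin d) k, ∀ F, Θ F = AR3P b L (fun j => F (e j)) :=
    ⟨(AR3P b L) ∘ₗ (LinearEquiv.funCongrLeft ℚ ℚ e).toLinearMap, fun F => rfl⟩
  have hmem : ∀ F ∈ Submodule.span ℚ X, Θ F ∈ Y := by
    intro F hF
    induction hF using Submodule.span_induction with
    | mem x hx =>
      rw [hΘ, hY]
      exact Submodule.subset_span ⟨x, hx, rfl⟩
    | zero => rw [map_zero]; exact Y.zero_mem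
    | add x y _ _ hx hy => rw [map_add]; exact Y.add_mem hx hy
    | smul c x _ hx =>
      rw [map_smul, ← algebraMap_smul k c (Θ x)]
      exact Y.smul_mem _ hx
  obtain ⟨f, hfd⟩ : ∃ f : Submodule.span ℚ X →ₗ[ℚ] Y, ∀ F, (f F : MvPolynomial (Fin d) k) = Θ F.1 :=
    ⟨{ toFun := fun F => ⟨Θ F.1, hmem F.1 F.2⟩
       map_add' := fun F F' => Subtype.ext (map_add Θ F.1 F'.1)
       map_smul' := fun c F => Subtype.ext (map_smul Θ c F.1) }, fun F => rfl⟩
  refine LinearMap.finrank_le_finrank_of_injective (f := f) ?_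
  intro F F' hFF
  have h3 : (f F : MvPolynomial (Fin d) k) = f F' := by rw [hFF]
  rw [hfd, hfd, hΘ, hΘ] at h3
  have h4 := congrArg (AR3Q b L) h3
  rw [AR3QP, AR3QP] at h4
  apply Subtype.ext
  funext j
  have h5 := congrFun h4 (e.symm j)
  simp only [e.apply_symm_apply] at h5
  exact h5


private theorem AR3_fs_sum {ι : Type} (s : Finset ι) (f : ι → Pl K → ℝ)
    (h : ∀ i ∈ s, FS (f i)) :
    FS (fun v => ∑ i ∈ s, f i v) ∧ tot (fun v => ∑ i ∈ s, f i v) = ∑ i ∈ s, tot (f i) := by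
  classical
  induction s using Finset.induction_on with
  | empty =>
    have h0 : FS (fun v : Pl K => Sum.elim (fun _ => (0 : ℝ)) (fun _ => (0 : ℝ)) v) :=
      FS.inf _ (fun w => rfl)
    have h1 : (fun v : Pl K => Sum.elim (fun _ => (0 : ℝ)) (fun _ => (0 : ℝ)) v) =
        fun v : Pl K => ∑ i ∈ (∅ : Finset ι), f i v := by
      funext v
      rcases v with v | v <;> simp
    rw [h1] at h0
    refine ⟨h0, ?_⟩
    rw [← h1, tot_inf_const, Finset.sum_empty]
  | insert a s ha ih =>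
    have h1 := ih fun i hi => h i (Finset.mem_insert_of_mem hi)
    have h2 := h a (Finset.mem_insert_self _ _)
    have e : (fun v => ∑ i ∈ insert a s, f i v) = fun v => f a v + ∑ i ∈ s, f i v := by
      funext v
      rw [Finset.sum_insert ha]
    rw [e]
    refine ⟨h2.add h1.1, ?_⟩
    rw [tot_add h2 h1.1, h1.2, Finset.sum_insert ha]

/-- small values vanish, by the product formula -/
private theorem AR3_zero (L : ℕ) (g : Fin d → K) (i : Fin d → ℕ) {G : MvPolynomial (Fin d) k}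
    (hGL : G ∈ V k d L) (hG : ∀ m, IsIntegral ℤ (coeff m G))
    (hσ : ∀ σ : K →+* ℂ, ‖σ (AR3E g i G)‖ ≤ (1 / 3) * ∏ t, max 1 ‖σ (g t)‖ ^ L)
    (hy : (L : ℝ) * ∑ t, ht (g t) ≤ 1) : AR3E g i G = 0 := by
  by_contra hβ
  obtain ⟨β, hβe⟩ : ∃ β, β = AR3E g i G := ⟨_, rfl⟩
  rw [← hβe] at hβ
  simp only [← hβe] at hσ
  have hlogmax : ∀ (v : Pl K) (x : K) (n : ℕ), Real.log (max 1 (av v x) ^ n) =
      n * max (lg v x) 0 := by
    intro v x n
    rw [Real.log_pow, AR3_log_max ((av v).nonneg x)]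
    rfl
  have hlogprod : ∀ v : Pl K, Real.log (∏ t, max 1 (av v (g t)) ^ L) =
      (L : ℝ) * ∑ t, max (lg v (g t)) 0 := by
    intro v
    rw [Real.log_prod (fun t _ => by positivity), Finset.mul_sum]
    exact Finset.sum_congr rfl fun t _ => hlogmax v (g t) L
  have hle : ∀ v : Pl K, lg v β ≤ Sum.elim (fun _ => Real.log (1 / 3)) (fun _ => 0) v +
      (L : ℝ) * ∑ t, max (lg v (g t)) 0 := by
    intro v
    have hpos := av_pos v hβ
    have hpr : (0 : ℝ) < ∏ t, max 1 (av v (g t)) ^ L := Finset.prod_pos fun t _ => by positivity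
    rcases v with σ | w
    · have h2 := Real.log_le_log hpos (hσ σ)
      have h3 := hlogprod (.inl σ)
      simp only [av_inl] at h3 hpr
      rw [Real.log_mul (by norm_num) hpr.ne', h3] at h2
      exact h2
    · have h1 := AR3_fin hGL hG g i w
      rw [← hβe] at h1
      have hpos' : 0 < w β := hpos
      have h2 := Real.log_le_log hpos' h1
      have h3 := hlogprod (.inr w)
      simp only [av_inr] at h3
      rw [h3] at h2
      simp only [Sum.elim_inr, zero_add]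
      exact h2
  have f1 : FS (fun v : Pl K => Sum.elim (fun _ => Real.log (1 / 3)) (fun _ => (0 : ℝ)) v) :=
    FS.inf _ (fun w => rfl)
  have f2 := AR3_fs_sum (Finset.univ : Finset (Fin d))
    (fun t (v : Pl K) => max (lg v (g t)) 0) (fun t _ => fs_ht _)
  have f3 : FS (fun v : Pl K => (L : ℝ) * ∑ t, max (lg v (g t)) 0) := f2.1.const_mul _
  have h1 := tot_mono (fs_lg hβ) (f1.add f3) hle
  rw [tot_lg hβ, tot_add f1 f3, tot_inf_const, tot_const_mul, f2.2] at h1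
  have h2 : ∑ t, tot (fun v : Pl K => max (lg v (g t)) 0) = ∑ t, ht (g t) := rfl
  rw [h2] at h1
  have h4 : Real.log (1 / 3) < -1 := by
    rw [one_div, Real.log_inv]
    have h5 : (1 : ℝ) < Real.log 3 := by
      rw [Real.lt_log_iff_exp_lt (by norm_num)]
      exact Real.exp_one_lt_d9.trans (by norm_num)
    linarith
  linarith

private theorem AR3_core {n : ℕ} (hn : 0 < n) (b : Module.Basis (Fin n) ℚ k)
    (hbi : ∀ l, IsIntegral ℤ (b l)) (hbn : ∀ l (σ : k →+* ℂ), ‖σ (b l)‖ ≤ 1)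
    (T : ℕ) (g : Fin d → K) (L : ℕ) (D : ℕ)
    (hD : 128 ≤ D) (hN : n * (L + 1) ^ d ≤ D ^ 2) (hL : L ≤ D ^ 2)
    (hy : (L : ℝ) * ∑ t, ht (g t) ≤ 1) :
    ∃ S : Set (MvPolynomial (Fin d) k), (∀ G ∈ S, G ∈ vanSub k T L g ∧ House ((n : ℝ) * D) G) ∧
      (L + 1) ^ d ≤ Module.finrank k (Submodule.span k S) +
        (2 * T + 7) * ((L + 1) ^ d - Module.finrank k (vanSub k T L g)) := by
  classical
  obtain ⟨Lm, hLm⟩ : ∃ Lm, Lm = (L + 1) ^ d := ⟨_, rfl⟩
  obtain ⟨v, hv⟩ : ∃ v, v = Module.finrank k (vanSub k T L g) := ⟨_, rfl⟩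
  obtain ⟨N, hNe⟩ : ∃ N, N = n * Lm := ⟨_, rfl⟩
  rw [← hLm, ← hNe] at hN
  rw [← hLm, ← hv]
  have hDR : (128 : ℝ) ≤ D := by exact_mod_cast hD
  have hD0 : (0 : ℝ) < D := by linarith
  have hcard : Fintype.card (Fin n × (Fin d → Fin (L + 1))) = N := by
    rw [Fintype.card_prod, Fintype.card_fun, Fintype.card_fin, Fintype.card_fin,
      Fintype.card_fin, hNe, hLm]
  obtain ⟨e, -⟩ : ∃ e : (Fin n × (Fin d → Fin (L + 1))) ≃ Fin N, True :=
    ⟨Fintype.equivFinOfCardEq hcard, trivial⟩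
  obtain ⟨Θ, hΘ⟩ : ∃ Θ : (Fin N → ℚ) →ₗ[ℚ] MvPolynomial (Fin d) k, ∀ F, Θ F = AR3P b L (fun j => F (e j)) :=
    ⟨(AR3P b L) ∘ₗ (LinearEquiv.funCongrLeft ℚ ℚ e).toLinearMap, fun F => rfl⟩
  obtain ⟨Λ, hΛ'⟩ : ∃ Λ : (Fin N → ℚ) →ₗ[ℚ]
      ({p : Fin d → Fin T // ∑ j, (p j : ℕ) < T} → K),
      ∀ F p, Λ F p = AR3E g (fun j => (p.1 j : ℕ)) (Θ F) :=
    ⟨LinearMap.pi (fun p => (AR3E g (fun j => (p.1 j : ℕ))) ∘ₗ Θ), fun F p => rfl⟩
  have hΛ : ∀ F p, Λ F p = AR3E g (fun j => (p.1 j : ℕ)) (AR3P b L (fun j => F (e j))) := by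
    intro F p
    rw [hΛ', hΘ]
  have hker := AR3_ker b T g L e Λ hΛ
  rw [← hv] at hker
  -- the functionals
  obtain ⟨E, hE⟩ : ∃ E : ℝ, E = (D : ℝ) ^ (2 * T + 2) := ⟨_, rfl⟩
  have hE0 : 0 < E := by rw [hE]; positivity
  have hE1 : 1 ≤ E := by rw [hE]; exact one_le_pow₀ (by linarith)
  obtain ⟨H, hH⟩ : ∃ H : (K →+* ℂ) → ℝ, ∀ σ, H σ =
    ∏ t, max 1 ‖σ (g t)‖ ^ L := ⟨_, fun _ => rfl⟩
  have hH0 : ∀ σ, 0 < H σ := fun σ => by
    rw [hH]
    exact Finset.prod_pos fun t _ => by positivity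
  obtain ⟨u, hu⟩ : ∃ u : (K →+* ℂ) → {p : Fin d → Fin T // ∑ j, (p j : ℕ) < T} → Fin N → ℂ,
      ∀ σ p j, u σ p j = σ (AR3v b L g (fun j => (p.1 j : ℕ)) (e.symm j)) / ((E * H σ : ℝ) : ℂ) :=
    ⟨_, fun _ _ _ => rfl⟩
  have hLR : (L : ℝ) ≤ (D : ℝ) ^ 2 := by exact_mod_cast hL
  have hu1 : ∀ σ p, ∑ j, ‖u σ p j‖ ≤ 1 := by
    intro σ p
    have h1 : ∀ j ∈ (Finset.univ : Finset (Fin N)), ‖u σ p j‖ ≤ 1 / (D : ℝ) ^ 2 := by
      intro j _
      rw [hu, norm_div, Complex.norm_real, Real.norm_of_nonneg (mul_pos hE0 (hH0 σ)).le]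
      have h2 := AR3v_norm b L hbn (by positivity) hLR g (fun j => (p.1 j : ℕ)) (e.symm j) σ
      rw [← hH] at h2
      have h3 : ((D : ℝ) ^ 2) ^ (∑ t, (p.1 t : ℕ)) ≤ ((D : ℝ) ^ 2) ^ T :=
        pow_le_pow_right₀ (one_le_pow₀ (by linarith)) (le_of_lt p.2)
      have h4 : ((D : ℝ) ^ 2) ^ T * (D : ℝ) ^ 2 = E := by
        rw [hE, ← pow_mul, ← pow_add]
      rw [div_le_div_iff₀ (mul_pos hE0 (hH0 σ)) (by positivity), one_mul]
      calc ‖σ (AR3v b L g (fun j => (p.1 j : ℕ)) (e.symm j))‖ * (D : ℝ) ^ 2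
          ≤ (((D : ℝ) ^ 2) ^ T * H σ) * (D : ℝ) ^ 2 :=
            mul_le_mul_of_nonneg_right
              (h2.trans (mul_le_mul_of_nonneg_right h3 (hH0 σ).le)) (by positivity)
        _ = E * H σ := by rw [← h4]; ring
    refine (Finset.sum_le_sum h1).trans ?_
    rw [Finset.sum_const, Finset.card_univ, Fintype.card_fin, nsmul_eq_mul, mul_one_div,
      div_le_one (by positivity)]
    exact_mod_cast hN
  have hU : ∀ σ p (F : Fin N → ℚ), AR3U (u σ p) (fun j => (F j : ℝ)) =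
      σ (AR3E g (fun j => (p.1 j : ℕ)) (Θ F)) / ((E * H σ : ℝ) : ℂ) := by
    intro σ p F
    rw [AR3U_apply, hΘ, AR3E_P, map_sum, Finset.sum_div]
    refine (Equiv.sum_comp e _).symm.trans (Finset.sum_congr rfl (fun j _ => ?_))
    rw [hu, e.symm_apply_apply, Rat.smul_def, map_mul, map_ratCast, Complex.ofReal_ratCast]
    ring
  obtain ⟨ℓ, hℓe⟩ : ∃ ℓ : ((K →+* ℂ) × {p : Fin d → Fin T // ∑ j, (p j : ℕ) < T} × Bool) →
      ((Fin N → ℝ) →ₗ[ℝ] ℝ), ∀ x F, ℓ x F = AR3part x.2.2 (AR3U (u x.1 x.2.1) F) :=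
    ⟨fun x => (AR3part x.2.2) ∘ₗ (AR3U (u x.1 x.2.1)), fun _ _ => rfl⟩
  have hℓ : ∀ x F, |ℓ x F| ≤ ‖F‖ := by
    intro x F
    rw [hℓe]
    exact (AR3part_le _ _).trans (AR3U_norm _ (hu1 x.1 x.2.1) F)
  have hrank := real_rank_le N Λ ℓ (by
    intro F hF x
    rw [hℓe, hU, ← hΛ', hF, Pi.zero_apply, map_zero, zero_div, map_zero])
  have hvL : v ≤ Lm := by
    have : Module.Finite k (V k d L) := finite_V L
    rw [hv, hLm, ← finrank_V (Ω := k) (n := d) L]
    exact Submodule.finrank_mono (fun G hG => hG.1)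
  obtain ⟨r, hr⟩ : ∃ r, r = n * (Lm - v) := ⟨_, rfl⟩
  have hrN : r + n * v = N := by
    rw [hr, hNe, ← mul_add, Nat.sub_add_cancel hvL]
  have hr' : Module.finrank ℝ (Submodule.span ℝ (Set.range ℓ)) ≤ r := by omega
  obtain ⟨s, hs⟩ : ∃ s : ℝ, s = 1 / (6 * E * (r + 1)) := ⟨_, rfl⟩
  have hr1 : (0 : ℝ) < (r : ℝ) + 1 := by positivity
  have hs0 : 0 < s := by rw [hs]; positivity
  have hs1 : s ≤ 1 := by
    rw [hs, div_le_one (by positivity)]
    have h1 : (1 : ℝ) ≤ (r : ℝ) + 1 := by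
      have : (0 : ℝ) ≤ (r : ℝ) := Nat.cast_nonneg _
      linarith
    calc (1 : ℝ) ≤ 6 * 1 * 1 := by norm_num
      _ ≤ 6 * E * (r + 1) := by
        refine mul_le_mul (mul_le_mul_of_nonneg_left hE1 (by norm_num)) h1 zero_le_one (by positivity)
  obtain ⟨S, hS1, hS2⟩ := box_abs N D (by omega) ℓ hℓ r hr' hs0 hs1
  refine ⟨(fun F : Fin N → ℤ => Θ (fun j => (F j : ℚ))) '' S, ?_, ?_⟩
  · rintro _ ⟨F, hF, rfl⟩
    obtain ⟨hF1, hF2⟩ := hS1 F hF
    have hhouse : House ((n : ℝ) * D) (Θ (fun j => (F j : ℚ))) := by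
      rw [hΘ]
      exact AR3_house b hbi hbn L D (fun j => F (e j)) (fun j => hF1 (e j))
    have hbx : Θ (fun j => (F j : ℚ)) ∈ V k d L := by
      rw [hΘ]; exact AR3P_mem b L _
    refine ⟨⟨hbx, fun i hi => ?_⟩, hhouse⟩
    have h0T : ∀ t, i t < T := fun t =>
      (Finset.single_le_sum (fun _ _ => Nat.zero_le _) (Finset.mem_univ t)).trans_lt hi
    obtain ⟨p, hp⟩ : ∃ p : {p : Fin d → Fin T // ∑ j, (p j : ℕ) < T},
        (fun j => (p.1 j : ℕ)) = i := ⟨⟨fun t => ⟨i t, h0T t⟩, hi⟩, rfl⟩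
    rw [← AR3E_apply, ← hp]
    refine AR3_zero L g _ hbx (fun m => (hhouse m).1) (fun σ => ?_) hy
    have h1 : ∀ t, |AR3part t (AR3U (u σ p) (fun j => ((fun j => (F j : ℚ)) j : ℝ)))| ≤ 1 / (6 * E) := by
      intro t
      have h2 := hF2 (σ, p, t)
      rw [hℓe] at h2
      have h3 : (fun j => (((fun j => (F j : ℚ)) j : ℚ) : ℝ)) = fun j => ((F j : ℤ) : ℝ) := by
        funext j
        exact Rat.cast_intCast _
      rw [h3]
      refine h2.trans ?_
      rw [hs, mul_one_div, div_le_div_iff₀ (by positivity) (by positivity)]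
      have h4 : (r : ℝ) ≤ (r : ℝ) + 1 := by linarith
      calc (r : ℝ) * (6 * E) ≤ ((r : ℝ) + 1) * (6 * E) :=
            mul_le_mul_of_nonneg_right h4 (by positivity)
        _ = 1 * (6 * E * (r + 1)) := by ring
    have h5 := AR3part_norm h1
    rw [hU, norm_div, Complex.norm_real, Real.norm_of_nonneg (mul_pos hE0 (hH0 σ)).le,
      div_le_iff₀ (mul_pos hE0 (hH0 σ))] at h5
    rw [← hH]
    refine h5.trans_eq ?_
    field_simp
    ring
  · have hspan := AR3_span b L e ((fun F : Fin N → ℤ => fun j => (F j : ℚ)) '' S)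
    have himg : ((fun F : Fin N → ℚ => AR3P b L (fun j => F (e j))) ''
        ((fun F : Fin N → ℤ => fun j => (F j : ℚ)) '' S)) =
        (fun F : Fin N → ℤ => Θ (fun j => (F j : ℚ))) '' S := by
      rw [Set.image_image]
      refine Set.image_congr (fun F _ => ?_)
      rw [hΘ]
    rw [himg] at hspan
    obtain ⟨d, hd⟩ : ∃ d, d = Module.finrank k (Submodule.span k
      ((fun F : Fin N → ℤ => Θ (fun j => (F j : ℚ))) '' S)) := ⟨_, rfl⟩
    rw [← hd] at hspan ⊢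
    have hlog : 0 < Real.log ((D : ℝ) + 1) := Real.log_pos (by linarith)
    have hrD : (r : ℝ) + 1 ≤ (D : ℝ) ^ 3 := by
      have h1 : (r : ℝ) ≤ (D : ℝ) ^ 2 := by
        have : r ≤ D ^ 2 := by omega
        exact_mod_cast this
      have h2 : (1 : ℝ) ≤ (D : ℝ) ^ 2 := one_le_pow₀ (by linarith)
      calc (r : ℝ) + 1 ≤ (D : ℝ) ^ 2 + (D : ℝ) ^ 2 := by linarith
        _ = 2 * (D : ℝ) ^ 2 := by ring
        _ ≤ D * (D : ℝ) ^ 2 := mul_le_mul_of_nonneg_right (by linarith) (by positivity)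
        _ = (D : ℝ) ^ 3 := by ring
    have h4s : Real.log (4 * D / s) ≤ (2 * T + 7 : ℕ) * Real.log ((D : ℝ) + 1) := by
      rw [← Real.log_pow]
      refine Real.log_le_log (by positivity) ?_
      have h1 : 4 * (D : ℝ) / s = 24 * D * E * (r + 1) := by
        rw [hs]
        field_simp
        ring
      rw [h1]
      calc 24 * (D : ℝ) * E * (r + 1) ≤ D * D * E * (D : ℝ) ^ 3 := by
            refine mul_le_mul (mul_le_mul_of_nonneg_right (mul_le_mul_of_nonneg_right (by linarith)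
              hD0.le) hE0.le) hrD hr1.le (by positivity)
        _ = (D : ℝ) ^ (2 * T + 7) := by rw [hE]; ring
        _ ≤ ((D : ℝ) + 1) ^ (2 * T + 7) := pow_le_pow_left₀ hD0.le (by linarith) _
    have h5 : (r : ℝ) * Real.log (4 * D / s) ≤
        r * ((2 * T + 7 : ℕ) * Real.log ((D : ℝ) + 1)) :=
      mul_le_mul_of_nonneg_left h4s (Nat.cast_nonneg _)
    have h6 : (Module.finrank ℚ (Submodule.span ℚ ((fun F : Fin N → ℤ => fun j => (F j : ℚ)) '' S)) : ℝ)
        * Real.log ((D : ℝ) + 1) ≤ ((n * d : ℕ) : ℝ) * Real.log ((D : ℝ) + 1) :=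
      mul_le_mul_of_nonneg_right (by exact_mod_cast hspan) hlog.le
    have h7 : (N : ℝ) * Real.log ((D : ℝ) + 1) ≤
        (((n * d : ℕ) : ℝ) + (r : ℝ) * ((2 * T + 7 : ℕ) : ℝ)) * Real.log ((D : ℝ) + 1) := by
      refine (hS2.trans (add_le_add h6 h5)).trans_eq ?_
      ring
    have h8 := le_of_mul_le_mul_right h7 hlog
    have h9 : N ≤ n * d + r * (2 * T + 7) := by exact_mod_cast h8
    rw [hNe, hr] at h9
    have h10 : n * Lm ≤ n * (d + (2 * T + 7) * (Lm - v)) := by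
      refine h9.trans_eq ?_
      ring
    exact Nat.le_of_mul_le_mul_left h10 hn

/-- the family: many polynomials with small integral coefficients and a zero of order `T` -/
private theorem AR3_family (Z : Cyc M k) (T : ℕ) (g : Fin d → K) (L : ℕ)
    (hD : 128 ≤ Module.finrank ℚ K)
    (hN : M.totient * (L + 1) ^ d ≤ (Module.finrank ℚ K) ^ 2)
    (hL : L ≤ (Module.finrank ℚ K) ^ 2)
    (hy : (L : ℝ) * ∑ t, ht (g t) ≤ 1) :
    ∃ S : Set (MvPolynomial (Fin d) k), (∀ G ∈ S, G ∈ vanSub k T L g ∧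
        House ((M.totient : ℝ) * Module.finrank ℚ K) G) ∧
      (L + 1) ^ d ≤ Module.finrank k (Submodule.span k S) +
        (2 * T + 7) * ((L + 1) ^ d - Module.finrank k (vanSub k T L g)) := by
  obtain ⟨b, hb⟩ := AR3_basis Z
  have hζi : IsIntegral ℤ Z.ζ := Z.prim.isIntegral Z.pos
  refine AR3_core (Nat.totient_pos.2 Z.pos) b (fun l => ?_) (fun l σ => ?_) T g L
    (Module.finrank ℚ K) hD hN hL hy
  · rw [hb]; exact hζi.pow _
  · rw [hb, map_pow, norm_pow]
    have h1 : (σ Z.ζ) ^ M = 1 := by rw [← map_pow, Z.prim.pow_eq_one, map_one]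
    rw [Complex.norm_eq_one_of_pow_eq_one h1 Z.pos.ne', one_pow]

end aux

section

variable {M : ℕ} {k K : Type} [Field k] [NumberField k] [Field K] [NumberField K] [Algebra k K]
  {n : ℕ}

theorem box_exists (Z : BMF.Cyc M k) (T L : ℕ) (g : Fin n → K) (hg : ∀ i, g i ≠ 0)
    (hD : 128 ≤ Module.finrank ℚ K) (hN : M.totient * (L + 1) ^ n ≤ (Module.finrank ℚ K) ^ 2)
    (hL : L ≤ (Module.finrank ℚ K) ^ 2) (hy : (L : ℝ) * ∑ i, BMF.ht (g i) ≤ 1)
    (hr : (2 * T + 7) * ((L + 1) ^ n - Module.finrank k (vanSub k T L g)) < (L + 1) ^ n) :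
    ∃ G ∈ vanSub k T L g, G ≠ 0 ∧ House ((M.totient : ℝ) * Module.finrank ℚ K) G := by
  obtain ⟨S, hS, hS2⟩ := AR3_family Z T g L hD hN hL hy
  by_contra hcon
  push Not at hcon
  have h1 : ∀ G ∈ S, G = 0 := by
    intro G hG
    by_contra h0
    exact hcon G (hS G hG).1 h0 (hS G hG).2
  have h2 : Submodule.span k S = ⊥ := by
    rw [Submodule.span_eq_bot]
    exact h1
  rw [h2, finrank_bot, zero_add] at hS2
  omega

end

end DR
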