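import Pool.Agent.Lib.MP_a325a5_ag.DR.AR4

/-! 7.3: n-variable version of F/C4 padic. -/

open NumberField MvPolynomial
open BMF (Cyc)

namespace DR

section aux

variable {d M : ℕ} {k K : Type} [Field k] [NumberField k] [Field K] [NumberField K] [Algebra k K]

/-- binomial coefficients at `n - a` are integral combinations of those at `a` -/
private theorem c4_choose (i : ℕ) : ∀ n : ℕ, ∃ d : ℕ → ℤ, ∀ a ≤ n,
    (((n - a).choose i : ℕ) : ℤ) = ∑ l ∈ Finset.range (i + 1), d l * ((a.choose l : ℕ) : ℤ) := by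
  induction i with
  | zero => exact fun n => ⟨fun _ => 1, fun a _ => by simp⟩
  | succ i ih =>
    intro n
    cases n with
    | zero =>
      refine ⟨fun _ => 0, fun a ha => ?_⟩
      have : a = 0 := by omega
      subst this
      simp
    | succ n =>
      obtain ⟨d, hd⟩ := ih n
      refine ⟨fun l => if l = 0 then (((n + 1).choose (i + 1) : ℕ) : ℤ) else - d (l - 1), ?_⟩
      intro a
      induction a with
      | zero =>
        intro _
        rw [Finset.sum_range_succ']
        simp
      | succ a iha =>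
        intro ha
        have h1 := iha (by omega)
        have h2 := hd a (by omega)
        rw [Finset.sum_range_succ'] at h1 ⊢
        have e1 : n + 1 - a = (n - a) + 1 := by omega
        have e2 : n + 1 - (a + 1) = n - a := by omega
        rw [e1, Nat.choose_succ_succ] at h1
        rw [e2]
        simp only [Nat.choose_succ_succ, Nat.choose_zero_right, if_true, Nat.succ_ne_zero, if_false,
          Nat.add_sub_cancel] at h1 ⊢
        push_cast at h1 h2 ⊢
        have e3 : ∑ x ∈ Finset.range (i + 1), -d x * ((a.choose x : ℤ) + (a.choose (x + 1) : ℤ)) =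
            - ∑ x ∈ Finset.range (i + 1), d x * (a.choose x : ℤ) +
              ∑ x ∈ Finset.range (i + 1), -d x * (a.choose (x + 1) : ℤ) := by
          rw [← Finset.sum_neg_distrib, ← Finset.sum_add_distrib]
          refine Finset.sum_congr rfl fun x _ => ?_
          ring
        rw [e3, ← h2]
        linarith

private def c4_fl (b : Bool) (n a : ℕ) : ℕ := if b then n - a else a

private noncomputable def c4_st {F : Type} [Field F] (b : Bool) (t : F) : F := if b then t⁻¹ else t

private theorem c4_fl_fl (b : Bool) {n a : ℕ} (h : a ≤ n) : c4_fl b n (c4_fl b n a) = a := by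
  cases b
  · rfl
  · simp only [c4_fl, if_true]; omega

private theorem c4_fl_le (b : Bool) {n a : ℕ} (h : a ≤ n) : c4_fl b n a ≤ n := by
  cases b
  · exact h
  · exact Nat.sub_le _ _

private theorem c4_st_st {F : Type} [Field F] (b : Bool) (t : F) : c4_st b (c4_st b t) = t := by
  cases b
  · rfl
  · exact inv_inv t

private theorem c4_st_ne {F : Type} [Field F] (b : Bool) {t : F} (h : t ≠ 0) : c4_st b t ≠ 0 := by
  cases b
  · exact h
  · exact inv_ne_zero h

private theorem c4_one (b : Bool) (n i : ℕ) : ∃ d : ℕ → ℤ, ∀ a ≤ n, ∀ t : K, t ≠ 0 →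
    ((a.choose i : ℕ) : K) * t ^ a = (if b then t ^ n else 1) * ∑ l ∈ Finset.range (i + 1),
      (d l : K) * ((((c4_fl b n a).choose l : ℕ) : K) * c4_st b t ^ c4_fl b n a) := by
  cases b
  · refine ⟨fun l => if l = i then 1 else 0, fun a _ t _ => ?_⟩
    rw [Finset.sum_eq_single i]
    · simp [c4_fl, c4_st]
    · intro l _ hl
      simp [hl]
    · intro h
      exact absurd (Finset.mem_range.2 (Nat.lt_succ_self i)) h
  · obtain ⟨d, hd⟩ := c4_choose i n
    refine ⟨d, fun a ha t ht => ?_⟩
    have h1 := hd (n - a) (Nat.sub_le _ _)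
    have e1 : n - (n - a) = a := by omega
    rw [e1] at h1
    have h2 : ((a.choose i : ℕ) : K) = ∑ l ∈ Finset.range (i + 1), (d l : K) * (((n - a).choose l : ℕ) : K) := by
      have := congrArg (fun z : ℤ => (z : K)) h1
      push_cast at this
      exact this
    have h3 : t ^ n * t⁻¹ ^ (n - a) = t ^ a := by
      have e2 : n = a + (n - a) := by omega
      have : t ^ n = t ^ a * t ^ (n - a) := by rw [← pow_add, ← e2]
      rw [this, mul_assoc, ← mul_pow, mul_inv_cancel₀ ht, one_pow, mul_one]
    simp only [c4_fl, c4_st, if_true]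
    rw [h2, ← h3, Finset.mul_sum, Finset.sum_mul]
    refine Finset.sum_congr rfl fun l _ => ?_
    ring

omit [NumberField k] [NumberField K] in
private theorem c4_eval {ι : Type} (φ : k →+* k) (s : Finset ι) (f : ι → (Fin d →₀ ℕ)) (c : ι → k)
    (i : Fin d → ℕ) (z : Fin d → K) :
    eval z (hd i (toK K φ (∑ x ∈ s, monomial (f x) (c x)))) =
      ∑ x ∈ s, algebraMap k K (φ (c x)) *
        ∏ j, ((((f x j).choose (i j) : ℕ) : K) * z j ^ f x j) := by
  rw [map_sum, map_sum, map_sum]
  refine Finset.sum_congr rfl fun x _ => ?_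
  unfold toK
  rw [map_monomial, AR1_hd_monomial, eval_monomial, Finsupp.prod_fintype _ _ (fun _ => pow_zero _),
    Finset.prod_mul_distrib]
  simp only [RingHom.comp_apply]
  ring

/-- the exponents at the inverted coordinates -/
private noncomputable def c4_flip (s : Fin d → Bool) (L : Fin d → ℕ) (m : Fin d →₀ ℕ) : Fin d →₀ ℕ :=
  Finsupp.equivFunOnFinite.symm fun j => c4_fl (s j) (L j) (m j)

private theorem c4_flip_apply (s : Fin d → Bool) (L : Fin d → ℕ) (m : Fin d →₀ ℕ) (j : Fin d) :
    c4_flip s L m j = c4_fl (s j) (L j) (m j) := rfl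

omit [NumberField k] in
private theorem c4_two (s : Fin d → Bool) (L i : Fin d → ℕ) : ∃ e : Fin d → ℕ → ℤ,
    ∀ (S : Finset (Fin d →₀ ℕ)) (f : (Fin d →₀ ℕ) → (Fin d →₀ ℕ)) (c : (Fin d →₀ ℕ) → k)
      (φ : k →+* k) (z : Fin d → K), (∀ j, z j ≠ 0) → (∀ m ∈ S, ∀ j, f m j ≤ L j) →
      eval z (hd i (toK K φ (∑ m ∈ S, monomial (f m) (c m)))) =
        (∏ j, (if s j then z j ^ L j else 1)) *
        ∑ a ∈ Fintype.piFinset (fun j => Finset.range (i j + 1)), (∏ j, (e j (a j) : K)) *
          eval (fun j => c4_st (s j) (z j)) (hd a (toK K φ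
            (∑ m ∈ S, monomial (c4_flip s L (f m)) (c m)))) := by
  classical
  choose e he using fun j => c4_one (K := K) (s j) (L j) (i j)
  refine ⟨e, fun S f c φ z hz hf => ?_⟩
  rw [c4_eval]
  have e1 : ∀ a : Fin d → ℕ, eval (fun j => c4_st (s j) (z j)) (hd a (toK K φ
            (∑ m ∈ S, monomial (c4_flip s L (f m)) (c m)))) =
      ∑ m ∈ S, algebraMap k K (φ (c m)) *
        ∏ j, ((((c4_fl (s j) (L j) (f m j)).choose (a j) : ℕ) : K) *
            c4_st (s j) (z j) ^ c4_fl (s j) (L j) (f m j)) := by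
    intro a
    rw [c4_eval]
    rfl
  simp only [e1]
  have e2 : ∀ m ∈ S, algebraMap k K (φ (c m)) *
        ∏ j, ((((f m j).choose (i j) : ℕ) : K) * z j ^ f m j) =
      (∏ j, (if s j then z j ^ L j else 1)) *
      ∑ a ∈ Fintype.piFinset (fun j => Finset.range (i j + 1)), (∏ j, (e j (a j) : K)) *
        (algebraMap k K (φ (c m)) *
        ∏ j, ((((c4_fl (s j) (L j) (f m j)).choose (a j) : ℕ) : K) *
            c4_st (s j) (z j) ^ c4_fl (s j) (L j) (f m j))) := by
    intro m hm
    have h0 : ∏ j, ((((f m j).choose (i j) : ℕ) : K) * z j ^ f m j) =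
        ∏ j, ((if s j then z j ^ L j else 1) * ∑ l ∈ Finset.range (i j + 1),
          (e j l : K) * ((((c4_fl (s j) (L j) (f m j)).choose l : ℕ) : K) *
            c4_st (s j) (z j) ^ c4_fl (s j) (L j) (f m j))) :=
      Finset.prod_congr rfl fun j _ => he j _ (hf m hm j) _ (hz j)
    have h1 := Finset.prod_univ_sum (fun j => Finset.range (i j + 1))
      (fun j l => (e j l : K) * ((((c4_fl (s j) (L j) (f m j)).choose l : ℕ) : K) *
            c4_st (s j) (z j) ^ c4_fl (s j) (L j) (f m j)))
    rw [h0, Finset.prod_mul_distrib, h1, mul_left_comm, Finset.mul_sum]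
    congr 1
    refine Finset.sum_congr rfl fun a _ => ?_
    rw [Finset.prod_mul_distrib]
    ring
  rw [Finset.sum_congr rfl e2, ← Finset.mul_sum, Finset.sum_comm]
  congr 1
  refine Finset.sum_congr rfl fun a _ => ?_
  rw [← Finset.mul_sum]

private theorem c4_sum_le (w : FinitePlace K) {ι : Type} (s : Finset ι) (f : ι → K) {B : ℝ}
    (hB : 0 ≤ B) (h : ∀ x ∈ s, w (f x) ≤ B) : w (∑ x ∈ s, f x) ≤ B := by
  classical
  induction s using Finset.induction_on with
  | empty => rw [Finset.sum_empty, map_zero]; exact hB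
  | insert a s ha ih =>
    rw [Finset.sum_insert ha]
    exact (FinitePlace.add_le w _ _).trans (max_le (h a (Finset.mem_insert_self _ _))
      (ih fun x hx => h x (Finset.mem_insert_of_mem hx)))

private theorem c4_int_le (w : FinitePlace K) (n : ℤ) : w (n : K) ≤ 1 := by
  have h1 : ∀ n : ℕ, w (n : K) ≤ 1 := by
    intro n
    induction n with
    | zero => rw [Nat.cast_zero, map_zero]; exact zero_le_one
    | succ n ih =>
      rw [Nat.cast_succ]
      exact (FinitePlace.add_le w _ _).trans (max_le ih (map_one w).le)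
  rcases Int.eq_nat_or_neg n with ⟨m, rfl | rfl⟩
  · rw [Int.cast_natCast]; exact h1 m
  · rw [Int.cast_neg, Int.cast_natCast]
    have : w (-(m : K)) = w (m : K) := w.val.map_neg _
    rw [this]; exact h1 m

/-- the p-adic lemma -/
private theorem AR5_box (Z : Cyc M k) {p : ℕ} (hp : p.Prime) (hpM : ¬ p ∣ M) (w : FinitePlace K)
    (hw : w (p : K) < 1) (T : ℕ) (L : Fin d → ℕ) {G : MvPolynomial (Fin d) k} (hGL : ∀ j, G.degreeOf j ≤ L j)
    (hG : ∀ m, IsIntegral ℤ (coeff m G)) (z : Fin d → K)
    (hz0 : ∀ i, z i ≠ 0) (hv : van T (toK K (RingHom.id k) G) z) (i : Fin d → ℕ) :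
    w (eval (fun j => z j ^ p) (hd i (toK K (Z.fr p) G))) ≤
      w (p : K) ^ (T - ∑ j, i j) * ∏ j, max 1 (w (z j)) ^ (p * L j) := by
  classical
  set s : Fin d → Bool := fun j => decide (1 < w (z j)) with hs
  set zs : Fin d → K := fun j => c4_st (s j) (z j) with hzs
  set H : MvPolynomial (Fin d) k := ∑ m ∈ G.support, monomial (c4_flip s L m) (coeff m G) with hH
  have hmL : ∀ m ∈ G.support, ∀ j, m j ≤ L j := by
    intro m hm j
    exact (MvPolynomial.le_degreeOf_of_mem_support j hm).trans (hGL j)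
  have hflip : ∀ m ∈ G.support, c4_flip s L (c4_flip s L m) = m := by
    intro m hm
    ext j
    rw [c4_flip_apply, c4_flip_apply, c4_fl_fl _ (hmL m hm j)]
  have hGs : G = ∑ m ∈ G.support, monomial m (coeff m G) := G.as_sum
  have hHint : ∀ m, IsIntegral ℤ (coeff m H) := by
    intro m
    rw [hH, coeff_sum]
    refine IsIntegral.sum _ fun x _ => ?_
    rw [coeff_monomial]
    split_ifs
    · exact hG x
    · exact isIntegral_zero
  have hzs0 : ∀ j, zs j ≠ 0 := fun j => c4_st_ne _ (hz0 j)
  have hzs1 : ∀ j, w (zs j) ≤ 1 := by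
    intro j
    simp only [hzs, hs, c4_st]
    by_cases h : 1 < w (z j)
    · simp only [h, decide_true, if_true]
      rw [map_inv₀]
      exact inv_le_one_of_one_le₀ h.le
    · simp only [h, decide_false, Bool.false_eq_true, if_false]
      exact not_lt.1 h
  have hvH : van T (toK K (RingHom.id k) H) zs := by
    intro l hl
    obtain ⟨e, he'⟩ := c4_two (k := k) (K := K) s L l
    have h1 := he' G.support (c4_flip s L) (fun m => coeff m G) (RingHom.id k) zs hzs0
      (fun m hm j => by rw [c4_flip_apply]; exact c4_fl_le _ (hmL m hm j))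
    rw [hH, h1]
    have h2 : ∑ m ∈ G.support, monomial (c4_flip s L (c4_flip s L m)) (coeff m G) = G := by
      conv_rhs => rw [hGs]
      refine Finset.sum_congr rfl fun m hm => ?_
      rw [hflip m hm]
    have h3 : (fun j => c4_st (s j) (zs j)) = z := by
      funext j
      exact c4_st_st _ _
    rw [h2, h3]
    have h4 : ∀ a ∈ Fintype.piFinset (fun j => Finset.range (l j + 1)),
        (∏ j, (e j (a j) : K)) * eval z (hd a (toK K (RingHom.id k) G)) = 0 := by
      intro a ha
      rw [Fintype.mem_piFinset] at ha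
      have h5 : ∑ j, a j ≤ ∑ j, l j :=
        Finset.sum_le_sum fun j _ => Nat.lt_succ_iff.1 (Finset.mem_range.1 (ha j))
      rw [hv a (by omega), mul_zero]
    rw [Finset.sum_eq_zero h4, mul_zero]
  obtain ⟨e, he'⟩ := c4_two (k := k) (K := K) s L i
  have h1 := he' G.support (fun m => m) (fun m => coeff m G) (Z.fr p) (fun j => z j ^ p)
    (fun j => pow_ne_zero _ (hz0 j)) hmL
  rw [← hGs] at h1
  rw [h1, map_mul]
  have hst : (fun j => c4_st (s j) (z j ^ p)) = fun j => zs j ^ p := by
    funext j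
    simp only [hzs, c4_st]
    split_ifs
    · rw [inv_pow]
    · rfl
  rw [hst, mul_comm]
  have hwp : 0 ≤ w (p : K) := apply_nonneg w _
  refine mul_le_mul ?_ ?_ (apply_nonneg w _) (pow_nonneg hwp _)
  · refine c4_sum_le w _ _ (pow_nonneg hwp _) fun a ha => ?_
    rw [Fintype.mem_piFinset] at ha
    have h5 : ∑ j, a j ≤ ∑ j, i j :=
      Finset.sum_le_sum fun j _ => Nat.lt_succ_iff.1 (Finset.mem_range.1 (ha j))
    rw [map_mul]
    have h2 := padic_int Z hp hpM w hw T hHint zs hzs0 hzs1 hvH a
    have h3 : w (p : K) ^ (T - ∑ j, a j) ≤ w (p : K) ^ (T - ∑ j, i j) :=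
      pow_le_pow_of_le_one hwp hw.le (by omega)
    have h4 : w (∏ j, (e j (a j) : K)) ≤ 1 := by
      rw [map_prod]
      exact Finset.prod_le_one (fun j _ => apply_nonneg w _) fun j _ => c4_int_le w _
    calc w (∏ j, (e j (a j) : K)) * _ ≤ 1 * w (p : K) ^ (T - ∑ j, i j) :=
          mul_le_mul h4 (h2.trans h3) (apply_nonneg w _) zero_le_one
      _ = _ := one_mul _
  · rw [map_prod]
    refine Finset.prod_le_prod (fun j _ => apply_nonneg w _) fun j _ => ?_
    by_cases h : s j
    · simp only [h, if_true]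
      rw [← pow_mul, map_pow]
      exact pow_le_pow_left₀ (apply_nonneg w _) (le_max_right _ _) _
    · simp only [h, if_false, Bool.false_eq_true]
      rw [map_one]
      exact one_le_pow₀ (le_max_left _ _)

end aux

section

variable {M : ℕ} {k K : Type} [Field k] [NumberField k] [Field K] [NumberField K] [Algebra k K]
  {n : ℕ}

theorem padic (Z : BMF.Cyc M k) {p : ℕ} (hp : p.Prime) (hpM : ¬ p ∣ M) (w : FinitePlace K)
    (hw : w (p : K) < 1) (T L : ℕ) {G : MvPolynomial (Fin n) k} (hGL : G ∈ V k n L)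
    (hG : ∀ m, IsIntegral ℤ (coeff m G)) (z : Fin n → K) (hz0 : ∀ i, z i ≠ 0)
    (hv : van T (toK K (RingHom.id k) G) z) (i : Fin n → ℕ) :
    w (eval (fun j => z j ^ p) (hd i (toK K (Z.fr p) G))) ≤
      w (p : K) ^ (T - ∑ j, i j) * ∏ j, max 1 (w (z j)) ^ (p * L) :=
  AR5_box Z hp hpM w hw T (fun _ => L) hGL hG z hz0 hv i

end

end DR
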