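import Pool.Agent.Lib.MP_a325a5_ag.DR.AR5
import Pool.Agent.Lib.MP_a325a5_ag.F.C5

/-! 7.3: n-variable version of F/D1 extrap. -/

open NumberField MvPolynomial
open BMF (Cyc Pl av lg ht FS tot fs_ht fs_lg tot_mono tot_add tot_lg tot_inf_const tot_const_mul
  tot_p av_pos av_inl av_inr fr_mul)

namespace DR

section aux

variable {d M : ℕ} {k K : Type} [Field k] [NumberField k] [Field K] [NumberField K] [Algebra k K]

private theorem d1_le_one (w : FinitePlace K) {x : K} (hx : IsIntegral ℤ x) : w x ≤ 1 := by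
  have h := FinitePlace.norm_le_one K w.maximalIdeal (⟨x, hx⟩ : 𝓞 K)
  rwa [FinitePlace.norm_embedding_eq] at h

private theorem d1_nat (n : ℕ) : IsIntegral ℤ (n : K) := by
  have h := isIntegral_algebraMap (R := ℤ) (A := K) (x := (n : ℤ))
  simpa using h

private theorem d1_log_max {a : ℝ} (ha : 0 ≤ a) : Real.log (max 1 a) = max (Real.log a) 0 := by
  rcases le_total a 1 with h | h
  · rw [max_eq_left h, Real.log_one, max_eq_right (Real.log_nonpos ha h)]
  · rw [max_eq_right h, max_eq_left (Real.log_nonneg h)]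

omit [NumberField K] in
private theorem d1_eval (P : MvPolynomial (Fin d) K) (y : Fin d → K) :
    eval y P = ∑ m ∈ P.support, coeff m P * ∏ j, y j ^ m j := by
  rw [eval_eq']

omit [NumberField k] [NumberField K] in
private theorem d1_coeff (φ : k →+* k) (G : MvPolynomial (Fin d) k) (i : Fin d → ℕ) (m : Fin d →₀ ℕ) :
    coeff m (hd i (toK K φ G)) = algebraMap k K (φ (coeff m G)) *
      ∏ j, (((m j).choose (i j) : ℕ) : K) := by
  rw [coeff_hd, toK, coeff_map, RingHom.comp_apply]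

omit [NumberField k] [NumberField K] in
private theorem d1_supp {L : ℕ} (φ : k →+* k) {G : MvPolynomial (Fin d) k} (hG : G ∈ V k d L)
    (i : Fin d → ℕ) {m : Fin d →₀ ℕ} (hm : m ∈ (hd i (toK K φ G)).support) (j : Fin d) :
    m j ≤ L := by
  have h1 : coeff m (hd i (toK K φ G)) ≠ 0 := mem_support_iff.1 hm
  have h2 : coeff m G ≠ 0 := by
    intro h0
    apply h1
    rw [d1_coeff, h0, map_zero, map_zero, zero_mul]
  exact (degreeOf_le_iff.1 (hG j)) m (mem_support_iff.2 h2)

omit [NumberField k] [NumberField K] in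
private theorem d1_card {L : ℕ} (φ : k →+* k) {G : MvPolynomial (Fin d) k} (hG : G ∈ V k d L)
    (i : Fin d → ℕ) : ((hd i (toK K φ G)).support.card : ℝ) ≤ ((L : ℝ) + 1) ^ d := by
  have h : (hd i (toK K φ G)).support.card ≤
      (Fintype.piFinset fun _ : Fin d => Finset.range (L + 1)).card := by
    refine Finset.card_le_card_of_injOn (fun m => (m : Fin d → ℕ)) ?_ ?_
    · intro m hm
      simp only [Finset.mem_coe, Fintype.mem_piFinset, Finset.mem_range]
      exact fun j => Nat.lt_succ_of_le (d1_supp φ hG i hm j)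
    · intro m _ m' _ hmm
      exact DFunLike.coe_injective hmm
  rw [Fintype.card_piFinset, Finset.prod_const, Finset.card_range, Finset.card_univ,
    Fintype.card_fin] at h
  exact_mod_cast h

private theorem d1_mono {a : ℝ} (ha : 0 ≤ a) (N : ℕ) {m L : ℕ} (h : m ≤ L) :
    (a ^ N) ^ m ≤ max 1 a ^ (N * L) := by
  have h1 : a ^ N ≤ max 1 a ^ N := pow_le_pow_left₀ ha (le_max_right _ _) N
  have h2 : (a ^ N) ^ m ≤ (max 1 a ^ N) ^ m := pow_le_pow_left₀ (pow_nonneg ha N) h1 m
  have h3 : (1 : ℝ) ≤ max 1 a ^ N := one_le_pow₀ (le_max_left _ _)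
  rw [pow_mul]
  exact h2.trans (pow_le_pow_right₀ h3 h)

private theorem d1_arch {L : ℕ} {A : ℝ} {G : MvPolynomial (Fin d) k} (hGL : G ∈ V k d L) (hA : 1 ≤ A)
    (hG : House A G) (φ : k →+* k) (i : Fin d → ℕ) (y : Fin d → K) (N : ℕ) (σ : K →+* ℂ) :
    ‖σ (eval (fun j => y j ^ N) (hd i (toK K φ G)))‖ ≤
      ((L : ℝ) + 1) ^ d * A * ((d : ℝ) * L + 1) ^ (∑ j, i j) *
        ∏ j, max 1 ‖σ (y j)‖ ^ (N * L) := by
  have hS : (0 : ℝ) ≤ (d : ℝ) * L + 1 := by positivity
  have hP : (0 : ℝ) ≤ ∏ j, max 1 ‖σ (y j)‖ ^ (N * L) :=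
    Finset.prod_nonneg fun j _ => by positivity
  have hterm : ∀ m ∈ (hd i (toK K φ G)).support,
      ‖σ (coeff m (hd i (toK K φ G)) * ∏ j, (y j ^ N) ^ m j)‖ ≤
      A * ((d : ℝ) * L + 1) ^ (∑ j, i j) * ∏ j, max 1 ‖σ (y j)‖ ^ (N * L) := by
    intro m hm
    rw [d1_coeff]
    simp only [map_mul, map_prod, map_pow, norm_mul, norm_prod, norm_pow, map_natCast,
      Complex.norm_natCast]
    have e1 : ‖σ (algebraMap k K (φ (coeff m G)))‖ ≤ A :=
      (hG m).2 ((σ.comp (algebraMap k K)).comp φ)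
    have e2 : ∏ j, (((m j).choose (i j) : ℕ) : ℝ) ≤ ((d : ℝ) * L + 1) ^ (∑ j, i j) := by
      rw [← Finset.prod_pow_eq_pow_sum]
      refine Finset.prod_le_prod (fun j _ => Nat.cast_nonneg _) fun j _ => ?_
      have h2 : (((m j).choose (i j) : ℕ) : ℝ) ≤ ((m j : ℕ) : ℝ) ^ (i j) := by
        exact_mod_cast Nat.choose_le_pow (m j) (i j)
      refine h2.trans (pow_le_pow_left₀ (Nat.cast_nonneg _) ?_ _)
      have h3 : ((m j : ℕ) : ℝ) ≤ L := by exact_mod_cast d1_supp φ hGL i hm j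
      have h4 : (1 : ℝ) ≤ (d : ℝ) := by exact_mod_cast (Fin.pos j)
      have h5 : (0 : ℝ) ≤ (L : ℝ) := Nat.cast_nonneg _
      nlinarith
    have e4 : ∏ j, (‖σ (y j)‖ ^ N) ^ m j ≤ ∏ j, max 1 ‖σ (y j)‖ ^ (N * L) :=
      Finset.prod_le_prod (fun j _ => by positivity) fun j _ =>
        d1_mono (norm_nonneg _) N (d1_supp φ hGL i hm j)
    refine mul_le_mul (mul_le_mul e1 e2 (Finset.prod_nonneg fun j _ => Nat.cast_nonneg _)
      (by linarith)) e4 (Finset.prod_nonneg fun j _ => by positivity)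
      (mul_nonneg (by linarith) (pow_nonneg hS _))
  rw [d1_eval, map_sum]
  refine (norm_sum_le_of_le _ hterm).trans ?_
  rw [Finset.sum_const, nsmul_eq_mul]
  have h6 := d1_card (K := K) φ hGL i
  have h7 : 0 ≤ A * ((d : ℝ) * L + 1) ^ (∑ j, i j) * ∏ j, max 1 ‖σ (y j)‖ ^ (N * L) :=
    mul_nonneg (mul_nonneg (by linarith) (pow_nonneg hS _)) hP
  refine (mul_le_mul_of_nonneg_right h6 h7).trans_eq ?_
  ring

private theorem d1_fin {L : ℕ} {G : MvPolynomial (Fin d) k} (hGL : G ∈ V k d L)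
    (hG : ∀ m, IsIntegral ℤ (coeff m G)) (φ : k →+* k) (i : Fin d → ℕ) (y : Fin d → K) (N : ℕ)
    (w : FinitePlace K) :
    w (eval (fun j => y j ^ N) (hd i (toK K φ G))) ≤ ∏ j, max 1 (w (y j)) ^ (N * L) := by
  have hB : (0 : ℝ) ≤ ∏ j, max 1 (w (y j)) ^ (N * L) := Finset.prod_nonneg fun j _ => by positivity
  rw [d1_eval]
  have hsum : ∀ (s : Finset (Fin d →₀ ℕ)) (f : (Fin d →₀ ℕ) → K),
      (∀ m ∈ s, w (f m) ≤ ∏ j, max 1 (w (y j)) ^ (N * L)) →
      w (∑ m ∈ s, f m) ≤ ∏ j, max 1 (w (y j)) ^ (N * L) := by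
    classical
    intro s f
    induction s using Finset.induction_on with
    | empty =>
      intro _
      rw [Finset.sum_empty, map_zero]
      exact hB
    | insert a s ha ih =>
      intro h
      rw [Finset.sum_insert ha]
      exact (FinitePlace.add_le w _ _).trans (max_le (h a (Finset.mem_insert_self _ _))
        (ih (fun m hm => h m (Finset.mem_insert_of_mem hm))))
  refine hsum _ _ (fun m hm => ?_)
  have hint : IsIntegral ℤ (coeff m (hd i (toK K φ G))) := by
    rw [d1_coeff]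
    have h2 : IsIntegral ℤ (algebraMap k K (φ (coeff m G))) := by
      have h3 := (hG m).map (φ.toIntAlgHom)
      have h4 := h3.map ((algebraMap k K).toIntAlgHom)
      exact h4
    exact h2.mul (IsIntegral.prod _ fun j _ => d1_nat _)
  rw [map_mul, map_prod]
  have e4 : ∏ j, w ((y j ^ N) ^ m j) ≤ ∏ j, max 1 (w (y j)) ^ (N * L) := by
    refine Finset.prod_le_prod (fun j _ => apply_nonneg w _) fun j _ => ?_
    rw [map_pow, map_pow]
    exact d1_mono (apply_nonneg w _) N (d1_supp φ hGL i hm j)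
  calc w (coeff m (hd i (toK K φ G))) * ∏ j, w ((y j ^ N) ^ m j)
      ≤ 1 * ∏ j, max 1 (w (y j)) ^ (N * L) :=
        mul_le_mul (d1_le_one w hint) e4 (Finset.prod_nonneg fun j _ => apply_nonneg w _)
          zero_le_one
    _ = _ := one_mul _

private theorem d1_fs_sum {ι : Type} (s : Finset ι) (f : ι → Pl K → ℝ) (h : ∀ i ∈ s, FS (f i)) :
    FS (fun v => ∑ i ∈ s, f i v) ∧ tot (fun v => ∑ i ∈ s, f i v) = ∑ i ∈ s, tot (f i) := by
  classical
  induction s using Finset.induction_on with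
  | empty =>
    have h0 : FS (fun v : Pl K => Sum.elim (fun _ => (0 : ℝ)) (fun _ => (0 : ℝ)) v) :=
      FS.inf _ (fun w => rfl)
    have h1 : (fun v : Pl K => Sum.elim (fun _ => (0 : ℝ)) (fun _ => (0 : ℝ)) v) =
        fun v : Pl K => ∑ i ∈ (∅ : Finset ι), f i v := by
      funext v
      rcases v with v | v <;> simp
    rw [h1] at h0
    refine ⟨h0, ?_⟩
    rw [← h1, tot_inf_const, Finset.sum_empty]
  | insert a s ha ih =>
    have h1 := ih fun i hi => h i (Finset.mem_insert_of_mem hi)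
    have h2 := h a (Finset.mem_insert_self _ _)
    have e : (fun v => ∑ i ∈ insert a s, f i v) = fun v => f a v + ∑ i ∈ s, f i v := by
      funext v
      rw [Finset.sum_insert ha]
    rw [e]
    refine ⟨h2.add h1.1, ?_⟩
    rw [tot_add h2 h1.1, h1.2, Finset.sum_insert ha]

/-- extrapolation: the zeros propagate along Frobenius -/
private theorem AR6_main (Z : Cyc M k) (g : Fin d → K) (hg : ∀ i, g i ≠ 0) (L : ℕ) {A : ℝ}
    (hA : 1 ≤ A) {G : MvPolynomial (Fin d) k} (hGL : G ∈ V k d L) (hG : House A G) {m p T T' : ℕ}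
    (hm : m.Coprime M) (hp : p.Prime) (hpM : ¬ p ∣ M) (hT : T' ≤ T)
    (hv : van T (toK K (Z.fr m) G) (fun i => g i ^ m))
    (hnum : Real.log (((L : ℝ) + 1) ^ d * A) +
      T' * Real.log ((d : ℝ) * L + 1) + m * p * (L * ∑ i, ht (g i)) <
      ((T : ℝ) - T' + 1) * Real.log p) :
    van T' (toK K (Z.fr (m * p)) G) (fun i => g i ^ (m * p)) := by
  intro i hi
  by_contra hβ
  have hpM' : p.Coprime M := (Nat.Prime.coprime_iff_not_dvd hp).2 hpM
  have hp0 : (p : K) ≠ 0 := Nat.cast_ne_zero.2 hp.ne_zero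
  obtain ⟨β, hβe⟩ : ∃ β, β = eval (fun j => g j ^ (m * p)) (hd i (toK K (Z.fr (m * p)) G)) :=
    ⟨_, rfl⟩
  rw [← hβe] at hβ
  -- the conjugate polynomial
  obtain ⟨H, hH⟩ : ∃ H : MvPolynomial (Fin d) k, H = MvPolynomial.map (Z.fr m) G := ⟨_, rfl⟩
  have hH1 : toK K (RingHom.id k) H = toK K (Z.fr m) G := by
    rw [hH, toK, toK, MvPolynomial.map_map, RingHom.comp_id]
  have hH2 : toK K (Z.fr p) H = toK K (Z.fr (m * p)) G := by
    rw [hH, toK, toK, MvPolynomial.map_map, RingHom.comp_assoc, fr_mul Z hpM' hm, mul_comm p m]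
  have hHL : ∀ j, H.degreeOf j ≤ (fun _ : Fin d => L) j := by
    intro j
    rw [hH]
    refine degreeOf_le_iff.2 (fun d hd => ?_)
    exact degreeOf_le_iff.1 (hGL j) d (support_map_subset _ _ hd)
  have hHI : ∀ m, IsIntegral ℤ (coeff m H) := by
    intro d
    rw [hH, coeff_map]
    exact (hG d).1.map ((Z.fr m).toIntAlgHom)
  have hvH : van T (toK K (RingHom.id k) H) (fun i => g i ^ m) := by
    rw [hH1]; exact hv
  -- bounds at the places
  have hS0 : (0 : ℝ) < (d : ℝ) * L + 1 := by positivity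
  have hC0 : (0 : ℝ) < ((L : ℝ) + 1) ^ d * A := by
    have : (0 : ℝ) < A := by linarith
    positivity
  obtain ⟨c, hc⟩ : ∃ c : ℝ, c = Real.log (((L : ℝ) + 1) ^ d * A) +
      ((∑ j, i j : ℕ) : ℝ) * Real.log ((d : ℝ) * L + 1) := ⟨_, rfl⟩
  obtain ⟨s, hs⟩ : ∃ s : ℝ, s = ((T - ∑ j, i j : ℕ) : ℝ) := ⟨_, rfl⟩
  have hlogmax : ∀ (v : Pl K) (x : K) (n : ℕ), Real.log (max 1 (av v x) ^ n) =
      n * max (lg v x) 0 := by
    intro v x n
    rw [Real.log_pow, d1_log_max ((av v).nonneg x)]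
    rfl
  have hlogprod : ∀ v : Pl K, Real.log (∏ j, max 1 (av v (g j)) ^ (m * p * L)) =
      ∑ j, ((m * p * L : ℕ) : ℝ) * max (lg v (g j)) 0 := by
    intro v
    rw [Real.log_prod fun j _ => (by positivity : (0 : ℝ) < max 1 (av v (g j)) ^ (m * p * L)).ne']
    exact Finset.sum_congr rfl fun j _ => hlogmax v _ _
  have hprodpos : ∀ v : Pl K, 0 < ∏ j, max 1 (av v (g j)) ^ (m * p * L) := fun v =>
    Finset.prod_pos fun j _ => by positivity
  have hle : ∀ v : Pl K, lg v β ≤ Sum.elim (fun _ => c) (fun _ => 0) v +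
      (s * Sum.elim (fun _ => 0) (fun w => Real.log (w (p : K))) v +
      ∑ j, ((m * p * L : ℕ) : ℝ) * max (lg v (g j)) 0) := by
    intro v
    have hpos := av_pos v hβ
    rcases v with σ | w
    · have h1 := d1_arch hGL hA hG (Z.fr (m * p)) i g (m * p) σ
      rw [← hβe] at h1
      have h2 := Real.log_le_log hpos h1
      have h3 : (0 : ℝ) < ∏ j, max 1 ‖σ (g j)‖ ^ (m * p * L) := by
        have := hprodpos (.inl σ)
        simpa only [av_inl] using this
      rw [Real.log_mul (mul_pos hC0 (pow_pos hS0 _)).ne' h3.ne',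
        Real.log_mul hC0.ne' (pow_pos hS0 _).ne', Real.log_pow] at h2
      have h5 := hlogprod (.inl σ)
      simp only [av_inl] at h5
      rw [h5] at h2
      simp only [Sum.elim_inl, mul_zero, zero_add]
      rw [hc]
      exact h2
    · simp only [Sum.elim_inr, zero_add]
      have hwp : 0 < w (p : K) := FinitePlace.pos_iff.2 hp0
      have hwp1 : w (p : K) ≤ 1 := d1_le_one w (d1_nat p)
      have hpos' : 0 < w β := hpos
      have key : w β ≤ w (p : K) ^ (T - ∑ j, i j) *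
          ∏ j, max 1 (w (g j)) ^ (m * p * L) := by
        rcases lt_or_eq_of_le hwp1 with h | h
        · have h1 := padic Z hp hpM w h T L hHL hHI (fun i => g i ^ m)
            (fun j => pow_ne_zero m (hg j)) hvH i
          have h2 : (fun j => (g j ^ m) ^ p) = fun j => g j ^ (m * p) := by
            funext j; rw [← pow_mul]
          rw [hH2, h2, ← hβe] at h1
          refine h1.trans (mul_le_mul_of_nonneg_left ?_ (by positivity))
          refine Finset.prod_le_prod (fun j _ => by positivity) fun j _ => ?_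
          rw [map_pow]
          have h4 : max 1 (w (g j) ^ m) ≤ max 1 (w (g j)) ^ m :=
            max_le (one_le_pow₀ (le_max_left _ _))
              (pow_le_pow_left₀ (apply_nonneg w _) (le_max_right _ _) m)
          calc max 1 (w (g j) ^ m) ^ (p * L) ≤ (max 1 (w (g j)) ^ m) ^ (p * L) :=
                pow_le_pow_left₀ (by positivity) h4 _
            _ = max 1 (w (g j)) ^ (m * p * L) := by rw [← pow_mul, mul_assoc]
        · rw [h, one_pow, one_mul, hβe]
          exact d1_fin hGL (fun d => (hG d).1) (Z.fr (m * p)) i g (m * p) w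
      have h2 := Real.log_le_log hpos' key
      have h3 : (0 : ℝ) < ∏ j, max 1 (w (g j)) ^ (m * p * L) := by
        have := hprodpos (.inr w)
        simpa only [av_inr] using this
      rw [Real.log_mul (pow_pos hwp _).ne' h3.ne', Real.log_pow] at h2
      have h5 := hlogprod (.inr w)
      simp only [av_inr] at h5
      rw [h5, ← hs] at h2
      exact h2
  have f1 : FS (fun v : Pl K => Sum.elim (fun _ => c) (fun _ => (0 : ℝ)) v) :=
    FS.inf _ (fun w => rfl)
  have f2 : FS (fun v : Pl K => s * Sum.elim (fun _ => (0 : ℝ)) (fun w => Real.log (w (p : K))) v) := by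
    refine FS.const_mul ((fs_lg hp0).mono (fun v hv => ?_)) s
    rcases v with σ | w
    · rfl
    · exact hv
  obtain ⟨f3, t3⟩ := d1_fs_sum Finset.univ
    (fun (j : Fin d) (v : Pl K) => ((m * p * L : ℕ) : ℝ) * max (lg v (g j)) 0)
    (fun j _ => (fs_ht _).const_mul _)
  have h1 := tot_mono (fs_lg hβ) (f1.add (f2.add f3)) hle
  rw [tot_lg hβ, tot_add f1 (f2.add f3), tot_add f2 f3, t3,
    tot_inf_const, tot_const_mul, tot_p hp] at h1
  have h2 : ∑ j, tot (fun v : Pl K => ((m * p * L : ℕ) : ℝ) * max (lg v (g j)) 0) =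
      ((m * p * L : ℕ) : ℝ) * ∑ j, ht (g j) := by
    rw [Finset.mul_sum]
    refine Finset.sum_congr rfl fun j _ => ?_
    rw [tot_const_mul]
    rfl
  rw [h2] at h1
  have hlp : 0 < Real.log p := Real.log_pos (by exact_mod_cast hp.one_lt)
  have hlS : 0 ≤ Real.log ((d : ℝ) * L + 1) := by
    refine Real.log_nonneg ?_
    have : (0 : ℝ) ≤ (d : ℝ) * L := by positivity
    linarith
  have hiT : ((∑ j, i j : ℕ) : ℝ) + 1 ≤ T' := by exact_mod_cast hi
  have hsT : s = (T : ℝ) - ((∑ j, i j : ℕ) : ℝ) := by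
    rw [hs, Nat.cast_sub (le_trans hi.le hT)]
  have h4 : ((T : ℝ) - T' + 1) * Real.log p ≤ s * Real.log p :=
    mul_le_mul_of_nonneg_right (by rw [hsT]; linarith) hlp.le
  have h5 : ((∑ j, i j : ℕ) : ℝ) * Real.log ((d : ℝ) * L + 1) ≤
      T' * Real.log ((d : ℝ) * L + 1) :=
    mul_le_mul_of_nonneg_right (by linarith) hlS
  rw [hc] at h1
  have h6 : (m : ℝ) * p * (L * ∑ i, ht (g i)) = ((m * p * L : ℕ) : ℝ) * ∑ j, ht (g j) := by
    push_cast
    ring
  rw [h6] at hnum
  linarith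

end aux

section

variable {M : ℕ} {k K : Type} [Field k] [NumberField k] [Field K] [NumberField K] [Algebra k K]
  {n : ℕ}

theorem extrap (Z : BMF.Cyc M k) (g : Fin n → K) (hg : ∀ i, g i ≠ 0) (L : ℕ) {A : ℝ}
    (hA : 1 ≤ A) {G : MvPolynomial (Fin n) k} (hGL : G ∈ V k n L) (hG : House A G) {m p T T' : ℕ}
    (hm : m.Coprime M) (hp : p.Prime) (hpM : ¬ p ∣ M) (hT : T' ≤ T)
    (hv : van T (toK K (Z.fr m) G) (fun i => g i ^ m))
    (hnum : Real.log (((L : ℝ) + 1) ^ n * A) + T' * Real.log ((n : ℝ) * L + 1) +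
      m * p * (L * ∑ i, BMF.ht (g i)) < ((T : ℝ) - T' + 1) * Real.log p) :
    van T' (toK K (Z.fr (m * p)) G) (fun i => g i ^ (m * p)) :=
  AR6_main Z g hg L hA hGL hG hm hp hpM hT hv hnum

end

end DR
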