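import Pool.Agent.Lib.MP_a325a5_ag.DR.AR6
import Pool.Agent.Lib.MP_a325a5_ag.F.C2

/-! Induction over the levels (n-variable version of F/L5 extrap_all; level i = products of one prime from each of P 1, .., P i; Tf i = order at level i). -/

open NumberField MvPolynomial

namespace DR

variable {M : ℕ} {k K : Type} [Field k] [NumberField k] [Field K] [NumberField K] [Algebra k K]
  {n : ℕ}

private theorem AR8_hd_zero {F : Type} [Field F] (f : MvPolynomial (Fin n) F) : hd 0 f = f := by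
  have h : (hd (k := F) (n := n) 0) = LinearMap.id := by
    apply (MvPolynomial.basisMonomials (Fin n) F).ext
    intro m
    unfold hd
    rw [Module.Basis.constr_basis]
    simp
  rw [h]
  rfl

private theorem AR8_ev (φ : k →+* k) (m : ℕ) (g : Fin n → K) (G : MvPolynomial (Fin n) k) :
    eval (fun i => g i ^ m) (toK K φ G) = ev φ m g G := by
  unfold toK ev
  rw [eval_map]
  rfl

theorem extrap_all (Z : BMF.Cyc M k) (g : Fin n → K) (hg : ∀ i, g i ≠ 0) (L r : ℕ) {A X Y1 : ℝ}
    (hA : 1 ≤ A) (hX : 1 ≤ X) {G : MvPolynomial (Fin n) k} (hGL : G ∈ V k n L) (hG : House A G)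
    (P : ℕ → Finset ℕ) (hP : ∀ i, 1 ≤ i → i ≤ r → ∀ q ∈ P i, q.Prime ∧ ¬ q ∣ M ∧ X < q ∧
      (q : ℝ) ≤ 8 * X)
    (Tf : ℕ → ℕ) (hTf : ∀ j < r, Tf (j + 1) ≤ Tf j) (hlast : 1 ≤ Tf r)
    (hv : van (Tf 0) (toK K (RingHom.id k) G) g)
    (hY1 : (8 * X) ^ r * (L * ∑ i, BMF.ht (g i)) ≤ Y1)
    (hnum : ∀ j < r, Real.log (((L : ℝ) + 1) ^ n * A) + Tf (j + 1) * Real.log ((n : ℝ) * L + 1) +
      Y1 < ((Tf j : ℝ) - Tf (j + 1) + 1) * Real.log X) :
    ∀ m ∈ MM P r, ev (Z.fr m) m g G = 0 := by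
  have hH : 0 ≤ (L * ∑ i, BMF.ht (g i) : ℝ) := by
    have : 0 ≤ ∑ i, BMF.ht (g i) := Finset.sum_nonneg fun i _ => BMF.ht_nonneg (g i)
    positivity
  have key : ∀ i : ℕ, i ≤ r → ∀ m ∈ MM P i,
      m.Coprime M ∧ (m : ℝ) ≤ (8 * X) ^ i ∧
      van (Tf i) (toK K (Z.fr m) G) (fun j => g j ^ m) := by
    intro i
    induction i with
    | zero =>
      intro _ m hm
      have hm1 : m = 1 := hm
      subst hm1
      refine ⟨Nat.coprime_one_left M, by simp, ?_⟩
      rw [BMF.fr_one]
      simpa using hv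
    | succ i ih =>
      intro hi m hm
      obtain ⟨a, ha, q, hq, rfl⟩ := hm
      obtain ⟨hac, hale, hav⟩ := ih (by omega) a ha
      obtain ⟨hqp, hqM, hqX, hq8⟩ := hP (i + 1) (by omega) hi q hq
      have hqc : q.Coprime M := (Nat.Prime.coprime_iff_not_dvd hqp).2 hqM
      have hle : ((a * q : ℕ) : ℝ) ≤ (8 * X) ^ (i + 1) := by
        push_cast
        rw [pow_succ]
        exact mul_le_mul hale hq8 (by positivity) (by positivity)
      refine ⟨Nat.Coprime.mul_left hac hqc, hle, ?_⟩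
      have hj := hnum i (by omega)
      have hTj := hTf i (by omega)
      have hTj' : (Tf (i + 1) : ℝ) ≤ Tf i := by exact_mod_cast hTj
      have hlogq : Real.log X ≤ Real.log q := Real.log_le_log (by linarith) hqX.le
      refine extrap Z g hg L hA hGL hG hac hqp hqM hTj hav ?_
      have h1 : (a : ℝ) * q * (L * ∑ i, BMF.ht (g i)) ≤ Y1 := by
        refine le_trans ?_ hY1
        apply mul_le_mul_of_nonneg_right _ hH
        have h2 : (8 * X) ^ (i + 1) ≤ (8 * X) ^ r :=
          pow_le_pow_right₀ (by linarith) hi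
        refine le_trans ?_ h2
        have := hle
        push_cast at this
        exact this
      have h3 : ((Tf i : ℝ) - Tf (i + 1) + 1) * Real.log X ≤
          ((Tf i : ℝ) - Tf (i + 1) + 1) * Real.log q := by
        apply mul_le_mul_of_nonneg_left hlogq
        linarith
      linarith
  intro m hm
  obtain ⟨-, -, hvan⟩ := key r le_rfl m hm
  have h0 := hvan 0 (by simp; omega)
  rw [AR8_hd_zero, AR8_ev] at h0
  exact h0

end DR
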