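import Pool.Agent.Lib.MP_a325a5_ag.DR.U6
import Pool.Agent.Lib.MP_a325a5_ag.F.Hc

/-! DR_PROOF 9: Theorem D_n. -/

open NumberField MvPolynomial

namespace DR

private theorem Dn_form {K : Type} [Field K] [NumberField K] (a : 𝓞 K) (n : ℕ) (hn : n ≠ 0) :
    Height.logHeight₁ ((a : K) / (n : K)) +
        Real.log (Ideal.absNorm (Ideal.span (Set.range ![a, (n : 𝓞 K)]))) =
      ∑ σ : K →+* ℂ, Real.log (max ‖σ (a : K)‖ (n : ℝ)) := by
  have hnK : (n : K) ≠ 0 := by exact_mod_cast hn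
  have hv (i : Fin 2) : (![a, (n : 𝓞 K)] i : K) = ![(a : K), (n : K)] i := by
    fin_cases i <;> rfl
  have h1 : ((Ideal.span (Set.range ![a, (n : 𝓞 K)])).absNorm : ℝ) *
      ∏ᶠ v : FinitePlace K, ⨆ i, v (![(a : K), (n : K)] i) = 1 := by
    simpa [hv] using NumberField.absNorm_mul_finprod_finitePlace_eq_one
      (show ![a, (n : 𝓞 K)] ≠ 0 by simp [hn])
  have h2 : Height.mulHeight₁ ((a : K) / (n : K)) =
      (∏ v : InfinitePlace K, (⨆ i, v (![(a : K), (n : K)] i)) ^ v.mult) *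
        ∏ᶠ v : FinitePlace K, ⨆ i, v (![(a : K), (n : K)] i) := by
    rw [Height.mulHeight₁_div_eq_mulHeight, NumberField.mulHeight_eq (by simp [hnK])]
  have h3 : Height.mulHeight₁ ((a : K) / (n : K)) *
      ((Ideal.span (Set.range ![a, (n : 𝓞 K)])).absNorm : ℝ) =
      ∏ v : InfinitePlace K, (⨆ i, v (![(a : K), (n : K)] i)) ^ v.mult := by
    rw [h2, mul_assoc, mul_comm (∏ᶠ v : FinitePlace K, ⨆ i, v (![(a : K), (n : K)] i)), h1, mul_one]
  have hN : ((Ideal.span (Set.range ![a, (n : 𝓞 K)])).absNorm : ℝ) ≠ 0 := by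
    intro h
    rw [h, zero_mul] at h1
    exact zero_ne_one h1
  have hsup (v : InfinitePlace K) : (⨆ i, v (![(a : K), (n : K)] i)) = max (v a) (n : ℝ) := by
    have hvn : v (n : K) = n := by simp
    apply le_antisymm
    · apply ciSup_le
      intro i
      fin_cases i
      · exact le_max_left _ _
      · exact hvn.le.trans (le_max_right _ _)
    · apply max_le
      · exact le_ciSup (f := fun i => v (![(a : K), (n : K)] i)) (Set.finite_range _).bddAbove 0
      · rw [← hvn]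
        exact le_ciSup (f := fun i => v (![(a : K), (n : K)] i)) (Set.finite_range _).bddAbove 1
  have hpos (v : InfinitePlace K) : (0 : ℝ) < max (v a) (n : ℝ) :=
    lt_of_lt_of_le (by positivity) (le_max_right _ _)
  rw [Height.logHeight₁_eq_log_mulHeight₁, ← Real.log_mul (Height.mulHeight₁_pos _).ne' hN, h3,
    Real.log_prod fun w _ => ?_]
  · have := BMF.sum_emb fun w : InfinitePlace K => Real.log (max (w a) (n : ℝ))
    simp only [Real.log_pow, hsup]
    rw [← this]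
    rfl
  · rw [hsup]
    exact (pow_pos (hpos w) _).ne'

/-- every embedding of `K` has `[K' : K]` extensions to `K'` -/
private theorem Dn_fib {K K' : Type} [Field K] [NumberField K] [Field K'] [NumberField K']
    [Algebra K K'] (F : (K →+* ℂ) → ℝ) :
    ∑ σ' : K' →+* ℂ, F (σ'.comp (algebraMap K K')) =
      (Module.finrank K K' : ℝ) * ∑ σ : K →+* ℂ, F σ := by
  classical
  rw [← Finset.sum_fiberwise_of_maps_to (g := fun σ' : K' →+* ℂ => σ'.comp (algebraMap K K'))
    (t := Finset.univ) (fun _ _ => Finset.mem_univ _), Finset.mul_sum]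
  refine Finset.sum_congr rfl fun σ _ => ?_
  rw [Finset.sum_congr rfl (g := fun _ => F σ), Finset.sum_const, nsmul_eq_mul]
  · congr 1
    let _ : Algebra K ℂ := σ.toAlgebra
    have h1 : Fintype.card (K' →ₐ[K] ℂ) = Module.finrank K K' := AlgHom.card K K' ℂ
    rw [← h1]
    norm_cast
    rw [← Fintype.card_coe]
    refine Fintype.card_congr ⟨fun τ => ⟨τ.1, fun x => ?_⟩, fun τ => ⟨τ.toRingHom, ?_⟩,
      fun τ => rfl, fun τ => rfl⟩
    · have h2 := (Finset.mem_filter.1 τ.2).2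
      exact DFunLike.congr_fun h2 x
    · rw [Finset.mem_filter]
      refine ⟨Finset.mem_univ _, ?_⟩
      ext x
      exact τ.commutes x
  · intro σ' hσ'
    rw [(Finset.mem_filter.1 hσ').2]

/-- the height does not depend on the field -/
theorem Dn_ht {K K' : Type} [Field K] [NumberField K] [Field K'] [NumberField K']
    [Algebra K K'] (x : K) : BMF.ht (algebraMap K K' x) = BMF.ht x := by
  have hx : IsAlgebraic ℤ x := IsFractionRing.isAlgebraic_iff ℤ _ _ |>.mpr (.of_finite ℚ x)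
  obtain ⟨n, r, hn, hnr⟩ := hx.exists_nsmul_eq (𝓞 K)
  rw [← RingOfIntegers.coe_eq_algebraMap r] at hnr
  have hnK : (n : K) ≠ 0 := by exact_mod_cast hn
  have hxr : x = (r : K) / (n : K) := by
    rw [← hnr, nsmul_eq_mul, mul_div_cancel_left₀ _ hnK]
  have h1 := Dn_form r n hn
  have h2 := Dn_form (K := K') (algebraMap (𝓞 K) (𝓞 K') r) n hn
  have h3 : (algebraMap (𝓞 K) (𝓞 K') r : K') = algebraMap K K' (r : K) := rfl
  have h4 : Ideal.span (Set.range ![algebraMap (𝓞 K) (𝓞 K') r, (n : 𝓞 K')]) =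
      (Ideal.span (Set.range ![r, (n : 𝓞 K)])).map (algebraMap (𝓞 K) (𝓞 K')) := by
    rw [Ideal.map_span]
    congr 1
    rw [← Set.range_comp]
    congr 1
    ext i
    fin_cases i
    · rfl
    · simp
  rw [h4, Ideal.absNorm_algebraMap] at h2
  have h5 : Module.finrank (𝓞 K) (𝓞 K') = Module.finrank K K' :=
    (IsFractionRing.finrank_eq (𝓞 K) K (𝓞 K') K').symm
  rw [h3, h5] at h2
  have h6 := Dn_fib (K := K) (K' := K') fun σ => Real.log (max ‖σ (r : K)‖ (n : ℝ))
  have h7 : ∑ σ' : K' →+* ℂ, Real.log (max ‖σ' (algebraMap K K' (r : K))‖ (n : ℝ)) =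
      (Module.finrank K K' : ℝ) * ∑ σ : K →+* ℂ, Real.log (max ‖σ (r : K)‖ (n : ℝ)) := h6
  rw [h7, ← h1] at h2
  push_cast at h2
  rw [Real.log_pow] at h2
  have h8 : Height.logHeight₁ (algebraMap K K' x) =
      (Module.finrank K K' : ℝ) * Height.logHeight₁ x := by
    have h9 : algebraMap K K' x = algebraMap K K' (r : K) / (n : K') := by
      rw [hxr, map_div₀, map_natCast]
    rw [h9, hxr]
    linarith
  rw [BMF.ht_eq, BMF.ht_eq, h8, ← Module.finrank_mul_finrank ℚ K K']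
  push_cast
  have h10 : (0 : ℝ) < Module.finrank K K' := by exact_mod_cast Module.finrank_pos
  have h11 : (0 : ℝ) < Module.finrank ℚ K := by exact_mod_cast Module.finrank_pos
  field_simp

private theorem Dn_exists {k K : Type} [Field k] [NumberField k] [Field K] [NumberField K]
    [Algebra k K] {n : ℕ} (g : Fin n → K) (b : ℕ) (hb : Module.finrank k K < (b + 1) ^ n) :
    ∃ A : MvPolynomial (Fin n) k, A ∈ V k n b ∧ A ≠ 0 ∧ ev (RingHom.id k) 1 g A = 0 := by
  have h1 : Module.finrank k K < Module.finrank k (V k n b) := by rwa [finrank_V]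
  let f : V k n b →ₗ[k] K :=
    (MvPolynomial.aeval (fun i => g i ^ 1)).toLinearMap ∘ₗ (V k n b).subtype
  have h2 := LinearMap.ker_ne_bot_of_finrank_lt (f := f) h1
  obtain ⟨A, hA, hA0⟩ := Submodule.exists_mem_ne_zero_of_ne_bot h2
  refine ⟨A, A.2, fun h => hA0 (Subtype.ext h), ?_⟩
  have h3 : MvPolynomial.aeval (fun i => g i ^ 1) (A : MvPolynomial (Fin n) k) = 0 := hA
  rw [MvPolynomial.aeval_def] at h3
  unfold ev
  rw [RingHom.comp_id, MvPolynomial.coe_eval₂Hom]
  exact h3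

/-- adjunction of one root -/
private theorem Dn_root {K : Type} [Field K] [NumberField K] (g : K) (N : ℕ) (hN : 1 ≤ N) :
    ∃ (K' : Type) (_ : Field K') (_ : NumberField K') (_ : Algebra K K'),
      Module.finrank K K' ≤ N ∧ ∃ β : K', β ^ N = algebraMap K K' g := by
  classical
  have hne : (Polynomial.X ^ N - Polynomial.C g : Polynomial K) ≠ 0 :=
    Polynomial.X_pow_sub_C_ne_zero (by omega) g
  have hdeg : (Polynomial.X ^ N - Polynomial.C g : Polynomial K).natDegree = N :=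
    Polynomial.natDegree_X_pow_sub_C
  have hnu : ¬ IsUnit (Polynomial.X ^ N - Polynomial.C g : Polynomial K) := by
    intro h
    have := Polynomial.natDegree_eq_zero_of_isUnit h
    omega
  obtain ⟨f, hf, q, hq⟩ := WfDvdMonoid.exists_irreducible_factor hnu hne
  have : Fact (Irreducible f) := ⟨hf⟩
  have hfin : Module.Finite K (AdjoinRoot f) := (AdjoinRoot.powerBasis hf.ne_zero).finite
  refine ⟨AdjoinRoot f, inferInstance, NumberField.of_module_finite K (AdjoinRoot f),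
    inferInstance, ?_, AdjoinRoot.root f, ?_⟩
  · rw [(AdjoinRoot.powerBasis hf.ne_zero).finrank, AdjoinRoot.powerBasis_dim]
    have h1 := Polynomial.natDegree_le_of_dvd (Dvd.intro q hq.symm) hne
    omega
  · have h1 : Polynomial.aeval (AdjoinRoot.root f) (Polynomial.X ^ N - Polynomial.C g) = 0 := by
      rw [hq, map_mul]
      have h2 : Polynomial.aeval (AdjoinRoot.root f) f = 0 := by
        rw [AdjoinRoot.aeval_eq, AdjoinRoot.mk_self]
      rw [h2, zero_mul]
    rw [map_sub, map_pow, Polynomial.aeval_X, Polynomial.aeval_C, sub_eq_zero] at h1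
    exact h1

/-- adjunction of roots of several elements -/
private theorem Dn_roots : ∀ (n : ℕ) {K : Type} [Field K] [NumberField K] (g : Fin n → K)
    (N : Fin n → ℕ), (∀ i, 1 ≤ N i) →
    ∃ (K' : Type) (_ : Field K') (_ : NumberField K') (_ : Algebra K K'),
      Module.finrank K K' ≤ ∏ i, N i ∧ ∃ β : Fin n → K', ∀ i, β i ^ N i = algebraMap K K' (g i) := by
  intro n
  induction n with
  | zero =>
    intro K _ _ g N _
    exact ⟨K, inferInstance, inferInstance, Algebra.id K, by simp, fun i => i.elim0,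
      fun i => i.elim0⟩
  | succ n ih =>
    intro K _ _ g N hN
    obtain ⟨K1, hF1, hNF1, hA1, hd1, β0, hβ0⟩ := Dn_root (g 0) (N 0) (hN 0)
    obtain ⟨K2, hF2, hNF2, hA2, hd2, β, hβ⟩ := ih (fun i => algebraMap K K1 (g i.succ))
      (fun i => N i.succ) (fun i => hN i.succ)
    let hA : Algebra K K2 := ((algebraMap K1 K2).comp (algebraMap K K1)).toAlgebra
    have hT : IsScalarTower K K1 K2 := IsScalarTower.of_algebraMap_eq fun _ => rfl
    refine ⟨K2, hF2, hNF2, hA, ?_, Fin.cons (algebraMap K1 K2 β0) β, ?_⟩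
    · rw [← Module.finrank_mul_finrank K K1 K2, Fin.prod_univ_succ]
      exact Nat.mul_le_mul hd1 hd2
    · intro i
      refine Fin.cases ?_ (fun i => ?_) i
      · rw [Fin.cons_zero, ← map_pow, hβ0]
        rfl
      · rw [Fin.cons_succ, hβ]
        rfl

private theorem Dn_nat (n Q : ℕ) (hn : 1 ≤ n) (hQ : 1 ≤ Q) :
    ∃ b : ℕ, 1 ≤ b ∧ b ^ n ≤ Q ∧ Q < (b + 1) ^ n := by
  classical
  have hex : ∃ b : ℕ, Q < (b + 1) ^ n :=
    ⟨Q, lt_of_lt_of_le (Nat.lt_succ_self Q) (Nat.le_self_pow (by omega) _)⟩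
  have h1 := Nat.find_spec hex
  have h0 : Nat.find hex ≠ 0 := by
    intro h
    rw [h] at h1
    simp at h1
    omega
  refine ⟨Nat.find hex, by omega, ?_, h1⟩
  have h2 := Nat.find_min hex (m := Nat.find hex - 1) (by omega)
  rw [not_lt, show Nat.find hex - 1 + 1 = Nat.find hex by omega] at h2
  exact h2

private theorem Dn_num (n : ℕ) (hn : 1 ≤ n) (η : ℝ) (hη : 0 < η) (D c₁ c : ℝ) (hD : 1 ≤ D)
    (hc₁ : 0 < c₁) (hc₁1 : c₁ ≤ 1) (hc : 0 < c) (H : Fin n → ℝ) (hH0 : ∀ i, c₁ / D ^ 2 ≤ H i)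
    (hH1 : ∀ i, H i < 1) (N : Fin n → ℕ) (hN : ∀ i, (N i : ℝ) ≤ 2 * (H i * D ^ 3 / c₁))
    (D' b E : ℕ) (hb : b ^ n ≤ D' * ∏ i, N i) (hE1 : 1 ≤ E) (hE : (E : ℝ) ≤ D * ∏ i, (N i : ℝ))
    (h : c * (E : ℝ) ^ (-(η / ((3 * n + 1) * n))) ≤ b * (c₁ / D ^ 3)) :
    c ^ n / 2 ^ n * ((2 / c₁) ^ n) ^ (-(η / (3 * n + 1))) * D ^ (-η) ≤ (∏ i, H i) * D' := by
  have hD0 : 0 < D := by linarith
  have hn0 : (0 : ℝ) < n := by exact_mod_cast hn
  have hE0 : (0 : ℝ) < E := by exact_mod_cast hE1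
  have hHpos : ∀ i, 0 < H i := fun i => lt_of_lt_of_le (by positivity) (hH0 i)
  have hP : ∏ i, (N i : ℝ) ≤ ∏ i, (2 * (H i * D ^ 3 / c₁)) :=
    Finset.prod_le_prod (fun i _ => Nat.cast_nonneg _) fun i _ => hN i
  have hP2 : ∏ i, (2 * (H i * D ^ 3 / c₁)) = 2 ^ n * (D ^ 3 / c₁) ^ n * ∏ i, H i := by
    rw [show (fun i => 2 * (H i * D ^ 3 / c₁)) = fun i => (2 * (D ^ 3 / c₁)) * H i by
      ext i; ring, Finset.prod_mul_distrib, Finset.prod_const, Finset.card_univ, Fintype.card_fin,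
      mul_pow]
  have hH1' : ∏ i, H i ≤ 1 := Finset.prod_le_one (fun i _ => (hHpos i).le) fun i _ => (hH1 i).le
  have hHp : 0 < ∏ i, H i := Finset.prod_pos fun i _ => hHpos i
  have hEb : (E : ℝ) ≤ (2 / c₁) ^ n * D ^ (3 * n + 1) := by
    calc (E : ℝ) ≤ D * ∏ i, (N i : ℝ) := hE
      _ ≤ D * (2 ^ n * (D ^ 3 / c₁) ^ n * ∏ i, H i) := by
        rw [← hP2]; exact mul_le_mul_of_nonneg_left hP hD0.le
      _ ≤ D * (2 ^ n * (D ^ 3 / c₁) ^ n * 1) := by
        gcongr
      _ = (2 / c₁) ^ n * D ^ (3 * n + 1) := by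
        rw [div_pow, div_pow, ← pow_mul, pow_succ]; ring
  have h1 : (c * (E : ℝ) ^ (-(η / ((3 * n + 1) * n)))) ^ n ≤ (b * (c₁ / D ^ 3)) ^ n :=
    pow_le_pow_left₀ (by positivity) h n
  have h2 : ((b : ℝ) * (c₁ / D ^ 3)) ^ n ≤ D' * 2 ^ n * ∏ i, H i := by
    have hb' : (b : ℝ) ^ n ≤ D' * ∏ i, (N i : ℝ) := by exact_mod_cast hb
    calc ((b : ℝ) * (c₁ / D ^ 3)) ^ n = (b : ℝ) ^ n * (c₁ / D ^ 3) ^ n := mul_pow _ _ _
      _ ≤ (D' * ∏ i, (N i : ℝ)) * (c₁ / D ^ 3) ^ n :=
        mul_le_mul_of_nonneg_right hb' (by positivity)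
      _ ≤ (D' * (2 ^ n * (D ^ 3 / c₁) ^ n * ∏ i, H i)) * (c₁ / D ^ 3) ^ n := by
        rw [← hP2]
        gcongr
      _ = D' * 2 ^ n * (∏ i, H i) * ((D ^ 3 / c₁) * (c₁ / D ^ 3)) ^ n := by
        rw [mul_pow]; ring
      _ = D' * 2 ^ n * ∏ i, H i := by
        rw [show D ^ 3 / c₁ * (c₁ / D ^ 3) = 1 by field_simp, one_pow, mul_one]
  have h3 : ((E : ℝ) ^ (-(η / ((3 * n + 1) * n)))) ^ n = (E : ℝ) ^ (-(η / (3 * n + 1))) := by
    rw [← Real.rpow_natCast, ← Real.rpow_mul hE0.le]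
    congr 1
    field_simp
  have h4 : ((2 / c₁) ^ n * D ^ (3 * n + 1)) ^ (-(η / (3 * n + 1))) ≤
      (E : ℝ) ^ (-(η / (3 * n + 1))) := by
    apply Real.rpow_le_rpow_of_nonpos hE0 hEb
    have : 0 < η / (3 * n + 1) := by positivity
    linarith
  have h5 : ((2 / c₁) ^ n * D ^ (3 * n + 1)) ^ (-(η / (3 * n + 1))) =
      ((2 / c₁) ^ n) ^ (-(η / (3 * n + 1))) * D ^ (-η) := by
    rw [Real.mul_rpow (by positivity) (by positivity), ← Real.rpow_natCast D (3 * n + 1),
      ← Real.rpow_mul hD0.le]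
    congr 2
    push_cast
    field_simp
  rw [mul_pow, h3] at h1
  rw [h5] at h4
  have h6 : c ^ n * (((2 / c₁) ^ n) ^ (-(η / (3 * n + 1))) * D ^ (-η)) ≤
      D' * 2 ^ n * ∏ i, H i :=
    (mul_le_mul_of_nonneg_left h4 (by positivity)).trans (h1.trans h2)
  have h7 : (0 : ℝ) < 2 ^ n := by positivity
  calc c ^ n / 2 ^ n * ((2 / c₁) ^ n) ^ (-(η / (3 * n + 1))) * D ^ (-η)
      = c ^ n * (((2 / c₁) ^ n) ^ (-(η / (3 * n + 1))) * D ^ (-η)) / 2 ^ n := by ring
    _ ≤ (D' * 2 ^ n * ∏ i, H i) / 2 ^ n := div_le_div_of_nonneg_right h6 h7.le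
    _ = (∏ i, H i) * D' := by field_simp

private theorem Dn_MInd_sub {K : Type} [Field K] [NumberField K] {n : ℕ} (g : Fin (n + 1) → K)
    (j : Fin (n + 1)) (hg : MInd g) : MInd fun i => g (j.succAbove i) := by
  intro a ha
  have h1 := hg (j.insertNth 0 a) (by
    rw [Fin.prod_univ_succAbove _ j]
    simp only [Fin.insertNth_apply_same, Fin.insertNth_apply_succAbove, zpow_zero, one_mul]
    exact ha)
  ext i
  have h2 := congrFun h1 (j.succAbove i)
  rw [Fin.insertNth_apply_succAbove] at h2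
  exact h2

private theorem Dn_MInd_one {K : Type} [Field K] [NumberField K] {n : ℕ} (g : Fin n → K)
    (j : Fin n) (hg : MInd g) : MInd fun _ : Fin 1 => g j := by
  classical
  intro a ha
  have h1 := hg (Pi.single j (a 0)) (by
    rw [Finset.prod_eq_single j]
    · rw [Pi.single_eq_same]
      simpa using ha
    · intro i _ hij
      rw [Pi.single_eq_of_ne hij, zpow_zero]
    · intro h
      exact absurd (Finset.mem_univ j) h)
  ext i
  have h2 := congrFun h1 j
  rw [Pi.single_eq_same] at h2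
  rw [Fin.fin_one_eq_zero i]
  exact h2

private theorem Dn_MInd_root {K K' : Type} [Field K] [NumberField K] [Field K'] [NumberField K']
    [Algebra K K'] {n : ℕ} (g : Fin n → K) (β : Fin n → K') (N : Fin n → ℕ) (hN : ∀ i, 1 ≤ N i)
    (hβ : ∀ i, β i ^ N i = algebraMap K K' (g i)) (hg : MInd g) : MInd β := by
  classical
  intro a ha
  have h1 := hg (fun i => a i * ∏ j ∈ Finset.univ.erase i, (N j : ℤ)) (by
    apply (algebraMap K K').injective
    rw [map_one, map_prod]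
    have h2 : ∀ i, algebraMap K K' (g i ^ (a i * ∏ j ∈ Finset.univ.erase i, (N j : ℤ))) =
        (β i ^ a i) ^ (∏ j, (N j : ℤ)) := by
      intro i
      rw [map_zpow₀, ← hβ, ← zpow_natCast (β i), ← zpow_mul, ← zpow_mul,
        ← Finset.mul_prod_erase Finset.univ (fun j => (N j : ℤ)) (Finset.mem_univ i)]
      congr 1
      ring
    rw [Finset.prod_congr rfl fun i _ => h2 i, Finset.prod_zpow, ha, one_zpow])
  ext i
  have h3 := congrFun h1 i
  simp only [Pi.zero_apply, mul_eq_zero] at h3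
  rcases h3 with h3 | h3
  · exact h3
  · exfalso
    rw [Finset.prod_eq_zero_iff] at h3
    obtain ⟨j, _, hj⟩ := h3
    have := hN j
    have hj' : N j = 0 := by exact_mod_cast hj
    omega

/-- lower bound for a single height -/
private theorem Dn_low : ∃ c : ℝ, 0 < c ∧ c ≤ 1 ∧ ∀ (M : ℕ) (k K : Type) [Field k]
    [NumberField k] [Field K] [NumberField K] [Algebra k K] (_ : BMF.Cyc M k) (n : ℕ)
    (g : Fin n → K), (∀ i, g i ≠ 0) → MInd g → ∀ i,
    c / (Module.finrank ℚ K : ℝ) ^ 2 ≤ BMF.ht (g i) := by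
  obtain ⟨c, hc, h⟩ := un_all 1 le_rfl 1 one_pos
  refine ⟨min c 1, lt_min hc one_pos, min_le_right _ _, ?_⟩
  intro M k K _ _ _ _ _ Z n g hg0 hg i
  have : Module.Finite k K := Module.Finite.of_restrictScalars_finite ℚ k K
  have hD' : 0 < Module.finrank k K := Module.finrank_pos
  obtain ⟨A, hA, hA0, hAe⟩ := Dn_exists (k := k) (fun _ : Fin 1 => g i) (Module.finrank k K)
    (by simp)
  have h1 := h M k K Z (fun _ : Fin 1 => g i) (fun _ => hg0 i) (Dn_MInd_one g i hg)
    (Module.finrank k K) A hD' hA hA0 hAe (BMF.ht (g i)) (fun _ => le_rfl)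
  have hD : (0 : ℝ) < Module.finrank ℚ K := BMF.finrank_pos
  have hDD : (Module.finrank k K : ℝ) ≤ Module.finrank ℚ K := by
    rw [← Module.finrank_mul_finrank ℚ k K]
    have : 0 < Module.finrank ℚ k := Module.finrank_pos
    exact_mod_cast Nat.le_mul_of_pos_left _ this
  rw [Real.rpow_neg_one] at h1
  have h2 : c * (Module.finrank ℚ K : ℝ)⁻¹ ≤ Module.finrank ℚ K * BMF.ht (g i) :=
    h1.trans (mul_le_mul_of_nonneg_right hDD (BMF.ht_nonneg _))
  have h3 : min c 1 / (Module.finrank ℚ K : ℝ) ^ 2 ≤ c / (Module.finrank ℚ K : ℝ) ^ 2 :=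
    div_le_div_of_nonneg_right (min_le_left _ _) (by positivity)
  refine h3.trans ?_
  rw [div_le_iff₀ (by positivity)]
  have h4 := mul_le_mul_of_nonneg_right h2 hD.le
  rw [mul_assoc, inv_mul_cancel₀ hD.ne', mul_one] at h4
  nlinarith [h4]

theorem Dn_main (n : ℕ) (η : ℝ) (hη : 0 < η) : ∃ c : ℝ, 0 < c ∧ ∀ (M : ℕ) (k K : Type) [Field k]
    [NumberField k] [Field K] [NumberField K] [Algebra k K] (_ : BMF.Cyc M k) (g : Fin n → K),
    (∀ i, g i ≠ 0) → MInd g →
    c * (Module.finrank ℚ K : ℝ) ^ (-η) ≤ (∏ i, BMF.ht (g i)) * Module.finrank k K := by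
  induction n with
  | zero =>
    refine ⟨1, one_pos, ?_⟩
    intro M k K _ _ _ _ _ _ g _ _
    have : Module.Finite k K := Module.Finite.of_restrictScalars_finite ℚ k K
    have h1 : 1 ≤ Module.finrank k K := Module.finrank_pos
    have h2 : 1 ≤ Module.finrank ℚ K := Module.finrank_pos
    have h3 : (1 : ℝ) ≤ Module.finrank k K := by exact_mod_cast h1
    have h4 : (1 : ℝ) ≤ Module.finrank ℚ K := by exact_mod_cast h2
    have h5 : (Module.finrank ℚ K : ℝ) ^ (-η) ≤ 1 :=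
      Real.rpow_le_one_of_one_le_of_nonpos h4 (by linarith)
    simp only [Finset.univ_eq_empty, Finset.prod_empty, one_mul]
    linarith
  | succ n ih =>
    obtain ⟨c0, hc0, ih⟩ := ih
    obtain ⟨c1, hc1, hc11, hlow⟩ := Dn_low
    obtain ⟨c, hc, hU⟩ := un_all (n + 1) (by omega)
      (η / ((3 * ((n + 1 : ℕ) : ℝ) + 1) * ((n + 1 : ℕ) : ℝ))) (by positivity)
    set c2 : ℝ := c ^ (n + 1) / 2 ^ (n + 1) *
      ((2 / c1) ^ (n + 1)) ^ (-(η / (3 * ((n + 1 : ℕ) : ℝ) + 1))) with hc2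
    have hc2pos : 0 < c2 := by positivity
    refine ⟨min c0 c2, lt_min hc0 hc2pos, ?_⟩
    intro M k K _ _ _ _ _ Z g hg0 hg
    have : Module.Finite k K := Module.Finite.of_restrictScalars_finite ℚ k K
    have hDpos : (0 : ℝ) < Module.finrank ℚ K := BMF.finrank_pos
    have hD1 : (1 : ℝ) ≤ Module.finrank ℚ K := by
      have : 1 ≤ Module.finrank ℚ K := Module.finrank_pos
      exact_mod_cast this
    have hDη : 0 ≤ (Module.finrank ℚ K : ℝ) ^ (-η) := Real.rpow_nonneg hDpos.le _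
    by_cases hbig : ∃ j, 1 ≤ BMF.ht (g j)
    · obtain ⟨j, hj⟩ := hbig
      have h1 := ih M k K Z (fun i => g (j.succAbove i)) (fun i => hg0 _) (Dn_MInd_sub g j hg)
      rw [Fin.prod_univ_succAbove _ j]
      have h2 : 0 ≤ (∏ i, BMF.ht (g (j.succAbove i))) * (Module.finrank k K : ℝ) :=
        mul_nonneg (Finset.prod_nonneg fun i _ => BMF.ht_nonneg _) (Nat.cast_nonneg _)
      calc min c0 c2 * (Module.finrank ℚ K : ℝ) ^ (-η) ≤ c0 * (Module.finrank ℚ K : ℝ) ^ (-η) :=
            mul_le_mul_of_nonneg_right (min_le_left _ _) hDη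
        _ ≤ (∏ i, BMF.ht (g (j.succAbove i))) * (Module.finrank k K : ℝ) := h1
        _ ≤ BMF.ht (g j) * ((∏ i, BMF.ht (g (j.succAbove i))) * (Module.finrank k K : ℝ)) :=
            le_mul_of_one_le_left h2 hj
        _ = _ := by ring
    · have hsmall : ∀ j, BMF.ht (g j) < 1 := fun j => by
        by_contra hcon
        exact hbig ⟨j, not_lt.1 hcon⟩
      have hlow' := hlow M k K Z (n + 1) g hg0 hg
      set D : ℝ := (Module.finrank ℚ K : ℝ) with hD
      set N : Fin (n + 1) → ℕ := fun i => ⌈BMF.ht (g i) * D ^ 3 / c1⌉₊ with hN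
      have hx1 : ∀ i, 1 ≤ BMF.ht (g i) * D ^ 3 / c1 := by
        intro i
        rw [le_div_iff₀ hc1, one_mul]
        have h1 := hlow' i
        rw [div_le_iff₀ (by positivity)] at h1
        have h2 : BMF.ht (g i) * D ^ 2 ≤ BMF.ht (g i) * D ^ 3 := by
          have := BMF.ht_nonneg (g i)
          have h3 : D ^ 2 ≤ D ^ 3 := pow_le_pow_right₀ hD1 (by norm_num)
          exact mul_le_mul_of_nonneg_left h3 this
        linarith
      have hNx : ∀ i, BMF.ht (g i) * D ^ 3 / c1 ≤ (N i : ℝ) := fun i => Nat.le_ceil _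
      have hN2 : ∀ i, (N i : ℝ) ≤ 2 * (BMF.ht (g i) * D ^ 3 / c1) := fun i => by
        have := Nat.ceil_lt_add_one (a := BMF.ht (g i) * D ^ 3 / c1) (by linarith [hx1 i])
        have h2 := hx1 i
        linarith
      have hN1 : ∀ i, 1 ≤ N i := fun i => by
        have h1 : (1 : ℝ) ≤ (N i : ℝ) := (hx1 i).trans (hNx i)
        exact_mod_cast h1
      obtain ⟨K', hF', hNF', hA', hd', β, hβ⟩ := Dn_roots (n + 1) g N hN1
      let hAk : Algebra k K' := ((algebraMap K K').comp (algebraMap k K)).toAlgebra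
      have hT : IsScalarTower k K K' := IsScalarTower.of_algebraMap_eq fun _ => rfl
      have : Module.Finite K K' := Module.Finite.of_restrictScalars_finite ℚ K K'
      have hP1 : 1 ≤ ∏ i, N i := Finset.one_le_prod' fun i _ => hN1 i
      have hD'1 : 1 ≤ Module.finrank k K := Module.finrank_pos
      obtain ⟨b, hb1, hb2, hb3⟩ := Dn_nat (n + 1) (Module.finrank k K * ∏ i, N i) (by omega)
        (Nat.mul_pos hD'1 hP1)
      have hk' : Module.finrank k K' < (b + 1) ^ (n + 1) := by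
        rw [← Module.finrank_mul_finrank k K K']
        exact lt_of_le_of_lt (Nat.mul_le_mul_left _ hd') hb3
      obtain ⟨A, hA, hA0, hAe⟩ := Dn_exists (k := k) β b hk'
      have hβ0 : ∀ i, β i ≠ 0 := by
        intro i h0
        have h1 := hβ i
        rw [h0, zero_pow (by have := hN1 i; omega)] at h1
        exact hg0 i ((map_eq_zero_iff _ (algebraMap K K').injective).1 h1.symm)
      have hβh : ∀ i, BMF.ht (β i) ≤ c1 / D ^ 3 := by
        intro i
        have h1 : (N i : ℝ) * BMF.ht (β i) = BMF.ht (g i) := by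
          rw [← BMF.ht_pow, hβ, Dn_ht]
        have h2 : 0 < (N i : ℝ) := by exact_mod_cast hN1 i
        have h3 := hNx i
        rw [div_le_iff₀ hc1] at h3
        rw [le_div_iff₀ (by positivity)]
        have h4 : (N i : ℝ) * (BMF.ht (β i) * D ^ 3) ≤ (N i : ℝ) * c1 := by
          calc (N i : ℝ) * (BMF.ht (β i) * D ^ 3) = BMF.ht (g i) * D ^ 3 := by rw [← h1]; ring
            _ ≤ _ := h3
        exact le_of_mul_le_mul_left h4 h2
      have h1 := hU M k K' Z β hβ0 (Dn_MInd_root g β N hN1 hβ hg) b A hb1 hA hA0 hAe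
        (c1 / D ^ 3) hβh
      have hE1 : 1 ≤ Module.finrank ℚ K' := Module.finrank_pos
      have hE : (Module.finrank ℚ K' : ℝ) ≤ D * ∏ i, (N i : ℝ) := by
        rw [hD, ← Module.finrank_mul_finrank ℚ K K']
        push_cast
        have : (Module.finrank K K' : ℝ) ≤ ∏ i, (N i : ℝ) := by exact_mod_cast hd'
        exact mul_le_mul_of_nonneg_left this hDpos.le
      have h2 := Dn_num (n + 1) (by omega) η hη D c1 c hD1 hc1 hc11 hc (fun i => BMF.ht (g i))
        hlow' hsmall N hN2 (Module.finrank k K) b (Module.finrank ℚ K') hb2 hE1 hE h1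
      calc min c0 c2 * D ^ (-η) ≤ c2 * D ^ (-η) :=
            mul_le_mul_of_nonneg_right (min_le_right _ _) hDη
        _ ≤ _ := h2

end DR
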