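import Pool.Agent.Lib.MP_a325a5_ag.DR.H4b

/-! DR_PROOF 2.2 (Bezout), induction on dm PP - j. -/

open MvPolynomial

namespace DR

variable {Ω : Type} [Field Ω] {n : ℕ}

private theorem h5_aux {l : ℕ} (hl : 1 ≤ l)
    (G : Set (MvPolynomial (Fin n) Ω)) (hG : ∀ g ∈ G, g ∈ V Ω n l) (j : ℕ) :
    ∀ (N : ℕ) (PP : Ideal (MvPolynomial (Fin n) Ω)), PP.IsPrime →
    ∀ (s : Finset (Ideal (MvPolynomial (Fin n) Ω))),
    (∀ P ∈ s, P ∈ (PP ⊔ Ideal.span G).minimalPrimes ∧ dm P = j) → dm PP ≤ j + N →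
    (j.factorial : ℝ) * ∑ P ∈ s, e P ≤ (dm PP).factorial * (l : ℝ) ^ (dm PP - j) * e PP := by
  classical
  intro N
  induction N with
  | zero =>
    intro PP hPP s hs hN
    have hePP := e_ge_one PP
    have hl1 : (1 : ℝ) ≤ (l : ℝ) := by exact_mod_cast hl
    rcases s.eq_empty_or_nonempty with rfl | ⟨P0, hP0⟩
    · rw [Finset.sum_empty, mul_zero]
      positivity
    have key : ∀ P ∈ s, P = PP := by
      intro P hP
      obtain ⟨h1, h2⟩ := hs P hP
      have : P.IsPrime := h1.1.1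
      exact (eq_of_dm (le_sup_left.trans h1.1.2) (by omega)).symm
    have hdm : dm PP = j := by
      rw [← key P0 hP0]
      exact (hs P0 hP0).2
    have hsub : s ⊆ {PP} := fun P hP => by
      rw [Finset.mem_singleton]
      exact key P hP
    have h3 : ∑ P ∈ s, e P ≤ e PP := by
      refine (Finset.sum_le_sum_of_subset_of_nonneg hsub fun P hP _ => ?_).trans
        (le_of_eq (Finset.sum_singleton _ _))
      rw [Finset.mem_singleton] at hP
      rw [hP]
      linarith
    rw [hdm, Nat.sub_self, pow_zero, mul_one]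
    exact mul_le_mul_of_nonneg_left h3 (Nat.cast_nonneg _)
  | succ N ih =>
    intro PP hPP s hs hN
    by_cases hle : dm PP ≤ j + N
    · exact ih PP hPP s hs hle
    have hePP := e_ge_one PP
    have hl1 : (1 : ℝ) ≤ (l : ℝ) := by exact_mod_cast hl
    rcases s.eq_empty_or_nonempty with rfl | ⟨P0, hP0⟩
    · rw [Finset.sum_empty, mul_zero]
      positivity
    -- `G` is not contained in `PP`
    obtain ⟨g, hgG, hgP⟩ : ∃ g ∈ G, g ∉ PP := by
      by_contra hcon
      push Not at hcon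
      have h1 : PP ⊔ Ideal.span G = PP := sup_eq_left.mpr (Ideal.span_le.mpr hcon)
      have h2 := hs P0 hP0
      rw [h1] at h2
      have h3 : P0 ≤ PP := h2.1.2 ⟨hPP, le_refl _⟩ h2.1.1.2
      have h4 : P0 = PP := le_antisymm h3 h2.1.1.2
      rw [h4] at h2
      omega
    have hex : ∀ P ∈ s, ∃ Q, Q ∈ (PP ⊔ Ideal.span {g}).minimalPrimes ∧ Q ≤ P := by
      intro P hP
      obtain ⟨h1, h2⟩ := hs P hP
      have hpr : P.IsPrime := h1.1.1
      have h3 : PP ⊔ Ideal.span {g} ≤ P := by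
        refine (sup_le_sup_left (Ideal.span_mono ?_) PP).trans h1.1.2
        exact Set.singleton_subset_iff.mpr hgG
      obtain ⟨Q, hQ1, hQ2⟩ := Ideal.exists_minimalPrimes_le h3
      exact ⟨Q, hQ1, hQ2⟩
    choose! F hF1 hF2 using hex
    have hdmQ : ∀ P ∈ s, dm (F P) + 1 = dm PP := fun P hP => krull PP (F P) hgP (hF1 P hP)
    have hb := bez_one PP hl (hG g hgG) hgP (s.image F) (by
      intro Q hQ
      rw [Finset.mem_image] at hQ
      obtain ⟨P, hP, rfl⟩ := hQ
      exact hF1 P hP)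
    have hdPP : 1 ≤ dm PP := by omega
    -- the fibres
    have hfib : ∀ Q ∈ s.image F, (j.factorial : ℝ) * ∑ P ∈ s.filter (fun P => F P = Q), e P ≤
        (dm PP - 1).factorial * (l : ℝ) ^ (dm PP - 1 - j) * e Q := by
      intro Q hQ
      rw [Finset.mem_image] at hQ
      obtain ⟨P1, hP1, rfl⟩ := hQ
      have hQpr : (F P1).IsPrime := (hF1 P1 hP1).1.1
      have hdq : dm (F P1) = dm PP - 1 := by
        have := hdmQ P1 hP1
        omega
      have h5 := ih (F P1) hQpr (s.filter fun P => F P = F P1) (by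
        intro P hP
        rw [Finset.mem_filter] at hP
        obtain ⟨hPs, hPF⟩ := hP
        obtain ⟨h1, h2⟩ := hs P hPs
        refine ⟨⟨⟨h1.1.1, sup_le ?_ (le_sup_right.trans h1.1.2)⟩, ?_⟩, h2⟩
        · rw [← hPF]
          exact hF2 P hPs
        · intro P' hP' hle'
          refine h1.2 ⟨hP'.1, sup_le ?_ (le_sup_right.trans hP'.2)⟩ hle'
          exact (le_sup_left.trans (hF1 P1 hP1).1.2).trans (le_sup_left.trans hP'.2)) (by
        omega)
      rw [hdq] at h5
      exact h5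
    have hsum : ∑ P ∈ s, e P = ∑ Q ∈ s.image F, ∑ P ∈ s.filter (fun P => F P = Q), e P :=
      (Finset.sum_fiberwise_of_maps_to (fun P hP => Finset.mem_image_of_mem F hP) _).symm
    rw [hsum, Finset.mul_sum]
    refine (Finset.sum_le_sum hfib).trans ?_
    rw [← Finset.mul_sum]
    have h6 : (0 : ℝ) ≤ (dm PP - 1).factorial * (l : ℝ) ^ (dm PP - 1 - j) := by positivity
    refine (mul_le_mul_of_nonneg_left hb h6).trans (le_of_eq ?_)
    have h7 : ((dm PP).factorial : ℝ) = (dm PP : ℝ) * ((dm PP - 1).factorial : ℝ) := by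
      rw [← Nat.mul_factorial_pred (by omega)]
      push_cast
      rfl
    have h8 : (l : ℝ) ^ (dm PP - j) = (l : ℝ) ^ (dm PP - 1 - j) * l := by
      rw [← pow_succ]
      congr 1
      omega
    rw [h7, h8]
    ring

theorem bezout (PP : Ideal (MvPolynomial (Fin n) Ω)) [PP.IsPrime] {l : ℕ} (hl : 1 ≤ l)
    (G : Set (MvPolynomial (Fin n) Ω)) (hG : ∀ g ∈ G, g ∈ V Ω n l) (j : ℕ)
    (s : Finset (Ideal (MvPolynomial (Fin n) Ω)))
    (hs : ∀ P ∈ s, P ∈ (PP ⊔ Ideal.span G).minimalPrimes ∧ dm P = j) :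
    (j.factorial : ℝ) * ∑ P ∈ s, e P ≤ (dm PP).factorial * (l : ℝ) ^ (dm PP - j) * e PP :=
  h5_aux hl G hG j (dm PP) PP inferInstance s hs (by omega)

end DR
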