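import Pool.Agent.Lib.MP_a325a5_ag.DR.T2b
import Pool.Agent.Lib.MP_a325a5_ag.DR.H5

/-! DR_PROOF 6 (a),(b): GG_i ≠ 0, contraction of components. `zj_contract`: for P in ZJ at level i-1 and q in P i there is Q in level i with Q ≤ comap, dm P ≤ dm Q. -/

open MvPolynomial

namespace DR

variable {Ω : Type} [Field Ω] {n : ℕ}

variable [IsAlgClosed Ω] [CharZero Ω] (d : Dat Ω n)

omit [IsAlgClosed Ω] [CharZero Ω] in
private theorem G1_nonempty {i : ℕ} (h1 : 2 * d.h0 < i) (h2 : i ≤ d.r) : (d.P i).Nonempty := by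
  rw [← Finset.card_pos]
  have hr : 1 ≤ d.r := by
    have := d.g6b
    omega
  by_contra h0
  have hc : (d.P i).card = 0 := by omega
  have ht : d.t = 0 := by
    have := d.g5 i h1 h2
    omega
  have h5 := d.g5'
  rw [ht] at h5
  have hX : (2 : ℝ) ≤ d.X := by exact_mod_cast d.hX
  have hL : (1 : ℝ) ≤ d.L := by exact_mod_cast d.hL
  have hf : (1 : ℝ) ≤ (n.factorial : ℝ) := by exact_mod_cast Nat.one_le_iff_ne_zero.2 (Nat.factorial_ne_zero n)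
  have h8 : (1 : ℝ) < 8 * d.X := by linarith
  have hp : (1 : ℝ) < (8 * d.X : ℝ) ^ d.r := one_lt_pow₀ h8 (by omega)
  have hb : (1 : ℝ) < (8 * d.X : ℝ) ^ d.r * d.L := by
    nlinarith
  have hb2 : (1 : ℝ) < (n.factorial : ℝ) * ((8 * d.X : ℝ) ^ d.r * d.L) ^ n := by
    have h3 : (1 : ℝ) < ((8 * d.X : ℝ) ^ d.r * d.L) ^ n :=
      one_lt_pow₀ hb (by have := d.hn; omega)
    nlinarith
  have hlog := Real.log_pos hb2
  simp only [Nat.cast_zero, zero_mul] at h5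
  linarith

omit [IsAlgClosed Ω] [CharZero Ω] in
private theorem G1_l {i : ℕ} (h1 : 1 ≤ i) (h2 : i ≤ d.r) : d.l (i - 1) = 8 * d.X * d.l i := by
  unfold Dat.l
  have h3 : d.r - (i - 1) = (d.r - i) + 1 := by omega
  rw [h3, pow_succ]
  ring

omit [IsAlgClosed Ω] [CharZero Ω] in
private theorem G1_th {i q : ℕ} (h1 : 2 * d.h0 < i) (h2 : i ≤ d.r) (hq : q ∈ d.P i)
    {G : MvPolynomial (Fin n) Ω} (hG : G ∈ GG (d.E i) (d.l i)) :
    th q (d.ρ q) G ∈ GG (d.E (i - 1)) (d.l (i - 1)) := by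
  refine ⟨?_, ?_⟩
  · refine V_mono ?_ (th_mem_V (d.ρ q) hG.1)
    rw [G1_l d (by omega) h2]
    exact Nat.mul_le_mul_right _ (d.hP i h1 h2 q hq).2.2
  · intro z hz
    rw [th_eval, hG.2 _ (d.hρ i h1 h2 q hq z hz), map_zero]

theorem Dat.GG_ne {i : ℕ} (h1 : 2 * d.h0 ≤ i) (h2 : i ≤ d.r) :
    ∃ G ∈ GG (d.E i) (d.l i), G ≠ 0 := by
  obtain ⟨k, rfl⟩ : ∃ k, i = d.r - k := ⟨d.r - i, by omega⟩
  clear h2
  induction k with
  | zero =>
    obtain ⟨G, hG, h0, hz⟩ := d.g1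
    refine ⟨G, ⟨?_, hz⟩, h0⟩
    have : d.l (d.r - 0) = d.L := by simp [Dat.l]
    rw [this]
    exact hG
  | succ k ih =>
    by_cases hk : k < d.r
    · obtain ⟨G, hG, h0⟩ := ih (by omega)
      obtain ⟨q, hq⟩ := G1_nonempty d (i := d.r - k) (by omega) (by omega)
      have h3 : d.r - (k + 1) = (d.r - k) - 1 := by omega
      rw [h3]
      refine ⟨th q (d.ρ q) G, G1_th d (by omega) (by omega) hq hG, th_ne_zero ?_ _ h0⟩
      exact (d.hP _ (by omega) (by omega) q hq).1.pos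
    · have h3 : d.r - (k + 1) = d.r - k := by omega
      rw [h3] at h1 ⊢
      exact ih h1

theorem Dat.dm_lt_n {i j : ℕ} (h1 : 2 * d.h0 ≤ i) (h2 : i ≤ d.r)
    {P : Ideal (MvPolynomial (Fin n) Ω)} (hP : P ∈ ZJ (d.E i) (d.l i) j) : j < n := by
  obtain ⟨hP1, -, hP3⟩ := mem_ZJ.1 hP
  obtain ⟨G, hG, h0⟩ := d.GG_ne h1 h2
  have : P.IsPrime := hP1.1.1
  have : (⊥ : Ideal (MvPolynomial (Fin n) Ω)).IsPrime := Ideal.isPrime_bot
  have hGP : G ∈ P := hP1.1.2 (Ideal.subset_span hG)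
  have hlt : (⊥ : Ideal (MvPolynomial (Fin n) Ω)) < P := by
    refine lt_of_le_of_ne bot_le ?_
    rintro rfl
    exact h0 (by simpa using hGP)
  have h3 := dm_lt hlt
  rw [dm_bot, hP3] at h3
  exact h3

theorem Dat.contract {i j : ℕ} (h1 : 2 * d.h0 < i) (h2 : i ≤ d.r)
    {P : Ideal (MvPolynomial (Fin n) Ω)} (hP : P ∈ ZJ (d.E (i - 1)) (d.l (i - 1)) j) {q : ℕ}
    (hq : q ∈ d.P i) :
    ∃ j', j ≤ j' ∧ ∃ Q ∈ ZJ (d.E i) (d.l i) j', Q ≤ P.comap (th q (d.ρ q)) := by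
  obtain ⟨hP1, ⟨z, hz, hPz⟩, hP3⟩ := mem_ZJ.1 hP
  have : P.IsPrime := hP1.1.1
  have : (P.comap (th q (d.ρ q))).IsPrime := Ideal.comap_isPrime _ _
  have hq0 : 0 < q := (d.hP i h1 h2 q hq).1.pos
  have hle : Ideal.span (GG (d.E i) (d.l i)) ≤ P.comap (th q (d.ρ q)) := by
    rw [Ideal.span_le]
    intro G hG
    exact hP1.1.2 (Ideal.subset_span (G1_th d h1 h2 hq hG))
  obtain ⟨Q, hQ, hQP⟩ := Ideal.exists_minimalPrimes_le hle
  have : Q.IsPrime := hQ.1.1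
  refine ⟨dm Q, ?_, Q, mem_ZJ.2 ⟨hQ, ⟨_, d.hρ i h1 h2 q hq z hz, ?_⟩, rfl⟩, hQP⟩
  · rw [← hP3, ← th_dm hq0 (d.ρ q) P]
    rcases eq_or_lt_of_le hQP with h | h
    · rw [h]
    · exact (dm_lt h).le
  · rw [← th_comap_mx]
    exact hQP.trans (Ideal.comap_mono hPz)

end DR
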