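import Pool.Agent.Lib.MP_a325a5_ag.DR.H4b

/-! DR_PROOF 2.3: constants C_0 = 1, C_j = j C_(j-1) + 1 ≤ 3 j!. Points from the Nullstellensatz (MvPolynomial.vanishingIdeal_zeroLocus_eq_radical), h - 1 independent evaluations. -/

open MvPolynomial

namespace DR

variable {Ω : Type} [Field Ω] {n : ℕ}

/-- elements of `V ν` vanishing on `U` -/
def H6_K (U : Set (Fin n → Ω)) (ν : ℕ) : Submodule Ω (MvPolynomial (Fin n) Ω) where
  carrier := {g | g ∈ V Ω n ν ∧ ∀ z ∈ U, eval z g = 0}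
  add_mem' := fun {f g} hf hg => ⟨add_mem hf.1 hg.1, fun z hz => by
    rw [map_add, hf.2 z hz, hg.2 z hz, add_zero]⟩
  zero_mem' := ⟨zero_mem _, fun z _ => map_zero _⟩
  smul_mem' := fun c f hf => ⟨Submodule.smul_mem _ c hf.1, fun z hz => by
    rw [smul_eval, hf.2 z hz, mul_zero]⟩

theorem H6_mem {U : Set (Fin n → Ω)} {ν : ℕ} {g : MvPolynomial (Fin n) Ω} :
    g ∈ H6_K U ν ↔ g ∈ V Ω n ν ∧ ∀ z ∈ U, eval z g = 0 := Iff.rfl

theorem H6_le (U : Set (Fin n → Ω)) (ν : ℕ) : H6_K U ν ≤ V Ω n ν := fun _ h => h.1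

instance H6_fin (U : Set (Fin n → Ω)) (ν : ℕ) : Module.Finite Ω (H6_K U ν) :=
  Submodule.finiteDimensional_of_le (S₂ := V Ω n ν) (H6_le U ν)

/-- the constants -/
def H6_C : ℕ → ℕ
  | 0 => 1
  | j + 1 => (j + 1) * H6_C j + 1

theorem H6_C_le (j : ℕ) : H6_C j + 1 ≤ 3 * j.factorial := by
  rcases j with _ | _ | j
  · simp [H6_C]
  · simp [H6_C]
  · induction j with
    | zero => simp [H6_C, Nat.factorial]
    | succ j ih =>
      have h1 : H6_C (j + 3) = (j + 3) * H6_C (j + 2) + 1 := rfl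
      have h2 : (j + 3).factorial = (j + 3) * (j + 2).factorial := rfl
      have ih' : H6_C (j + 2) + 1 ≤ 3 * (j + 2).factorial := ih
      show H6_C (j + 3) + 1 ≤ 3 * (j + 3).factorial
      rw [h1, h2]
      have h3 := Nat.mul_le_mul_left (j + 3) ih'
      nlinarith

/-- one more point drops the dimension by one -/
theorem H6_drop (U : Set (Fin n → Ω)) (ν : ℕ) (z : Fin n → Ω) {g : MvPolynomial (Fin n) Ω}
    (hg : g ∈ H6_K U ν) (hz : eval z g ≠ 0) :
    Module.finrank Ω (H6_K (insert z U) ν) + 1 = Module.finrank Ω (H6_K U ν) := by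
  have h := LinearMap.finrank_range_add_finrank_ker
    (((aeval z : MvPolynomial (Fin n) Ω →ₐ[Ω] Ω).toLinearMap).domRestrict (H6_K U ν))
  have hr : LinearMap.range
      (((aeval z : MvPolynomial (Fin n) Ω →ₐ[Ω] Ω).toLinearMap).domRestrict (H6_K U ν)) = ⊤ := by
    rw [LinearMap.range_eq_top]
    apply LinearMap.surjective
    intro h0
    have h1 := congrArg (fun l => l ⟨g, hg⟩) h0
    apply hz
    simpa [aeval_eq_eval] using h1
  rw [hr, finrank_top, Module.finrank_self] at h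
  have hk : Module.finrank Ω (LinearMap.ker
      (((aeval z : MvPolynomial (Fin n) Ω →ₐ[Ω] Ω).toLinearMap).domRestrict (H6_K U ν))) =
      Module.finrank Ω (H6_K (insert z U) ν) := by
    rw [LinearMap.ker_domRestrict]
    have e : H6_K (insert z U) ν = H6_K U ν ⊓
        LinearMap.ker (aeval z : MvPolynomial (Fin n) Ω →ₐ[Ω] Ω).toLinearMap := by
      ext f
      rw [Submodule.mem_inf, LinearMap.mem_ker, H6_mem, H6_mem]
      have : (aeval z : MvPolynomial (Fin n) Ω →ₐ[Ω] Ω).toLinearMap f = eval z f := by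
        simp [aeval_eq_eval]
      rw [this]
      constructor
      · rintro ⟨h1, h2⟩
        exact ⟨⟨h1, fun y hy => h2 y (Set.mem_insert_of_mem _ hy)⟩, h2 z (Set.mem_insert _ _)⟩
      · rintro ⟨⟨h1, h2⟩, h3⟩
        refine ⟨h1, fun y hy => ?_⟩
        rcases hy with rfl | hy
        · exact h3
        · exact h2 y hy
    rw [e, ← Submodule.map_comap_subtype]
    exact (Submodule.finrank_map_subtype_eq _ _).symm
  rw [hk] at h
  omega

theorem H6_ge (P : Ideal (MvPolynomial (Fin n) Ω)) {U : Set (Fin n → Ω)}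
    (hU : ∀ z ∈ U, P ≤ mx z) (ν : ℕ) : V Ω n ν ⊓ H1b_sub P ≤ H6_K U ν :=
  fun _ hf => ⟨hf.1, fun z hz => hU z hz hf.2⟩

/-- Nullstellensatz -/
theorem H6_null [IsAlgClosed Ω] (P : Ideal (MvPolynomial (Fin n) Ω)) [P.IsPrime]
    {g : MvPolynomial (Fin n) Ω} (hg : g ∉ P) : ∃ z, P ≤ mx z ∧ eval z g ≠ 0 := by
  by_contra hcon
  push Not at hcon
  apply hg
  rw [← MvPolynomial.IsPrime.vanishingIdeal_zeroLocus (K := Ω) P, mem_vanishingIdeal_iff]
  intro z hz
  rw [mem_zeroLocus_iff] at hz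
  have h1 := hcon z (fun p hp => by
    have h2 := hz p hp
    rw [aeval_eq_eval] at h2
    exact h2)
  rw [aeval_eq_eval]
  exact h1

/-- points with a kernel of dimension one modulo `P` -/
theorem H6_points [IsAlgClosed Ω] (P : Ideal (MvPolynomial (Fin n) Ω)) [P.IsPrime] (ν m : ℕ)
    (U : Set (Fin n → Ω)) (hU : ∀ z ∈ U, P ≤ mx z)
    (hm : Module.finrank Ω (H6_K U ν) = Module.finrank Ω ↥(V Ω n ν ⊓ H1b_sub P) + 1 + m) :
    ∃ U' : Set (Fin n → Ω), (∀ z ∈ U', P ≤ mx z) ∧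
      Module.finrank Ω (H6_K U' ν) = Module.finrank Ω ↥(V Ω n ν ⊓ H1b_sub P) + 1 := by
  induction m generalizing U with
  | zero => exact ⟨U, hU, hm⟩
  | succ m ih =>
    obtain ⟨g, hg, hgP⟩ : ∃ g ∈ H6_K U ν, g ∉ P := by
      by_contra hcon
      push Not at hcon
      have h1 : H6_K U ν ≤ V Ω n ν ⊓ H1b_sub P := fun g hg => ⟨hg.1, hcon g hg⟩
      have h2 := Submodule.finrank_mono h1
      omega
    obtain ⟨z, hz, hgz⟩ := H6_null P hgP
    have h3 := H6_drop U ν z hg hgz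
    apply ih (insert z U)
    · intro y hy
      rcases hy with rfl | hy
      · exact hz
      · exact hU y hy
    · omega

theorem H6_step [IsAlgClosed Ω] (P : Ideal (MvPolynomial (Fin n) Ω)) [P.IsPrime] (ν : ℕ) :
    ∃ f ∈ V Ω n ν, f ∉ P ∧ ∃ s : Finset (Ideal (MvPolynomial (Fin n) Ω)),
      (∀ Q ∈ s, Q ∈ (P ⊔ Ideal.span {f}).minimalPrimes) ∧ H P ν ≤ 1 + ∑ Q ∈ s, H Q ν := by
  classical
  by_cases hh : H P ν ≤ 1
  · refine ⟨1, fun i => by simp, fun h => ?_, ∅, by simp, by simpa using hh⟩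
    exact Ideal.IsPrime.ne_top (I := P) inferInstance ((Ideal.eq_top_iff_one P).mpr h)
  · have h1 := H1b_add P ν
    have h0 : H6_K (∅ : Set (Fin n → Ω)) ν = V Ω n ν := by
      ext g
      rw [H6_mem]
      simp
    obtain ⟨U, hU, hUr⟩ := H6_points P ν (H P ν - 1) ∅ (by simp) (by
      rw [h0, finrank_V]
      omega)
    obtain ⟨f, hf, hfP⟩ : ∃ g ∈ H6_K U ν, g ∉ P := by
      by_contra hcon
      push Not at hcon
      have h1 : H6_K U ν ≤ V Ω n ν ⊓ H1b_sub P := fun g hg => ⟨hg.1, hcon g hg⟩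
      have h2 := Submodule.finrank_mono h1
      omega
    refine ⟨f, hf.1, hfP, (Ideal.finite_minimalPrimes_of_isNoetherianRing
      (MvPolynomial (Fin n) Ω) (P ⊔ Ideal.span {f})).toFinset,
      fun Q hQ => (Set.Finite.mem_toFinset _).mp hQ, ?_⟩
    set s := (Ideal.finite_minimalPrimes_of_isNoetherianRing
      (MvPolynomial (Fin n) Ω) (P ⊔ Ideal.span {f})).toFinset with hs
    have hle : V Ω n ν ⊓ H1b_sub (s.inf id) ≤ H6_K U ν := by
      rintro g ⟨hg1, hg2⟩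
      refine ⟨hg1, fun z hz => ?_⟩
      have hz1 : P ⊔ Ideal.span {f} ≤ mx z := by
        refine sup_le (hU z hz) ?_
        rw [Ideal.span_singleton_le_iff_mem]
        exact hf.2 z hz
      have hzp : (mx z).IsPrime := RingHom.ker_isPrime _
      obtain ⟨Q, hQ, hQz⟩ := Ideal.exists_minimalPrimes_le hz1
      have hQs : Q ∈ s := (Set.Finite.mem_toFinset _).mpr hQ
      have h3 : g ∈ Q := by
        have h4 : s.inf id ≤ Q := Finset.inf_le hQs
        exact h4 hg2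
      exact hQz h3
    have h5 := Submodule.finrank_mono hle
    have h6 := H1b_add (s.inf id) ν
    have h7 := H_inf_le s ν
    omega

theorem H6_main [IsAlgClosed Ω] (j : ℕ) : ∀ (P : Ideal (MvPolynomial (Fin n) Ω)), P.IsPrime →
    dm P = j → ∀ ν : ℕ, 1 ≤ ν → (H P ν : ℝ) ≤ H6_C j * e P * (ν : ℝ) ^ j := by
  induction j with
  | zero =>
    intro P hP hj ν hν
    obtain ⟨f, hf, hfP, s, hs, hle⟩ := H6_step P ν
    have hse : s = ∅ := by
      rw [Finset.eq_empty_iff_forall_notMem]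
      intro Q hQ
      have := krull P Q hfP (hs Q hQ)
      omega
    rw [hse, Finset.sum_empty] at hle
    have h1 : (H P ν : ℝ) ≤ 1 := by exact_mod_cast hle
    have h2 := e_ge_one P
    simp only [H6_C, Nat.cast_one, one_mul, pow_zero, mul_one]
    linarith
  | succ j ih =>
    intro P hP hj ν hν
    obtain ⟨f, hf, hfP, s, hs, hle⟩ := H6_step P ν
    have hν' : (1 : ℝ) ≤ ν := by exact_mod_cast hν
    have h1 : (H P ν : ℝ) ≤ 1 + ∑ Q ∈ s, (H Q ν : ℝ) := by exact_mod_cast hle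
    have h2 : ∑ Q ∈ s, (H Q ν : ℝ) ≤ ∑ Q ∈ s, H6_C j * (ν : ℝ) ^ j * e Q := by
      apply Finset.sum_le_sum
      intro Q hQ
      have hd := krull P Q hfP (hs Q hQ)
      have h3 := ih Q (hs Q hQ).1.1 (by omega) ν hν
      linarith
    rw [← Finset.mul_sum] at h2
    have h4 := bez_one P hν hf hfP s hs
    rw [hj] at h4
    have h5 : H6_C j * (ν : ℝ) ^ j * ∑ Q ∈ s, e Q ≤
        H6_C j * (ν : ℝ) ^ j * (((j + 1 : ℕ) : ℝ) * ν * e P) :=
      mul_le_mul_of_nonneg_left h4 (by positivity)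
    have h6 := e_ge_one P
    have h7 : (1 : ℝ) ≤ e P * (ν : ℝ) ^ (j + 1) := by
      have := one_le_pow₀ hν' (n := j + 1)
      nlinarith
    have h8 : (H6_C (j + 1) : ℝ) = ((j + 1 : ℕ) : ℝ) * H6_C j + 1 := by
      have : H6_C (j + 1) = (j + 1) * H6_C j + 1 := rfl
      rw [this]; push_cast; ring
    rw [h8]
    calc (H P ν : ℝ) ≤ 1 + H6_C j * (ν : ℝ) ^ j * (((j + 1 : ℕ) : ℝ) * ν * e P) := by linarith
      _ ≤ e P * (ν : ℝ) ^ (j + 1) + H6_C j * (ν : ℝ) ^ j * (((j + 1 : ℕ) : ℝ) * ν * e P) := by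
          linarith
      _ = (((j + 1 : ℕ) : ℝ) * H6_C j + 1) * e P * (ν : ℝ) ^ (j + 1) := by ring

theorem H_le_e [IsAlgClosed Ω] (P : Ideal (MvPolynomial (Fin n) Ω)) [P.IsPrime] (ν : ℕ)
    (hν : 1 ≤ ν) : (H P ν : ℝ) ≤ 3 * (dm P).factorial * e P * (ν : ℝ) ^ dm P := by
  have h1 := H6_main (dm P) P inferInstance rfl ν hν
  have h2 := e_ge_one P
  have h3 : (H6_C (dm P) : ℝ) ≤ 3 * (dm P).factorial := by
    have := H6_C_le (dm P)
    have h4 : H6_C (dm P) ≤ 3 * (dm P).factorial := by omega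
    exact_mod_cast h4
  refine h1.trans ?_
  exact mul_le_mul_of_nonneg_right (mul_le_mul_of_nonneg_right h3 (by linarith)) (by positivity)

end DR
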