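import Pool.Agent.Lib.MP_a325a5_ag.DR.T1
import Pool.Agent.Lib.MP_a325a5_ag.DR.H5
import Pool.Agent.Lib.MP_a325a5_ag.DR.H6

/-! DR_PROOF 6 (c): the group acts; crude Bezout bound; finite orbit. -/

open MvPolynomial

namespace DR

variable {Ω : Type} [Field Ω] {n : ℕ}

private theorem G2a_mem (φ : MvPolynomial (Fin n) Ω ≃+* MvPolynomial (Fin n) Ω)
    (I : Ideal (MvPolynomial (Fin n) Ω)) (f : MvPolynomial (Fin n) Ω) :
    f ∈ I.map φ.toRingHom ↔ φ.symm f ∈ I := by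
  constructor
  · intro h
    have h1 : I.map φ.toRingHom ≤ I.comap φ.symm.toRingHom := by
      rw [Ideal.map_le_iff_le_comap]
      intro x hx
      rw [Ideal.mem_comap, Ideal.mem_comap]
      show φ.symm (φ x) ∈ I
      rw [RingEquiv.symm_apply_apply]
      exact hx
    exact h1 h
  · intro h
    have h1 := Ideal.mem_map_of_mem φ.toRingHom h
    have h2 : φ.toRingHom (φ.symm f) = f := RingEquiv.apply_symm_apply φ f
    rw [h2] at h1
    exact h1

private theorem G2a_prime (φ : MvPolynomial (Fin n) Ω ≃+* MvPolynomial (Fin n) Ω)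
    (P : Ideal (MvPolynomial (Fin n) Ω)) [hP : P.IsPrime] : (P.map φ.toRingHom).IsPrime := by
  have h1 : P.map φ.toRingHom = P.comap φ.symm.toRingHom := by
    ext f
    rw [G2a_mem, Ideal.mem_comap]
    rfl
  rw [h1]
  exact Ideal.comap_isPrime _ _

private theorem G2a_symm (γ : Ω ≃+* Ω) :
    (cf γ : MvPolynomial (Fin n) Ω ≃+* MvPolynomial (Fin n) Ω).symm = cf γ.symm := rfl

private theorem G2a_eval (γ : Ω ≃+* Ω) (z : Fin n → Ω) (f : MvPolynomial (Fin n) Ω) :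
    eval (fun j => γ (z j)) (cf γ f) = γ (eval z f) :=
  (MvPolynomial.map_eval γ.toRingHom z f).symm

private theorem G2a_min {φ : MvPolynomial (Fin n) Ω ≃+* MvPolynomial (Fin n) Ω}
    {I P : Ideal (MvPolynomial (Fin n) Ω)} (hI : ∀ f ∈ I, φ.symm f ∈ I) (hI' : ∀ f ∈ I, φ f ∈ I)
    (hP : P ∈ I.minimalPrimes) : P.map φ.toRingHom ∈ I.minimalPrimes := by
  have hPp : P.IsPrime := hP.1.1
  refine ⟨⟨G2a_prime φ P, fun f hf => ?_⟩, fun Q hQ hQP => ?_⟩
  · rw [G2a_mem]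
    exact hP.1.2 (hI f hf)
  · have hQp : Q.IsPrime := hQ.1
    have h1 : P ≤ Q.comap φ.toRingHom := by
      refine hP.2 ⟨Ideal.comap_isPrime _ _, fun f hf => ?_⟩ fun f hf => ?_
      · exact hQ.2 (hI' f hf)
      · have h2 := hQP (Ideal.mem_comap.1 hf)
        rw [G2a_mem] at h2
        have h3 : φ.symm (φ.toRingHom f) = f := RingEquiv.symm_apply_apply φ f
        rw [h3] at h2
        exact h2
    exact Ideal.map_le_iff_le_comap.2 h1

private theorem G2a_coeff (w : Fin n → ℤ) (c : ℤ) (f : MvPolynomial (Fin n) Ω)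
    (a : Fin n →₀ ℕ) : coeff a (wc w c f) = if wgt w a = c then coeff a f else 0 := by
  classical
  unfold wc
  rw [coeff_sum]
  simp only [coeff_monomial]
  rw [Finset.sum_ite_eq' (f.support.filter (fun a => wgt w a = c)) a (fun b => coeff b f)]
  by_cases h : wgt w a = c
  · rw [if_pos h]
    by_cases h1 : a ∈ f.support
    · rw [if_pos (Finset.mem_filter.2 ⟨h1, h⟩)]
    · rw [if_neg (fun h2 => h1 (Finset.mem_filter.1 h2).1)]
      rw [mem_support_iff, not_not] at h1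
      exact h1.symm
  · rw [if_neg h, if_neg]
    intro h2
    exact h (Finset.mem_filter.1 h2).2

private theorem G2a_wc (w : Fin n → ℤ) (c : ℤ) (γ : Ω ≃+* Ω) (f : MvPolynomial (Fin n) Ω) :
    wc w c (cf γ f) = cf γ (wc w c f) := by
  ext a
  have h1 : ∀ g : MvPolynomial (Fin n) Ω, coeff a (cf γ g) = γ (coeff a g) := fun g =>
    coeff_map γ.toRingHom g a
  rw [G2a_coeff, h1, h1, G2a_coeff]
  split_ifs
  · rfl
  · rw [map_zero]

private theorem G2a_V {w : Fin n → ℤ} {c : ℤ} {ν : ℕ} {f : MvPolynomial (Fin n) Ω}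
    (hf : f ∈ V Ω n ν) : wc w c f ∈ V Ω n ν := by
  intro i
  rw [degreeOf_le_iff]
  intro a ha
  rw [mem_support_iff, G2a_coeff] at ha
  have h1 := hf i
  rw [degreeOf_le_iff] at h1
  refine h1 a ?_
  rw [mem_support_iff]
  intro h2
  apply ha
  rw [h2, ite_self]

variable [IsAlgClosed Ω] [CharZero Ω] (d : Dat Ω n)

private theorem G2a_gg {i l : ℕ} {γ : Ω ≃+* Ω} (hγ : γ ∈ d.Γ) {f : MvPolynomial (Fin n) Ω}
    (hf : f ∈ Ideal.span (GG (d.E i) l)) : cf γ f ∈ Ideal.span (GG (d.E i) l) := by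
  have h1 : Ideal.span (GG (d.E i) l) ≤ (Ideal.span (GG (d.E i) l)).comap
      (cf γ : MvPolynomial (Fin n) Ω ≃+* MvPolynomial (Fin n) Ω).toRingHom := by
    rw [Ideal.span_le]
    rintro g ⟨hg, hg'⟩
    rw [SetLike.mem_coe, Ideal.mem_comap]
    refine Ideal.subset_span ⟨((sym_cf γ).box l g).1 hg, fun z hz => ?_⟩
    have h2 := d.hΓE γ.symm (d.hΓs γ hγ) i z hz
    have h3 := G2a_eval γ (fun j => γ.symm (z j)) g
    have h4 : (fun j => γ (γ.symm (z j))) = z := by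
      funext j
      exact RingEquiv.apply_symm_apply γ (z j)
    rw [h4, hg' _ h2, map_zero] at h3
    exact h3
  exact h1 hf

theorem Dat.act {i j : ℕ} {P : Ideal (MvPolynomial (Fin n) Ω)} (hP : P ∈ ZJ (d.E i) (d.l i) j)
    {γ : Ω ≃+* Ω} (hγ : γ ∈ d.Γ) : P.map (cf γ).toRingHom ∈ ZJ (d.E i) (d.l i) j := by
  rw [mem_ZJ] at hP ⊢
  obtain ⟨h1, ⟨z, hz, hz'⟩, h3⟩ := hP
  have hPp : P.IsPrime := h1.1.1
  refine ⟨G2a_min (fun f hf => ?_) (fun f hf => G2a_gg d hγ hf) h1, ⟨fun j => γ (z j),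
    d.hΓE γ hγ i z hz, ?_⟩, ?_⟩
  · rw [G2a_symm]
    exact G2a_gg d (d.hΓs γ hγ) hf
  · intro f hf
    rw [G2a_mem] at hf
    have h4 : eval z ((cf γ).symm f) = 0 := hz' hf
    have h5 := G2a_eval γ z ((cf γ).symm f)
    rw [RingEquiv.apply_symm_apply, h4, map_zero] at h5
    exact h5
  · rw [sym_dm (sym_cf γ) P, h3]

private theorem G2a_l (i : ℕ) : 1 ≤ d.l i := by
  have h1 := d.hX
  have h2 := d.hL
  unfold Dat.l
  exact Nat.one_le_iff_ne_zero.2 (Nat.mul_ne_zero (pow_ne_zero _ (by omega)) (by omega))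

private theorem G2a_e {i l j : ℕ} {P : Ideal (MvPolynomial (Fin n) Ω)}
    (hP : P ∈ ZJ (d.E i) l j) : 1 ≤ e P := by
  rw [mem_ZJ] at hP
  have : P.IsPrime := hP.1.1.1
  exact e_ge_one P

theorem Dat.mj_le (i j : ℕ) : mj (d.E i) (d.l i) j ≤ n.factorial * (d.l i : ℝ) ^ (n - j) := by
  haveI : (⊥ : Ideal (MvPolynomial (Fin n) Ω)).IsPrime := Ideal.isPrime_bot
  have h1 := bezout (⊥ : Ideal (MvPolynomial (Fin n) Ω)) (G2a_l d i) (GG (d.E i) (d.l i))
    (fun g hg => hg.1) j (ZJ (d.E i) (d.l i) j) (fun P hP => by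
      rw [mem_ZJ] at hP
      rw [bot_sup_eq]
      exact ⟨hP.1, hP.2.2⟩)
  rw [dm_bot, e_bot, mul_one] at h1
  have h2 : 0 ≤ mj (d.E i) (d.l i) j :=
    Finset.sum_nonneg fun P hP => le_trans zero_le_one (G2a_e d hP)
  have h3 : (1 : ℝ) ≤ j.factorial := by exact_mod_cast j.factorial_pos
  calc mj (d.E i) (d.l i) j = 1 * mj (d.E i) (d.l i) j := (one_mul _).symm
    _ ≤ j.factorial * mj (d.E i) (d.l i) j := mul_le_mul_of_nonneg_right h3 h2
    _ ≤ _ := h1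

theorem Dat.card_ZJ (i j : ℕ) : ((ZJ (d.E i) (d.l i) j).card : ℝ) ≤ mj (d.E i) (d.l i) j := by
  unfold mj
  rw [Finset.card_eq_sum_ones, Nat.cast_sum]
  refine Finset.sum_le_sum fun P hP => ?_
  rw [Nat.cast_one]
  exact G2a_e d hP

/-- a polynomial of small degree vanishing on all conjugates; w-homogeneous if P is -/
theorem Dat.low {i j : ℕ} {P : Ideal (MvPolynomial (Fin n) Ω)} (hP : P ∈ ZJ (d.E i) (d.l i) j)
    (hj : j < n) {z : Fin n → Ω} (hz : P ≤ mx z) (ν : ℕ) (hν : 1 ≤ ν)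
    (h : 3 * (n.factorial : ℝ) * mj (d.E i) (d.l i) j * (ν : ℝ) ^ j < ((ν : ℝ) + 1) ^ n)
    (w : Fin n → ℤ) (hw : WHom w P) :
    ∃ F ∈ V Ω n ν, F ≠ 0 ∧ (∀ a ∈ F.support, ∀ b ∈ F.support, wgt w a = wgt w b) ∧
      ∀ γ ∈ d.Γ, eval (fun j => γ (z j)) F = 0 := by
  classical
  have hP' := hP
  rw [mem_ZJ] at hP'
  have hPp : P.IsPrime := hP'.1.1.1
  obtain ⟨CC, hCC⟩ : ∃ CC, CC = (ZJ (d.E i) (d.l i) j).filter
    (fun Q => ∃ γ ∈ d.Γ, Q = P.map (cf γ).toRingHom) := ⟨_, rfl⟩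
  have hCm : ∀ γ ∈ d.Γ, P.map (cf γ).toRingHom ∈ CC := by
    intro γ hγ
    rw [hCC, Finset.mem_filter]
    exact ⟨d.act hP hγ, γ, hγ, rfl⟩
  have hsum : ∑ Q ∈ CC, (H Q ν : ℝ) < ((ν : ℝ) + 1) ^ n := by
    refine lt_of_le_of_lt ?_ h
    have h1 : ∀ Q ∈ CC, (H Q ν : ℝ) ≤ 3 * (n.factorial : ℝ) * e Q * (ν : ℝ) ^ j := by
      intro Q hQ
      rw [hCC, Finset.mem_filter] at hQ
      have hQ' := hQ.1
      rw [mem_ZJ] at hQ'
      have hQp : Q.IsPrime := hQ'.1.1.1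
      have h2 := H_le_e Q ν hν
      rw [hQ'.2.2] at h2
      refine h2.trans ?_
      have h3 : (j.factorial : ℝ) ≤ n.factorial := by
        exact_mod_cast Nat.factorial_le hj.le
      have h4 : 0 ≤ e Q := le_trans zero_le_one (G2a_e d hQ.1)
      gcongr
    refine (Finset.sum_le_sum h1).trans ?_
    rw [← Finset.sum_mul, ← Finset.mul_sum]
    have h5 : ∑ Q ∈ CC, e Q ≤ mj (d.E i) (d.l i) j := by
      unfold mj
      refine Finset.sum_le_sum_of_subset_of_nonneg ?_ fun Q hQ _ =>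
        le_trans zero_le_one (G2a_e d hQ)
      rw [hCC]
      exact Finset.filter_subset _ _
    gcongr
  have hH : H (CC.inf id) ν < (ν + 1) ^ n := by
    have h1 : ((H (CC.inf id) ν : ℕ) : ℝ) ≤ ∑ Q ∈ CC, (H Q ν : ℝ) := by
      exact_mod_cast H_inf_le CC ν
    have h2 := lt_of_le_of_lt h1 hsum
    exact_mod_cast h2
  obtain ⟨F, hFV, hF0, hFI⟩ := exists_mem _ ν hH
  obtain ⟨a, ha⟩ : ∃ a, coeff a F ≠ 0 := by
    by_contra hcon
    push Not at hcon
    apply hF0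
    ext a
    rw [hcon, coeff_zero]
  refine ⟨wc w (wgt w a) F, G2a_V hFV, ?_, ?_, ?_⟩
  · intro h1
    have h2 := G2a_coeff w (wgt w a) F a
    rw [h1, coeff_zero, if_pos rfl] at h2
    exact ha h2.symm
  · have h1 : ∀ b ∈ (wc w (wgt w a) F).support, wgt w b = wgt w a := by
      intro b hb
      rw [mem_support_iff, G2a_coeff] at hb
      by_contra hcon
      rw [if_neg hcon] at hb
      exact hb rfl
    intro b hb c hc
    rw [h1 b hb, h1 c hc]
  · intro γ hγ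
    have h1 : F ∈ P.map (cf γ).toRingHom := by
      have h2 : CC.inf id ≤ P.map (cf γ).toRingHom := Finset.inf_le (f := id) (hCm γ hγ)
      exact h2 hFI
    rw [G2a_mem] at h1
    have h3 := hw _ h1 (wgt w a)
    have h4 : eval z (wc w (wgt w a) ((cf γ).symm F)) = 0 := hz h3
    have h5 := G2a_eval γ z (wc w (wgt w a) ((cf γ).symm F))
    rw [← G2a_wc, RingEquiv.apply_symm_apply, h4, map_zero] at h5
    exact h5

theorem WHom_zero (P : Ideal (MvPolynomial (Fin n) Ω)) : WHom 0 P := by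
  intro f hf c
  have h0 : ∀ a : Fin n →₀ ℕ, wgt (0 : Fin n → ℤ) a = 0 := by
    intro a
    unfold wgt
    simp
  by_cases hc : c = 0
  · have h1 : wc 0 c f = f := by
      ext a
      rw [G2a_coeff, h0, if_pos hc.symm]
    rw [h1]
    exact hf
  · have h1 : wc 0 c f = 0 := by
      ext a
      rw [G2a_coeff, h0, if_neg (fun h => hc h.symm), coeff_zero]
    rw [h1]
    exact zero_mem P

end DR
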