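import Pool.Agent.Lib.MP_a325a5_ag.DR.H2a

/-! DR_PROOF 1.2, upper bound. Coordinates J form a transcendence basis mod P; a_i(x_J) x_i^(n_i) = - sum of lower powers mod P; (prod a_i)^ν V_ν is mod P in a space of dimension ≤ C ν^dm. -/

open MvPolynomial

namespace DR

variable {Ω : Type} [Field Ω] {n : ℕ}

private noncomputable def h2c_Phi {A : Type} [CommRing A] [Algebra Ω A] {s : ℕ}
    (g : MvPolynomial (Fin s) Ω →ₐ[Ω] A) (T : Finset A) :
    (T → MvPolynomial (Fin s) Ω) →ₗ[Ω] A where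
  toFun c := ∑ t, g (c t) * (t : A)
  map_add' c c' := by
    simp [add_mul, Finset.sum_add_distrib]
  map_smul' a c := by
    simp [Finset.smul_sum]

private noncomputable def h2c_M {A : Type} [CommRing A] [Algebra Ω A] {s : ℕ}
    (g : MvPolynomial (Fin s) Ω →ₐ[Ω] A) (T : Finset A) (N : ℕ) : Submodule Ω A :=
  (Submodule.pi Set.univ fun _ : T => V Ω s N).map (h2c_Phi g T)

private theorem h2c_mem {A : Type} [CommRing A] [Algebra Ω A] {s : ℕ}
    (g : MvPolynomial (Fin s) Ω →ₐ[Ω] A) (T : Finset A) (N : ℕ) (y : A) :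
    y ∈ h2c_M g T N ↔ ∃ c : T → MvPolynomial (Fin s) Ω, (∀ t, c t ∈ V Ω s N) ∧
      ∑ t, g (c t) * (t : A) = y := by
  constructor
  · rintro ⟨c, hc, rfl⟩
    exact ⟨c, fun t => hc t (Set.mem_univ t), rfl⟩
  · rintro ⟨c, hc, rfl⟩
    exact ⟨c, fun t _ => hc t, rfl⟩

private theorem h2c_mono {A : Type} [CommRing A] [Algebra Ω A] {s : ℕ}
    (g : MvPolynomial (Fin s) Ω →ₐ[Ω] A) (T : Finset A) {N N' : ℕ} (h : N ≤ N') {y : A}
    (hy : y ∈ h2c_M g T N) : y ∈ h2c_M g T N' := by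
  obtain ⟨c, hc, rfl⟩ := (h2c_mem g T N y).1 hy
  exact (h2c_mem g T N' _).2 ⟨c, fun t => V_mono h (hc t), rfl⟩

private theorem h2c_fin {A : Type} [CommRing A] [Algebra Ω A] {s : ℕ}
    (g : MvPolynomial (Fin s) Ω →ₐ[Ω] A) (T : Finset A) (N : ℕ) :
    Module.Finite Ω (h2c_M g T N) ∧ Module.finrank Ω (h2c_M g T N) ≤ T.card * (N + 1) ^ s := by
  let W := T → V Ω s N
  let ψ : (T → V Ω s N) →ₗ[Ω] A :=
    (h2c_Phi g T).comp (LinearMap.pi fun t => (V Ω s N).subtype.comp (LinearMap.proj t))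
  have h1 : h2c_M g T N = LinearMap.range ψ := by
    ext y
    rw [h2c_mem]
    constructor
    · rintro ⟨c, hc, rfl⟩
      exact ⟨fun t => ⟨c t, hc t⟩, rfl⟩
    · rintro ⟨c, rfl⟩
      exact ⟨fun t => c t, fun t => (c t).2, rfl⟩
  rw [h1]
  refine ⟨inferInstance, ?_⟩
  refine (LinearMap.finrank_range_le ψ).trans ?_
  rw [Module.finrank_pi_fintype]
  simp only [finrank_V]
  simp

private theorem h2c_mul {A : Type} [CommRing A] [Algebra Ω A] {s : ℕ}
    (g : MvPolynomial (Fin s) Ω →ₐ[Ω] A) (T : Finset A) (D : ℕ) (x : A)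
    (hx : ∀ t ∈ T, x * t ∈ h2c_M g T D) (N : ℕ) {y : A} (hy : y ∈ h2c_M g T N) :
    x * y ∈ h2c_M g T (N + D) := by
  obtain ⟨c, hc, rfl⟩ := (h2c_mem g T N y).1 hy
  rw [Finset.mul_sum]
  refine Submodule.sum_mem _ fun t _ => ?_
  obtain ⟨b, hb, hbt⟩ := (h2c_mem g T D _).1 (hx t t.2)
  refine (h2c_mem g T (N + D) _).2 ⟨fun u => c t * b u, fun u => mul_mem_V (hc t) (hb u), ?_⟩
  have h1 : x * (g (c t) * (t : A)) = g (c t) * (x * t) := by ring
  rw [h1, ← hbt, Finset.mul_sum]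
  exact Finset.sum_congr rfl fun u _ => by rw [map_mul]; ring

private theorem h2c_pow {A : Type} [CommRing A] [Algebra Ω A] {s : ℕ}
    (g : MvPolynomial (Fin s) Ω →ₐ[Ω] A) (T : Finset A) (D : ℕ) (x : A)
    (hx : ∀ t ∈ T, x * t ∈ h2c_M g T D) (k N : ℕ) {y : A} (hy : y ∈ h2c_M g T N) :
    x ^ k * y ∈ h2c_M g T (N + k * D) := by
  induction k with
  | zero => simpa using hy
  | succ k ih =>
    have h1 := h2c_mul g T D x hx _ ih
    rw [pow_succ', mul_assoc]
    rw [show N + (k + 1) * D = N + k * D + D by ring]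
    exact h1

theorem H_upper (P : Ideal (MvPolynomial (Fin n) Ω)) [P.IsPrime] :
    ∃ C : ℝ, 0 ≤ C ∧ ∀ ν : ℕ, 1 ≤ ν → (H P ν : ℝ) ≤ C * (ν : ℝ) ^ dm P := by
  classical
  obtain ⟨s, g, hg, hfin⟩ :=
    exists_finite_inj_algHom_of_fg Ω (MvPolynomial (Fin n) Ω ⧸ P)
  have hs : s ≤ dm P := by
    refine dm_indep P (fun i => g (X i)) ?_
    have h1 : (MvPolynomial.aeval fun i => g (X i) :
        MvPolynomial (Fin s) Ω →ₐ[Ω] MvPolynomial (Fin n) Ω ⧸ P) = g := by
      apply MvPolynomial.algHom_ext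
      intro i
      simp
    unfold AlgebraicIndependent
    rw [h1]
    exact hg
  set x : Fin n → MvPolynomial (Fin n) Ω ⧸ P := fun i => Ideal.Quotient.mk P (X i) with hx
  obtain ⟨T, hT⟩ : ∃ T : Finset (MvPolynomial (Fin n) Ω ⧸ P), ∀ a, ∃ N, a ∈ h2c_M g T N := by
    letI := g.toRingHom.toAlgebra
    have hf : Module.Finite (MvPolynomial (Fin s) Ω) (MvPolynomial (Fin n) Ω ⧸ P) := hfin
    obtain ⟨T, hT⟩ := hf.fg_top
    refine ⟨T, fun a => ?_⟩
    have ha : a ∈ Submodule.span (MvPolynomial (Fin s) Ω)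
      (T : Set (MvPolynomial (Fin n) Ω ⧸ P)) := by rw [hT]; trivial
    obtain ⟨c, hc⟩ := (Submodule.mem_span_finset').1 ha
    choose d hd1 hd using fun t : T => exists_mem_V (c t)
    refine ⟨Finset.univ.sup d, (h2c_mem g T _ a).2 ⟨c, fun t => ?_, ?_⟩⟩
    · exact V_mono (Finset.le_sup (Finset.mem_univ t)) (hd t)
    · rw [← hc]
      rfl
  choose N hN using hT
  obtain ⟨D, hD1, hD⟩ : ∃ D, (1 : MvPolynomial (Fin n) Ω ⧸ P) ∈ h2c_M g T D ∧
      ∀ i, ∀ t ∈ T, x i * t ∈ h2c_M g T D := by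
    refine ⟨N 1 + Finset.univ.sup fun i => T.sup fun t => N (x i * t), ?_, ?_⟩
    · exact h2c_mono g T (Nat.le_add_right _ _) (hN 1)
    · intro i t ht
      refine h2c_mono g T ?_ (hN (x i * t))
      refine le_trans ?_ (Nat.le_add_left _ _)
      have h1 : N (x i * t) ≤ T.sup fun t => N (x i * t) :=
        Finset.le_sup (f := fun t => N (x i * t)) ht
      exact h1.trans (Finset.le_sup (f := fun i => T.sup fun t => N (x i * t))
        (Finset.mem_univ i))
  have hmon : ∀ (a : Fin n →₀ ℕ) (S : Finset (Fin n)),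
      ∏ i ∈ S, x i ^ a i ∈ h2c_M g T (D + (∑ i ∈ S, a i) * D) := by
    intro a S
    induction S using Finset.induction_on with
    | empty => simpa using hD1
    | insert i S hi ih =>
      rw [Finset.prod_insert hi, Finset.sum_insert hi]
      have h1 := h2c_pow g T D (x i) (hD i) (a i) _ ih
      rw [show D + (a i + ∑ i ∈ S, a i) * D = D + (∑ i ∈ S, a i) * D + a i * D by ring]
      exact h1
  have himg : ∀ ν, (V Ω n ν).map (Ideal.Quotient.mkₐ Ω P).toLinearMap ≤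
      h2c_M g T (D + n * ν * D) := by
    rintro ν _ ⟨f, hf, rfl⟩
    have h1 : (Ideal.Quotient.mkₐ Ω P).toLinearMap f =
        ∑ a ∈ f.support, coeff a f • ∏ i, x i ^ a i := by
      conv_lhs => rw [f.as_sum]
      rw [map_sum]
      refine Finset.sum_congr rfl fun a _ => ?_
      rw [MvPolynomial.monomial_eq, Finsupp.prod_fintype _ _ (fun i => pow_zero _)]
      show Ideal.Quotient.mk P (C (coeff a f) * ∏ i, X i ^ a i) = _
      have h5 : coeff a f • (∏ i, x i ^ a i) =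
          Ideal.Quotient.mk P (C (coeff a f)) * ∏ i, x i ^ a i :=
        Algebra.smul_def (coeff a f) (∏ i, x i ^ a i)
      rw [h5, map_mul, map_prod]
      refine congrArg _ (Finset.prod_congr rfl fun i _ => ?_)
      rw [map_pow]
    rw [h1]
    refine Submodule.sum_mem _ fun a ha => Submodule.smul_mem _ _ ?_
    refine h2c_mono g T ?_ (hmon a Finset.univ)
    have h2 : ∑ i, a i ≤ n * ν := by
      calc ∑ i, a i ≤ ∑ _i : Fin n, ν := Finset.sum_le_sum fun i _ =>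
            ((MvPolynomial.degreeOf_le_iff).1 (hf i) a ha)
        _ = n * ν := by simp
    have h3 := Nat.mul_le_mul_right D h2
    omega
  refine ⟨T.card * ((n + 1) * D + 1) ^ s, by positivity, fun ν hν => ?_⟩
  have hν' : (1 : ℝ) ≤ ν := by exact_mod_cast hν
  obtain ⟨hfin', hle⟩ := h2c_fin g T (D + n * ν * D)
  have h1 : H P ν ≤ T.card * (D + n * ν * D + 1) ^ s :=
    (Submodule.finrank_mono (himg ν)).trans hle
  have h2 : (H P ν : ℝ) ≤ T.card * ((D : ℝ) + n * ν * D + 1) ^ s := by exact_mod_cast h1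
  have h3 : (D : ℝ) + n * ν * D + 1 ≤ ((n + 1) * D + 1) * ν := by
    have h4 : (0 : ℝ) ≤ D := Nat.cast_nonneg D
    nlinarith
  calc (H P ν : ℝ) ≤ T.card * ((D : ℝ) + n * ν * D + 1) ^ s := h2
    _ ≤ T.card * (((n + 1) * D + 1) * ν) ^ s := by gcongr
    _ = T.card * ((n + 1) * D + 1) ^ s * (ν : ℝ) ^ s := by rw [mul_pow]; ring
    _ ≤ T.card * ((n + 1) * D + 1) ^ s * (ν : ℝ) ^ dm P := by gcongr

end DR
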