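import Pool.Agent.Lib.MP_a325a5_ag.DR.H2b
import Pool.Agent.Lib.MP_a325a5_ag.DR.H2c

/-! Properties of `e` (liminf of a bounded sequence: H_upper, S_lower). -/

open MvPolynomial

namespace DR

variable {Ω : Type} [Field Ω] {n : ℕ}

private theorem h4a_low (P : Ideal (MvPolynomial (Fin n) Ω)) [P.IsPrime] :
    ∀ᶠ ν : ℕ in Filter.atTop,
      (1 : ℝ) ≤ ((dm P : ℝ) + 1) * (S P ν : ℝ) / (ν : ℝ) ^ (dm P + 1) := by
  filter_upwards [Filter.eventually_ge_atTop 1] with ν hν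
  have h1 : (0 : ℝ) < (ν : ℝ) := by exact_mod_cast hν
  rw [le_div_iff₀ (by positivity), one_mul]
  exact S_lower P ν

private theorem h4a_up (P : Ideal (MvPolynomial (Fin n) Ω)) [P.IsPrime] :
    ∃ C : ℝ, ∀ᶠ ν : ℕ in Filter.atTop,
      ((dm P : ℝ) + 1) * (S P ν : ℝ) / (ν : ℝ) ^ (dm P + 1) ≤ C := by
  obtain ⟨C, hC, h⟩ := H_upper P
  refine ⟨((dm P : ℝ) + 1) * C, ?_⟩
  filter_upwards [Filter.eventually_ge_atTop 1] with ν hν
  have h1 : (0 : ℝ) < (ν : ℝ) := by exact_mod_cast hν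
  have h2 : (S P ν : ℝ) ≤ ν * (C * (ν : ℝ) ^ dm P) := by
    unfold S
    push_cast
    calc ∑ μ ∈ Finset.range ν, (H P μ : ℝ) ≤ ∑ μ ∈ Finset.range ν, C * (ν : ℝ) ^ dm P := by
          refine Finset.sum_le_sum fun μ hμ => ?_
          refine le_trans ?_ (h ν hν)
          exact_mod_cast H_mono P (Finset.mem_range.mp hμ).le
      _ = _ := by rw [Finset.sum_const, Finset.card_range, nsmul_eq_mul]
  rw [div_le_iff₀ (by positivity)]
  have h3 : (0 : ℝ) ≤ (dm P : ℝ) + 1 := by positivity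
  calc ((dm P : ℝ) + 1) * (S P ν : ℝ) ≤ ((dm P : ℝ) + 1) * (ν * (C * (ν : ℝ) ^ dm P)) :=
        mul_le_mul_of_nonneg_left h2 h3
    _ = _ := by ring

private theorem h4a_bdd (P : Ideal (MvPolynomial (Fin n) Ω)) [P.IsPrime] :
    Filter.IsBoundedUnder (fun x1 x2 => x1 ≥ x2) Filter.atTop
      (fun ν : ℕ => ((dm P : ℝ) + 1) * (S P ν : ℝ) / (ν : ℝ) ^ (dm P + 1)) :=
  Filter.isBoundedUnder_of_eventually_ge (h4a_low P)

private theorem h4a_cob (P : Ideal (MvPolynomial (Fin n) Ω)) [P.IsPrime] :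
    Filter.IsCoboundedUnder (fun x1 x2 => x1 ≥ x2) Filter.atTop
      (fun ν : ℕ => ((dm P : ℝ) + 1) * (S P ν : ℝ) / (ν : ℝ) ^ (dm P + 1)) := by
  obtain ⟨C, hC⟩ := h4a_up P
  exact (Filter.isBoundedUnder_of_eventually_le hC).isCoboundedUnder_ge

theorem e_ge_one (P : Ideal (MvPolynomial (Fin n) Ω)) [P.IsPrime] : 1 ≤ e P := by
  unfold e
  exact Filter.le_liminf_of_le (h4a_cob P) (h4a_low P)

theorem e_eventually (P : Ideal (MvPolynomial (Fin n) Ω)) [P.IsPrime] {c : ℝ} (hc : c < e P) :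
    ∀ᶠ ν : ℕ in Filter.atTop, c * (ν : ℝ) ^ (dm P + 1) ≤ ((dm P : ℝ) + 1) * S P ν := by
  unfold e at hc
  have h := Filter.eventually_lt_of_lt_liminf hc (h4a_bdd P)
  filter_upwards [h, Filter.eventually_ge_atTop 1] with ν hν h1
  have h2 : (0 : ℝ) < (ν : ℝ) := by exact_mod_cast h1
  rw [lt_div_iff₀ (by positivity)] at hν
  exact hν.le

theorem e_ge_of (P : Ideal (MvPolynomial (Fin n) Ω)) [P.IsPrime] {E : ℝ}
    (h : ∀ c < E, ∀ᶠ ν : ℕ in Filter.atTop,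
      c * (ν : ℝ) ^ (dm P + 1) ≤ ((dm P : ℝ) + 1) * S P ν) : E ≤ e P := by
  refine le_of_forall_lt_imp_le_of_dense fun c hc => ?_
  unfold e
  refine Filter.le_liminf_of_le (h4a_cob P) ?_
  filter_upwards [h c hc, Filter.eventually_ge_atTop 1] with ν hν h1
  have h2 : (0 : ℝ) < (ν : ℝ) := by exact_mod_cast h1
  rw [le_div_iff₀ (by positivity)]
  exact hν

private theorem h4a_pow (n ν : ℕ) :
    ((n : ℝ) + 1) * ∑ μ ∈ Finset.range ν, ((μ : ℝ) + 1) ^ n ≤ ((ν : ℝ) + 1) ^ (n + 1) := by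
  induction ν with
  | zero => simp
  | succ ν ih =>
    rw [Finset.sum_range_succ, mul_add]
    have h1 : (0 : ℝ) < (ν : ℝ) + 1 := by positivity
    have h2 := one_add_mul_le_pow (a := 1 / ((ν : ℝ) + 1)) (by
      have : (0 : ℝ) < 1 / ((ν : ℝ) + 1) := by positivity
      linarith) (n + 1)
    have h3 : (((ν : ℝ) + 1) + 1) ^ (n + 1) =
        ((ν : ℝ) + 1) ^ (n + 1) * (1 + 1 / ((ν : ℝ) + 1)) ^ (n + 1) := by
      rw [← mul_pow]
      congr 1
      field_simp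
    have h4 : ((ν : ℝ) + 1) ^ (n + 1) * (1 + ((n + 1 : ℕ) : ℝ) * (1 / ((ν : ℝ) + 1))) =
        ((ν : ℝ) + 1) ^ (n + 1) + ((n : ℝ) + 1) * ((ν : ℝ) + 1) ^ n := by
      push_cast
      field_simp
      ring
    push_cast
    rw [h3]
    calc _ ≤ ((ν : ℝ) + 1) ^ (n + 1) + ((n : ℝ) + 1) * ((ν : ℝ) + 1) ^ n := by linarith
      _ = _ := h4.symm
      _ ≤ _ := mul_le_mul_of_nonneg_left h2 (by positivity)

theorem e_bot : e (⊥ : Ideal (MvPolynomial (Fin n) Ω)) = 1 := by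
  refine le_antisymm ?_ (e_ge_one _)
  refine le_of_forall_lt_imp_le_of_dense fun c hc => ?_
  have h := e_eventually (⊥ : Ideal (MvPolynomial (Fin n) Ω)) hc
  rw [dm_bot] at h
  -- `c ≤ (1 + 1/ν)^(n+1)` for large `ν`
  have h2 : ∀ᶠ ν : ℕ in Filter.atTop, c ≤ (1 + 1 / (ν : ℝ)) ^ (n + 1) := by
    filter_upwards [h, Filter.eventually_ge_atTop 1] with ν hν h1
    have h3 : (0 : ℝ) < (ν : ℝ) := by exact_mod_cast h1
    have h4 : ((n : ℝ) + 1) * (S (⊥ : Ideal (MvPolynomial (Fin n) Ω)) ν : ℝ) ≤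
        ((ν : ℝ) + 1) ^ (n + 1) := by
      refine le_trans (le_of_eq ?_) (h4a_pow n ν)
      unfold S
      push_cast
      congr 1
      refine Finset.sum_congr rfl fun μ _ => ?_
      rw [H_bot]
      push_cast
      rfl
    have h5 := hν.trans h4
    have h6 : ((ν : ℝ) + 1) ^ (n + 1) = (1 + 1 / (ν : ℝ)) ^ (n + 1) * (ν : ℝ) ^ (n + 1) := by
      rw [← mul_pow]
      congr 1
      field_simp
    rw [h6] at h5
    exact le_of_mul_le_mul_right h5 (by positivity)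
  have h7 : Filter.Tendsto (fun ν : ℕ => (1 + 1 / (ν : ℝ)) ^ (n + 1)) Filter.atTop
      (nhds ((1 + 0) ^ (n + 1))) :=
    (tendsto_const_nhds.add tendsto_one_div_atTop_nhds_zero_nat).pow _
  have h8 := ge_of_tendsto h7 h2
  simpa using h8

private theorem h4a_mx (z : Fin n → Ω) (ν : ℕ) : H (mx z) ν = 1 := by
  have : (mx z).IsPrime := RingHom.ker_isPrime _
  refine le_antisymm ?_ ?_
  · unfold H
    have h1 : (1 : MvPolynomial (Fin n) Ω) ∈ V Ω n ν := by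
      intro i
      rw [← C_1, degreeOf_C]
      exact Nat.zero_le _
    refine finrank_le_one (⟨(Ideal.Quotient.mkₐ Ω (mx z)).toLinearMap 1,
      Submodule.mem_map_of_mem h1⟩ : (V Ω n ν).map (Ideal.Quotient.mkₐ Ω (mx z)).toLinearMap) ?_
    rintro ⟨w, hw⟩
    obtain ⟨f, hf, rfl⟩ := hw
    refine ⟨eval z f, ?_⟩
    apply Subtype.ext
    simp only [SetLike.mk_smul_mk]
    have h2 : (Ideal.Quotient.mkₐ Ω (mx z)).toLinearMap f =
        Ideal.Quotient.mk (mx z) f := rfl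
    have h3 : (eval z f) • (Ideal.Quotient.mkₐ Ω (mx z)).toLinearMap (1 : MvPolynomial (Fin n) Ω) =
        Ideal.Quotient.mk (mx z) (C (eval z f)) := by
      rw [← map_smul, MvPolynomial.smul_eq_C_mul, mul_one]
      rfl
    rw [h2, h3, Ideal.Quotient.eq]
    show eval z (C (eval z f) - f) = 0
    rw [map_sub, eval_C, sub_self]
  · have h4 := H_lower (mx z) ν
    rw [dm_mx, pow_zero] at h4
    exact h4

theorem e_mx (z : Fin n → Ω) : e (mx z) = 1 := by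
  unfold e
  rw [dm_mx]
  have h1 : ∀ ν : ℕ, S (mx z) ν = ν := by
    intro ν
    unfold S
    simp_rw [h4a_mx]
    simp
  have h2 : Filter.Tendsto (fun ν : ℕ => (((0 : ℕ) : ℝ) + 1) * (S (mx z) ν : ℝ) /
      (ν : ℝ) ^ (0 + 1)) Filter.atTop (nhds 1) := by
    refine tendsto_const_nhds.congr' ?_
    filter_upwards [Filter.eventually_ge_atTop 1] with ν hν
    have h3 : (ν : ℝ) ≠ 0 := by
      have : (0 : ℝ) < (ν : ℝ) := by exact_mod_cast hν
      exact this.ne'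
    rw [h1]
    simp [h3]
  exact h2.liminf_eq

end DR
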