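import Pool.Agent.Lib.MP_a325a5_ag.DR.H1b
import Pool.Agent.Lib.MP_a325a5_ag.DR.H4a

/-! DR_PROOF 3, invariance under semilinear automorphisms preserving the boxes. The map induced on quotients is a semilinear bijection carrying the image of V ν to the image of V ν. -/

open MvPolynomial

namespace DR

variable {Ω : Type} [Field Ω] {n : ℕ}

theorem sym_cf (σ : Ω ≃+* Ω) : Sym (cf σ : MvPolynomial (Fin n) Ω ≃+* _) σ := by
  have h1 : ∀ f : MvPolynomial (Fin n) Ω, cf σ f = MvPolynomial.map (σ : Ω →+* Ω) f := fun f => rfl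
  refine ⟨fun a => ?_, fun ν f => ?_⟩
  · rw [h1, map_C]
    rfl
  · have h2 : ∀ i, degreeOf i (cf σ f) = degreeOf i f := by
      intro i
      rw [h1, degreeOf_eq_sup, degreeOf_eq_sup, support_map_of_injective f σ.injective]
    constructor
    · intro hf i
      rw [h2]
      exact hf i
    · intro hf i
      rw [← h2]
      exact hf i

private theorem t1_trh_mono (ξ : Fin n → Ωˣ) (v : Fin n →₀ ℕ) (c : Ω) :
    trh ξ (monomial v c) = monomial v (c * ∏ i, ((ξ i : Ω)) ^ v i) := by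
  have h1 : trh ξ (monomial v c) = aeval (fun i => C (ξ i : Ω) * X i) (monomial v c) := rfl
  rw [h1, aeval_monomial, monomial_eq]
  rw [Finsupp.prod_fintype _ _ (fun i => by simp), Finsupp.prod_fintype _ _ (fun i => by simp)]
  simp_rw [mul_pow]
  rw [Finset.prod_mul_distrib, C_mul, map_prod]
  simp_rw [C_pow]
  rw [MvPolynomial.algebraMap_eq, mul_assoc]

private theorem t1_trh_V (ξ : Fin n → Ωˣ) (ν : ℕ) (f : MvPolynomial (Fin n) Ω)
    (hf : f ∈ V Ω n ν) : trh ξ f ∈ V Ω n ν := by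
  have h1 : trh ξ f = ∑ v ∈ f.support, trh ξ (monomial v (coeff v f)) := by
    conv_lhs => rw [← support_sum_monomial_coeff f]
    rw [map_sum]
  rw [h1]
  refine Submodule.sum_mem _ fun v hv => ?_
  rw [t1_trh_mono]
  intro i
  have h2 : v i ≤ ν := (monomial_le_degreeOf i hv).trans (hf i)
  by_cases h0 : (coeff v f * ∏ i, ((ξ i : Ω)) ^ v i) = 0
  · rw [h0, monomial_zero, degreeOf_zero]
    exact Nat.zero_le _
  · rw [degreeOf_monomial_eq _ _ h0]
    exact h2

theorem sym_tr (ξ : Fin n → Ωˣ) : Sym (tr ξ) (RingEquiv.refl Ω) := by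
  have h1 : ∀ f : MvPolynomial (Fin n) Ω, tr ξ f = trh ξ f := fun f => rfl
  refine ⟨fun a => ?_, fun ν f => ?_⟩
  · rw [h1]
    simp [trh]
  · constructor
    · intro hf
      rw [h1]
      exact t1_trh_V ξ ν f hf
    · intro hf
      have h2 := t1_trh_V (fun i => (ξ i)⁻¹) ν _ hf
      rw [h1, trh_trh _ _ (fun i => by simp)] at h2
      exact h2

/-- the induced map on quotients -/
private noncomputable def t1_q {φ : MvPolynomial (Fin n) Ω ≃+* MvPolynomial (Fin n) Ω}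
    (I : Ideal (MvPolynomial (Fin n) Ω)) :
    (MvPolynomial (Fin n) Ω ⧸ I) ≃+* (MvPolynomial (Fin n) Ω ⧸ I.map φ.toRingHom) :=
  Ideal.quotientEquiv I (I.map φ.toRingHom) φ rfl

private theorem t1_q_mk {φ : MvPolynomial (Fin n) Ω ≃+* MvPolynomial (Fin n) Ω}
    (I : Ideal (MvPolynomial (Fin n) Ω)) (f : MvPolynomial (Fin n) Ω) :
    t1_q (φ := φ) I (Ideal.Quotient.mk I f) = Ideal.Quotient.mk _ (φ f) := rfl

private theorem t1_q_smul {φ : MvPolynomial (Fin n) Ω ≃+* MvPolynomial (Fin n) Ω} {σ : Ω ≃+* Ω}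
    (h : Sym φ σ) (I : Ideal (MvPolynomial (Fin n) Ω)) (r : Ω) (m : MvPolynomial (Fin n) Ω ⧸ I) :
    t1_q (φ := φ) I (r • m) = σ r • t1_q (φ := φ) I m := by
  obtain ⟨f, rfl⟩ := Ideal.Quotient.mk_surjective m
  have h1 : r • (Ideal.Quotient.mk I f) = Ideal.Quotient.mk I (C r * f) := by
    rw [← MvPolynomial.smul_eq_C_mul]
    rfl
  have h2 : σ r • (Ideal.Quotient.mk (I.map φ.toRingHom) (φ f)) =
      Ideal.Quotient.mk (I.map φ.toRingHom) (C (σ r) * φ f) := by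
    rw [← MvPolynomial.smul_eq_C_mul]
    rfl
  rw [h1, t1_q_mk, t1_q_mk, map_mul φ, h.const, h2]

theorem sym_H {φ : MvPolynomial (Fin n) Ω ≃+* MvPolynomial (Fin n) Ω} {σ : Ω ≃+* Ω}
    (h : Sym φ σ) (I : Ideal (MvPolynomial (Fin n) Ω)) (ν : ℕ) : H (I.map φ.toRingHom) ν = H I ν := by
  have hA : ∀ x : MvPolynomial (Fin n) Ω ⧸ I,
      x ∈ (V Ω n ν).map (Ideal.Quotient.mkₐ Ω I).toLinearMap →
      t1_q (φ := φ) I x ∈ (V Ω n ν).map (Ideal.Quotient.mkₐ Ω (I.map φ.toRingHom)).toLinearMap := by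
    rintro x ⟨f, hf, rfl⟩
    exact ⟨φ f, (h.box ν f).mp hf, rfl⟩
  have hB : ∀ y : MvPolynomial (Fin n) Ω ⧸ I.map φ.toRingHom,
      y ∈ (V Ω n ν).map (Ideal.Quotient.mkₐ Ω (I.map φ.toRingHom)).toLinearMap →
      (t1_q (φ := φ) I).symm y ∈ (V Ω n ν).map (Ideal.Quotient.mkₐ Ω I).toLinearMap := by
    rintro y ⟨g, hg, rfl⟩
    refine ⟨φ.symm g, (h.box ν _).mpr (by rw [RingEquiv.apply_symm_apply]; exact hg), ?_⟩
    rw [RingEquiv.eq_symm_apply]
    show t1_q (φ := φ) I (Ideal.Quotient.mk I (φ.symm g)) = _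
    rw [t1_q_mk, RingEquiv.apply_symm_apply]
    rfl
  let j : ((V Ω n ν).map (Ideal.Quotient.mkₐ Ω I).toLinearMap) ≃+
      ((V Ω n ν).map (Ideal.Quotient.mkₐ Ω (I.map φ.toRingHom)).toLinearMap) :=
    { toFun := fun x => ⟨t1_q (φ := φ) I x.1, hA x.1 x.2⟩
      invFun := fun y => ⟨(t1_q (φ := φ) I).symm y.1, hB y.1 y.2⟩
      left_inv := fun x => Subtype.ext (RingEquiv.symm_apply_apply _ _)
      right_inv := fun y => Subtype.ext (RingEquiv.apply_symm_apply _ _)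
      map_add' := fun x y => Subtype.ext (map_add (t1_q (φ := φ) I) x.1 y.1) }
  unfold H Module.finrank
  rw [rank_eq_of_equiv_equiv (σ : Ω → Ω) j σ.bijective (fun r m =>
    Subtype.ext (t1_q_smul h I r m.1))]

private theorem t1_dm_le {φ : MvPolynomial (Fin n) Ω ≃+* MvPolynomial (Fin n) Ω} {σ : Ω ≃+* Ω}
    (h : Sym φ σ) (P : Ideal (MvPolynomial (Fin n) Ω)) [P.IsPrime] :
    dm P ≤ dm (P.map φ.toRingHom) := by
  have hpr : (P.map φ.toRingHom).IsPrime := Ideal.map_isPrime_of_equiv φ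
  obtain ⟨J, -, hJ⟩ := dm_coord P
  have h1 := hJ.1
  have h2 := h1.ringHom_of_comp_eq (S := Ω) (B := MvPolynomial (Fin n) Ω ⧸ P.map φ.toRingHom)
    (σ : Ω →+* Ω) ((t1_q (φ := φ) P : _ ≃+* _) : _ →+* _) σ.surjective
    (t1_q (φ := φ) P).injective (by
      ext r
      have h3 := t1_q_smul h P r 1
      simp only [RingHom.coe_comp, RingHom.coe_coe, Function.comp_apply]
      rw [Algebra.algebraMap_eq_smul_one, Algebra.algebraMap_eq_smul_one, h3, map_one])
  exact dm_indep _ _ h2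

theorem sym_dm {φ : MvPolynomial (Fin n) Ω ≃+* MvPolynomial (Fin n) Ω} {σ : Ω ≃+* Ω}
    (h : Sym φ σ) (P : Ideal (MvPolynomial (Fin n) Ω)) [P.IsPrime] : dm (P.map φ.toRingHom) = dm P := by
  refine le_antisymm ?_ (t1_dm_le h P)
  have hs : Sym φ.symm σ.symm := by
    refine ⟨fun a => ?_, fun ν f => ?_⟩
    · rw [RingEquiv.symm_apply_eq, h.const, RingEquiv.apply_symm_apply]
    · have := h.box ν (φ.symm f)
      rw [RingEquiv.apply_symm_apply] at this
      exact this.symm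
  have hpr : (P.map φ.toRingHom).IsPrime := Ideal.map_isPrime_of_equiv φ
  have h1 := t1_dm_le hs (P.map φ.toRingHom)
  have h2 : (P.map φ.toRingHom).map φ.symm.toRingHom = P := by
    rw [Ideal.map_map]
    have : φ.symm.toRingHom.comp φ.toRingHom = RingHom.id _ := by
      ext x <;> simp
    rw [this, Ideal.map_id]
  rw [h2] at h1
  exact h1

theorem sym_e {φ : MvPolynomial (Fin n) Ω ≃+* MvPolynomial (Fin n) Ω} {σ : Ω ≃+* Ω}
    (h : Sym φ σ) (P : Ideal (MvPolynomial (Fin n) Ω)) [P.IsPrime] : e (P.map φ.toRingHom) = e P := by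
  unfold e S
  simp_rw [sym_dm h P, sym_H h P]

end DR
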