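import Pool.Agent.Lib.MP_a325a5_ag.DR.S1
import Pool.Agent.Lib.MP_a325a5_ag.DR.T1

/-! DR_PROOF 4.1. -/

open MvPolynomial

namespace DR

variable {Ω : Type} [Field Ω] {n : ℕ}

/-- the weight as a weight of Mathlib -/
private theorem S2_wgt (w : Fin n → ℤ) (a : Fin n →₀ ℕ) : wgt w a = Finsupp.weight w a := by
  rw [Finsupp.weight_apply, Finsupp.sum_fintype _ _ (fun i => zero_smul ℕ (w i))]
  unfold wgt
  refine Finset.sum_congr rfl fun i _ => ?_
  rw [nsmul_eq_mul, mul_comm]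

private theorem S2_wc (w : Fin n → ℤ) (c : ℤ) (f : MvPolynomial (Fin n) Ω) :
    wc w c f = weightedHomogeneousComponent w c f := by
  classical
  rw [weightedHomogeneousComponent_apply]
  unfold wc
  refine Finset.sum_congr ?_ fun _ _ => rfl
  ext a
  rw [Finset.mem_filter, Finset.mem_filter, S2_wgt]

/-- the core of a prime ideal is prime: a prime ideal which is minimal over polynomials all of whose
components it contains is homogeneous -/
private theorem S2_core (P : Ideal (MvPolynomial (Fin n) Ω)) [hPp : P.IsPrime]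
    (G : Set (MvPolynomial (Fin n) Ω)) (hP : P ∈ (Ideal.span G).minimalPrimes) (w : Fin n → ℤ)
    (h : ∀ g ∈ G, ∀ c, wc w c g ∈ P) : WHom w P := by
  classical
  letI := weightedGradedAlgebra Ω w
  have hpr := hPp.homogeneousCore (𝒜 := weightedHomogeneousSubmodule Ω w)
  have hle := Ideal.toIdeal_homogeneousCore_le (weightedHomogeneousSubmodule Ω w) P
  have hG : Ideal.span G ≤ (P.homogeneousCore (weightedHomogeneousSubmodule Ω w)).toIdeal := by
    rw [Ideal.span_le]
    intro g hg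
    rw [SetLike.mem_coe, mem_iff_weightedHomogeneousComponent_mem Ω w
      (P.homogeneousCore (weightedHomogeneousSubmodule Ω w)).isHomogeneous g]
    intro c
    refine Ideal.mem_homogeneousCore_of_homogeneous_of_mem ?_ ?_
    · exact ⟨c, weightedHomogeneousComponent_mem w g c⟩
    · rw [← S2_wc]
      exact h g hg c
  have hmin := hP.2 ⟨hpr, hG⟩ hle
  intro f hf c
  have h1 := (mem_iff_weightedHomogeneousComponent_mem Ω w
      (P.homogeneousCore (weightedHomogeneousSubmodule Ω w)).isHomogeneous f).1 (hmin hf) c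
  rw [S2_wc]
  exact hle h1

/-- the character of an exponent -/
private def S2_chi (Sg : Subgroup (Fin n → Ωˣ)) (a : Fin n →₀ ℕ) : Sg →* Ω where
  toFun ξ := ∏ i, ((ξ : Fin n → Ωˣ) i : Ω) ^ a i
  map_one' := by simp
  map_mul' ξ η := by
    rw [← Finset.prod_mul_distrib]
    refine Finset.prod_congr rfl fun i _ => ?_
    rw [Subgroup.coe_mul, Pi.mul_apply, Units.val_mul, mul_pow]

private theorem S2_mon (Sg : Subgroup (Fin n → Ωˣ)) (ξ : Sg) (a : Fin n →₀ ℕ) (c : Ω) :
    tr (ξ : Fin n → Ωˣ) (monomial a c) = S2_chi Sg a ξ • monomial a c := by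
  show aeval (fun i => C (((ξ : Fin n → Ωˣ) i : Ω)) * X i : Fin n → MvPolynomial (Fin n) Ω)
    (monomial a c) = _
  rw [aeval_monomial, Finsupp.prod_fintype _ _ (fun i => pow_zero _)]
  have h1 : ∏ i, (C (((ξ : Fin n → Ωˣ) i : Ω)) * X i : MvPolynomial (Fin n) Ω) ^ a i =
      C (∏ i, ((ξ : Fin n → Ωˣ) i : Ω) ^ a i) * ∏ i, (X i : MvPolynomial (Fin n) Ω) ^ a i := by
    rw [map_prod, ← Finset.prod_mul_distrib]
    refine Finset.prod_congr rfl fun i _ => ?_
    rw [mul_pow, C_pow]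
  rw [h1, algebraMap_eq, monomial_eq, Finsupp.prod_fintype _ _ (fun i => pow_zero _),
    smul_eq_C_mul]
  show C c * (C (S2_chi Sg a ξ) * _) = _
  ring

/-- the parts of an element of an ideal which is stable under the group are in the ideal -/
private theorem S2_part (P : Ideal (MvPolynomial (Fin n) Ω)) (Sg : Subgroup (Fin n → Ωˣ))
    (hst : ∀ ξ ∈ Sg, P.map (tr ξ).toRingHom = P) {g : MvPolynomial (Fin n) Ω} (hg : g ∈ P)
    (a : Fin n →₀ ℕ) (F : Finset (Fin n →₀ ℕ))
    (hF : ∀ b, b ∈ F ↔ b ∈ g.support ∧ S2_chi Sg b = S2_chi Sg a) :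
    ∑ b ∈ F, monomial b (coeff b g) ∈ P := by
  classical
  obtain ⟨T, hT⟩ : ∃ T : Finset (Sg →* Ω), T = g.support.image (S2_chi Sg) := ⟨_, rfl⟩
  obtain ⟨p, hp⟩ : ∃ p : (Sg →* Ω) → MvPolynomial (Fin n) Ω, ∀ χ, p χ =
      ∑ b ∈ g.support.filter (fun b => S2_chi Sg b = χ), monomial b (coeff b g) := ⟨_, fun _ => rfl⟩
  have hsum : ∀ ξ : Sg, ∑ χ ∈ T, χ ξ • p χ ∈ P := by
    intro ξ
    have h1 : tr (ξ : Fin n → Ωˣ) g ∈ P := by
      have h2 := Ideal.mem_map_of_mem (tr (ξ : Fin n → Ωˣ)).toRingHom hg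
      rw [hst ξ ξ.2] at h2
      exact h2
    have h3 : tr (ξ : Fin n → Ωˣ) g = ∑ χ ∈ T, χ ξ • p χ := by
      conv_lhs => rw [← support_sum_monomial_coeff g]
      rw [map_sum]
      have h4 : ∀ b ∈ g.support, S2_chi Sg b ∈ T := fun b hb => by
        rw [hT]
        exact Finset.mem_image_of_mem _ hb
      rw [← Finset.sum_fiberwise_of_maps_to h4]
      refine Finset.sum_congr rfl fun χ _ => ?_
      rw [hp, Finset.smul_sum]
      refine Finset.sum_congr rfl fun b hb => ?_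
      rw [Finset.mem_filter] at hb
      rw [S2_mon, hb.2]
    rw [← h3]
    exact h1
  have hli : LinearIndependent Ω (fun χ : Sg →* Ω => (χ : Sg → Ω)) := linearIndependent_monoidHom Sg Ω
  have hall : ∀ χ ∈ T, p χ ∈ P := by
    intro χ hχ
    rw [← Ideal.Quotient.eq_zero_iff_mem]
    have key : (Ideal.Quotient.mkₐ Ω P) (p χ) = 0 := by
      rw [← Module.forall_dual_apply_eq_zero_iff Ω]
      intro ψ
      have h5 : ∑ χ ∈ T, ψ ((Ideal.Quotient.mkₐ Ω P) (p χ)) • (χ : Sg → Ω) = 0 := by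
        funext ξ
        have h6 := (Ideal.Quotient.eq_zero_iff_mem (I := P)).2 (hsum ξ)
        have h7 : (Ideal.Quotient.mkₐ Ω P) (∑ χ ∈ T, χ ξ • p χ) = 0 := h6
        rw [map_sum] at h7
        have h8 := congrArg ψ h7
        rw [map_sum, map_zero] at h8
        rw [Finset.sum_apply, Pi.zero_apply, ← h8]
        refine Finset.sum_congr rfl fun χ _ => ?_
        rw [map_smul, map_smul, Pi.smul_apply, smul_eq_mul, smul_eq_mul, mul_comm]
      exact (linearIndependent_iff'.1 hli) T _ h5 χ hχ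
    exact key
  by_cases ha : S2_chi Sg a ∈ T
  · have h9 := hall _ ha
    rw [hp] at h9
    refine (congrArg (· ∈ P) (Finset.sum_congr ?_ fun _ _ => rfl)).mp h9
    ext b
    rw [Finset.mem_filter, hF]
  · have h9 : F = ∅ := by
      rw [Finset.eq_empty_iff_forall_notMem]
      intro b hb
      rw [hF] at hb
      apply ha
      rw [hT, ← hb.2]
      exact Finset.mem_image_of_mem _ hb.1
    rw [h9, Finset.sum_empty]
    exact zero_mem P

theorem stab_or (P : Ideal (MvPolynomial (Fin n) Ω)) [P.IsPrime] (hX : ∀ i, X i ∉ P) {l : ℕ}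
    (G : Set (MvPolynomial (Fin n) Ω)) (hG : ∀ g ∈ G, g ∈ V Ω n l)
    (hP : P ∈ (Ideal.span G).minimalPrimes) (Sg : Subgroup (Fin n → Ωˣ)) [Finite Sg]
    (hst : ∀ ξ ∈ Sg, P.map (tr ξ).toRingHom = P) :
    Nat.card Sg ≤ n.factorial * l ^ n ∨ ∃ w : Fin n → ℤ, w ≠ 0 ∧ WHom w P := by
  classical
  rcases char_or n l Sg with h | ⟨w, hw0, hw⟩
  · exact Or.inl h
  refine Or.inr ⟨w, hw0, S2_core P G hP w fun g hg c => ?_⟩
  have hgP : g ∈ P := hP.1.2 (Ideal.subset_span hg)
  have hgV := hG g hg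
  -- exponents with the same character have the same weight
  have hsame : ∀ a ∈ g.support, ∀ b ∈ g.support, S2_chi Sg a = S2_chi Sg b →
      wgt w a = wgt w b := by
    intro a ha b hb hab
    have hdeg : ∀ a ∈ g.support, ∀ i, a i ≤ l := fun a ha i =>
      (monomial_le_degreeOf i ha).trans (hgV i)
    have h1 := hw (fun i => (a i : ℤ) - b i) ?_ ?_
    · unfold wgt
      rw [← sub_eq_zero, ← Finset.sum_sub_distrib, ← h1]
      refine Finset.sum_congr rfl fun i _ => ?_
      ring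
    · intro i
      have h2 := hdeg a ha i
      have h3 := hdeg b hb i
      rw [abs_le]
      constructor <;> omega
    · intro ξ hξ
      have h4 := congrArg (fun χ => χ ⟨ξ, hξ⟩) hab
      have h5 : ∏ i, (ξ i : Ω) ^ a i = ∏ i, (ξ i : Ω) ^ b i := h4
      have h6 : ∏ i, ξ i ^ a i = ∏ i, ξ i ^ b i := by
        apply Units.ext
        rw [Units.coe_prod, Units.coe_prod]
        simpa only [Units.val_pow_eq_pow_val] using h5
      have h7 : ∏ i, ξ i ^ ((a i : ℤ) - b i) = (∏ i, ξ i ^ a i) * (∏ i, ξ i ^ b i)⁻¹ := by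
        rw [← Finset.prod_inv_distrib, ← Finset.prod_mul_distrib]
        refine Finset.prod_congr rfl fun i _ => ?_
        rw [zpow_sub, zpow_natCast, zpow_natCast]
      rw [h7, h6, mul_inv_cancel]
  unfold wc
  obtain ⟨F, hF⟩ : ∃ F : Finset (Fin n →₀ ℕ), F = g.support.filter (fun a => wgt w a = c) :=
    ⟨_, rfl⟩
  rw [← hF, ← Finset.sum_fiberwise_of_maps_to (s := F) (t := F.image (S2_chi Sg))
    (g := S2_chi Sg) (fun b hb => Finset.mem_image_of_mem _ hb)]
  refine P.sum_mem fun χ hχ => ?_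
  rw [Finset.mem_image] at hχ
  obtain ⟨a, ha, rfl⟩ := hχ
  refine S2_part P Sg hst hgP a _ fun b => ?_
  rw [Finset.mem_filter, hF, Finset.mem_filter]
  rw [hF, Finset.mem_filter] at ha
  constructor
  · rintro ⟨⟨h1, -⟩, h2⟩
    exact ⟨h1, h2⟩
  · rintro ⟨h1, h2⟩
    exact ⟨⟨h1, (hsame b h1 a ha.1 h2).trans ha.2⟩, h2⟩

end DR
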