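import Pool.Agent.Lib.MP_a325a5_ag.DR.G2a
import Pool.Agent.Lib.MP_a325a5_ag.DR.G1
import Pool.Agent.Lib.MP_a325a5_ag.DR.S2

/-! DR_PROOF 6 (d): no component is w-homogeneous, stabilisers are small. -/

open MvPolynomial

namespace DR

variable {Ω : Type} [Field Ω] {n : ℕ}

variable [IsAlgClosed Ω] [CharZero Ω] (d : Dat Ω n)

theorem Dat.not_whom {i j : ℕ} (h1 : 2 * d.h0 ≤ i) (h2 : i ≤ d.r)
    {P : Ideal (MvPolynomial (Fin n) Ω)} (hP : P ∈ ZJ (d.E i) (d.l i) j) {w : Fin n → ℤ}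
    (hw : w ≠ 0) : ¬ WHom w P := by
  intro hW
  have hj : j < n := d.dm_lt_n h1 h2 hP
  obtain ⟨_, ⟨z, hzE, hz⟩, _⟩ := mem_ZJ.mp hP
  have hl : 1 ≤ d.l i := by
    have h3 : 1 ≤ 8 * d.X := by have := d.hX; omega
    exact Nat.one_le_iff_ne_zero.mpr (mul_ne_zero (pow_ne_zero _ (by omega))
      (by have := d.hL; omega))
  have hf : 1 ≤ n.factorial := Nat.factorial_pos n
  obtain ⟨ν, hν⟩ : ∃ ν : ℕ, ν = 3 * n.factorial * n.factorial * d.l i := ⟨_, rfl⟩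
  have hν1 : 1 ≤ ν := by
    rw [hν]
    exact Nat.one_le_iff_ne_zero.mpr (mul_ne_zero (mul_ne_zero (by omega) (by omega)) (by omega))
  have hmj := d.mj_le i j
  have hνR : (ν : ℝ) = 3 * (n.factorial : ℝ) * n.factorial * d.l i := by
    rw [hν]; push_cast; ring
  have hfR : (1 : ℝ) ≤ n.factorial := by exact_mod_cast hf
  have hlR : (1 : ℝ) ≤ d.l i := by exact_mod_cast hl
  have hνR1 : (1 : ℝ) ≤ ν := by exact_mod_cast hν1
  have hC : (1 : ℝ) ≤ 3 * (n.factorial : ℝ) * n.factorial := by nlinarith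
  have hkey : 3 * (n.factorial : ℝ) * mj (d.E i) (d.l i) j * (ν : ℝ) ^ j < ((ν : ℝ) + 1) ^ n := by
    have hνj : (0 : ℝ) ≤ (ν : ℝ) ^ j := by positivity
    have h3 : 3 * (n.factorial : ℝ) * mj (d.E i) (d.l i) j ≤ (ν : ℝ) ^ (n - j) := by
      have h4 : 3 * (n.factorial : ℝ) * mj (d.E i) (d.l i) j ≤
          3 * (n.factorial : ℝ) * (n.factorial * (d.l i : ℝ) ^ (n - j)) :=
        mul_le_mul_of_nonneg_left hmj (by positivity)
      refine h4.trans ?_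
      rw [hνR, mul_pow]
      have h5 : 3 * (n.factorial : ℝ) * n.factorial ≤
          (3 * (n.factorial : ℝ) * n.factorial) ^ (n - j) :=
        le_self_pow₀ hC (by omega)
      calc 3 * (n.factorial : ℝ) * (n.factorial * (d.l i : ℝ) ^ (n - j)) =
            (3 * (n.factorial : ℝ) * n.factorial) * (d.l i : ℝ) ^ (n - j) := by ring
        _ ≤ _ := mul_le_mul_of_nonneg_right h5 (by positivity)
    calc 3 * (n.factorial : ℝ) * mj (d.E i) (d.l i) j * (ν : ℝ) ^ j ≤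
          (ν : ℝ) ^ (n - j) * (ν : ℝ) ^ j := mul_le_mul_of_nonneg_right h3 hνj
      _ = (ν : ℝ) ^ n := by rw [← pow_add]; congr 1; omega
      _ < ((ν : ℝ) + 1) ^ n := pow_lt_pow_left₀ (by linarith) (by linarith) (by omega)
  obtain ⟨F, hF, hF0, hFw, hFz⟩ := d.low hP hj hz ν hν1 hkey w hW
  refine d.g3 i h1 h2 z hzE w hw F (V_mono ?_ hF) hF0 hFw hFz
  rw [hν]
  apply Nat.mul_le_mul_left
  rw [Dat.l]
  apply Nat.mul_le_mul_right
  exact Nat.pow_le_pow_right (by have := d.hX; omega) (Nat.sub_le _ _)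

theorem G2b_mul (ξ η : Fin n → Ωˣ) (P : Ideal (MvPolynomial (Fin n) Ω)) :
    P.map (tr (ξ * η)).toRingHom = (P.map (tr η).toRingHom).map (tr ξ).toRingHom := by
  rw [Ideal.map_map]
  have h : (tr (ξ * η)).toRingHom = (tr ξ).toRingHom.comp (tr η).toRingHom := by
    apply MvPolynomial.ringHom_ext
    · intro a
      show trh (ξ * η) (C a) = trh ξ (trh η (C a))
      simp [trh]
    · intro i
      show trh (ξ * η) (X i) = trh ξ (trh η (X i))
      simp only [trh, AlgHom.toRingHom_eq_coe, RingHom.coe_coe, aeval_X, map_mul, algHom_C,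
        algebraMap_eq, Pi.mul_apply, Units.val_mul]
      ring
  rw [h]

theorem G2b_one (P : Ideal (MvPolynomial (Fin n) Ω)) :
    P.map (tr (1 : Fin n → Ωˣ)).toRingHom = P := by
  have h : (tr (1 : Fin n → Ωˣ)).toRingHom = RingHom.id (MvPolynomial (Fin n) Ω) := by
    apply MvPolynomial.ringHom_ext
    · intro a
      show trh 1 (C a) = C a
      simp [trh]
    · intro i
      show trh 1 (X i) = X i
      simp [trh]
  rw [h, Ideal.map_id]

/-- the stabiliser in the roots of unity -/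
def G2b_sg (N : ℕ) (P : Ideal (MvPolynomial (Fin n) Ω)) : Subgroup (Fin n → Ωˣ) where
  carrier := {ξ : Fin n → Ωˣ | ξ ∈ Mu Ω n N ∧ P.map (tr ξ).toRingHom = P}
  mul_mem' := by
    rintro ξ η ⟨h1, h2⟩ ⟨h3, h4⟩
    refine ⟨fun i => ?_, ?_⟩
    · rw [Pi.mul_apply, mul_pow, h1 i, h3 i, one_mul]
    · rw [G2b_mul, h4, h2]
  one_mem' := ⟨fun i => one_pow N, G2b_one P⟩
  inv_mem' := by
    rintro ξ ⟨h1, h2⟩
    refine ⟨fun i => ?_, ?_⟩
    · rw [Pi.inv_apply, inv_pow, h1 i, inv_one]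
    · have h3 := G2b_mul ξ⁻¹ ξ P
      rw [inv_mul_cancel, G2b_one, h2] at h3
      exact h3.symm

theorem G2b_fin {N : ℕ} (hN : 0 < N) : (Mu Ω n N).Finite := by
  haveI : NeZero N := ⟨hN.ne'⟩
  have h1 : {x : Ωˣ | x ^ N = 1}.Finite := by
    have h2 : Finite (rootsOfUnity N Ω) := inferInstance
    have h3 : ({x : Ωˣ | x ^ N = 1} : Set Ωˣ) = (rootsOfUnity N Ω : Set Ωˣ) := by
      ext x
      exact (mem_rootsOfUnity N x).symm
    rw [h3]
    exact h2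
  exact (Set.Finite.pi' fun _ : Fin n => h1)

theorem Dat.stab {i j : ℕ} (h1 : 2 * d.h0 ≤ i) (h2 : i ≤ d.r)
    {P : Ideal (MvPolynomial (Fin n) Ω)} (hP : P ∈ ZJ (d.E i) (d.l i) j) {N : ℕ} (hN : 0 < N) :
    Set.ncard {ξ : Fin n → Ωˣ | ξ ∈ Mu Ω n N ∧ P.map (tr ξ).toRingHom = P} ≤
      n.factorial * (d.l i) ^ n := by
  obtain ⟨hmin, ⟨z, hzE, hz⟩, _⟩ := mem_ZJ.mp hP
  haveI : P.IsPrime := hmin.1.1
  have hX : ∀ k, (MvPolynomial.X k : MvPolynomial (Fin n) Ω) ∉ P := by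
    intro k hk
    have h3 : eval z (MvPolynomial.X k : MvPolynomial (Fin n) Ω) = 0 := hz hk
    rw [eval_X] at h3
    exact d.hE i z hzE k h3
  haveI : Finite (G2b_sg N P) := by
    have h3 : ({ξ : Fin n → Ωˣ | ξ ∈ Mu Ω n N ∧ P.map (tr ξ).toRingHom = P}).Finite :=
      (G2b_fin hN).subset fun ξ h => h.1
    exact h3
  rcases stab_or P hX (GG (d.E i) (d.l i)) (fun g hg => hg.1) hmin (G2b_sg N P)
    (fun ξ hξ => hξ.2) with h3 | ⟨w, hw, hW⟩
  · exact h3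
  · exact absurd hW (d.not_whom h1 h2 hP hw)

end DR
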