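import Pool.Agent.Lib.MP_a325a5_ag.DR.GDef
import Pool.Agent.Lib.MP_a325a5_ag.F.A10

/-! DR_PROOF 5.2 (Han: F/A10 `han`; see F/A11 for the case of plane curves). `f` is any nonnegative function on ideals invariant under translations. -/

open MvPolynomial

namespace DR

section abs
open Classical Finset

variable {Γ A ι : Type} [CommGroup Γ] [Fintype ι]

/-- number of elements of `H` which move `Z` into `II` -/
private noncomputable def K2_nn (act : Γ → A → A) (H : Finset Γ) (II : Finset A) (Z : A) : ℕ :=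
  (H.filter fun g => act g Z ∈ II).card

private noncomputable def K2_TT (act : Γ → A → A) (H : ι → Finset Γ) (II : Finset A) (Z : A) :
    Finset (ι → Γ) :=
  (Fintype.piFinset H).filter fun x => act (∏ i, x i) Z ∈ II

private noncomputable def K2_NN (act : Γ → A → A) (H : ι → Finset Γ) (Z Z' : A) : ℕ :=
  ((Fintype.piFinset H).filter fun x => act (∏ i, x i) Z = Z').card

private theorem K2_prod_upd (x : ι → Γ) (q : ι) (g : Γ) :
    ∏ i, Function.update x q (g * x q) i = g * ∏ i, x i := by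
  rw [Finset.prod_update_of_mem (mem_univ q), mul_assoc]
  congr 1
  exact (Finset.prod_eq_mul_prod_sdiff_singleton_of_mem (mem_univ q) x).symm

private theorem K2_line_card {act : Γ → A → A} (hm : ∀ g h z, act (g * h) z = act g (act h z))
    {H : ι → Finset Γ} (hHm : ∀ i, ∀ g ∈ H i, ∀ h ∈ H i, g * h ∈ H i)
    (hHi : ∀ i, ∀ g ∈ H i, g⁻¹ ∈ H i) {II : Finset A} {Z : A} {x : ι → Γ}
    (hx : x ∈ K2_TT act H II Z) (q : ι) :
    ((K2_TT act H II Z).filter fun y => ∀ j, j ≠ q → y j = x j).card =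
      K2_nn act (H q) II (act (∏ i, x i) Z) := by
  rw [K2_TT, mem_filter, Fintype.mem_piFinset] at hx
  refine Finset.card_bij' (fun y _ => y q * (x q)⁻¹) (fun g _ => Function.update x q (g * x q))
    ?_ ?_ ?_ ?_
  · intro y hy
    rw [mem_filter, K2_TT, mem_filter, Fintype.mem_piFinset] at hy
    rw [mem_filter]
    refine ⟨hHm q _ (hy.1.1 q) _ (hHi q _ (hx.1 q)), ?_⟩
    rw [← hm]
    have h2 : y = Function.update x q (y q * (x q)⁻¹ * x q) := by
      funext j
      by_cases hj : j = q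
      · subst hj; simp
      · rw [Function.update_of_ne hj]; exact hy.2 j hj
    rw [← K2_prod_upd x q, ← h2]
    exact hy.1.2
  · intro g hg
    rw [mem_filter] at hg
    rw [mem_filter, K2_TT, mem_filter, Fintype.mem_piFinset]
    refine ⟨⟨?_, ?_⟩, ?_⟩
    · intro j
      by_cases hj : j = q
      · subst hj; simp only [Function.update_self]; exact hHm _ _ hg.1 _ (hx.1 _)
      · rw [Function.update_of_ne hj]; exact hx.1 j
    · rw [K2_prod_upd, hm]; exact hg.2
    · intro j hj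
      rw [Function.update_of_ne hj]
  · intro y hy
    rw [mem_filter] at hy
    funext j
    by_cases hj : j = q
    · subst hj; simp
    · rw [Function.update_of_ne hj]; exact (hy.2 j hj).symm
  · intro g _
    simp

private theorem K2_NN_symm {act : Γ → A → A} (h1 : ∀ z, act 1 z = z)
    (hm : ∀ g h z, act (g * h) z = act g (act h z))
    {H : ι → Finset Γ} (hHi : ∀ i, ∀ g ∈ H i, g⁻¹ ∈ H i) (Z Z' : A) :
    K2_NN act H Z Z' = K2_NN act H Z' Z := by
  have key : ∀ (Z Z' : A) (x : ι → Γ), act (∏ i, x i) Z = Z' → act (∏ i, (x i)⁻¹) Z' = Z := by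
    intro Z Z' x h
    rw [← h, ← hm, ← Finset.prod_mul_distrib]
    simp [h1]
  refine Finset.card_bij' (fun x _ i => (x i)⁻¹) (fun x _ i => (x i)⁻¹) ?_ ?_ ?_ ?_
  · intro x hx
    rw [mem_filter, Fintype.mem_piFinset] at hx ⊢
    exact ⟨fun i => hHi i _ (hx.1 i), key _ _ _ hx.2⟩
  · intro x hx
    rw [mem_filter, Fintype.mem_piFinset] at hx ⊢
    exact ⟨fun i => hHi i _ (hx.1 i), key _ _ _ hx.2⟩
  · intro x _; simp
  · intro x _; simp

private theorem K2_NN_le {act : Γ → A → A} (h1 : ∀ z, act 1 z = z)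
    (hm : ∀ g h z, act (g * h) z = act g (act h z)) {H : ι → Finset Γ}
    (hHm : ∀ i, ∀ g ∈ H i, ∀ h ∈ H i, g * h ∈ H i)
    (hHi : ∀ i, ∀ g ∈ H i, g⁻¹ ∈ H i) (Z Z' : A) :
    K2_NN act H Z Z' ≤ K2_NN act H Z Z := by
  by_cases h0 : K2_NN act H Z Z' = 0
  · omega
  obtain ⟨x, hx⟩ := Finset.card_pos.1 (Nat.pos_of_ne_zero h0)
  rw [Finset.mem_filter, Fintype.mem_piFinset] at hx
  refine Finset.card_le_card_of_injOn (fun y i => (x i)⁻¹ * y i) ?_ ?_
  · intro y hy
    rw [Finset.mem_coe, Finset.mem_filter, Fintype.mem_piFinset] at hy ⊢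
    refine ⟨fun i => hHm i _ (hHi i _ (hx.1 i)) _ (hy.1 i), ?_⟩
    rw [Finset.prod_mul_distrib, hm, hy.2, ← hx.2, ← hm, ← Finset.prod_mul_distrib]
    simp only [inv_mul_cancel, Finset.prod_const_one]
    exact h1 Z
  · intro y _ z _ h
    funext i
    exact mul_left_cancel (congrFun h i)

private theorem K2_NN_image {β : Type} (act : Γ → A → A) (H : ι → Finset Γ) (Z Z' : A)
    (f : (ι → Γ) → β)
    (hf : ∀ x y, (∀ i, x i ∈ H i) → (∀ i, y i ∈ H i) → f x = f y → x = y) :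
    ∃ s : Finset β, s.card = K2_NN act H Z Z' ∧
      ∀ b ∈ s, ∃ x, (∀ i, x i ∈ H i) ∧ act (∏ i, x i) Z = Z' ∧ f x = b := by
  refine ⟨((Fintype.piFinset H).filter fun x => act (∏ i, x i) Z = Z').image f, ?_, ?_⟩
  · apply Finset.card_image_of_injOn
    intro x hx y hy hxy
    rw [Finset.mem_coe, Finset.mem_filter, Fintype.mem_piFinset] at hx hy
    exact hf x y hx.1 hy.1 hxy
  · intro b hb
    obtain ⟨x, hx, rfl⟩ := Finset.mem_image.1 hb
    rw [Finset.mem_filter, Fintype.mem_piFinset] at hx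
    exact ⟨x, hx.1, hx.2, rfl⟩

/-- counting is invariant under the action -/
private theorem K2_TT_card_eq {act : Γ → A → A}
    (hm : ∀ g h z, act (g * h) z = act g (act h z))
    {H : ι → Finset Γ} (hHm : ∀ i, ∀ g ∈ H i, ∀ h ∈ H i, g * h ∈ H i)
    (hHi : ∀ i, ∀ g ∈ H i, g⁻¹ ∈ H i) (II : Finset A) {Z Z' : A} {x : ι → Γ}
    (hx : x ∈ Fintype.piFinset H) (hZ : act (∏ i, x i) Z = Z') :
    (K2_TT act H II Z).card = (K2_TT act H II Z').card := by
  rw [Fintype.mem_piFinset] at hx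
  refine Finset.card_bij' (fun y _ i => y i * (x i)⁻¹) (fun y _ i => y i * x i) ?_ ?_ ?_ ?_
  · intro y hy
    rw [K2_TT, mem_filter, Fintype.mem_piFinset] at hy ⊢
    refine ⟨fun i => hHm i _ (hy.1 i) _ (hHi i _ (hx i)), ?_⟩
    rw [← hZ, ← hm, ← Finset.prod_mul_distrib]
    simpa using hy.2
  · intro y hy
    rw [K2_TT, mem_filter, Fintype.mem_piFinset] at hy ⊢
    refine ⟨fun i => hHm i _ (hy.1 i) _ (hx i), ?_⟩
    rw [Finset.prod_mul_distrib, hm, hZ]
    exact hy.2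
  · intro x _; simp
  · intro x _; simp

private theorem K2_TT_card_sum (act : Γ → A → A) (H : ι → Finset Γ) (II : Finset A) (Z : A) :
    (K2_TT act H II Z).card = ∑ Z' ∈ II, K2_NN act H Z Z' := by
  rw [Finset.card_eq_sum_card_fiberwise (f := fun x => act (∏ i, x i) Z) (t := II)]
  · apply Finset.sum_congr rfl
    intro Z' hZ'
    rw [K2_NN, K2_TT, Finset.filter_filter]
    congr 1
    apply Finset.filter_congr
    intro x _
    constructor
    · rintro ⟨_, h⟩; exact h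
    · intro h; exact ⟨h ▸ hZ', h⟩
  · intro x hx
    rw [Finset.mem_coe, K2_TT, mem_filter] at hx
    exact hx.2

private theorem K2_TT_sum (act : Γ → A → A) (H : ι → Finset Γ) (II : Finset A) (Z : A)
    (g : A → ℝ) :
    ∑ x ∈ K2_TT act H II Z, g (act (∏ i, x i) Z) = ∑ Z' ∈ II, K2_NN act H Z Z' * g Z' := by
  rw [← Finset.sum_fiberwise_of_maps_to (s := K2_TT act H II Z) (t := II)
    (g := fun x => act (∏ i, x i) Z)]
  · apply Finset.sum_congr rfl
    intro Z' hZ'
    have h2 : ∀ x ∈ (K2_TT act H II Z).filter (fun x => act (∏ i, x i) Z = Z'),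
        g (act (∏ i, x i) Z) = g Z' := by
      intro x hx
      rw [mem_filter] at hx
      rw [hx.2]
    rw [Finset.sum_congr rfl h2, Finset.sum_const, nsmul_eq_mul]
    congr 2
    rw [K2_NN, K2_TT, Finset.filter_filter]
    congr 1
    apply Finset.filter_congr
    intro x _
    constructor
    · rintro ⟨_, h⟩; exact h
    · intro h; exact ⟨h ▸ hZ', h⟩
  · intro x hx
    rw [K2_TT, mem_filter] at hx
    exact hx.2

private theorem K2_han_action {act : Γ → A → A} (h1 : ∀ z, act 1 z = z)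
    (hm : ∀ g h z, act (g * h) z = act g (act h z))
    {H : ι → Finset Γ} (hH1 : ∀ i, 1 ∈ H i) (hHm : ∀ i, ∀ g ∈ H i, ∀ h ∈ H i, g * h ∈ H i)
    (hHi : ∀ i, ∀ g ∈ H i, g⁻¹ ∈ H i) (II : Finset A) (w : A → ℝ) (hw : ∀ Z, 0 ≤ w Z)
    (hwi : ∀ g Z, w (act g Z) = w Z) {M : ℝ} (hM : ∀ Z ∈ II, ((K2_TT act H II Z).card : ℝ) ≤ M) :
    ∑ Z ∈ II, w Z * ∑ i, Real.log (K2_nn act (H i) II Z) ≤ Real.log M * ∑ Z ∈ II, w Z := by
  set g : A → ℝ := fun Z => ∑ i, Real.log (K2_nn act (H i) II Z) with hg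
  set t : A → ℝ := fun Z => ((K2_TT act H II Z).card : ℝ) with ht
  have hTpos : ∀ Z ∈ II, 0 < t Z := by
    intro Z hZ
    have : (fun _ => 1 : ι → Γ) ∈ K2_TT act H II Z := by
      rw [K2_TT, mem_filter, Fintype.mem_piFinset]
      refine ⟨fun i => hH1 i, ?_⟩
      simpa [h1] using hZ
    have : 0 < (K2_TT act H II Z).card := Finset.card_pos.2 ⟨_, this⟩
    simp only [ht]
    exact_mod_cast this
  -- Han for one `Z`
  have hhan : ∀ Z, ∑ Z' ∈ II, K2_NN act H Z Z' * g Z' ≤ t Z * Real.log (t Z) := by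
    intro Z
    have h := BMF.han (K2_TT act H II Z)
    rw [← K2_TT_sum]
    refine le_trans (le_of_eq ?_) h
    apply Finset.sum_congr rfl
    intro x hx
    simp only [hg]
    apply Finset.sum_congr rfl
    intro q _
    rw [← K2_line_card hm hHm hHi hx q]
  have hstep : ∀ Z ∈ II, w Z / t Z * ∑ Z' ∈ II, K2_NN act H Z Z' * g Z' ≤ w Z * Real.log M := by
    intro Z hZ
    have h2 := mul_le_mul_of_nonneg_left (hhan Z) (div_nonneg (hw Z) (hTpos Z hZ).le)
    refine h2.trans ?_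
    have h3 : w Z / t Z * (t Z * Real.log (t Z)) = w Z * Real.log (t Z) := by
      field_simp [(hTpos Z hZ).ne']
    rw [h3]
    exact mul_le_mul_of_nonneg_left (Real.log_le_log (hTpos Z hZ) (hM Z hZ)) (hw Z)
  have hsum := Finset.sum_le_sum hstep
  rw [← Finset.sum_mul, mul_comm _ (Real.log M)] at hsum
  refine le_trans (le_of_eq ?_) hsum
  have hexp : ∑ Z ∈ II, w Z / t Z * ∑ Z' ∈ II, (K2_NN act H Z Z' : ℝ) * g Z' =
      ∑ Z' ∈ II, ∑ Z ∈ II, w Z / t Z * ((K2_NN act H Z Z' : ℝ) * g Z') := by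
    rw [Finset.sum_comm]
    apply Finset.sum_congr rfl
    intro Z _
    rw [Finset.mul_sum]
  rw [hexp]
  apply Finset.sum_congr rfl
  intro Z hZ
  -- swap the roles
  have hsw : ∀ Z0 ∈ II, w Z0 / t Z0 * (K2_NN act H Z0 Z * g Z) =
      (w Z / t Z * g Z) * K2_NN act H Z Z0 := by
    intro Z0 _
    rw [K2_NN_symm h1 hm hHi Z0 Z]
    by_cases h0 : K2_NN act H Z Z0 = 0
    · rw [h0]; simp
    · obtain ⟨x, hx⟩ := Finset.card_pos.1 (Nat.pos_of_ne_zero h0)
      rw [mem_filter] at hx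
      have e1 : t Z = t Z0 := by
        simp only [ht]
        rw [K2_TT_card_eq hm hHm hHi II hx.1 hx.2]
      have e2 : w Z0 = w Z := by rw [← hx.2, hwi]
      rw [e1, e2]
      ring
  rw [Finset.sum_congr rfl hsw, ← Finset.mul_sum]
  have h4 : ∑ i ∈ II, (K2_NN act H Z i : ℝ) = t Z := by
    simp only [ht]
    rw [K2_TT_card_sum]
    push_cast
    rfl
  rw [h4]
  have h5 := (hTpos Z hZ).ne'
  simp only [hg]
  field_simp

end abs

section prodinj
open Classical

variable {F : Type} [Field F] {n : ℕ}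

/-- the product map on tuples of roots of unity of distinct prime orders is injective -/
private theorem K2_prod_inj {ι : Type} [Fintype ι] (p : ι → ℕ) (hp : ∀ i, (p i).Prime)
    (hne : Function.Injective p) {x y : ι → Fin n → Fˣ} (hx : ∀ i j, x i j ^ p i = 1)
    (hy : ∀ i j, y i j ^ p i = 1) (h : ∏ i, x i = ∏ i, y i) : x = y := by
  funext i j
  set u : ι → Fˣ := fun l => x l j * (y l j)⁻¹ with hu
  have hu1 : ∀ l, u l ^ p l = 1 := by
    intro l
    simp only [hu, mul_pow, inv_pow, hx, hy]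
    simp
  have hprod : ∏ l, u l = 1 := by
    have h2 := congrFun h j
    rw [Finset.prod_apply, Finset.prod_apply] at h2
    simp only [hu, Finset.prod_mul_distrib, Finset.prod_inv_distrib, h2, mul_inv_cancel]
  -- raise to the product of the other primes
  set R : ℕ := ∏ l ∈ Finset.univ.erase i, p l with hR
  have h3 : u i ^ R = 1 := by
    have h4 : (∏ l, u l) ^ R = u i ^ R := by
      rw [← Finset.prod_pow, ← Finset.mul_prod_erase _ _ (Finset.mem_univ i)]
      rw [Finset.prod_eq_one, mul_one]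
      intro l hl
      obtain ⟨c, hc⟩ : p l ∣ R := Finset.dvd_prod_of_mem p hl
      rw [hc, pow_mul, hu1, one_pow]
    rw [← h4, hprod, one_pow]
  have hcop : (p i).Coprime R := by
    rw [hR, Nat.coprime_prod_right_iff]
    intro l hl
    exact (Nat.coprime_primes (hp i) (hp l)).2 fun e => (Finset.mem_erase.1 hl).1 (hne e).symm
  have h5 : u i = 1 := by
    have h6 : orderOf (u i) ∣ Nat.gcd (p i) R :=
      Nat.dvd_gcd (orderOf_dvd_of_pow_eq_one (hu1 i)) (orderOf_dvd_of_pow_eq_one h3)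
    rw [hcop.gcd_eq_one, Nat.dvd_one, orderOf_eq_one_iff] at h6
    exact h6
  exact mul_inv_eq_one.1 h5

end prodinj

variable {Ω : Type} [Field Ω] {n : ℕ}

private theorem K2_fin [IsAlgClosed Ω] [CharZero Ω] {q : ℕ} (hq : 0 < q) :
    (Mu Ω n q).Finite := by
  haveI : NeZero q := ⟨hq.ne'⟩
  haveI : NeZero (q : Ω) := ⟨by exact_mod_cast hq.ne'⟩
  let F : (Fin n → rootsOfUnity q Ω) ≃ Mu Ω n q :=
    { toFun := fun f => ⟨fun i => (f i : Ωˣ), fun i => (mem_rootsOfUnity q _).mp (f i).2⟩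
      invFun := fun ξ i => ⟨ξ.1 i, (mem_rootsOfUnity q _).mpr (ξ.2 i)⟩
      left_inv := fun f => rfl
      right_inv := fun ξ => rfl }
  haveI : Finite (Mu Ω n q) := Finite.of_equiv _ F
  exact Set.toFinite _

private theorem K2_tr_mul (ξ η : Fin n → Ωˣ) :
    (tr ξ : MvPolynomial (Fin n) Ω ≃+* _).toRingHom.comp (tr η).toRingHom = (tr (ξ * η)).toRingHom := by
  apply MvPolynomial.ringHom_ext
  · intro a
    simp [tr, trh]
  · intro i
    simp [tr, trh, mul_comm, mul_left_comm]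

private theorem K2_tm_mul (ξ η : Fin n → Ωˣ) (P : Ideal (MvPolynomial (Fin n) Ω)) :
    P.map (tr (ξ * η)).toRingHom = (P.map (tr η).toRingHom).map (tr ξ).toRingHom := by
  rw [Ideal.map_map, K2_tr_mul]

private theorem K2_tm_one (P : Ideal (MvPolynomial (Fin n) Ω)) :
    P.map (tr (1 : Fin n → Ωˣ)).toRingHom = P := by
  have : (tr (1 : Fin n → Ωˣ) : MvPolynomial (Fin n) Ω ≃+* _).toRingHom = RingHom.id _ := by
    apply MvPolynomial.ringHom_ext
    · intro a
      simp [tr, trh]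
    · intro i
      simp [tr, trh]
  rw [this, Ideal.map_id]

theorem k_two [IsAlgClosed Ω] [CharZero Ω] (SS : Finset (Ideal (MvPolynomial (Fin n) Ω)))
    (Q : Finset ℕ) (hQ : ∀ q ∈ Q, q.Prime) (Λ : ℝ)
    (hΛ : ∀ P ∈ SS, (SS.card : ℝ) * Set.ncard {ξ : Fin n → Ωˣ | ξ ∈ Mu Ω n (∏ q ∈ Q, q) ∧
      P.map (tr ξ).toRingHom = P} ≤ Λ)
    (f : Ideal (MvPolynomial (Fin n) Ω) → ℝ) (hf : ∀ P, 0 ≤ f P)
    (hft : ∀ P, ∀ ξ : Fin n → Ωˣ, f (P.map (tr ξ).toRingHom) = f P) :
    ∑ P ∈ SS, f P * ∑ q ∈ Q, Real.log (nq (SS : Set (Ideal (MvPolynomial (Fin n) Ω))) q P) ≤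
      Real.log Λ * ∑ P ∈ SS, f P := by
  classical
  let ι := {q : ℕ // q ∈ Q}
  have hfin : ∀ i : ι, (Mu Ω n (i : ℕ)).Finite := fun i => K2_fin (hQ i i.2).pos
  let H : ι → Finset (Fin n → Ωˣ) := fun i => (hfin i).toFinset
  have hmem : ∀ (i : ι) (g : Fin n → Ωˣ), g ∈ H i ↔ ∀ j, g j ^ (i : ℕ) = 1 := fun i g =>
    (hfin i).mem_toFinset
  let act : (Fin n → Ωˣ) → Ideal (MvPolynomial (Fin n) Ω) → Ideal (MvPolynomial (Fin n) Ω) :=
    fun ξ P => P.map (tr ξ).toRingHom
  have act_one : ∀ z, act 1 z = z := fun z => K2_tm_one z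
  have act_mul : ∀ g h z, act (g * h) z = act g (act h z) := fun g h z => K2_tm_mul g h z
  have hH1 : ∀ i, 1 ∈ H i := fun i => (hmem i _).2 fun j => by simp
  have hHm : ∀ i, ∀ g ∈ H i, ∀ h ∈ H i, g * h ∈ H i := by
    intro i g hg h hh
    refine (hmem i _).2 fun j => ?_
    rw [Pi.mul_apply, mul_pow, (hmem i _).1 hg j, (hmem i _).1 hh j, one_mul]
  have hHi : ∀ i, ∀ g ∈ H i, g⁻¹ ∈ H i := by
    intro i g hg
    refine (hmem i _).2 fun j => ?_
    rw [Pi.inv_apply, inv_pow, (hmem i _).1 hg j, inv_one]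
  have hprodpos : 0 < ∏ q ∈ Q, q := Finset.prod_pos fun q hq => (hQ q hq).pos
  have hM : ∀ Z ∈ SS, ((K2_TT act H SS Z).card : ℝ) ≤ Λ := by
    intro Z hZ
    rw [K2_TT_card_sum]
    push_cast
    refine le_trans ?_ (hΛ Z hZ)
    have h1 : ∀ Z' ∈ SS, (K2_NN act H Z Z' : ℝ) ≤
        (Set.ncard {ξ : Fin n → Ωˣ | ξ ∈ Mu Ω n (∏ q ∈ Q, q) ∧ Z.map (tr ξ).toRingHom = Z} : ℝ) := by
      intro Z' _
      have h2 : K2_NN act H Z Z' ≤ K2_NN act H Z Z := K2_NN_le act_one act_mul hHm hHi Z Z'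
      have h3 : K2_NN act H Z Z ≤
          Set.ncard {ξ : Fin n → Ωˣ | ξ ∈ Mu Ω n (∏ q ∈ Q, q) ∧ Z.map (tr ξ).toRingHom = Z} := by
        obtain ⟨s, hs, hsm⟩ := K2_NN_image act H Z Z (fun x => ∏ i, x i) (by
          intro x y hx hy hxy
          exact K2_prod_inj (fun i : ι => (i : ℕ)) (fun i => hQ i i.2) Subtype.val_injective
            (fun i j => (hmem i _).1 (hx i) j) (fun i j => (hmem i _).1 (hy i) j) hxy)
        rw [← hs, ← Set.ncard_coe_finset]
        apply Set.ncard_le_ncard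
        · intro b hb
          obtain ⟨x, hx, hx2, rfl⟩ := hsm b hb
          refine ⟨fun j => ?_, hx2⟩
          rw [Finset.prod_apply, ← Finset.prod_pow]
          apply Finset.prod_eq_one
          intro i _
          obtain ⟨c, hc⟩ : (i : ℕ) ∣ ∏ q ∈ Q, q := Finset.dvd_prod_of_mem (fun q => q) i.2
          rw [hc, pow_mul, (hmem i _).1 (hx i) j, one_pow]
        · exact (K2_fin hprodpos).subset fun ξ hξ => hξ.1
      exact_mod_cast h2.trans h3
    have h4 := Finset.sum_le_sum h1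
    rw [Finset.sum_const, nsmul_eq_mul] at h4
    exact h4
  have hhan := K2_han_action (act := act) act_one act_mul hH1 hHm hHi SS f hf
    (fun g Z => hft Z g) hM
  refine le_trans (le_of_eq ?_) hhan
  refine Finset.sum_congr rfl fun P _ => ?_
  congr 1
  rw [← Finset.sum_coe_sort Q]
  refine Finset.sum_congr rfl fun i _ => ?_
  congr 2
  rw [nq, K2_nn, ← Set.ncard_coe_finset]
  congr 1
  ext ξ
  simp only [Set.mem_setOf_eq, Finset.coe_filter, SetLike.mem_coe, Finset.mem_coe]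
  constructor
  · rintro ⟨h1, h2⟩
    exact ⟨(hmem i ξ).2 h1, h2⟩
  · rintro ⟨h1, h2⟩
    exact ⟨(hmem i ξ).1 h1, h2⟩

end DR
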