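import Pool.Agent.Lib.MP_a325a5_ag.DR.K1
import Pool.Agent.Lib.MP_a325a5_ag.DR.K2

/-! DR_PROOF 5.3.  (e of a non-prime is irrelevant: apply k_two to f P = if P.IsPrime then e P else 0.) -/

open MvPolynomial

namespace DR

variable {Ω : Type} [Field Ω] {n : ℕ}

theorem K3_one (P : Ideal (MvPolynomial (Fin n) Ω)) : P.map (tr (1 : Fin n → Ωˣ)).toRingHom = P := by
  have h : (tr (1 : Fin n → Ωˣ)).toRingHom = RingHom.id (MvPolynomial (Fin n) Ω) := by
    apply MvPolynomial.ringHom_ext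
    · intro a
      show trh 1 (C a) = C a
      simp [trh]
    · intro i
      show trh 1 (X i) = X i
      simp [trh]
  rw [h, Ideal.map_id]

theorem K3_nq [IsAlgClosed Ω] [CharZero Ω] {q : ℕ} (hq : 0 < q)
    (SS : Finset (Ideal (MvPolynomial (Fin n) Ω))) {P : Ideal (MvPolynomial (Fin n) Ω)}
    (hP : P ∈ SS) : 1 ≤ nq (SS : Set (Ideal (MvPolynomial (Fin n) Ω))) q P := by
  have hfin : {ξ : Fin n → Ωˣ | ξ ∈ Mu Ω n q ∧
      P.map (tr ξ).toRingHom ∈ (SS : Set (Ideal (MvPolynomial (Fin n) Ω)))}.Finite :=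
    (card_Mu (Ω := Ω) (n := n) hq).2.subset fun ξ h => h.1
  rw [nq, Nat.one_le_iff_ne_zero]
  intro h0
  rw [Set.ncard_eq_zero hfin] at h0
  have h1 : (1 : Fin n → Ωˣ) ∈ {ξ : Fin n → Ωˣ | ξ ∈ Mu Ω n q ∧
      P.map (tr ξ).toRingHom ∈ (SS : Set (Ideal (MvPolynomial (Fin n) Ω)))} := by
    refine ⟨fun i => one_pow q, ?_⟩
    rw [K3_one]
    exact hP
  rw [h0] at h1
  exact h1

theorem k_lemma [IsAlgClosed Ω] [CharZero Ω] (X : ℕ) (hX : 2 ≤ X) (ε Λ : ℝ) (hε : 0 < ε)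
    (j : ℕ) (hj : j ≤ n) (SS ZZ : Finset (Ideal (MvPolynomial (Fin n) Ω)))
    (hSS : ∀ P ∈ SS, P.IsPrime ∧ dm P = j) (hZ : ∀ P ∈ ZZ, P.IsPrime ∧ dm P = j)
    (Q : Finset ℕ) (hQ : ∀ q ∈ Q, q.Prime ∧ X < q) (ρ : ℕ → (Ω ≃+* Ω))
    (h : ∀ q ∈ Q, ∀ P ∈ SS, P.comap (th q (ρ q)) ∈ ZZ)
    (hΛ : ∀ P ∈ SS, (SS.card : ℝ) * Set.ncard {ξ : Fin n → Ωˣ | ξ ∈ Mu Ω n (∏ q ∈ Q, q) ∧
      P.map (tr ξ).toRingHom = P} ≤ Λ) (hΛ1 : 1 ≤ Λ)
    (ht : 2 * Real.log Λ ≤ Q.card * ε * Real.log X) (hQ0 : Q.Nonempty) :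
    (X : ℝ) ^ j * ∑ P ∈ SS, e P ≤ 2 * (X : ℝ) ^ ε * ∑ Q' ∈ ZZ, e Q' := by
  classical
  have hX0 : (0 : ℝ) < X := by
    have : (2 : ℝ) ≤ X := by exact_mod_cast hX
    linarith
  have hlogX : 0 < Real.log X := Real.log_pos (by
    have : (2 : ℝ) ≤ X := by exact_mod_cast hX
    linarith)
  have he : ∀ P ∈ SS, 0 ≤ e P := by
    intro P hP
    haveI := (hSS P hP).1
    linarith [e_ge_one P]
  have hsum0 : 0 ≤ ∑ P ∈ SS, e P := Finset.sum_nonneg he
  -- the averaged inequality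
  have h1 := k_two SS Q (fun q hq => (hQ q hq).1) Λ hΛ
    (fun P => if P.IsPrime then e P else 0) (fun P => by
      by_cases hP : P.IsPrime
      · haveI := hP
        simp only [hP, if_true]
        linarith [e_ge_one P]
      · simp only [hP, if_false]
        exact le_rfl) (fun P ξ => by
      by_cases hP : P.IsPrime
      · haveI := hP
        have hP2 : (P.map (tr ξ).toRingHom).IsPrime := by
          have := Ideal.map_isPrime_of_equiv (tr ξ) (I := P)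
          exact this
        simp only [hP, hP2, if_true]
        exact sym_e (sym_tr ξ) P
      · have hP2 : ¬ (P.map (tr ξ).toRingHom).IsPrime := by
          intro h2
          apply hP
          haveI := h2
          have h3 : (P.map (tr ξ).toRingHom).comap (tr ξ).toRingHom = P :=
            Ideal.comap_map_of_bijective (tr ξ).toRingHom (tr ξ).bijective
          rw [← h3]
          exact Ideal.IsPrime.comap _
        simp only [hP, hP2, if_false])
  have h2 : ∀ g : Ideal (MvPolynomial (Fin n) Ω) → ℝ,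
      ∑ P ∈ SS, (if P.IsPrime then e P else 0) * g P = ∑ P ∈ SS, e P * g P := by
    intro g
    apply Finset.sum_congr rfl
    intro P hP
    rw [if_pos (hSS P hP).1]
  have h2' : ∑ P ∈ SS, (if P.IsPrime then e P else 0) = ∑ P ∈ SS, e P := by
    apply Finset.sum_congr rfl
    intro P hP
    rw [if_pos (hSS P hP).1]
  rw [h2, h2'] at h1
  have h3 : ∑ P ∈ SS, e P * ∑ q ∈ Q,
      Real.log (nq (SS : Set (Ideal (MvPolynomial (Fin n) Ω))) q P) =
      ∑ q ∈ Q, ∑ P ∈ SS, e P * Real.log (nq (SS : Set (Ideal (MvPolynomial (Fin n) Ω))) q P) := by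
    rw [Finset.sum_comm]
    apply Finset.sum_congr rfl
    intro P _
    rw [Finset.mul_sum]
  rw [h3] at h1
  have hcard : (0 : ℝ) < Q.card := by exact_mod_cast hQ0.card_pos
  -- a good prime
  obtain ⟨q, hq, hq1⟩ : ∃ q ∈ Q, ∑ P ∈ SS, e P *
      Real.log (nq (SS : Set (Ideal (MvPolynomial (Fin n) Ω))) q P) ≤
      (ε / 2 * Real.log X) * ∑ P ∈ SS, e P := by
    by_contra hcon
    push Not at hcon
    have h4 : ∑ q ∈ Q, (ε / 2 * Real.log X) * ∑ P ∈ SS, e P <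
        ∑ q ∈ Q, ∑ P ∈ SS, e P *
          Real.log (nq (SS : Set (Ideal (MvPolynomial (Fin n) Ω))) q P) :=
      Finset.sum_lt_sum_of_nonempty hQ0 hcon
    rw [Finset.sum_const, nsmul_eq_mul] at h4
    have h5 : Real.log Λ * ∑ P ∈ SS, e P ≤
        (Q.card : ℝ) * ((ε / 2 * Real.log X) * ∑ P ∈ SS, e P) := by
      have h6 : Real.log Λ ≤ (Q.card : ℝ) * (ε / 2 * Real.log X) := by nlinarith [ht]
      calc Real.log Λ * ∑ P ∈ SS, e P ≤ ((Q.card : ℝ) * (ε / 2 * Real.log X)) * ∑ P ∈ SS, e P :=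
            mul_le_mul_of_nonneg_right h6 hsum0
        _ = _ := by ring
    linarith
  obtain ⟨hqp, hqX⟩ := hQ q hq
  have hq0 : 0 < q := hqp.pos
  have h7 := k_one hq0 (ρ q) j SS ZZ hSS hZ (h q hq) hj
  have hnq : ∀ P ∈ SS, (1 : ℝ) ≤ nq (SS : Set (Ideal (MvPolynomial (Fin n) Ω))) q P := by
    intro P hP
    exact_mod_cast K3_nq hq0 SS hP
  -- pointwise: e P ≤ 2 X^ε e P / n_q + ..., integrate
  have hpt : ∀ P ∈ SS, e P * (1 - Real.log (nq (SS : Set (Ideal (MvPolynomial (Fin n) Ω))) q P) /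
      (ε * Real.log X)) ≤
      (X : ℝ) ^ ε * (e P / nq (SS : Set (Ideal (MvPolynomial (Fin n) Ω))) q P) := by
    intro P hP
    have hn1 := hnq P hP
    generalize ((nq (SS : Set (Ideal (MvPolynomial (Fin n) Ω))) q P : ℕ) : ℝ) = N at hn1 ⊢
    have hN0 : 0 < N := by linarith
    have hA : (0 : ℝ) < (X : ℝ) ^ ε := Real.rpow_pos_of_pos hX0 ε
    have hlogA : Real.log ((X : ℝ) ^ ε) = ε * Real.log X := Real.log_rpow hX0 ε
    have hA1 : 0 < ε * Real.log X := mul_pos hε hlogX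
    have hkey : 1 - Real.log N / (ε * Real.log X) ≤ (X : ℝ) ^ ε / N := by
      rcases le_or_gt N ((X : ℝ) ^ ε) with h8 | h8
      · have h9 : 1 ≤ (X : ℝ) ^ ε / N := (one_le_div hN0).mpr h8
        have h10 : 0 ≤ Real.log N / (ε * Real.log X) :=
          div_nonneg (Real.log_nonneg hn1) hA1.le
        linarith
      · have h9 : 1 ≤ Real.log N / (ε * Real.log X) := by
          rw [one_le_div hA1, ← hlogA]
          exact Real.log_le_log hA h8.le
        have h10 : 0 ≤ (X : ℝ) ^ ε / N := (div_pos hA hN0).le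
        linarith
    calc e P * (1 - Real.log N / (ε * Real.log X)) ≤ e P * ((X : ℝ) ^ ε / N) :=
          mul_le_mul_of_nonneg_left hkey (he P hP)
      _ = (X : ℝ) ^ ε * (e P / N) := by ring
  have hsum := Finset.sum_le_sum hpt
  rw [← Finset.mul_sum] at hsum
  have h11 : ∑ P ∈ SS, e P * (1 - Real.log (nq (SS : Set (Ideal (MvPolynomial (Fin n) Ω))) q P) /
      (ε * Real.log X)) = ∑ P ∈ SS, e P - (∑ P ∈ SS, e P *
        Real.log (nq (SS : Set (Ideal (MvPolynomial (Fin n) Ω))) q P)) / (ε * Real.log X) := by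
    rw [Finset.sum_div, ← Finset.sum_sub_distrib]
    apply Finset.sum_congr rfl
    intro P _
    ring
  rw [h11] at hsum
  have hA1 : 0 < ε * Real.log X := mul_pos hε hlogX
  have h12 : (∑ P ∈ SS, e P *
        Real.log (nq (SS : Set (Ideal (MvPolynomial (Fin n) Ω))) q P)) / (ε * Real.log X) ≤
      (∑ P ∈ SS, e P) / 2 := by
    rw [div_le_iff₀ hA1]
    calc _ ≤ _ := hq1
      _ = _ := by ring
  have h13 : (X : ℝ) ^ j ≤ (q : ℝ) ^ j := by
    apply pow_le_pow_left₀ hX0.le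
    exact_mod_cast hqX.le
  have hA : (0 : ℝ) < (X : ℝ) ^ ε := Real.rpow_pos_of_pos hX0 ε
  have hB : 0 ≤ ∑ P ∈ SS, e P / nq (SS : Set (Ideal (MvPolynomial (Fin n) Ω))) q P :=
    Finset.sum_nonneg fun P hP => div_nonneg (he P hP) (by linarith [hnq P hP])
  generalize ∑ P ∈ SS, e P / nq (SS : Set (Ideal (MvPolynomial (Fin n) Ω))) q P = B at *
  generalize ∑ P ∈ SS, e P = A at *
  generalize ∑ Q' ∈ ZZ, e Q' = W at *
  have h14 : A ≤ 2 * ((X : ℝ) ^ ε * B) := by linarith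
  have hXj : (0 : ℝ) ≤ (X : ℝ) ^ j := by positivity
  calc (X : ℝ) ^ j * A ≤ (X : ℝ) ^ j * (2 * ((X : ℝ) ^ ε * B)) :=
        mul_le_mul_of_nonneg_left h14 hXj
    _ = 2 * (X : ℝ) ^ ε * ((X : ℝ) ^ j * B) := by ring
    _ ≤ 2 * (X : ℝ) ^ ε * ((q : ℝ) ^ j * B) := by
        apply mul_le_mul_of_nonneg_left (mul_le_mul_of_nonneg_right h13 hB)
        positivity
    _ ≤ 2 * (X : ℝ) ^ ε * W := mul_le_mul_of_nonneg_left h7 (by positivity)

end DR
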