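import Pool.Agent.Lib.MP_a325a5_ag.DR.G2b
import Pool.Agent.Lib.MP_a325a5_ag.DR.K3

/-! DR_PROOF 6 (e): stable primes. -/

open MvPolynomial

namespace DR

variable {Ω : Type} [Field Ω] {n : ℕ}

variable [IsAlgClosed Ω] [CharZero Ω] (d : Dat Ω n)

/-- stable primes of dimension `j` at level `i - 1` -/
noncomputable def Dat.st (i j : ℕ) : Finset (Ideal (MvPolynomial (Fin n) Ω)) := by
  classical
  exact (ZJ (d.E (i - 1)) (d.l (i - 1)) j).filter fun P =>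
    ∀ q ∈ d.P i, P.comap (th q (d.ρ q)) ∈ ZJ (d.E i) (d.l i) j

omit [IsAlgClosed Ω] [CharZero Ω] in
theorem G3_mem_st {i j : ℕ} {P : Ideal (MvPolynomial (Fin n) Ω)} :
    P ∈ d.st i j ↔ P ∈ ZJ (d.E (i - 1)) (d.l (i - 1)) j ∧
      ∀ q ∈ d.P i, P.comap (th q (d.ρ q)) ∈ ZJ (d.E i) (d.l i) j := by
  classical
  simp only [Dat.st, Finset.mem_filter]

omit [IsAlgClosed Ω] [CharZero Ω] in
theorem G3_e_nonneg {E : Set (Fin n → Ω)} {l j : ℕ} {P : Ideal (MvPolynomial (Fin n) Ω)}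
    (hP : P ∈ ZJ E l j) : 0 ≤ e P := by
  have h1 := (mem_ZJ.1 hP).1
  have : P.IsPrime := h1.1.1
  exact zero_le_one.trans (e_ge_one P)

omit [IsAlgClosed Ω] [CharZero Ω] in
theorem G3_prime {E : Set (Fin n → Ω)} {l j : ℕ} {P : Ideal (MvPolynomial (Fin n) Ω)}
    (hP : P ∈ ZJ E l j) : P.IsPrime ∧ dm P = j := by
  have h1 := mem_ZJ.1 hP
  exact ⟨h1.1.1.1, h1.2.2⟩

omit [IsAlgClosed Ω] [CharZero Ω] in
theorem G3_l_pos (i : ℕ) : 1 ≤ d.l i := by
  have h1 := d.hX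
  have h2 := d.hL
  unfold Dat.l
  have : 0 < (8 * d.X) ^ (d.r - i) := by positivity
  exact Nat.mul_pos this h2

omit [IsAlgClosed Ω] [CharZero Ω] in
theorem G3_l_le (i : ℕ) : d.l i ≤ (8 * d.X) ^ d.r * d.L := by
  have h1 := d.hX
  unfold Dat.l
  exact Nat.mul_le_mul_right _ (Nat.pow_le_pow_right (by omega) (Nat.sub_le _ _))

omit [IsAlgClosed Ω] [CharZero Ω] in
theorem G3_l_succ {i : ℕ} (h1 : 0 < i) (h2 : i ≤ d.r) : d.l (i - 1) = 8 * d.X * d.l i := by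
  unfold Dat.l
  have : d.r - (i - 1) = d.r - i + 1 := by omega
  rw [this, pow_succ]
  ring

theorem Dat.stable {i j : ℕ} (h1 : 2 * d.h0 < i) (h2 : i ≤ d.r) (hj : j < n) :
    (d.l (i - 1) : ℝ) ^ j * ∑ P ∈ d.st i j, e P ≤
      2 * 8 ^ n * (d.X : ℝ) ^ (1 / (4 * d.r : ℝ)) * d.a i j := by
  classical
  have hX := d.hX
  have hXr : (2 : ℝ) ≤ d.X := by exact_mod_cast hX
  have hlog : 0 < Real.log d.X := Real.log_pos (by linarith)
  have hn := d.hn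
  have hr : 0 < d.r := by omega
  have hrr : (0 : ℝ) < d.r := by exact_mod_cast hr
  have hε : (0 : ℝ) < 1 / (4 * d.r : ℝ) := by positivity
  set B : ℝ := (n.factorial : ℝ) * ((8 * (d.X : ℝ)) ^ d.r * d.L) ^ n with hB
  have hfac : (1 : ℝ) ≤ n.factorial := by exact_mod_cast n.factorial_pos
  have hL : (1 : ℝ) ≤ d.L := by exact_mod_cast d.hL
  have hl0 : (2 : ℝ) ≤ (8 * (d.X : ℝ)) ^ d.r * d.L := by
    have h3 : (8 * (d.X : ℝ)) ^ 1 ≤ (8 * (d.X : ℝ)) ^ d.r :=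
      pow_le_pow_right₀ (by linarith) hr
    nlinarith
  have hl0n : (2 : ℝ) ≤ ((8 * (d.X : ℝ)) ^ d.r * d.L) ^ n :=
    hl0.trans (le_self_pow₀ (by linarith) (by omega))
  have hB2 : 2 ≤ B := by nlinarith
  have hlogB : 0 < Real.log B := Real.log_pos (by linarith)
  have g5' := d.g5'
  rw [← hB] at g5'
  -- the level bound
  have hlle : ∀ i', (d.l i' : ℝ) ≤ (8 * (d.X : ℝ)) ^ d.r * d.L := by
    intro i'
    have h3 := G3_l_le d i'
    calc (d.l i' : ℝ) ≤ (((8 * d.X) ^ d.r * d.L : ℕ) : ℝ) := by exact_mod_cast h3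
      _ = _ := by push_cast; ring
  have hl1 : ∀ i', (1 : ℝ) ≤ d.l i' := fun i' => by exact_mod_cast G3_l_pos d i'
  have hQ0 : 0 < d.t := by
    rcases Nat.eq_zero_or_pos d.t with h3 | h3
    · rw [h3] at g5'
      simp only [Nat.cast_zero, zero_mul] at g5'
      linarith
    · exact h3
  have hcard : d.t ≤ (d.P i).card := d.g5 i h1 h2
  have hk := k_lemma (Ω := Ω) (n := n) d.X hX (1 / (4 * d.r : ℝ)) (B ^ 2) hε j hj.le
    (d.st i j) (ZJ (d.E i) (d.l i) j)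
    (fun P hP => G3_prime ((G3_mem_st d).1 hP).1) (fun P hP => G3_prime hP)
    (d.P i) (fun q hq => ⟨(d.hP i h1 h2 q hq).1, (d.hP i h1 h2 q hq).2.1⟩) d.ρ
    (fun q hq P hP => ((G3_mem_st d).1 hP).2 q hq)
    (by
      intro P hP
      have hPZ := ((G3_mem_st d).1 hP).1
      have h3 : ((d.st i j).card : ℝ) ≤ B := by
        have h4 : (d.st i j).card ≤ (ZJ (d.E (i - 1)) (d.l (i - 1)) j).card :=
          Finset.card_le_card (fun Q hQ => ((G3_mem_st d).1 hQ).1)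
        have h5 := d.card_ZJ (i - 1) j
        have h6 := d.mj_le (i - 1) j
        have h7 : (d.l (i - 1) : ℝ) ^ (n - j) ≤ ((8 * (d.X : ℝ)) ^ d.r * d.L) ^ n :=
          (pow_le_pow_left₀ (by linarith [hl1 (i - 1)]) (hlle (i - 1)) _).trans
            (pow_le_pow_right₀ (by linarith) (Nat.sub_le _ _))
        calc ((d.st i j).card : ℝ) ≤ (ZJ (d.E (i - 1)) (d.l (i - 1)) j).card := by
              exact_mod_cast h4
          _ ≤ _ := h5
          _ ≤ _ := h6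
          _ ≤ B := mul_le_mul_of_nonneg_left h7 (by linarith)
      have h4 : (Set.ncard {ξ : Fin n → Ωˣ | ξ ∈ Mu Ω n (∏ q ∈ d.P i, q) ∧
          P.map (tr ξ).toRingHom = P} : ℝ) ≤ B := by
        have h5 := d.stab (i := i - 1) (j := j) (by omega) (by omega) hPZ
          (N := ∏ q ∈ d.P i, q) (Finset.prod_pos fun q hq => (d.hP i h1 h2 q hq).1.pos)
        have h7 : (d.l (i - 1) : ℝ) ^ n ≤ ((8 * (d.X : ℝ)) ^ d.r * d.L) ^ n :=
          pow_le_pow_left₀ (by linarith [hl1 (i - 1)]) (hlle (i - 1)) _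
        calc (Set.ncard {ξ : Fin n → Ωˣ | ξ ∈ Mu Ω n (∏ q ∈ d.P i, q) ∧
              P.map (tr ξ).toRingHom = P} : ℝ) ≤ ((n.factorial * (d.l (i - 1)) ^ n : ℕ) : ℝ) := by
              exact_mod_cast h5
          _ = (n.factorial : ℝ) * (d.l (i - 1) : ℝ) ^ n := by push_cast; ring
          _ ≤ B := mul_le_mul_of_nonneg_left h7 (by linarith)
      calc _ ≤ B * B := mul_le_mul h3 h4 (by positivity) (by linarith)
        _ = B ^ 2 := by ring)
    (by nlinarith)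
    (by
      rw [Real.log_pow]
      have h3 : (d.t : ℝ) ≤ (d.P i).card := by exact_mod_cast hcard
      have h4 : (d.t : ℝ) * (1 / (4 * d.r : ℝ)) * Real.log d.X ≤
          ((d.P i).card : ℝ) * (1 / (4 * d.r : ℝ)) * Real.log d.X :=
        mul_le_mul_of_nonneg_right (mul_le_mul_of_nonneg_right h3 hε.le) hlog.le
      push_cast
      linarith)
    (Finset.card_pos.1 (by omega))
  -- conclusion
  have hm : mj (d.E i) (d.l i) j = ∑ Q' ∈ ZJ (d.E i) (d.l i) j, e Q' := rfl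
  have hm0 : 0 ≤ mj (d.E i) (d.l i) j := Finset.sum_nonneg fun Q hQ => G3_e_nonneg hQ
  rw [← hm] at hk
  have hl : (d.l (i - 1) : ℝ) = 8 * (d.X : ℝ) * d.l i := by
    rw [G3_l_succ d (by omega) h2]
    push_cast
    ring
  have h8 : (8 : ℝ) ^ j ≤ 8 ^ n := pow_le_pow_right₀ (by norm_num) hj.le
  have hli : 0 ≤ (d.l i : ℝ) ^ j := by positivity
  have hXe : 0 ≤ (d.X : ℝ) ^ (1 / (4 * d.r : ℝ)) := by positivity
  rw [hl]
  unfold Dat.a
  calc (8 * (d.X : ℝ) * d.l i) ^ j * ∑ P ∈ d.st i j, e P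
      = 8 ^ j * (d.l i : ℝ) ^ j * ((d.X : ℝ) ^ j * ∑ P ∈ d.st i j, e P) := by
        rw [mul_pow, mul_pow]; ring
    _ ≤ 8 ^ j * (d.l i : ℝ) ^ j * (2 * (d.X : ℝ) ^ (1 / (4 * d.r : ℝ)) *
          mj (d.E i) (d.l i) j) := mul_le_mul_of_nonneg_left hk (by positivity)
    _ = 8 ^ j * ((d.l i : ℝ) ^ j * (2 * (d.X : ℝ) ^ (1 / (4 * d.r : ℝ)) *
          mj (d.E i) (d.l i) j)) := by ring
    _ ≤ 8 ^ n * ((d.l i : ℝ) ^ j * (2 * (d.X : ℝ) ^ (1 / (4 * d.r : ℝ)) *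
          mj (d.E i) (d.l i) j)) := mul_le_mul_of_nonneg_right h8 (by positivity)
    _ = _ := by ring

end DR
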