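import Pool.Agent.Lib.MP_a325a5_ag.DR.T2a

/-! DR_PROOF 3.3: going down (integral over an integrally closed domain; or flatness: Algebra.HasGoingDown). -/

open MvPolynomial

namespace DR

variable {Ω : Type} [Field Ω] {n : ℕ}

private theorem T2c_gen {R S : Type} [CommRing R] [CommRing S] [IsDomain S] [IsIntegrallyClosed R]
    (f : R →+* S) (hinj : Function.Injective f) (hint : f.IsIntegral) (Q : Ideal R) (P : Ideal S)
    [Q.IsPrime] [P.IsPrime] (h : Q ≤ P.comap f) :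
    ∃ PP : Ideal S, PP.IsPrime ∧ PP ≤ P ∧ PP.comap f = Q := by
  let : Algebra R S := f.toAlgebra
  have : Algebra.IsIntegral R S := ⟨hint⟩
  have : FaithfulSMul R S := (faithfulSMul_iff_algebraMap_injective R S).mpr hinj
  have : P.LiesOver (P.comap f) := ⟨rfl⟩
  obtain ⟨PP, h1, h2, h3⟩ := Ideal.exists_ideal_le_liesOver_of_le (p := Q) (q := P.comap f) P h
  exact ⟨PP, h2, h1, h3.over.symm⟩

theorem th_goingDown {q : ℕ} (hq : 0 < q) (ρ : Ω ≃+* Ω) (Q P : Ideal (MvPolynomial (Fin n) Ω))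
    [Q.IsPrime] [P.IsPrime] (h : Q ≤ P.comap (th q ρ)) :
    ∃ PP : Ideal (MvPolynomial (Fin n) Ω), PP.IsPrime ∧ PP ≤ P ∧ PP.comap (th q ρ) = Q := by
  refine T2c_gen (th q ρ) ?_ (th_integral hq ρ) Q P h
  rw [injective_iff_map_eq_zero]
  intro f hf
  by_contra h0
  exact th_ne_zero hq ρ h0 hf

end DR
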