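import Pool.Agent.Lib.MP_a325a5_ag.DR.H3b

/-! DR_PROOF 1.5 (induction on the finset; H of the intersection = H + H - dim V_ν/((V_ν ∩ I') + (V_ν ∩ P_s)), the last one is bounded by H_cut). -/

open MvPolynomial

namespace DR

variable {Ω : Type} [Field Ω] {n : ℕ}

private theorem h3c_K (I P : Ideal (MvPolynomial (Fin n) Ω)) (ν : ℕ) :
    H (P ⊓ I) ν + Module.finrank Ω ((V Ω n ν).map
      ((V Ω n ν ⊓ P.restrictScalars Ω) ⊔ (V Ω n ν ⊓ I.restrictScalars Ω) :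
        Submodule Ω (MvPolynomial (Fin n) Ω)).mkQ) = H P ν + H I ν := by
  set A : Submodule Ω (MvPolynomial (Fin n) Ω) := V Ω n ν ⊓ P.restrictScalars Ω with hA
  set B : Submodule Ω (MvPolynomial (Fin n) Ω) := V Ω n ν ⊓ I.restrictScalars Ω with hB
  have h1 := h3a_H (ν := ν) (P ⊓ I)
  have h2 := h3a_H (ν := ν) P
  have h3 := h3a_H (ν := ν) I
  have h4 := h3a_mkQ (n := n) (ν := ν) (A ⊔ B)
  have fA : Module.Finite Ω A := Submodule.finiteDimensional_of_le (inf_le_left : A ≤ V Ω n ν)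
  have fB : Module.Finite Ω B := Submodule.finiteDimensional_of_le (inf_le_left : B ≤ V Ω n ν)
  have h5 := Submodule.finrank_sup_add_finrank_inf_eq A B
  have h6 : V Ω n ν ⊓ (A ⊔ B) = A ⊔ B := inf_eq_right.2 (sup_le inf_le_left inf_le_left)
  have h7 : V Ω n ν ⊓ (P ⊓ I).restrictScalars Ω = A ⊓ B := by
    ext x
    constructor
    · rintro ⟨hx1, hx2, hx3⟩
      exact ⟨⟨hx1, hx2⟩, ⟨hx1, hx3⟩⟩
    · rintro ⟨⟨hx1, hx2⟩, ⟨_, hx3⟩⟩
      exact ⟨hx1, hx2, hx3⟩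
  rw [h6] at h4
  rw [h7] at h1
  rw [← hA] at h2
  rw [← hB] at h3
  omega

theorem S_inf_ge (j : ℕ) (s : Finset (Ideal (MvPolynomial (Fin n) Ω)))
    (hs : ∀ P ∈ s, P.IsPrime ∧ dm P = j) :
    ∃ C : ℝ, 0 ≤ C ∧ ∀ ν : ℕ, 1 ≤ ν →
      (∑ P ∈ s, (S P ν : ℝ)) - C * (ν : ℝ) ^ j ≤ (S (s.inf id) ν : ℝ) := by
  classical
  induction s using Finset.induction_on with
  | empty =>
    refine ⟨0, le_rfl, fun ν _ => ?_⟩
    rw [Finset.sum_empty]
    have : (0 : ℝ) ≤ (S ((∅ : Finset (Ideal (MvPolynomial (Fin n) Ω))).inf id) ν : ℝ) :=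
      Nat.cast_nonneg _
    linarith
  | insert P s hPs ih =>
    obtain ⟨C, hC0, hC⟩ := ih fun Q hQ => hs Q (Finset.mem_insert_of_mem hQ)
    obtain ⟨hP, hPj⟩ := hs P (Finset.mem_insert_self P s)
    have hnot : ¬ s.inf id ≤ P := by
      intro hle
      obtain ⟨Q, hQ, hQP⟩ := (Ideal.IsPrime.inf_le' hP).1 hle
      obtain ⟨hQp, hQj⟩ := hs Q (Finset.mem_insert_of_mem hQ)
      have h1 : Q = P := eq_of_dm hQP (by rw [hPj, hQj])
      rw [h1] at hQ
      exact hPs hQ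
    obtain ⟨f, hfI, hfP⟩ := SetLike.not_le_iff_exists.1 hnot
    obtain ⟨d, hd, hf⟩ := exists_mem_V f
    obtain ⟨C0, hC00, hC0'⟩ := H_upper P
    refine ⟨C + d * C0, by positivity, fun ν hν => ?_⟩
    rw [Finset.sum_insert hPs, Finset.inf_insert, id]
    set I := s.inf id with hI
    set K : ℕ → ℕ := fun μ => Module.finrank Ω ((V Ω n μ).map
      ((V Ω n μ ⊓ P.restrictScalars Ω) ⊔ (V Ω n μ ⊓ I.restrictScalars Ω) :
        Submodule Ω (MvPolynomial (Fin n) Ω)).mkQ) with hK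
    have hKeq : ∀ μ, H (P ⊓ I) μ + K μ = H P μ + H I μ := fun μ => h3c_K I P μ
    have h1 : ∑ μ ∈ Finset.range ν, K μ ≤ d * H P ν := by
      refine h3a_sum P d (fun μ hμ => ?_) (fun μ => ?_) ν
      · refine H_cut P hf hfP hμ _ (fun g hg1 hg2 => ?_) (fun g hg => ?_)
        · exact Submodule.mem_sup_left ⟨hg1, hg2⟩
        · refine Submodule.mem_sup_right ⟨?_, ?_⟩
          · have h8 := mul_mem_V hf hg
            rw [show d + (μ - d) = μ by omega] at h8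
            exact h8
          · exact Ideal.mul_mem_right g _ hfI
      · have h2 := hKeq μ
        have h3 : H I μ ≤ H (P ⊓ I) μ := H_anti inf_le_right μ
        omega
    have h2 : S (P ⊓ I) ν + ∑ μ ∈ Finset.range ν, K μ = S P ν + S I ν := by
      unfold S
      rw [← Finset.sum_add_distrib, ← Finset.sum_add_distrib]
      exact Finset.sum_congr rfl fun μ _ => hKeq μ
    have h3 : (S P ν : ℝ) + S I ν ≤ S (P ⊓ I) ν + d * H P ν := by
      have : S P ν + S I ν ≤ S (P ⊓ I) ν + d * H P ν := by omega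
      exact_mod_cast this
    have h4 := hC ν hν
    have h5 := hC0' ν hν
    rw [hPj] at h5
    have h6 : (d : ℝ) * H P ν ≤ d * (C0 * (ν : ℝ) ^ j) :=
      mul_le_mul_of_nonneg_left h5 (Nat.cast_nonneg d)
    have h7 : (C + d * C0) * (ν : ℝ) ^ j = C * (ν : ℝ) ^ j + d * (C0 * (ν : ℝ) ^ j) := by ring
    rw [h7]
    linarith

end DR
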