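import Pool.Agent.Lib.MP_a325a5_ag.DR.T2b
import Pool.Agent.Lib.MP_a325a5_ag.DR.H3c
import Pool.Agent.Lib.MP_a325a5_ag.DR.H4a

/-! DR_PROOF 3.2. -/

open MvPolynomial

namespace DR

variable {Ω : Type} [Field Ω] {n : ℕ}

/-- the image of `V ν` modulo `I` is spanned by the images of `H I ν` elements of `V ν` -/
private theorem T3_basis (I : Ideal (MvPolynomial (Fin n) Ω)) (ν : ℕ) :
    ∃ b : Fin (H I ν) → MvPolynomial (Fin n) Ω, (∀ i, b i ∈ V Ω n ν) ∧
      ∀ g ∈ V Ω n ν, ∃ c : Fin (H I ν) → Ω, g - ∑ i, C (c i) * b i ∈ I := by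
  classical
  have hfv : Module.Finite Ω (V Ω n ν) := finite_V ν
  have hfin : Module.Finite Ω ((V Ω n ν).map (Ideal.Quotient.mkₐ Ω I).toLinearMap) := inferInstance
  let B : Module.Basis (Fin (H I ν)) Ω ((V Ω n ν).map (Ideal.Quotient.mkₐ Ω I).toLinearMap) :=
    Module.finBasis Ω _
  have hex : ∀ i, ∃ f ∈ V Ω n ν, (Ideal.Quotient.mkₐ Ω I).toLinearMap f =
      (B i : MvPolynomial (Fin n) Ω ⧸ I) := fun i => (Submodule.mem_map.1 (B i).2)
  choose b hb hb' using hex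
  refine ⟨b, hb, fun g hg => ?_⟩
  let w : (V Ω n ν).map (Ideal.Quotient.mkₐ Ω I).toLinearMap :=
    ⟨(Ideal.Quotient.mkₐ Ω I).toLinearMap g, Submodule.mem_map_of_mem hg⟩
  refine ⟨fun i => B.repr w i, ?_⟩
  have h1 := B.sum_repr w
  have h2 : ∑ i, B.repr w i • (B i : MvPolynomial (Fin n) Ω ⧸ I) =
      (Ideal.Quotient.mkₐ Ω I).toLinearMap g := by
    have := congrArg Subtype.val h1
    rw [Submodule.coe_sum] at this
    exact this
  rw [← Ideal.Quotient.eq_zero_iff_mem, map_sub, map_sum, sub_eq_zero]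
  have h3 : (Ideal.Quotient.mk I) g = (Ideal.Quotient.mkₐ Ω I).toLinearMap g := rfl
  rw [h3, ← h2]
  refine Finset.sum_congr rfl fun i _ => ?_
  rw [← hb' i, ← map_smul, MvPolynomial.smul_eq_C_mul]
  rfl

private theorem T3_th_X (q : ℕ) (ρ : Ω ≃+* Ω) (i : Fin n) :
    th q ρ (X i : MvPolynomial (Fin n) Ω) = X i ^ q := by
  simp [th]

private theorem T3_th_C (q : ℕ) (ρ : Ω ≃+* Ω) (c : Ω) :
    th q ρ (C c : MvPolynomial (Fin n) Ω) = C (ρ.symm c) := by
  simp [th]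

theorem th_H {q : ℕ} (hq : 0 < q) (ρ : Ω ≃+* Ω) (I Q : Ideal (MvPolynomial (Fin n) Ω))
    (h : Q ≤ I.comap (th q ρ)) (μ : ℕ) : H I μ ≤ q ^ n * H Q (μ / q) := by
  classical
  obtain ⟨b, hb, hspan⟩ := T3_basis Q (μ / q)
  let F : (Fin n → Fin q) × Fin (H Q (μ / q)) → MvPolynomial (Fin n) Ω ⧸ I :=
    fun p => Ideal.Quotient.mk I ((∏ i, X i ^ (p.1 i : ℕ)) * th q ρ (b p.2))
  have hle : (V Ω n μ).map (Ideal.Quotient.mkₐ Ω I).toLinearMap ≤
      Submodule.span Ω (Set.range F) := by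
    rintro _ ⟨f, hf, rfl⟩
    have hf' : ∀ i, f.degreeOf i ≤ μ := hf
    rw [f.as_sum, map_sum]
    refine Submodule.sum_mem _ fun α hα => ?_
    have hαμ : ∀ i, α i ≤ μ := fun i => (monomial_le_degreeOf i hα).trans (hf' i)
    -- the monomial in the variables with quotient exponents
    let β : Fin n → ℕ := fun i => α i / q
    let a : Fin n → Fin q := fun i => ⟨α i % q, Nat.mod_lt _ hq⟩
    have hg : (∏ i, X i ^ β i : MvPolynomial (Fin n) Ω) ∈ V Ω n (μ / q) := by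
      intro k
      have h1 : (∏ i, X i ^ β i : MvPolynomial (Fin n) Ω) =
          monomial (Finsupp.equivFunOnFinite.symm β) 1 := by
        rw [monomial_eq, C_1, one_mul, Finsupp.prod_fintype _ _ (fun i => pow_zero _)]
        rfl
      rw [h1]
      rw [degreeOf_monomial_eq _ _ one_ne_zero]
      exact Nat.div_le_div_right (hαμ k)
    obtain ⟨c, hc⟩ := hspan _ hg
    have hc' : th q ρ ((∏ i, X i ^ β i) - ∑ i, C (c i) * b i) ∈ I := h hc
    rw [← Ideal.Quotient.eq_zero_iff_mem, map_sub, map_sub, sub_eq_zero] at hc'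
    have hmon : monomial α (coeff α f) =
        C (coeff α f) * ((∏ i, X i ^ (a i : ℕ)) * th q ρ (∏ i, X i ^ β i)) := by
      rw [monomial_eq, Finsupp.prod_fintype _ _ (fun i => pow_zero _), map_prod,
        ← Finset.prod_mul_distrib]
      refine congrArg _ (Finset.prod_congr rfl fun i _ => ?_)
      rw [map_pow, T3_th_X, ← pow_mul, ← pow_add]
      refine congrArg _ ?_
      exact (Nat.mod_add_div (α i) q).symm
    have h2 : (Ideal.Quotient.mkₐ Ω I).toLinearMap (monomial α (coeff α f)) =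
        ∑ i, (coeff α f * ρ.symm (c i)) • F (a, i) := by
      have h3 : (Ideal.Quotient.mkₐ Ω I).toLinearMap (monomial α (coeff α f)) =
          Ideal.Quotient.mk I (monomial α (coeff α f)) := rfl
      rw [h3, hmon, map_mul, map_mul, hc', ← map_mul, ← map_mul, map_sum, Finset.mul_sum,
        Finset.mul_sum, map_sum]
      refine Finset.sum_congr rfl fun i _ => ?_
      have h4 : (coeff α f * ρ.symm (c i)) • F (a, i) = Ideal.Quotient.mk I
          (C (coeff α f * ρ.symm (c i)) * ((∏ k, X k ^ (a k : ℕ)) * th q ρ (b i))) := by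
        rw [← MvPolynomial.smul_eq_C_mul]
        rfl
      rw [h4, map_mul (th q ρ), T3_th_C, C_mul]
      refine congrArg _ ?_
      ring
    rw [h2]
    exact Submodule.sum_mem _ fun i _ => Submodule.smul_mem _ _ (Submodule.subset_span ⟨_, rfl⟩)
  have hfin : Module.Finite Ω (Submodule.span Ω (Set.range F)) :=
    Module.Finite.span_of_finite Ω (Set.finite_range F)
  have h5 : H I μ ≤ Module.finrank Ω (Submodule.span Ω (Set.range F)) :=
    Submodule.finrank_mono hle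
  refine h5.trans ((finrank_range_le_card F).trans ?_)
  simp

/-- summation of `th_H` -/
private theorem T3_S {q : ℕ} (hq : 0 < q) (ρ : Ω ≃+* Ω) (I Q : Ideal (MvPolynomial (Fin n) Ω))
    (h : Q ≤ I.comap (th q ρ)) (ν : ℕ) : S I (q * ν) ≤ q ^ (n + 1) * S Q ν := by
  induction ν with
  | zero => simp [S]
  | succ ν ih =>
    have h1 : S I (q * (ν + 1)) = S I (q * ν) + ∑ k ∈ Finset.range q, H I (q * ν + k) := by
      rw [S, S, mul_add, mul_one, Finset.sum_range_add]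
    have h2 : S Q (ν + 1) = S Q ν + H Q ν := by
      rw [S, S, Finset.sum_range_succ]
    rw [h1, h2, mul_add]
    refine add_le_add ih ?_
    calc ∑ k ∈ Finset.range q, H I (q * ν + k) ≤ ∑ k ∈ Finset.range q, q ^ n * H Q ν := by
          refine Finset.sum_le_sum fun k hk => ?_
          have h3 : (q * ν + k) / q = ν := by
            rw [Nat.mul_add_div hq, Nat.div_eq_of_lt (Finset.mem_range.1 hk), add_zero]
          have := th_H hq ρ I Q h (q * ν + k)
          rwa [h3] at this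
      _ = q ^ (n + 1) * H Q ν := by
          rw [Finset.sum_const, Finset.card_range, smul_eq_mul, pow_succ]
          ring

theorem th_sum {q : ℕ} (hq : 0 < q) (ρ : Ω ≃+* Ω) (Q : Ideal (MvPolynomial (Fin n) Ω)) [Q.IsPrime]
    (s : Finset (Ideal (MvPolynomial (Fin n) Ω)))
    (hs : ∀ P ∈ s, P.IsPrime ∧ P.comap (th q ρ) = Q) :
    ∑ P ∈ s, e P ≤ (q : ℝ) ^ (n - dm Q) * e Q := by
  classical
  have hdm : ∀ P ∈ s, dm P = dm Q := by
    intro P hP
    obtain ⟨hp, h⟩ := hs P hP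
    rw [← h, th_dm hq ρ P]
  have hQI : Q ≤ (s.inf id).comap (th q ρ) := by
    intro f hf
    rw [Ideal.mem_comap]
    have : ∀ P ∈ s, th q ρ f ∈ P := by
      intro P hP
      rw [← Ideal.mem_comap, (hs P hP).2]
      exact hf
    have h1 : Ideal.span {th q ρ f} ≤ s.inf id := by
      refine Finset.le_inf fun P hP => ?_
      rw [id, Ideal.span_le, Set.singleton_subset_iff]
      exact this P hP
    exact h1 (Ideal.subset_span rfl)
  obtain ⟨Cc, hCc, hC⟩ := S_inf_ge (dm Q) s (fun P hP => ⟨(hs P hP).1, hdm P hP⟩)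
  have hq0 : (0 : ℝ) < q := by exact_mod_cast hq
  have hle : dm Q ≤ n := dm_le Q
  set j := dm Q with hj
  have key : (q : ℝ) ^ j / (q : ℝ) ^ n * ∑ P ∈ s, e P ≤ e Q := by
    refine e_ge_of Q fun c hc => ?_
    rw [← hj]
    -- choose δ
    have hA : (0 : ℝ) < (q : ℝ) ^ j / (q : ℝ) ^ n := by positivity
    obtain ⟨δ, hδ, hδ'⟩ : ∃ δ : ℝ, 0 < δ ∧
        c + δ ≤ (q : ℝ) ^ j / (q : ℝ) ^ n * ∑ P ∈ s, (e P - δ) := by
      let A := (q : ℝ) ^ j / (q : ℝ) ^ n
      let g := A * ∑ P ∈ s, e P - c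
      have hg : 0 < g := sub_pos.2 hc
      refine ⟨g / (1 + A * s.card), by positivity, ?_⟩
      rw [Finset.sum_sub_distrib, Finset.sum_const, nsmul_eq_mul]
      have h1 : (0 : ℝ) < 1 + A * s.card := by positivity
      have h2 : g / (1 + A * s.card) * (1 + A * s.card) = g := by field_simp
      have h3 : A * ∑ P ∈ s, e P - c = g := rfl
      change c + g / (1 + A * s.card) ≤ A * (∑ P ∈ s, e P - s.card * (g / (1 + A * s.card)))
      nlinarith [h2, h3]
    have hev : ∀ P ∈ s, ∀ᶠ ν : ℕ in Filter.atTop,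
        (e P - δ) * (ν : ℝ) ^ (j + 1) ≤ ((j : ℝ) + 1) * S P ν := by
      intro P hP
      have hpr := (hs P hP).1
      have := e_eventually P (c := e P - δ) (by linarith)
      rwa [hdm P hP] at this
    have hev2 : ∀ᶠ ν : ℕ in Filter.atTop, ∀ P ∈ s,
        (e P - δ) * (ν : ℝ) ^ (j + 1) ≤ ((j : ℝ) + 1) * S P ν :=
      (Filter.eventually_all_finset s).2 hev
    have htend : Filter.Tendsto (fun ν : ℕ => q * ν) Filter.atTop Filter.atTop :=
      Filter.tendsto_id.const_mul_atTop' hq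
    have hev3 := htend.eventually hev2
    have hbig : ∀ᶠ ν : ℕ in Filter.atTop,
        ((j : ℝ) + 1) * Cc * (q : ℝ) ^ j / (q : ℝ) ^ (n + 1) ≤ δ * ν := by
      have h1 : Filter.Tendsto (fun ν : ℕ => δ * (ν : ℝ)) Filter.atTop Filter.atTop :=
        tendsto_natCast_atTop_atTop.const_mul_atTop hδ
      exact h1.eventually_ge_atTop _
    filter_upwards [hev3, hbig, Filter.eventually_ge_atTop 1] with ν h1 h2 h3
    have hν : (0 : ℝ) < ν := by exact_mod_cast h3
    have h4 := hC (q * ν) (Nat.mul_pos hq h3)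
    have h5 : (S (s.inf id) (q * ν) : ℝ) ≤ (q : ℝ) ^ (n + 1) * S Q ν := by
      have := T3_S hq ρ (s.inf id) Q hQI ν
      exact_mod_cast this
    have h6 : ∑ P ∈ s, (e P - δ) * ((q * ν : ℕ) : ℝ) ^ (j + 1) ≤
        ∑ P ∈ s, ((j : ℝ) + 1) * S P (q * ν) := Finset.sum_le_sum h1
    rw [← Finset.sum_mul, ← Finset.mul_sum] at h6
    push_cast at h4 h6
    rw [mul_pow] at h4 h6
    have h7 : (∑ P ∈ s, (e P - δ)) * ((q : ℝ) ^ (j + 1) * (ν : ℝ) ^ (j + 1)) ≤
        ((j : ℝ) + 1) * ((q : ℝ) ^ (n + 1) * S Q ν + Cc * ((q : ℝ) ^ j * (ν : ℝ) ^ j)) := by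
      refine h6.trans (mul_le_mul_of_nonneg_left (by linarith) (by positivity))
    have h8 : (q : ℝ) ^ (n + 1) * ((c + δ) * (ν : ℝ) ^ (j + 1)) ≤
        (∑ P ∈ s, (e P - δ)) * ((q : ℝ) ^ (j + 1) * (ν : ℝ) ^ (j + 1)) := by
      have h9 := mul_le_mul_of_nonneg_right hδ'
        (by positivity : (0 : ℝ) ≤ (q : ℝ) ^ (n + 1) * (ν : ℝ) ^ (j + 1))
      have h10 : (q : ℝ) ^ j / (q : ℝ) ^ n * (∑ P ∈ s, (e P - δ)) *
          ((q : ℝ) ^ (n + 1) * (ν : ℝ) ^ (j + 1)) =
          (∑ P ∈ s, (e P - δ)) * ((q : ℝ) ^ (j + 1) * (ν : ℝ) ^ (j + 1)) := by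
        rw [pow_succ (q : ℝ) n, pow_succ (q : ℝ) j]
        field_simp
      rw [h10] at h9
      linarith [h9]
    have h11 : ((j : ℝ) + 1) * Cc * (q : ℝ) ^ j ≤ δ * ν * (q : ℝ) ^ (n + 1) := by
      rwa [div_le_iff₀ (by positivity)] at h2
    have h12 : ((j : ℝ) + 1) * Cc * (q : ℝ) ^ j * (ν : ℝ) ^ j ≤
        δ * ν * (q : ℝ) ^ (n + 1) * (ν : ℝ) ^ j :=
      mul_le_mul_of_nonneg_right h11 (by positivity)
    have h13 : (q : ℝ) ^ (n + 1) * (c * (ν : ℝ) ^ (j + 1)) ≤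
        (q : ℝ) ^ (n + 1) * (((j : ℝ) + 1) * S Q ν) := by
      rw [pow_succ (ν : ℝ) j] at h7 h8 ⊢
      nlinarith [h7, h8, h12]
    exact le_of_mul_le_mul_left h13 (by positivity)
  have hsplit : (q : ℝ) ^ n = (q : ℝ) ^ (n - j) * (q : ℝ) ^ j := by
    rw [← pow_add, Nat.sub_add_cancel hle]
  have h14 : ∑ P ∈ s, e P = (q : ℝ) ^ (n - j) * ((q : ℝ) ^ j / (q : ℝ) ^ n * ∑ P ∈ s, e P) := by
    rw [hsplit]
    field_simp
  rw [h14]
  exact mul_le_mul_of_nonneg_left key (by positivity)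

end DR
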