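import Pool.Agent.Lib.MP_a325a5_ag.DR.G1
import Pool.Agent.Lib.MP_a325a5_ag.DR.G3
import Pool.Agent.Lib.MP_a325a5_ag.DR.T2c
import Pool.Agent.Lib.MP_a325a5_ag.DR.T3
import Pool.Agent.Lib.MP_a325a5_ag.DR.H5

/-! DR_PROOF 6 (f): unstable primes. -/

open MvPolynomial

namespace DR

variable {Ω : Type} [Field Ω] {n : ℕ}

theorem G4_cover {α β : Type*} (U : Finset α) (I : Finset β) (R : β → α → Prop)
    [∀ b, DecidablePred (R b)] (f : α → ℝ) (hf : ∀ a ∈ U, 0 ≤ f a)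
    (h : ∀ a ∈ U, ∃ b ∈ I, R b a) : ∑ a ∈ U, f a ≤ ∑ b ∈ I, ∑ a ∈ U.filter (R b), f a := by
  have e1 : ∑ b ∈ I, ∑ a ∈ U.filter (R b), f a =
      ∑ a ∈ U, ∑ b ∈ I, if R b a then f a else 0 := by
    rw [Finset.sum_comm]
    refine Finset.sum_congr rfl fun b _ => ?_
    rw [Finset.sum_filter]
  rw [e1]
  refine Finset.sum_le_sum fun a ha => ?_
  obtain ⟨b, hb, hR⟩ := h a ha
  have h1 : (if R b a then f a else 0) ≤ ∑ b ∈ I, if R b a then f a else 0 :=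
    Finset.single_le_sum (f := fun b => if R b a then f a else 0) (fun c _ => by
      by_cases hc : R c a
      · simp only [if_pos hc]
        exact hf a ha
      · simp only [if_neg hc]
        exact le_rfl) hb
  rwa [if_pos hR] at h1

theorem G4_cov {α β : Type*} (U : Finset α) (I : Finset β) (R : β → α → Prop) (f : α → ℝ)
    (hf : ∀ a ∈ U, 0 ≤ f a) (h : ∀ a ∈ U, ∃ b ∈ I, R b a) : ∃ F : β → Finset α,
      (∀ b, ∀ a ∈ F b, a ∈ U ∧ R b a) ∧ ∑ a ∈ U, f a ≤ ∑ b ∈ I, ∑ a ∈ F b, f a := by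
  classical
  exact ⟨fun b => U.filter (R b), fun b a ha => Finset.mem_filter.1 ha, G4_cover U I R f hf h⟩

theorem G4_prime {I P : Ideal (MvPolynomial (Fin n) Ω)} (h : P ∈ I.minimalPrimes) : P.IsPrime :=
  h.1.1

theorem G4_min {G : Set (MvPolynomial (Fin n) Ω)} {P PP : Ideal (MvPolynomial (Fin n) Ω)}
    (hP : P ∈ (Ideal.span G).minimalPrimes) (h : PP ≤ P) :
    P ∈ (PP ⊔ Ideal.span G).minimalPrimes :=
  ⟨⟨hP.1.1, sup_le h hP.1.2⟩, fun _ hP' hle => hP.2 ⟨hP'.1, le_sup_right.trans hP'.2⟩ hle⟩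

/-- the sum over the primes above one `Q` -/
theorem G4_key {q l j : ℕ} (hq : 0 < q) (hl : 1 ≤ l) (ρ : Ω ≃+* Ω)
    (Q : Ideal (MvPolynomial (Fin n) Ω)) [Q.IsPrime] (G : Set (MvPolynomial (Fin n) Ω))
    (hG : ∀ g ∈ G, g ∈ V Ω n l) (s : Finset (Ideal (MvPolynomial (Fin n) Ω)))
    (hs : ∀ P ∈ s, P ∈ (Ideal.span G).minimalPrimes ∧ dm P = j)
    (hQ : ∀ P ∈ s, Q ≤ P.comap (th q ρ)) :
    ∑ P ∈ s, e P ≤ n.factorial * (l : ℝ) ^ (dm Q - j) * ((q : ℝ) ^ (n - dm Q) * e Q) := by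
  classical
  have hex : ∀ P ∈ s, ∃ PP : Ideal (MvPolynomial (Fin n) Ω), PP.IsPrime ∧ PP ≤ P ∧
      PP.comap (th q ρ) = Q := by
    intro P hP
    have : P.IsPrime := G4_prime (hs P hP).1
    exact th_goingDown hq ρ Q P (hQ P hP)
  choose! f hf1 hf2 hf3 using hex
  have hT : ∀ PP ∈ s.image f, PP.IsPrime ∧ PP.comap (th q ρ) = Q := by
    intro PP hPP
    obtain ⟨P, hP, rfl⟩ := Finset.mem_image.1 hPP
    exact ⟨hf1 P hP, hf3 P hP⟩
  rw [← Finset.sum_fiberwise_of_maps_to (fun P hP => Finset.mem_image_of_mem f hP) e]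
  have hone : ∀ PP ∈ s.image f, ∑ P ∈ s with f P = PP, e P ≤
      n.factorial * (l : ℝ) ^ (dm Q - j) * e PP := by
    intro PP hPP
    obtain ⟨i1, i2⟩ := hT PP hPP
    have := i1
    have hdm : dm PP = dm Q := by rw [← th_dm hq ρ PP, i2]
    have h1 := bezout PP hl G hG j (s.filter fun P => f P = PP) (by
      intro P hP
      obtain ⟨hP1, hP2⟩ := Finset.mem_filter.1 hP
      exact ⟨G4_min (hs P hP1).1 (hP2 ▸ hf2 P hP1), (hs P hP1).2⟩)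
    rw [hdm] at h1
    have h2 : 0 ≤ ∑ P ∈ s with f P = PP, e P := by
      refine Finset.sum_nonneg fun P hP => ?_
      have : P.IsPrime := G4_prime (hs P (Finset.mem_filter.1 hP).1).1
      exact zero_le_one.trans (e_ge_one P)
    have h3 : (1 : ℝ) ≤ (j.factorial : ℝ) := by exact_mod_cast Nat.factorial_pos j
    have h4 : ((dm Q).factorial : ℝ) ≤ (n.factorial : ℝ) := by
      exact_mod_cast Nat.factorial_le (dm_le Q)
    have h5 : (0 : ℝ) ≤ e PP := zero_le_one.trans (e_ge_one PP)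
    have h6 : (0 : ℝ) ≤ (l : ℝ) ^ (dm Q - j) := by positivity
    calc ∑ P ∈ s with f P = PP, e P ≤ (j.factorial : ℝ) * ∑ P ∈ s with f P = PP, e P :=
          le_mul_of_one_le_left h2 h3
      _ ≤ (dm Q).factorial * (l : ℝ) ^ (dm Q - j) * e PP := h1
      _ ≤ n.factorial * (l : ℝ) ^ (dm Q - j) * e PP :=
          mul_le_mul_of_nonneg_right (mul_le_mul_of_nonneg_right h4 h6) h5
  calc ∑ PP ∈ s.image f, ∑ P ∈ s with f P = PP, e P ≤
        ∑ PP ∈ s.image f, n.factorial * (l : ℝ) ^ (dm Q - j) * e PP := Finset.sum_le_sum hone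
    _ = n.factorial * (l : ℝ) ^ (dm Q - j) * ∑ PP ∈ s.image f, e PP :=
        (Finset.mul_sum _ _ _).symm
    _ ≤ n.factorial * (l : ℝ) ^ (dm Q - j) * ((q : ℝ) ^ (n - dm Q) * e Q) :=
        mul_le_mul_of_nonneg_left (th_sum hq ρ Q _ hT) (by positivity)

variable [IsAlgClosed Ω] [CharZero Ω] (d : Dat Ω n)

theorem G4_l {i : ℕ} (h1 : 2 * d.h0 < i) (h2 : i ≤ d.r) : d.l (i - 1) = 8 * d.X * d.l i := by
  unfold Dat.l
  have h3 : d.r - (i - 1) = d.r - i + 1 := by omega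
  rw [h3, pow_succ]
  ring

theorem G4_one {i j j' : ℕ} (h1 : 2 * d.h0 < i) (h2 : i ≤ d.r) (hjj : j < j') (hj' : j' < n)
    {q : ℕ} (hq : q ∈ d.P i) {Q : Ideal (MvPolynomial (Fin n) Ω)}
    (hQ : Q ∈ ZJ (d.E i) (d.l i) j') (s : Finset (Ideal (MvPolynomial (Fin n) Ω)))
    (hs : ∀ P ∈ s, P ∈ ZJ (d.E (i - 1)) (d.l (i - 1)) j)
    (hle : ∀ P ∈ s, Q ≤ P.comap (th q (d.ρ q))) :
    (d.l (i - 1) : ℝ) ^ j * ∑ P ∈ s, e P ≤
      n.factorial * (8 * (d.X : ℝ)) ^ n * ((d.l i : ℝ) ^ j' * e Q) := by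
  obtain ⟨q1, q2, q3⟩ := d.hP i h1 h2 q hq
  rw [mem_ZJ] at hQ
  have : Q.IsPrime := G4_prime hQ.1
  have hl : 1 ≤ d.l (i - 1) := by
    unfold Dat.l
    exact Nat.mul_pos (pow_pos (by have := d.hX; omega) _) d.hL
  have hk := G4_key (j := j) q1.pos hl (d.ρ q) Q (GG (d.E (i - 1)) (d.l (i - 1)))
    (fun g hg => hg.1) s (fun P hP => by
      have := mem_ZJ.1 (hs P hP)
      exact ⟨this.1, this.2.2⟩) hle
  rw [hQ.2.2] at hk
  have hl0 : (0 : ℝ) ≤ (d.l (i - 1) : ℝ) := Nat.cast_nonneg _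
  have he : (0 : ℝ) ≤ e Q := zero_le_one.trans (e_ge_one Q)
  have hqX : (q : ℝ) ≤ 8 * (d.X : ℝ) := by exact_mod_cast q3
  have hlc : (d.l (i - 1) : ℝ) = 8 * (d.X : ℝ) * (d.l i : ℝ) := by
    rw [G4_l d h1 h2]
    push_cast
    ring
  calc (d.l (i - 1) : ℝ) ^ j * ∑ P ∈ s, e P ≤
        (d.l (i - 1) : ℝ) ^ j * (n.factorial * (d.l (i - 1) : ℝ) ^ (j' - j) *
          ((q : ℝ) ^ (n - j') * e Q)) := mul_le_mul_of_nonneg_left hk (pow_nonneg hl0 _)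
    _ = n.factorial * ((d.l (i - 1) : ℝ) ^ j * (d.l (i - 1) : ℝ) ^ (j' - j)) *
          ((q : ℝ) ^ (n - j') * e Q) := by ring
    _ = n.factorial * (d.l (i - 1) : ℝ) ^ j' * ((q : ℝ) ^ (n - j') * e Q) := by
        rw [← pow_add, Nat.add_sub_cancel' hjj.le]
    _ ≤ n.factorial * (d.l (i - 1) : ℝ) ^ j' * ((8 * (d.X : ℝ)) ^ (n - j') * e Q) := by
        refine mul_le_mul_of_nonneg_left (mul_le_mul_of_nonneg_right
          (pow_le_pow_left₀ (Nat.cast_nonneg _) hqX _) he) ?_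
        positivity
    _ = n.factorial * ((8 * (d.X : ℝ)) ^ j' * (8 * (d.X : ℝ)) ^ (n - j')) *
          ((d.l i : ℝ) ^ j' * e Q) := by
        rw [hlc, mul_pow]
        ring
    _ = n.factorial * (8 * (d.X : ℝ)) ^ n * ((d.l i : ℝ) ^ j' * e Q) := by
        rw [← pow_add, Nat.add_sub_cancel' hj'.le]

theorem Dat.unstable {i j : ℕ} (h1 : 2 * d.h0 < i) (h2 : i ≤ d.r) (hj : j < n) :
    (d.l (i - 1) : ℝ) ^ j * ∑ P ∈ ZJ (d.E (i - 1)) (d.l (i - 1)) j \ d.st i j, e P ≤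
      n.factorial * (8 * (d.X : ℝ)) ^ (n + 1) * ∑ j' ∈ Finset.Ico (j + 1) n, d.a i j' := by
  classical
  have _ := hj
  obtain ⟨U, hU⟩ : ∃ U : Finset (Ideal (MvPolynomial (Fin n) Ω)),
    U = ZJ (d.E (i - 1)) (d.l (i - 1)) j \ d.st i j := ⟨_, rfl⟩
  rw [← hU]
  have hU1 : ∀ P ∈ U, P ∈ ZJ (d.E (i - 1)) (d.l (i - 1)) j := by
    intro P hP
    rw [hU, Finset.mem_sdiff] at hP
    exact hP.1
  have hprime : ∀ P ∈ U, P.IsPrime := fun P hP =>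
    G4_prime (mem_ZJ.1 (hU1 P hP)).1
  have hpos : ∀ P ∈ U, 0 ≤ e P := by
    intro P hP
    have := hprime P hP
    exact zero_le_one.trans (e_ge_one P)
  have hcov : ∀ P ∈ U, ∃ q ∈ d.P i, ∃ j' ∈ Finset.Ico (j + 1) n,
      ∃ Q ∈ ZJ (d.E i) (d.l i) j', Q ≤ P.comap (th q (d.ρ q)) := by
    intro P hP
    have := hprime P hP
    have hZ := hU1 P hP
    have hns : ∃ q ∈ d.P i, P.comap (th q (d.ρ q)) ∉ ZJ (d.E i) (d.l i) j := by
      rw [hU, Finset.mem_sdiff] at hP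
      by_contra hcon
      push Not at hcon
      apply hP.2
      unfold Dat.st
      rw [Finset.mem_filter]
      exact ⟨hZ, hcon⟩
    obtain ⟨q, hq, hqn⟩ := hns
    obtain ⟨j', hjj, Q, hQ, hle⟩ := d.contract h1 h2 hZ hq
    have hlt : j < j' := by
      refine lt_of_le_of_ne hjj ?_
      rintro rfl
      apply hqn
      have : Q.IsPrime := G4_prime (mem_ZJ.1 hQ).1
      have : (P.comap (th q (d.ρ q))).IsPrime := Ideal.IsPrime.comap _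
      have h3 : Q = P.comap (th q (d.ρ q)) := by
        refine eq_of_dm hle ?_
        rw [th_dm (d.hP i h1 h2 q hq).1.pos, (mem_ZJ.1 hQ).2.2, (mem_ZJ.1 hZ).2.2]
      rw [← h3]
      exact hQ
    exact ⟨q, hq, j', Finset.mem_Ico.2 ⟨hlt, d.dm_lt_n (by omega) h2 hQ⟩, Q, hQ, hle⟩
  have hlj : (0 : ℝ) ≤ (d.l (i - 1) : ℝ) ^ j := by positivity
  -- one `q`
  have hq1 : ∀ q ∈ d.P i, ∀ U1 : Finset (Ideal (MvPolynomial (Fin n) Ω)), (∀ P ∈ U1, P ∈ U ∧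
      ∃ j' ∈ Finset.Ico (j + 1) n, ∃ Q ∈ ZJ (d.E i) (d.l i) j', Q ≤ P.comap (th q (d.ρ q))) →
      (d.l (i - 1) : ℝ) ^ j * ∑ P ∈ U1, e P ≤
        n.factorial * (8 * (d.X : ℝ)) ^ n * ∑ j' ∈ Finset.Ico (j + 1) n, d.a i j' := by
    intro q hq U1 hU2
    obtain ⟨F, hF, hc⟩ := G4_cov U1 (Finset.Ico (j + 1) n)
      (fun j' P => ∃ Q ∈ ZJ (d.E i) (d.l i) j', Q ≤ P.comap (th q (d.ρ q))) e
      (fun P hP => hpos P (hU2 P hP).1) (fun P hP => (hU2 P hP).2)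
    refine (mul_le_mul_of_nonneg_left hc hlj).trans ?_
    rw [Finset.mul_sum, Finset.mul_sum]
    refine Finset.sum_le_sum fun j' hj' => ?_
    rw [Finset.mem_Ico] at hj'
    obtain ⟨F3, hF3, hc3⟩ := G4_cov (F j') (ZJ (d.E i) (d.l i) j')
      (fun Q P => Q ≤ P.comap (th q (d.ρ q))) e
      (fun P hP => hpos P (hU2 P (hF j' P hP).1).1) (fun P hP => (hF j' P hP).2)
    refine (mul_le_mul_of_nonneg_left hc3 hlj).trans ?_
    unfold Dat.a mj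
    rw [Finset.mul_sum, Finset.mul_sum, Finset.mul_sum]
    refine Finset.sum_le_sum fun Q hQ => ?_
    exact G4_one d h1 h2 (Nat.lt_of_succ_le hj'.1) hj'.2 hq hQ _
      (fun P hP => hU1 P (hU2 P (hF j' P (hF3 Q P hP).1).1).1)
      (fun P hP => (hF3 Q P hP).2)
  obtain ⟨F, hF, hc⟩ := G4_cov U (d.P i) (fun q P => ∃ j' ∈ Finset.Ico (j + 1) n,
    ∃ Q ∈ ZJ (d.E i) (d.l i) j', Q ≤ P.comap (th q (d.ρ q))) e hpos hcov
  have hcard : ((d.P i).card : ℝ) ≤ 8 * (d.X : ℝ) := by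
    have h3 : d.P i ⊆ Finset.Ioc d.X (8 * d.X) := by
      intro q hq
      obtain ⟨_, q2, q3⟩ := d.hP i h1 h2 q hq
      exact Finset.mem_Ioc.2 ⟨q2, q3⟩
    have h4 := Finset.card_le_card h3
    rw [Nat.card_Ioc] at h4
    have h5 : (d.P i).card ≤ 8 * d.X := by omega
    exact_mod_cast h5
  have ha : 0 ≤ ∑ j' ∈ Finset.Ico (j + 1) n, d.a i j' := by
    refine Finset.sum_nonneg fun j' _ => ?_
    unfold Dat.a mj
    refine mul_nonneg (by positivity) (Finset.sum_nonneg fun Q hQ => ?_)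
    have : Q.IsPrime := G4_prime (mem_ZJ.1 hQ).1
    exact zero_le_one.trans (e_ge_one Q)
  have hsum : (d.l (i - 1) : ℝ) ^ j * ∑ P ∈ U, e P ≤
      (d.P i).card • (n.factorial * (8 * (d.X : ℝ)) ^ n *
        ∑ j' ∈ Finset.Ico (j + 1) n, d.a i j') := by
    refine (mul_le_mul_of_nonneg_left hc hlj).trans ?_
    rw [Finset.mul_sum]
    exact Finset.sum_le_card_nsmul _ _ _ fun q hq => hq1 q hq _ (hF q)
  calc (d.l (i - 1) : ℝ) ^ j * ∑ P ∈ U, e P ≤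
        (d.P i).card • (n.factorial * (8 * (d.X : ℝ)) ^ n *
        ∑ j' ∈ Finset.Ico (j + 1) n, d.a i j') := hsum
    _ = ((d.P i).card : ℝ) * (n.factorial * (8 * (d.X : ℝ)) ^ n *
        ∑ j' ∈ Finset.Ico (j + 1) n, d.a i j') := nsmul_eq_mul _ _
    _ ≤ 8 * (d.X : ℝ) * (n.factorial * (8 * (d.X : ℝ)) ^ n *
        ∑ j' ∈ Finset.Ico (j + 1) n, d.a i j') :=
        mul_le_mul_of_nonneg_right hcard (mul_nonneg (by positivity) ha)
    _ = n.factorial * (8 * (d.X : ℝ)) ^ (n + 1) * ∑ j' ∈ Finset.Ico (j + 1) n, d.a i j' := by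
        rw [pow_succ]
        ring

end DR
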