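import Pool.Agent.Lib.MP_a325a5_ag.DR.G3
import Pool.Agent.Lib.MP_a325a5_ag.DR.G4

/-! DR_PROOF 6 (g): the recurrence and its solution. -/

open MvPolynomial

namespace DR

variable {Ω : Type} [Field Ω] {n : ℕ}

variable [IsAlgClosed Ω] [CharZero Ω] (d : Dat Ω n)

/-- the recurrence -/
theorem Dat.G5_rec {i j : ℕ} (h1 : 2 * d.h0 < i) (h2 : i ≤ d.r) (hj : j < n) :
    d.a (i - 1) j ≤ 2 * 8 ^ n * (d.X : ℝ) ^ (1 / (4 * d.r : ℝ)) * d.a i j +
      n.factorial * (8 * (d.X : ℝ)) ^ (n + 1) * ∑ j' ∈ Finset.Ico (j + 1) n, d.a i j' := by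
  classical
  have hs : d.st i j ⊆ ZJ (d.E (i - 1)) (d.l (i - 1)) j := by
    intro P hP
    unfold Dat.st at hP
    exact Finset.mem_of_mem_filter P hP
  have hsum : d.a (i - 1) j = (d.l (i - 1) : ℝ) ^ j * ∑ P ∈ d.st i j, e P +
      (d.l (i - 1) : ℝ) ^ j * ∑ P ∈ ZJ (d.E (i - 1)) (d.l (i - 1)) j \ d.st i j, e P := by
    unfold Dat.a mj
    rw [← Finset.sum_sdiff hs]
    ring
  rw [hsum]
  have ha := d.stable h1 h2 hj
  have hb := d.unstable h1 h2 hj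
  linarith

/-- the arithmetic of one step -/
theorem G5_step {n j : ℕ} (hj : j < n) {M X y T A a0 : ℝ} (A' : ℕ → ℝ) (hM : 0 ≤ M) (hX : 1 ≤ X)
    (hy : 1 ≤ y) (hT : 0 ≤ T)
    (hc : 2 * (8 : ℝ) ^ n + n * n.factorial * 8 ^ (n + 1) ≤ y)
    (hA : A ≤ M * X ^ ((n + 2) * (n - 1 - j)) * T)
    (hA' : ∀ j' ∈ Finset.Ico (j + 1) n, A' j' ≤ M * X ^ ((n + 2) * (n - 1 - j')) * T)
    (h0 : a0 ≤ 2 * 8 ^ n * y * A + n.factorial * (8 * X) ^ (n + 1) *
      ∑ j' ∈ Finset.Ico (j + 1) n, A' j') :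
    a0 ≤ M * X ^ ((n + 2) * (n - 1 - j)) * (T * y ^ 2) := by
  have hX0 : 0 < X := by linarith
  set W : ℝ := M * X ^ ((n + 2) * (n - 1 - j)) * T with hW
  have hW0 : 0 ≤ W := by positivity
  have hsum : X ^ (n + 1) * ∑ j' ∈ Finset.Ico (j + 1) n, A' j' ≤ n * W := by
    rw [Finset.mul_sum]
    have hterm : ∀ j' ∈ Finset.Ico (j + 1) n, X ^ (n + 1) * A' j' ≤ W := by
      intro j' hj'
      have h3 := hA' j' hj'
      have hlt := Finset.mem_Ico.mp hj'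
      have h4 : X ^ (n + 1) * A' j' ≤ X ^ (n + 1) * (M * X ^ ((n + 2) * (n - 1 - j')) * T) :=
        mul_le_mul_of_nonneg_left h3 (by positivity)
      refine h4.trans ?_
      have h5 : X ^ (n + 1) * (M * X ^ ((n + 2) * (n - 1 - j')) * T) =
          M * X ^ (n + 1 + (n + 2) * (n - 1 - j')) * T := by
        rw [pow_add]; ring
      rw [h5, hW]
      have h6 : n + 1 + (n + 2) * (n - 1 - j') ≤ (n + 2) * (n - 1 - j) := by
        have h7 : n - 1 - j' + 1 ≤ n - 1 - j := by omega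
        calc n + 1 + (n + 2) * (n - 1 - j') ≤ (n + 2) * (n - 1 - j' + 1) := by ring_nf; omega
          _ ≤ (n + 2) * (n - 1 - j) := Nat.mul_le_mul_left _ h7
      have h8 : X ^ (n + 1 + (n + 2) * (n - 1 - j')) ≤ X ^ ((n + 2) * (n - 1 - j)) :=
        pow_le_pow_right₀ hX h6
      exact mul_le_mul_of_nonneg_right (mul_le_mul_of_nonneg_left h8 hM) hT
    calc ∑ j' ∈ Finset.Ico (j + 1) n, X ^ (n + 1) * A' j'
        ≤ ∑ _j' ∈ Finset.Ico (j + 1) n, W := Finset.sum_le_sum hterm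
      _ = ((Finset.Ico (j + 1) n).card : ℝ) * W := by rw [Finset.sum_const, nsmul_eq_mul]
      _ ≤ n * W := by
          apply mul_le_mul_of_nonneg_right _ hW0
          rw [Nat.card_Ico]
          exact_mod_cast Nat.sub_le _ _
  have h9 : 2 * 8 ^ n * y * A ≤ 2 * 8 ^ n * y * W := mul_le_mul_of_nonneg_left hA (by positivity)
  have h10 : (n.factorial : ℝ) * (8 * X) ^ (n + 1) * ∑ j' ∈ Finset.Ico (j + 1) n, A' j' ≤
      n.factorial * 8 ^ (n + 1) * (n * W) := by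
    have : (n.factorial : ℝ) * (8 * X) ^ (n + 1) * ∑ j' ∈ Finset.Ico (j + 1) n, A' j' =
        n.factorial * 8 ^ (n + 1) * (X ^ (n + 1) * ∑ j' ∈ Finset.Ico (j + 1) n, A' j') := by
      rw [mul_pow]; ring
    rw [this]
    exact mul_le_mul_of_nonneg_left hsum (by positivity)
  have h11 : (n.factorial : ℝ) * 8 ^ (n + 1) * (n * W) ≤ n.factorial * 8 ^ (n + 1) * (n * W) * y := by
    have : 0 ≤ (n.factorial : ℝ) * 8 ^ (n + 1) * (n * W) := by positivity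
    nlinarith
  have h12 : (2 * (8 : ℝ) ^ n + n * n.factorial * 8 ^ (n + 1)) * (y * W) ≤ y * (y * W) :=
    mul_le_mul_of_nonneg_right hc (by positivity)
  calc a0 ≤ 2 * 8 ^ n * y * W + n.factorial * 8 ^ (n + 1) * (n * W) * y := by linarith
    _ = (2 * (8 : ℝ) ^ n + n * n.factorial * 8 ^ (n + 1)) * (y * W) := by ring
    _ ≤ y * (y * W) := h12
    _ = M * X ^ ((n + 2) * (n - 1 - j)) * (T * y ^ 2) := by rw [hW]; ring

/-- the solution of the recurrence, by downward induction on the level -/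
theorem Dat.G5_ind (k : ℕ) (hk : 2 * d.h0 + k ≤ d.r) {j : ℕ} (hj : j < n) :
    d.a (d.r - k) j ≤ n.factorial * (d.L : ℝ) ^ n * (d.X : ℝ) ^ ((n + 2) * (n - 1 - j)) *
      ((d.X : ℝ) ^ (1 / (4 * d.r : ℝ))) ^ (2 * k) := by
  have hX2 : (2 : ℝ) ≤ d.X := by exact_mod_cast d.hX
  have hX1 : (1 : ℝ) ≤ d.X := by linarith
  have hy : 1 ≤ (d.X : ℝ) ^ (1 / (4 * d.r : ℝ)) :=
    Real.one_le_rpow hX1 (by positivity)
  induction k generalizing j with
  | zero =>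
    have hl : d.l (d.r - 0) = d.L := by simp [Dat.l]
    have hm := d.mj_le (d.r - 0) j
    unfold Dat.a
    rw [hl] at hm ⊢
    have h1 : (d.L : ℝ) ^ j * mj (d.E (d.r - 0)) d.L j ≤
        (d.L : ℝ) ^ j * (n.factorial * (d.L : ℝ) ^ (n - j)) :=
      mul_le_mul_of_nonneg_left hm (by positivity)
    have h2 : (d.L : ℝ) ^ j * (n.factorial * (d.L : ℝ) ^ (n - j)) =
        n.factorial * (d.L : ℝ) ^ n := by
      have : (d.L : ℝ) ^ n = (d.L : ℝ) ^ j * (d.L : ℝ) ^ (n - j) := by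
        rw [← pow_add]; congr 1; omega
      rw [this]; ring
    rw [h2] at h1
    refine h1.trans ?_
    rw [Nat.mul_zero, pow_zero, mul_one]
    exact le_mul_of_one_le_right (by positivity) (one_le_pow₀ hX1)
  | succ k ih =>
    have h1 : 2 * d.h0 < d.r - k := by omega
    have h2 : d.r - k ≤ d.r := by omega
    have hrec := d.G5_rec h1 h2 hj
    have hi : d.r - (k + 1) = d.r - k - 1 := by omega
    rw [hi]
    have key := G5_step hj (M := n.factorial * (d.L : ℝ) ^ n) (X := d.X)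
      (y := (d.X : ℝ) ^ (1 / (4 * d.r : ℝ)))
      (T := ((d.X : ℝ) ^ (1 / (4 * d.r : ℝ))) ^ (2 * k)) (A := d.a (d.r - k) j)
      (a0 := d.a (d.r - k - 1) j) (fun j' => d.a (d.r - k) j') (by positivity) hX1 hy
      (by positivity) d.g6c (ih (by omega) hj)
      (fun j' hj' => ih (by omega) (Finset.mem_Ico.mp hj').2) hrec
    refine key.trans (le_of_eq ?_)
    rw [show 2 * (k + 1) = 2 * k + 2 by ring, pow_add]

theorem Dat.a_le {i j : ℕ} (h1 : 2 * d.h0 ≤ i) (h2 : i ≤ d.r) (hj : j < n) :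
    d.a i j ≤ n.factorial * (d.L : ℝ) ^ n * (d.X : ℝ) ^ ((n + 2) * (n - 1)) *
      (d.X : ℝ) ^ (1 / 2 : ℝ) := by
  have hX2 : (2 : ℝ) ≤ d.X := by exact_mod_cast d.hX
  have hX1 : (1 : ℝ) ≤ d.X := by linarith
  have hr : 0 < d.r := by have := d.g6b; omega
  have hr' : (0 : ℝ) < d.r := by exact_mod_cast hr
  have h3 := d.G5_ind (d.r - i) (by omega) hj
  have hi : d.r - (d.r - i) = i := by omega
  rw [hi] at h3
  refine h3.trans ?_
  have h4 : (d.X : ℝ) ^ ((n + 2) * (n - 1 - j)) ≤ (d.X : ℝ) ^ ((n + 2) * (n - 1)) :=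
    pow_le_pow_right₀ hX1 (Nat.mul_le_mul_left _ (by omega))
  have h5 : ((d.X : ℝ) ^ (1 / (4 * d.r : ℝ))) ^ (2 * (d.r - i)) ≤ (d.X : ℝ) ^ (1 / 2 : ℝ) := by
    rw [← Real.rpow_natCast, ← Real.rpow_mul (by linarith)]
    apply Real.rpow_le_rpow_of_exponent_le hX1
    have h6 : ((2 * (d.r - i) : ℕ) : ℝ) ≤ 2 * d.r := by
      exact_mod_cast Nat.mul_le_mul_left 2 (Nat.sub_le _ _)
    calc 1 / (4 * (d.r : ℝ)) * ((2 * (d.r - i) : ℕ) : ℝ)
        ≤ 1 / (4 * (d.r : ℝ)) * (2 * d.r) := mul_le_mul_of_nonneg_left h6 (by positivity)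
      _ = 1 / 2 := by field_simp; norm_num
  exact mul_le_mul (mul_le_mul_of_nonneg_left h4 (by positivity)) h5 (by positivity)
    (by positivity)

end DR
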