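import Pool.Agent.Lib.MP_a325a5_ag.DR.G5
import Pool.Agent.Lib.MP_a325a5_ag.DR.G2a

/-! DR_PROOF 6 (h): no component of positive dimension at level i_0. -/

open MvPolynomial

namespace DR

variable {Ω : Type} [Field Ω] {n : ℕ}

variable [IsAlgClosed Ω] [CharZero Ω] (d : Dat Ω n)

/-- the least integer whose power is at least a given number -/
private theorem G6_root (k : ℕ) (hk : 1 ≤ k) (x : ℝ) (hx : 1 ≤ x) :
    ∃ ν : ℕ, 1 ≤ ν ∧ x ≤ (ν : ℝ) ^ k ∧ (ν : ℝ) ^ k ≤ 2 ^ k * x := by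
  classical
  have hex : ∃ ν : ℕ, 1 ≤ ν ∧ x ≤ (ν : ℝ) ^ k := by
    obtain ⟨N, hN⟩ := exists_nat_ge x
    refine ⟨N + 1, by omega, ?_⟩
    have h1 : (1 : ℝ) ≤ ((N + 1 : ℕ) : ℝ) := by
      push_cast
      have : (0 : ℝ) ≤ N := Nat.cast_nonneg N
      linarith
    calc x ≤ N := hN
      _ ≤ ((N + 1 : ℕ) : ℝ) := by push_cast; linarith
      _ = ((N + 1 : ℕ) : ℝ) ^ 1 := (pow_one _).symm
      _ ≤ ((N + 1 : ℕ) : ℝ) ^ k := pow_le_pow_right₀ h1 hk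
  obtain ⟨h1, h2⟩ := Nat.find_spec hex
  set ν := Nat.find hex with hν
  refine ⟨ν, h1, h2, ?_⟩
  rcases Nat.lt_or_ge 1 ν with h3 | h3
  · have h4 : ¬ (1 ≤ ν - 1 ∧ x ≤ ((ν - 1 : ℕ) : ℝ) ^ k) := Nat.find_min hex (by omega)
    have h5 : ((ν - 1 : ℕ) : ℝ) ^ k < x := by
      by_contra hc
      exact h4 ⟨by omega, not_lt.1 hc⟩
    have h6 : (ν : ℝ) ≤ 2 * ((ν - 1 : ℕ) : ℝ) := by
      have : ν ≤ 2 * (ν - 1) := by omega
      exact_mod_cast this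
    calc (ν : ℝ) ^ k ≤ (2 * ((ν - 1 : ℕ) : ℝ)) ^ k := pow_le_pow_left₀ (Nat.cast_nonneg _) h6 k
      _ = 2 ^ k * ((ν - 1 : ℕ) : ℝ) ^ k := mul_pow _ _ _
      _ ≤ 2 ^ k * x := by
        apply mul_le_mul_of_nonneg_left h5.le (by positivity)
  · have h4 : ν = 1 := by omega
    rw [h4, Nat.cast_one, one_pow]
    have h5 : (1 : ℝ) ≤ 2 ^ k := one_le_pow₀ (by norm_num)
    nlinarith

theorem Dat.no_pos {j : ℕ} (hj : 1 ≤ j) : ZJ (d.E (2 * d.h0)) (d.l (2 * d.h0)) j = ∅ := by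
  by_contra hne
  obtain ⟨P, hP⟩ := Finset.nonempty_iff_ne_empty.2 hne
  have hr : 2 * d.h0 ≤ d.r := by
    have h1 := d.g6b
    have h2 : 2 * d.h0 ≤ (n + 1) * (2 * d.h0) := Nat.le_mul_of_pos_left _ (by omega)
    omega
  have hjn : j < n := d.dm_lt_n le_rfl hr hP
  obtain ⟨-, ⟨z, hz, hPz⟩, -⟩ := mem_ZJ.1 hP
  set m := mj (d.E (2 * d.h0)) (d.l (2 * d.h0)) j with hm
  have hm1 : 1 ≤ m := by
    refine le_trans ?_ (d.card_ZJ (2 * d.h0) j)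
    have : 1 ≤ (ZJ (d.E (2 * d.h0)) (d.l (2 * d.h0)) j).card :=
      Finset.card_pos.2 ⟨P, hP⟩
    exact_mod_cast this
  have hfac : (1 : ℝ) ≤ n.factorial := by exact_mod_cast Nat.factorial_pos n
  set Cn : ℝ := 3 * n.factorial with hCn
  have hCn1 : 1 ≤ Cn := by rw [hCn]; linarith
  have hCm : 1 ≤ Cn * m := one_le_mul_of_one_le_of_one_le hCn1 hm1
  obtain ⟨ν, hν1, hν2, hν3⟩ := G6_root (n - j) (by omega) (Cn * m) hCm
  have hlow : 3 * (n.factorial : ℝ) * m * (ν : ℝ) ^ j < ((ν : ℝ) + 1) ^ n := by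
    have h0 : (0 : ℝ) < ν := by exact_mod_cast hν1
    have h1 : ((ν : ℝ) + 1) ^ n = ((ν : ℝ) + 1) ^ (n - j) * ((ν : ℝ) + 1) ^ j := by
      rw [← pow_add]
      congr 1
      omega
    have h2 : (ν : ℝ) ^ (n - j) ≤ ((ν : ℝ) + 1) ^ (n - j) :=
      pow_le_pow_left₀ h0.le (by linarith) _
    have h3 : (ν : ℝ) ^ j < ((ν : ℝ) + 1) ^ j :=
      pow_lt_pow_left₀ (by linarith) h0.le (by omega)
    rw [h1]
    calc 3 * (n.factorial : ℝ) * m * (ν : ℝ) ^ j ≤ (ν : ℝ) ^ (n - j) * (ν : ℝ) ^ j :=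
          mul_le_mul_of_nonneg_right hν2 (by positivity)
      _ ≤ ((ν : ℝ) + 1) ^ (n - j) * (ν : ℝ) ^ j :=
          mul_le_mul_of_nonneg_right h2 (by positivity)
      _ < ((ν : ℝ) + 1) ^ (n - j) * ((ν : ℝ) + 1) ^ j :=
          mul_lt_mul_of_pos_left h3 (by positivity)
  obtain ⟨F, hF1, hF2, -, hF3⟩ := d.low hP hjn hPz ν hν1 hlow 0 (WHom_zero P)
  have hom : d.om ≤ (8 * d.X) ^ (2 * d.h0) * ν := d.g2 z hz ν F hF1 hF2 hF3
  -- the numbers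
  have hX : (2 : ℝ) ≤ d.X := by exact_mod_cast d.hX
  have hL : (1 : ℝ) ≤ d.L := by exact_mod_cast d.hL
  have hC1 : (1 : ℝ) ≤ d.C1 := by exact_mod_cast d.hC1
  set Y : ℝ := 8 * d.X with hY
  have hY1 : 1 ≤ Y := by rw [hY]; linarith
  have hY0 : 0 < Y := by linarith
  have hom' : (d.om : ℝ) ≤ Y ^ (2 * d.h0) * ν := by
    have : (d.om : ℝ) ≤ ((8 * d.X) ^ (2 * d.h0) * ν : ℕ) := by exact_mod_cast hom
    refine this.trans (le_of_eq ?_)
    push_cast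
    rw [hY]
  have hLom : (d.L : ℝ) ≤ d.C1 * d.om := by exact_mod_cast d.g4
  have hk : n - j ≤ n - 1 := by omega
  -- (1) L^(n-j) ≤ ...
  have h1 : (d.L : ℝ) ^ (n - j) ≤ (d.C1 : ℝ) ^ (n - j) * (Y ^ (2 * d.h0)) ^ (n - j) *
      (2 ^ (n - j) * (Cn * m)) := by
    calc (d.L : ℝ) ^ (n - j) ≤ (d.C1 * (Y ^ (2 * d.h0) * ν)) ^ (n - j) := by
          apply pow_le_pow_left₀ (by linarith)
          exact hLom.trans (mul_le_mul_of_nonneg_left hom' (by linarith))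
      _ = (d.C1 : ℝ) ^ (n - j) * (Y ^ (2 * d.h0)) ^ (n - j) * (ν : ℝ) ^ (n - j) := by
          rw [mul_pow, mul_pow, mul_assoc]
      _ ≤ _ := mul_le_mul_of_nonneg_left hν3 (by positivity)
  -- (2) the bound for m
  have h2 := d.a_le (i := 2 * d.h0) (j := j) le_rfl hr hjn
  have h3 : d.a (2 * d.h0) j = (Y ^ (d.r - 2 * d.h0) * d.L) ^ j * m := by
    show (d.l (2 * d.h0) : ℝ) ^ j * m = _
    congr 2
    show (((8 * d.X) ^ (d.r - 2 * d.h0) * d.L : ℕ) : ℝ) = _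
    push_cast
    rw [hY]
  have hXh : (d.X : ℝ) ^ (1 / 2 : ℝ) ≤ Y := by
    calc (d.X : ℝ) ^ (1 / 2 : ℝ) ≤ (d.X : ℝ) ^ (1 : ℝ) :=
          Real.rpow_le_rpow_of_exponent_le (by linarith) (by norm_num)
      _ = d.X := Real.rpow_one _
      _ ≤ Y := by rw [hY]; linarith
  have hXK : (d.X : ℝ) ^ ((n + 2) * (n - 1)) ≤ Y ^ ((n + 2) * (n - 1)) :=
    pow_le_pow_left₀ (by linarith) (by rw [hY]; linarith) _
  have h4 : (Y ^ (d.r - 2 * d.h0) * d.L) ^ j * m ≤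
      n.factorial * (d.L : ℝ) ^ n * Y ^ ((n + 2) * (n - 1)) * Y := by
    rw [← h3]
    refine h2.trans ?_
    have e1 : (n.factorial : ℝ) * (d.L : ℝ) ^ n * (d.X : ℝ) ^ ((n + 2) * (n - 1)) ≤
        n.factorial * (d.L : ℝ) ^ n * Y ^ ((n + 2) * (n - 1)) :=
      mul_le_mul_of_nonneg_left hXK (by positivity)
    exact mul_le_mul e1 hXh (by positivity) (by positivity)
  have h5 : (Y ^ (d.r - 2 * d.h0)) ^ j * m ≤
      n.factorial * (d.L : ℝ) ^ (n - j) * Y ^ ((n + 2) * (n - 1)) * Y := by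
    have e1 : (d.L : ℝ) ^ n = (d.L : ℝ) ^ (n - j) * (d.L : ℝ) ^ j := by
      rw [← pow_add]
      congr 1
      omega
    rw [e1, mul_pow] at h4
    have hLj : (0 : ℝ) < (d.L : ℝ) ^ j := by positivity
    refine le_of_mul_le_mul_right ?_ hLj
    calc (Y ^ (d.r - 2 * d.h0)) ^ j * m * (d.L : ℝ) ^ j
        = (Y ^ (d.r - 2 * d.h0)) ^ j * (d.L : ℝ) ^ j * m := by ring
      _ ≤ _ := h4
      _ = _ := by ring
  -- (3) combine
  have hLk : (0 : ℝ) < (d.L : ℝ) ^ (n - j) := by positivity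
  have hm0 : 0 < m := by linarith
  have h6 : (Y ^ (d.r - 2 * d.h0)) ^ j ≤ (d.C1 : ℝ) ^ (n - j) * (Y ^ (2 * d.h0)) ^ (n - j) *
      2 ^ (n - j) * Cn * n.factorial * Y ^ ((n + 2) * (n - 1)) * Y := by
    have e1 : (Y ^ (d.r - 2 * d.h0)) ^ j * m ≤ n.factorial * ((d.C1 : ℝ) ^ (n - j) *
        (Y ^ (2 * d.h0)) ^ (n - j) * (2 ^ (n - j) * (Cn * m))) *
        Y ^ ((n + 2) * (n - 1)) * Y := by
      refine h5.trans ?_
      apply mul_le_mul_of_nonneg_right _ hY0.le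
      apply mul_le_mul_of_nonneg_right _ (by positivity)
      exact mul_le_mul_of_nonneg_left h1 (by positivity)
    refine le_of_mul_le_mul_right ?_ hm0
    refine e1.trans (le_of_eq ?_)
    ring
  have h7 : (d.C1 : ℝ) ^ (n - j) * 2 ^ (n - j) * Cn * n.factorial < Y := by
    have e1 : (2 * (d.C1 : ℝ)) ^ (n - j) ≤ (2 * (d.C1 : ℝ)) ^ n :=
      pow_le_pow_right₀ (by linarith) (by omega)
    have e2 : (2 * (d.C1 : ℝ)) ^ n * (3 * n.factorial * n.factorial) < Y := by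
      have := d.g6d
      have h : (((2 * d.C1) ^ n * (3 * n.factorial * n.factorial) : ℕ) : ℝ) <
          ((8 * d.X : ℕ) : ℝ) := by exact_mod_cast this
      push_cast at h
      rw [hY]
      exact h
    calc (d.C1 : ℝ) ^ (n - j) * 2 ^ (n - j) * Cn * n.factorial
        = (2 * (d.C1 : ℝ)) ^ (n - j) * (3 * n.factorial * n.factorial) := by
          rw [mul_pow, hCn]
          ring
      _ ≤ (2 * (d.C1 : ℝ)) ^ n * (3 * n.factorial * n.factorial) :=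
          mul_le_mul_of_nonneg_right e1 (by positivity)
      _ < Y := e2
  have h8 : (Y ^ (2 * d.h0)) ^ (n - j) ≤ Y ^ (2 * d.h0 * (n - 1)) := by
    rw [← pow_mul]
    exact pow_le_pow_right₀ hY1 (Nat.mul_le_mul_left _ hk)
  have h9 : Y ^ (d.r - 2 * d.h0) ≤ (Y ^ (d.r - 2 * d.h0)) ^ j := by
    calc Y ^ (d.r - 2 * d.h0) = (Y ^ (d.r - 2 * d.h0)) ^ 1 := (pow_one _).symm
      _ ≤ _ := pow_le_pow_right₀ (one_le_pow₀ hY1) hj
  have h10 : Y ^ (d.r - 2 * d.h0) < Y ^ (2 * d.h0 * (n - 1) + (n + 2) * (n - 1) + 2) := by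
    calc Y ^ (d.r - 2 * d.h0) ≤ (Y ^ (d.r - 2 * d.h0)) ^ j := h9
      _ ≤ _ := h6
      _ = ((d.C1 : ℝ) ^ (n - j) * 2 ^ (n - j) * Cn * n.factorial) *
          (Y ^ (2 * d.h0)) ^ (n - j) * Y ^ ((n + 2) * (n - 1)) * Y := by ring
      _ < Y * (Y ^ (2 * d.h0)) ^ (n - j) * Y ^ ((n + 2) * (n - 1)) * Y := by
          apply mul_lt_mul_of_pos_right _ hY0
          apply mul_lt_mul_of_pos_right _ (by positivity)
          exact mul_lt_mul_of_pos_right h7 (by positivity)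
      _ ≤ Y * Y ^ (2 * d.h0 * (n - 1)) * Y ^ ((n + 2) * (n - 1)) * Y := by
          apply mul_le_mul_of_nonneg_right _ hY0.le
          apply mul_le_mul_of_nonneg_right _ (by positivity)
          exact mul_le_mul_of_nonneg_left h8 hY0.le
      _ = _ := by ring
  have h11 : 2 * d.h0 * (n - 1) + (n + 2) * (n - 1) + 2 ≤ d.r - 2 * d.h0 := by
    have e1 := d.g6b
    have e2 : (n + 1) * (2 * d.h0) = 2 * d.h0 * (n - 1) + 2 * (2 * d.h0) := by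
      obtain ⟨k, rfl⟩ : ∃ k, n = k + 1 := ⟨n - 1, by have := d.hn; omega⟩
      simp only [Nat.add_sub_cancel]
      ring
    rw [e2] at e1
    omega
  exact absurd (pow_le_pow_right₀ hY1 h11) (not_le.2 h10)

end DR
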