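import Pool.Agent.Lib.MP_a325a5_ag.DR.G6

/-! DR_PROOF 6 (i), Theorem 6.1. -/

open MvPolynomial

namespace DR

variable {Ω : Type} [Field Ω] {n : ℕ}

private theorem G7_inj {z z' : Fin n → Ω} (h : mx z = mx z') : z = z' := by
  funext i
  have h1 : (X i - C (z i) : MvPolynomial (Fin n) Ω) ∈ mx z := by
    rw [mx, RingHom.mem_ker, map_sub, eval_X, eval_C, sub_self]
  rw [h, mx, RingHom.mem_ker, map_sub, eval_X, eval_C] at h1
  exact (sub_eq_zero.1 h1).symm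

theorem Dat.false [IsAlgClosed Ω] [CharZero Ω] (d : Dat Ω n) : False := by
  classical
  have hr : 2 * d.h0 ≤ d.r := by
    have h1 := d.g6b
    have h2 : 2 * d.h0 ≤ (n + 1) * (2 * d.h0) := Nat.le_mul_of_pos_left _ (by omega)
    omega
  have key : ∀ z ∈ d.E (2 * d.h0), mx z ∈ ZJ (d.E (2 * d.h0)) (d.l (2 * d.h0)) 0 := by
    intro z hz
    have hle : Ideal.span (GG (d.E (2 * d.h0)) (d.l (2 * d.h0))) ≤ mx z := by
      rw [Ideal.span_le]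
      intro G hG
      exact RingHom.mem_ker.2 (hG.2 z hz)
    have hp : (mx z).IsPrime := RingHom.ker_isPrime _
    obtain ⟨Q, hQ, hQz⟩ := Ideal.exists_minimalPrimes_le hle
    have hQp : Q.IsPrime := hQ.1.1
    have h1 : Q ∈ ZJ (d.E (2 * d.h0)) (d.l (2 * d.h0)) (dm Q) := mem_ZJ.2 ⟨hQ, ⟨z, hz, hQz⟩, rfl⟩
    have h0 : dm Q = 0 := by
      by_contra hne
      rw [d.no_pos (Nat.one_le_iff_ne_zero.2 hne)] at h1
      exact absurd h1 (Finset.notMem_empty _)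
    have h2 : Q = mx z := eq_of_dm hQz (by omega)
    rw [h0] at h1
    rw [← h2]
    exact h1
  have hcard : ((d.E (2 * d.h0)).ncard : ℝ) ≤ mj (d.E (2 * d.h0)) (d.l (2 * d.h0)) 0 := by
    refine le_trans ?_ (d.card_ZJ (2 * d.h0) 0)
    have h1 : (d.E (2 * d.h0)).ncard ≤
        (↑(ZJ (d.E (2 * d.h0)) (d.l (2 * d.h0)) 0) : Set (Ideal (MvPolynomial (Fin n) Ω))).ncard :=
      Set.ncard_le_ncard_of_injOn mx (fun z hz => key z hz)
        (fun z _ z' _ h => G7_inj h) (Finset.finite_toSet _)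
    rw [Set.ncard_coe_finset] at h1
    exact_mod_cast h1
  have ha : d.a (2 * d.h0) 0 = mj (d.E (2 * d.h0)) (d.l (2 * d.h0)) 0 := by
    rw [Dat.a, pow_zero, one_mul]
  rw [← ha] at hcard
  have hale := d.a_le (le_refl (2 * d.h0)) hr (j := 0) d.hn
  have h4 : (d.X : ℝ) ^ d.h0 * (d.om : ℝ) ^ n ≤ ((d.E (2 * d.h0)).ncard : ℝ) := by
    exact_mod_cast d.g4'
  have hX0 : (0 : ℝ) < d.X := by
    have := d.hX
    exact_mod_cast (by omega : 0 < d.X)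
  have hX1 : (1 : ℝ) ≤ d.X := by
    have := d.hX
    exact_mod_cast (by omega : 1 ≤ d.X)
  have hom : (0 : ℝ) < (d.om : ℝ) ^ n := by
    have := d.hom
    exact pow_pos (by exact_mod_cast (by omega : 0 < d.om)) _
  have hL : (d.L : ℝ) ^ n ≤ (d.C1 : ℝ) ^ n * (d.om : ℝ) ^ n := by
    rw [← mul_pow]
    exact pow_le_pow_left₀ (Nat.cast_nonneg _) (by exact_mod_cast d.g4) _
  obtain ⟨Y, hY0, hY⟩ : ∃ Y : ℝ, 0 < Y ∧ (d.X : ℝ) ^ (1 / 2 : ℝ) = Y :=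
    ⟨_, Real.rpow_pos_of_pos hX0 _, rfl⟩
  have hYY : Y * Y = d.X := by
    rw [← hY, ← Real.rpow_add hX0]
    norm_num
  have h6 := d.g6e
  rw [hY] at h6 hale
  have hK : (0 : ℝ) < (d.X : ℝ) ^ ((n + 2) * (n - 1)) := pow_pos hX0 _
  have h7 : (d.X : ℝ) ^ d.h0 * (d.om : ℝ) ^ n ≤
      (n.factorial : ℝ) * ((d.C1 : ℝ) ^ n * (d.om : ℝ) ^ n) *
        (d.X : ℝ) ^ ((n + 2) * (n - 1)) * Y := by
    refine (h4.trans hcard).trans (hale.trans ?_)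
    have h8 : (n.factorial : ℝ) * (d.L : ℝ) ^ n ≤
        (n.factorial : ℝ) * ((d.C1 : ℝ) ^ n * (d.om : ℝ) ^ n) :=
      mul_le_mul_of_nonneg_left hL (Nat.cast_nonneg _)
    exact mul_le_mul_of_nonneg_right (mul_le_mul_of_nonneg_right h8 hK.le) hY0.le
  have h8 : (d.X : ℝ) ^ d.h0 ≤ (n.factorial : ℝ) * (d.C1 : ℝ) ^ n *
      (d.X : ℝ) ^ ((n + 2) * (n - 1)) * Y := by
    refine le_of_mul_le_mul_right ?_ hom
    calc (d.X : ℝ) ^ d.h0 * (d.om : ℝ) ^ n ≤ _ := h7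
      _ = _ := by ring
  have h9 : (n.factorial : ℝ) * (d.C1 : ℝ) ^ n * (d.X : ℝ) ^ ((n + 2) * (n - 1)) * Y <
      Y * (d.X : ℝ) ^ ((n + 2) * (n - 1)) * Y :=
    mul_lt_mul_of_pos_right (mul_lt_mul_of_pos_right h6 hK) hY0
  have h10 : Y * (d.X : ℝ) ^ ((n + 2) * (n - 1)) * Y = (d.X : ℝ) ^ ((n + 2) * (n - 1) + 1) := by
    calc Y * (d.X : ℝ) ^ ((n + 2) * (n - 1)) * Y
        = (Y * Y) * (d.X : ℝ) ^ ((n + 2) * (n - 1)) := by ring
      _ = (d.X : ℝ) ^ ((n + 2) * (n - 1) + 1) := by rw [hYY]; ring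
  have h11 : (d.X : ℝ) ^ ((n + 2) * (n - 1) + 1) ≤ (d.X : ℝ) ^ d.h0 :=
    pow_le_pow_right₀ hX1 d.g6a
  linarith

end DR
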