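import Pool.Agent.Lib.MP_a325a5_ag.DR.GDef

/-! Basic facts on `V` (DR_PROOF 1). `finrank_V`: monomials with exponents at most ν (Finset of `Fin n → Fin (ν+1)`); `exists_mem_V`: total degree. -/

open MvPolynomial

namespace DR

variable {Ω : Type} [Field Ω] {n : ℕ}

theorem V_mono {a b : ℕ} (h : a ≤ b) {f : MvPolynomial (Fin n) Ω} (hf : f ∈ V Ω n a) :
    f ∈ V Ω n b := fun i => (hf i).trans h

theorem mul_mem_V {a b : ℕ} {f g : MvPolynomial (Fin n) Ω} (hf : f ∈ V Ω n a)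
    (hg : g ∈ V Ω n b) : f * g ∈ V Ω n (a + b) := fun i =>
  (degreeOf_mul_le i f g).trans (add_le_add (hf i) (hg i))

theorem H1a_V_eq (ν : ℕ) : V Ω n ν = restrictDegree (Fin n) Ω ν := by
  ext f
  rw [mem_restrictDegree]
  constructor
  · intro h s hs i
    exact degreeOf_le_iff.mp (h i) s hs
  · intro h i
    exact degreeOf_le_iff.mpr fun s hs => h s hs i

/-- exponents at most `ν` -/
noncomputable def H1a_equiv (n ν : ℕ) : ↥{m : Fin n →₀ ℕ | ∀ i, m i ≤ ν} ≃ (Fin n → Fin (ν + 1)) where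
  toFun m i := ⟨m.1 i, Nat.lt_succ_of_le (m.2 i)⟩
  invFun f := ⟨Finsupp.equivFunOnFinite.symm fun i => (f i : ℕ), fun i => Nat.le_of_lt_succ (f i).2⟩
  left_inv m := by
    ext i
    rfl
  right_inv f := by
    ext i
    rfl

instance H1a_finite (ν : ℕ) : Finite ↥{m : Fin n →₀ ℕ | ∀ i, m i ≤ ν} :=
  Finite.of_equiv _ (H1a_equiv n ν).symm

theorem finrank_V (ν : ℕ) : Module.finrank Ω (V Ω n ν) = (ν + 1) ^ n := by
  rw [H1a_V_eq]
  have h := Module.finrank_eq_nat_card_basis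
    (basisRestrictSupport Ω {m : Fin n →₀ ℕ | ∀ i, m i ≤ ν})
  rw [restrictDegree, h, Nat.card_congr (H1a_equiv n ν), Nat.card_eq_fintype_card,
    Fintype.card_fun, Fintype.card_fin, Fintype.card_fin]

instance finite_V (ν : ℕ) : Module.Finite Ω (V Ω n ν) := by
  rw [H1a_V_eq]
  exact Module.Finite.of_basis (basisRestrictSupport Ω {m : Fin n →₀ ℕ | ∀ i, m i ≤ ν})

theorem exists_mem_V (f : MvPolynomial (Fin n) Ω) : ∃ d, 1 ≤ d ∧ f ∈ V Ω n d :=
  ⟨f.totalDegree + 1, Nat.le_add_left _ _, fun i =>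
    (degreeOf_le_totalDegree f i).trans (Nat.le_succ _)⟩

end DR
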