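import Pool.Agent.Lib.MP_a325a5_ag.DR.H1b

/-! Dimension `dm` (transcendence degree). `dm_indep`: s independent elements mod P give s ≤ dm P; `dm_coord`: a transcendence basis of the quotient among the coordinates
(exists_isTranscendenceBasis_subset / of a generating set); `dm_mx`, `dm_zero`: over an algebraically closed field dimension 0 means the ideal of a point (quotient algebraic over Ω, Nullstellensatz). -/

open MvPolynomial

namespace DR

variable {Ω : Type} [Field Ω] {n : ℕ}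

private theorem H2a_cast (P : Ideal (MvPolynomial (Fin n) Ω)) [P.IsPrime] :
    ((dm P : ℕ) : Cardinal) = Algebra.trdeg Ω (MvPolynomial (Fin n) Ω ⧸ P) := by
  unfold dm
  exact Cardinal.cast_toNat_of_lt_aleph0 _root_.trdeg_lt_aleph0_of_finiteType

theorem dm_indep (P : Ideal (MvPolynomial (Fin n) Ω)) [P.IsPrime] {s : ℕ}
    (z : Fin s → MvPolynomial (Fin n) Ω ⧸ P) (hz : AlgebraicIndependent Ω z) : s ≤ dm P := by
  have h := hz.cardinalMk_le_trdeg
  rw [← H2a_cast P, Cardinal.mk_fin] at h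
  exact_mod_cast h

theorem dm_coord (P : Ideal (MvPolynomial (Fin n) Ω)) [P.IsPrime] :
    ∃ J : Fin (dm P) → Fin n, Function.Injective J ∧
      IsTranscendenceBasis Ω (fun i => Ideal.Quotient.mk P (X (J i))) := by
  have htop : ∀ a : MvPolynomial (Fin n) Ω ⧸ P,
      a ∈ Algebra.adjoin Ω (Set.range fun i => Ideal.Quotient.mk P (X i)) := by
    intro a
    obtain ⟨f, rfl⟩ := Ideal.Quotient.mk_surjective a
    induction f using MvPolynomial.induction_on with
    | C c =>
      have e : Ideal.Quotient.mk P (C c) = algebraMap Ω (MvPolynomial (Fin n) Ω ⧸ P) c := rfl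
      rw [e]
      exact Subalgebra.algebraMap_mem _ c
    | add p q hp hq =>
      rw [map_add]
      exact Subalgebra.add_mem _ hp hq
    | mul_X p i hp =>
      rw [map_mul]
      exact Subalgebra.mul_mem _ hp (Algebra.subset_adjoin ⟨i, rfl⟩)
  have : Algebra.IsAlgebraic
      (Algebra.adjoin Ω (Set.range fun i => Ideal.Quotient.mk P (X i)))
      (MvPolynomial (Fin n) Ω ⧸ P) := by
    refine ⟨fun a => ?_⟩
    exact isAlgebraic_algebraMap
      (⟨a, htop a⟩ : Algebra.adjoin Ω (Set.range fun i => Ideal.Quotient.mk P (X i)))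
  obtain ⟨t, hts, ht⟩ := exists_isTranscendenceBasis_subset (R := Ω)
    (A := MvPolynomial (Fin n) Ω ⧸ P) (Set.range fun i => Ideal.Quotient.mk P (X i))
  have hc : Cardinal.mk (Fin (dm P)) = Cardinal.mk t := by
    rw [ht.cardinalMk_eq_trdeg, ← H2a_cast P, Cardinal.mk_fin]
  obtain ⟨σ⟩ := Cardinal.eq.mp hc
  choose J hJ using fun k : Fin (dm P) => hts (σ k).2
  refine ⟨J, ?_, ?_⟩
  · intro k l hkl
    apply σ.injective
    apply Subtype.ext
    rw [← hJ k, ← hJ l, hkl]
  · have e : (fun i => Ideal.Quotient.mk P (X (J i))) = (Subtype.val : t → _) ∘ σ := by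
      funext k
      exact hJ k
    rw [e]
    exact (isTranscendenceBasis_equiv σ).mpr ht

theorem dm_le (P : Ideal (MvPolynomial (Fin n) Ω)) [P.IsPrime] : dm P ≤ n := by
  obtain ⟨J, hJ, -⟩ := dm_coord P
  have := Fintype.card_le_of_injective J hJ
  simpa using this

theorem dm_bot : dm (⊥ : Ideal (MvPolynomial (Fin n) Ω)) = n := by
  have : (⊥ : Ideal (MvPolynomial (Fin n) Ω)).IsPrime := Ideal.isPrime_bot
  apply le_antisymm (dm_le _)
  apply dm_indep _ (fun i => Ideal.Quotient.mkₐ Ω (⊥ : Ideal (MvPolynomial (Fin n) Ω)) (X i))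
  have hinj : Function.Injective (Ideal.Quotient.mkₐ Ω (⊥ : Ideal (MvPolynomial (Fin n) Ω))) := by
    intro a b hab
    have h := (Ideal.Quotient.eq (I := (⊥ : Ideal (MvPolynomial (Fin n) Ω)))).mp hab
    exact sub_eq_zero.mp ((Submodule.mem_bot _).mp h)
  exact (algebraicIndependent_X (Fin n) Ω).map' hinj

theorem dm_mx (z : Fin n → Ω) : dm (mx z) = 0 := by
  have : (mx z).IsPrime := RingHom.ker_isPrime _
  by_contra h
  obtain ⟨J, -, hJ⟩ := dm_coord (mx z)
  have ht := hJ.1.transcendental ⟨0, Nat.pos_of_ne_zero h⟩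
  apply ht
  have e : Ideal.Quotient.mk (mx z) (X (J ⟨0, Nat.pos_of_ne_zero h⟩)) =
      algebraMap Ω (MvPolynomial (Fin n) Ω ⧸ mx z) (z (J ⟨0, Nat.pos_of_ne_zero h⟩)) := by
    have e1 : algebraMap Ω (MvPolynomial (Fin n) Ω ⧸ mx z) (z (J ⟨0, Nat.pos_of_ne_zero h⟩)) =
      Ideal.Quotient.mk (mx z) (C (z (J ⟨0, Nat.pos_of_ne_zero h⟩))) := rfl
    rw [e1, Ideal.Quotient.eq]
    change _ ∈ RingHom.ker _
    rw [RingHom.mem_ker]
    simp
  simp only [e]
  exact isAlgebraic_algebraMap _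

theorem dm_zero [IsAlgClosed Ω] (P : Ideal (MvPolynomial (Fin n) Ω)) [P.IsPrime] (h : dm P = 0) :
    ∃ z, P = mx z := by
  obtain ⟨J, -, hJ⟩ := dm_coord P
  have : IsEmpty (Fin (dm P)) := by
    rw [h]
    infer_instance
  have : Algebra.IsAlgebraic Ω (MvPolynomial (Fin n) Ω ⧸ P) :=
    hJ.isEmpty_iff_isAlgebraic.mp inferInstance
  have hb : Function.Bijective (algebraMap Ω (MvPolynomial (Fin n) Ω ⧸ P)) :=
    IsAlgClosed.algebraMap_bijective_of_isIntegral
  choose z hz using fun i : Fin n => hb.2 (Ideal.Quotient.mk P (X i))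
  refine ⟨z, ?_⟩
  have e : Ideal.Quotient.mk P = (algebraMap Ω (MvPolynomial (Fin n) Ω ⧸ P)).comp
      (eval z : MvPolynomial (Fin n) Ω →+* Ω) := by
    apply MvPolynomial.ringHom_ext
    · intro c
      rw [RingHom.comp_apply, eval_C]
      rfl
    · intro i
      rw [RingHom.comp_apply, eval_X, hz i]
  ext f
  change f ∈ P ↔ f ∈ RingHom.ker _
  rw [RingHom.mem_ker, ← Ideal.Quotient.eq_zero_iff_mem, e, RingHom.comp_apply,
    map_eq_zero_iff _ hb.1]

end DR
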