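import Pool.Agent.Lib.MP_a325a5_ag.DR.H2a

/-! DR_PROOF 1.1, lower bound: monomials in dm P algebraically independent coordinates. -/

open MvPolynomial

namespace DR

variable {Ω : Type} [Field Ω] {n : ℕ}

private theorem H2b_rename {m : ℕ} (J : Fin m → Fin n) (hJ : Function.Injective J) {ν : ℕ}
    {f : MvPolynomial (Fin m) Ω} (hf : f ∈ V Ω m ν) : rename J f ∈ V Ω n ν := by
  intro i
  by_cases h : i ∈ Set.range J
  · obtain ⟨j, rfl⟩ := h
    rw [degreeOf_rename_of_injective hJ]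
    exact hf j
  · have h0 : degreeOf i (rename J f) = 0 := by
      by_contra hne
      have h1 : i ∈ (rename J f).vars := by
        rw [mem_vars_iff_degreeOf_ne_zero]
        exact hne
      obtain ⟨j, -, hj⟩ := mem_vars_rename J f h1
      exact h ⟨j, hj⟩
    rw [h0]
    exact Nat.zero_le _

theorem H_lower (P : Ideal (MvPolynomial (Fin n) Ω)) [P.IsPrime] (ν : ℕ) :
    (ν + 1) ^ dm P ≤ H P ν := by
  obtain ⟨J, hJ, hT⟩ := dm_coord P
  rw [← finrank_V (Ω := Ω) (n := dm P) ν]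
  have hA : AlgebraicIndependent Ω (fun i => Ideal.Quotient.mk P (X (J i))) := hT.1
  have hinj := hA
  rw [algebraicIndependent_iff_injective_aeval] at hinj
  have hcomp : ∀ f : MvPolynomial (Fin (dm P)) Ω,
      aeval (fun i => Ideal.Quotient.mk P (X (J i))) f = Ideal.Quotient.mkₐ Ω P (rename J f) := by
    intro f
    have : (aeval (fun i => Ideal.Quotient.mk P (X (J i))) :
        MvPolynomial (Fin (dm P)) Ω →ₐ[Ω] _) = (Ideal.Quotient.mkₐ Ω P).comp (rename J) := by
      apply MvPolynomial.algHom_ext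
      intro i
      simp
    rw [this]
    rfl
  let φ : V Ω (dm P) ν →ₗ[Ω] (V Ω n ν).map (Ideal.Quotient.mkₐ Ω P).toLinearMap :=
    { toFun := fun f => ⟨Ideal.Quotient.mkₐ Ω P (rename J f.1),
        Submodule.mem_map.2 ⟨rename J f.1, H2b_rename J hJ f.2, rfl⟩⟩
      map_add' := fun f g => by
        apply Subtype.ext
        simp
      map_smul' := fun c f => by
        apply Subtype.ext
        simp }
  have hφ : Function.Injective φ := by
    intro f g h
    have h1 : Ideal.Quotient.mkₐ Ω P (rename J f.1) = Ideal.Quotient.mkₐ Ω P (rename J g.1) :=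
      congrArg Subtype.val h
    rw [← hcomp, ← hcomp] at h1
    exact Subtype.ext (hinj h1)
  exact LinearMap.finrank_le_finrank_of_injective hφ

private theorem H2b_pow (ν d : ℕ) : (ν + 1) ^ (d + 1) ≤ ν ^ (d + 1) + (d + 1) * (ν + 1) ^ d := by
  induction d with
  | zero => simp
  | succ d ih =>
    have h1 : ν ^ (d + 1) ≤ (ν + 1) ^ (d + 1) := Nat.pow_le_pow_left (Nat.le_succ ν) _
    calc (ν + 1) ^ (d + 1 + 1) = (ν + 1) * (ν + 1) ^ (d + 1) := by ring
      _ ≤ (ν + 1) * (ν ^ (d + 1) + (d + 1) * (ν + 1) ^ d) := Nat.mul_le_mul_left _ ih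
      _ = ν ^ (d + 1 + 1) + ν ^ (d + 1) + (d + 1) * (ν + 1) ^ (d + 1) := by ring
      _ ≤ ν ^ (d + 1 + 1) + (ν + 1) ^ (d + 1) + (d + 1) * (ν + 1) ^ (d + 1) := by omega
      _ = ν ^ (d + 1 + 1) + (d + 1 + 1) * (ν + 1) ^ (d + 1) := by ring

private theorem H2b_sum (P : Ideal (MvPolynomial (Fin n) Ω)) [P.IsPrime] (ν : ℕ) :
    ν ^ (dm P + 1) ≤ (dm P + 1) * S P ν := by
  induction ν with
  | zero => simp
  | succ ν ih =>
    have h1 : S P (ν + 1) = S P ν + H P ν := by
      rw [S, S, Finset.sum_range_succ]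
    calc (ν + 1) ^ (dm P + 1) ≤ ν ^ (dm P + 1) + (dm P + 1) * (ν + 1) ^ dm P := H2b_pow ν _
      _ ≤ (dm P + 1) * S P ν + (dm P + 1) * H P ν :=
        Nat.add_le_add ih (Nat.mul_le_mul_left _ (H_lower P ν))
      _ = (dm P + 1) * S P (ν + 1) := by rw [h1]; ring

theorem S_lower (P : Ideal (MvPolynomial (Fin n) Ω)) [P.IsPrime] (ν : ℕ) :
    (ν : ℝ) ^ (dm P + 1) ≤ ((dm P : ℝ) + 1) * S P ν := by
  exact_mod_cast H2b_sum P ν

end DR
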