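import Pool.Agent.Lib.MP_a325a5_ag.DR.H1b

/-! DR_PROOF 1.3. `H_cut`: dim of V_ν modulo (V_ν ∩ P) + f V_(ν-d); `S_sup_le` is the summed form (telescoping; for ν < d use H (P+f) ≤ H P). -/

open MvPolynomial

namespace DR

variable {Ω : Type} [Field Ω] {n : ℕ}

theorem h3a_map {M N : Type} [AddCommGroup M] [Module Ω M] [AddCommGroup N] [Module Ω N]
    (U : Submodule Ω M) [Module.Finite Ω U] (g : M →ₗ[Ω] N) :
    Module.finrank Ω U = Module.finrank Ω (U.map g) + Module.finrank Ω (U ⊓ LinearMap.ker g :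
      Submodule Ω M) := by
  have h1 := LinearMap.finrank_range_add_finrank_ker (g.domRestrict U)
  have h2 : LinearMap.range (g.domRestrict U) = U.map g := LinearMap.range_domRestrict U g
  have h3 : LinearMap.ker (g.domRestrict U) = (LinearMap.ker g).comap U.subtype := by
    ext x
    simp
  have h4 : Module.finrank Ω (((LinearMap.ker g).comap U.subtype).map U.subtype) =
      Module.finrank Ω ((LinearMap.ker g).comap U.subtype) :=
    LinearEquiv.finrank_eq
      (Submodule.equivMapOfInjective U.subtype U.injective_subtype _).symm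
  rw [Submodule.map_comap_subtype] at h4
  rw [h4, ← h3, ← h2]
  exact h1.symm

theorem h3a_mkQ {ν : ℕ} (W : Submodule Ω (MvPolynomial (Fin n) Ω)) :
    Module.finrank Ω (V Ω n ν) = Module.finrank Ω ((V Ω n ν).map W.mkQ) +
      Module.finrank Ω (V Ω n ν ⊓ W : Submodule Ω (MvPolynomial (Fin n) Ω)) := by
  have h := h3a_map (V Ω n ν) W.mkQ
  rw [Submodule.ker_mkQ] at h
  exact h

theorem h3a_H {ν : ℕ} (I : Ideal (MvPolynomial (Fin n) Ω)) :
    Module.finrank Ω (V Ω n ν) = H I ν +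
      Module.finrank Ω (V Ω n ν ⊓ I.restrictScalars Ω : Submodule Ω (MvPolynomial (Fin n) Ω)) := by
  have h := h3a_map (V Ω n ν) (Ideal.Quotient.mkₐ Ω I).toLinearMap
  have h1 : LinearMap.ker (Ideal.Quotient.mkₐ Ω I).toLinearMap = I.restrictScalars Ω := by
    ext x
    simp [Ideal.Quotient.eq_zero_iff_mem]
  rw [h1] at h
  exact h

theorem h3a_sum (P : Ideal (MvPolynomial (Fin n) Ω)) {K : ℕ → ℕ} (d : ℕ)
    (h1 : ∀ μ, d ≤ μ → K μ + H P (μ - d) ≤ H P μ) (h2 : ∀ μ, K μ ≤ H P μ) (ν : ℕ) :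
    ∑ μ ∈ Finset.range ν, K μ ≤ d * H P ν := by
  have a : ∀ ν, ∑ μ ∈ Finset.range ν, K μ + S P (ν - d) ≤ S P ν := by
    intro ν
    induction ν with
    | zero => simp [S]
    | succ ν ih =>
      rw [Finset.sum_range_succ]
      have h3 : S P (ν + 1) = S P ν + H P ν := by
        unfold S
        rw [Finset.sum_range_succ]
      by_cases hd : d ≤ ν
      · have h4 : ν + 1 - d = (ν - d) + 1 := by omega
        have h5 : S P (ν + 1 - d) = S P (ν - d) + H P (ν - d) := by
          rw [h4]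
          unfold S
          rw [Finset.sum_range_succ]
        have := h1 ν hd
        omega
      · have h4 : ν + 1 - d = 0 := by omega
        have h5 : S P (ν + 1 - d) = 0 := by
          rw [h4]
          rfl
        have := h2 ν
        omega
  have b : ∀ d ν, S P ν ≤ S P (ν - d) + d * H P ν := by
    intro d
    induction d with
    | zero => intro ν; simp
    | succ d ih =>
      intro ν
      have h3 := ih ν
      rcases Nat.eq_zero_or_pos (ν - d) with h4 | h4
      · have h5 : ν - (d + 1) = 0 := by omega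
        rw [h4] at h3
        rw [h5, add_mul, one_mul]
        omega
      · have h5 : ν - d = (ν - (d + 1)) + 1 := by omega
        have h6 : S P (ν - d) = S P (ν - (d + 1)) + H P (ν - (d + 1)) := by
          rw [h5]
          unfold S
          rw [Finset.sum_range_succ]
        have h7 : H P (ν - (d + 1)) ≤ H P ν := H_mono P (Nat.sub_le _ _)
        rw [add_mul, one_mul]
        omega
  have := a ν
  have := b d ν
  omega

/-- the quotient of `V ν` by `(V ν ∩ P) + f V (ν - d)` has dimension `H P ν - H P (ν - d)` -/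
theorem H_cut (P : Ideal (MvPolynomial (Fin n) Ω)) [P.IsPrime] {d : ℕ}
    {f : MvPolynomial (Fin n) Ω} (hf : f ∈ V Ω n d) (hfP : f ∉ P) {ν : ℕ} (hν : d ≤ ν)
    (W : Submodule Ω (MvPolynomial (Fin n) Ω)) (hW1 : ∀ g ∈ V Ω n ν, g ∈ P → g ∈ W)
    (hW2 : ∀ g ∈ V Ω n (ν - d), f * g ∈ W) :
    Module.finrank Ω ((V Ω n ν).map W.mkQ) + H P (ν - d) ≤ H P ν := by
  have h1 := h3a_mkQ (n := n) (ν := ν) W
  have h2 := h3a_H (ν := ν) P
  have hfin : Module.Finite Ω (V Ω n ν ⊓ W : Submodule Ω (MvPolynomial (Fin n) Ω)) :=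
    Submodule.finiteDimensional_of_le (inf_le_left : V Ω n ν ⊓ W ≤ V Ω n ν)
  have h3 := h3a_map (V Ω n ν ⊓ W : Submodule Ω (MvPolynomial (Fin n) Ω))
    (Ideal.Quotient.mkₐ Ω P).toLinearMap
  have h4 : LinearMap.ker (Ideal.Quotient.mkₐ Ω P).toLinearMap = P.restrictScalars Ω := by
    ext x
    simp [Ideal.Quotient.eq_zero_iff_mem]
  rw [h4] at h3
  have h5 : (V Ω n ν ⊓ W ⊓ P.restrictScalars Ω : Submodule Ω (MvPolynomial (Fin n) Ω)) =
      V Ω n ν ⊓ P.restrictScalars Ω := by
    apply le_antisymm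
    · exact inf_le_inf_right _ inf_le_left
    · rintro x ⟨hx1, hx2⟩
      exact ⟨⟨hx1, hW1 x hx1 hx2⟩, hx2⟩
  rw [h5] at h3
  have h6 : H P (ν - d) ≤ Module.finrank Ω ((V Ω n ν ⊓ W : Submodule Ω (MvPolynomial (Fin n) Ω)).map
      (Ideal.Quotient.mkₐ Ω P).toLinearMap) := by
    have hinj : Function.Injective (LinearMap.mulLeft Ω (Ideal.Quotient.mk P f)) := by
      intro x y hxy
      have h7 : Ideal.Quotient.mk P f ≠ 0 := by
        intro h
        exact hfP (Ideal.Quotient.eq_zero_iff_mem.1 h)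
      have h8 : Ideal.Quotient.mk P f * x = Ideal.Quotient.mk P f * y := hxy
      exact mul_left_cancel₀ h7 h8
    have h7 : Module.finrank Ω (((V Ω n (ν - d)).map (Ideal.Quotient.mkₐ Ω P).toLinearMap).map
        (LinearMap.mulLeft Ω (Ideal.Quotient.mk P f))) = H P (ν - d) :=
      LinearEquiv.finrank_eq (Submodule.equivMapOfInjective _ hinj _).symm
    rw [← h7]
    apply Submodule.finrank_mono
    rintro _ ⟨_, ⟨g, hg, rfl⟩, rfl⟩
    refine ⟨f * g, ⟨?_, hW2 g hg⟩, ?_⟩
    · have h8 := mul_mem_V hf hg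
      rw [show d + (ν - d) = ν by omega] at h8
      exact h8
    · simp
  omega

theorem S_sup_le (P : Ideal (MvPolynomial (Fin n) Ω)) [P.IsPrime] {d : ℕ}
    {f : MvPolynomial (Fin n) Ω} (hf : f ∈ V Ω n d) (hfP : f ∉ P) (ν : ℕ) :
    S (P ⊔ Ideal.span {f}) ν ≤ d * H P ν := by
  refine h3a_sum P d (fun μ hμ => ?_) (fun μ => H_anti le_sup_left μ) ν
  have h1 := H_cut P hf hfP hμ ((P ⊔ Ideal.span {f}).restrictScalars Ω)
    (fun g _ hg => Ideal.mem_sup_left hg)
    (fun g _ => Ideal.mem_sup_right (Ideal.mul_mem_right g _ (Ideal.mem_span_singleton_self f)))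
  have h2 := h3a_H (ν := μ) (P ⊔ Ideal.span {f})
  have h3 := h3a_mkQ (n := n) (ν := μ) ((P ⊔ Ideal.span {f}).restrictScalars Ω)
  omega

end DR
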