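import Pool.Agent.Lib.MP_a325a5_ag.DR.H3a
import Pool.Agent.Lib.MP_a325a5_ag.DR.H2b
import Pool.Agent.Lib.MP_a325a5_ag.DR.H2c

/-! DR_PROOF 1.4. -/

open MvPolynomial

namespace DR

variable {Ω : Type} [Field Ω] {n : ℕ}

theorem dm_lt {P Q : Ideal (MvPolynomial (Fin n) Ω)} [P.IsPrime] [Q.IsPrime] (h : P < Q) :
    dm Q < dm P := by
  by_contra hcon
  push Not at hcon
  obtain ⟨f, hfQ, hfP⟩ := Set.exists_of_ssubset h
  obtain ⟨d, hd, hf⟩ := exists_mem_V f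
  obtain ⟨C, hC0, hC⟩ := H_upper P
  set B : ℝ := ((dm Q : ℝ) + 1) * d * C with hB
  have hB0 : 0 ≤ B := by positivity
  have key : ∀ ν : ℕ, 1 ≤ ν → (ν : ℝ) ≤ B := by
    intro ν hν
    have hν' : (1 : ℝ) ≤ ν := by exact_mod_cast hν
    have h1 := S_lower Q ν
    have h2 : S Q ν ≤ S (P ⊔ Ideal.span {f}) ν := by
      unfold S
      apply Finset.sum_le_sum
      intro μ _
      apply H_anti
      rw [sup_le_iff]
      refine ⟨h.le, ?_⟩
      rw [Ideal.span_le, Set.singleton_subset_iff]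
      exact hfQ
    have h3 := S_sup_le P hf hfP ν
    have h4 : (S Q ν : ℝ) ≤ d * H P ν := by exact_mod_cast h2.trans h3
    have h5 := hC ν hν
    have h6 : (ν : ℝ) ^ dm P ≤ (ν : ℝ) ^ dm Q := pow_le_pow_right₀ hν' hcon
    have h7 : (ν : ℝ) ^ (dm Q + 1) ≤ B * (ν : ℝ) ^ dm Q := by
      calc (ν : ℝ) ^ (dm Q + 1) ≤ ((dm Q : ℝ) + 1) * S Q ν := h1
        _ ≤ ((dm Q : ℝ) + 1) * (d * (C * (ν : ℝ) ^ dm Q)) := by
            apply mul_le_mul_of_nonneg_left _ (by positivity)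
            refine h4.trans (mul_le_mul_of_nonneg_left ?_ (by positivity))
            exact h5.trans (mul_le_mul_of_nonneg_left h6 hC0)
        _ = B * (ν : ℝ) ^ dm Q := by rw [hB]; ring
    have h8 : (0 : ℝ) < (ν : ℝ) ^ dm Q := by positivity
    rw [pow_succ, mul_comm] at h7
    exact le_of_mul_le_mul_right h7 h8
  obtain ⟨N, hN⟩ := exists_nat_gt B
  have h1 := key (N + 1) (by omega)
  push_cast at h1
  linarith

theorem eq_of_dm {P Q : Ideal (MvPolynomial (Fin n) Ω)} [P.IsPrime] [Q.IsPrime] (h : P ≤ Q)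
    (hd : dm P ≤ dm Q) : P = Q := by
  by_contra hne
  have := dm_lt (lt_of_le_of_ne h hne)
  omega

end DR
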