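import Pool.Agent.Lib.MP_a325a5_ag.DR.H3b
import Pool.Agent.Lib.MP_a325a5_ag.UL.DimA

/-! DR_PROOF 1.6: Krull. UL/DimA exists_indep_of_mem_minimalPrimes_singleton for the domain R/P gives ≥, dm_lt gives ≤. -/

open MvPolynomial

namespace DR

variable {Ω : Type} [Field Ω] {n : ℕ}

theorem krull (P Q : Ideal (MvPolynomial (Fin n) Ω)) [P.IsPrime] {f : MvPolynomial (Fin n) Ω}
    (hf : f ∉ P) (hQ : Q ∈ (P ⊔ Ideal.span {f}).minimalPrimes) : dm Q + 1 = dm P := by
  have hQp : Q.IsPrime := hQ.1.1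
  have hle : P ⊔ Ideal.span {f} ≤ Q := hQ.1.2
  have hPQ : P ≤ Q := le_sup_left.trans hle
  have hfQ : f ∈ Q := hle ((le_sup_right : Ideal.span {f} ≤ P ⊔ Ideal.span {f})
    (Ideal.mem_span_singleton_self f))
  have hlt : P < Q := lt_of_le_of_ne hPQ (fun h => hf (h ▸ hfQ))
  have h1 := dm_lt hlt
  obtain ⟨s, hs⟩ : ∃ s, dm P = s + 1 := ⟨dm P - 1, by omega⟩
  obtain ⟨J, -, hJ⟩ := dm_coord P
  have hy : AlgebraicIndependent Ω
      (fun i : Fin (s + 1) => Ideal.Quotient.mk P (X (J (Fin.cast hs.symm i)))) :=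
    hJ.1.comp _ (Fin.cast_injective _)
  have hmin : Q.map (Ideal.Quotient.mk P) ∈
      (Ideal.span {Ideal.Quotient.mk P f}).minimalPrimes := by
    have h2 := Ideal.minimalPrimes_map_of_surjective
      (Ideal.Quotient.mk_surjective (I := P)) (Ideal.span {f})
    rw [Ideal.map_span, Set.image_singleton, Ideal.mk_ker, sup_comm] at h2
    rw [h2]
    exact ⟨Q, hQ, rfl⟩
  obtain ⟨z, hz⟩ := Pool.Agent.Lib.MP_a325a5_ag.UL.exists_indep_of_mem_minimalPrimes_singleton
    _ hy _ _ hmin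
  choose w hw using fun i => Ideal.Quotient.mk_surjective (z i)
  have h3 : AlgebraicIndependent Ω (fun i : Fin s => Ideal.Quotient.mk Q (w i)) := by
    rw [algebraicIndependent_iff] at hz ⊢
    intro p hp
    apply hz p
    have e1 : aeval (fun i => Ideal.Quotient.mk Q (w i)) p =
        Ideal.Quotient.mk Q (aeval w p) := by
      have : aeval (fun i => Ideal.Quotient.mk Q (w i)) =
          (Ideal.Quotient.mkₐ Ω Q).comp (aeval w) := by
        ext i; simp
      rw [this]; rfl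
    have e2 : aeval (fun i => Ideal.Quotient.mk (Q.map (Ideal.Quotient.mk P)) (z i)) p =
        Ideal.Quotient.mk (Q.map (Ideal.Quotient.mk P)) (Ideal.Quotient.mk P (aeval w p)) := by
      have : aeval (fun i => Ideal.Quotient.mk (Q.map (Ideal.Quotient.mk P)) (z i)) =
          ((Ideal.Quotient.mkₐ Ω (Q.map (Ideal.Quotient.mk P))).comp
            (Ideal.Quotient.mkₐ Ω P)).comp (aeval w) := by
        ext i
        simp [hw i]
      rw [this]; rfl
    rw [e2, Ideal.Quotient.eq_zero_iff_mem]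
    apply Ideal.mem_map_of_mem
    rw [e1, Ideal.Quotient.eq_zero_iff_mem] at hp
    exact hp
  have h4 := dm_indep Q _ h3
  omega

end DR
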