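import Pool.Agent.Lib.MP_a325a5_ag.DR.H4a
import Pool.Agent.Lib.MP_a325a5_ag.DR.H3c
import Pool.Agent.Lib.MP_a325a5_ag.DR.H3d

/-! DR_PROOF 2.1. -/

open MvPolynomial

namespace DR

variable {Ω : Type} [Field Ω] {n : ℕ}

private theorem H4b_pow (j ν : ℕ) :
    ((ν : ℝ) + 1) ^ (j + 1) - ((j : ℝ) + 1) * ((ν : ℝ) + 1) ^ j ≤ (ν : ℝ) ^ (j + 1) := by
  induction j with
  | zero => simp
  | succ j ih =>
    have h0 : (0 : ℝ) ≤ ν := Nat.cast_nonneg ν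
    have h1 : (0 : ℝ) ≤ ((j : ℝ) + 1) * ((ν : ℝ) + 1) ^ j := by positivity
    have h2 := mul_le_mul_of_nonneg_left ih h0
    have e1 : (ν : ℝ) ^ (j + 1 + 1) = ν * ν ^ (j + 1) := by ring
    have e2 : (ν : ℝ) * (((ν : ℝ) + 1) ^ (j + 1) - ((j : ℝ) + 1) * ((ν : ℝ) + 1) ^ j) =
        (((ν : ℝ) + 1) ^ (j + 1 + 1) - ((j : ℝ) + 1 + 1) * ((ν : ℝ) + 1) ^ (j + 1)) +
          ((j : ℝ) + 1) * ((ν : ℝ) + 1) ^ j := by ring
    rw [e1]
    push_cast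
    linarith

private theorem H4b_sum (j ν : ℕ) :
    (ν : ℝ) ^ (j + 1) - ((j : ℝ) + 1) * (ν : ℝ) ^ j ≤
      ((j : ℝ) + 1) * ∑ μ ∈ Finset.range ν, (μ : ℝ) ^ j := by
  induction ν with
  | zero =>
    have h1 : (0 : ℝ) ≤ ((j : ℝ) + 1) * ((0 : ℕ) : ℝ) ^ j := by positivity
    simp only [Finset.range_zero, Finset.sum_empty, mul_zero]
    rw [Nat.cast_zero, zero_pow (by omega)]
    rw [Nat.cast_zero] at h1
    linarith
  | succ ν ih =>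
    rw [Finset.sum_range_succ]
    have h1 := H4b_pow j ν
    push_cast
    linarith

private theorem H4b_lim (h : ℕ → ℝ) (h0 : ∀ μ, 0 ≤ h μ) (j N : ℕ) (A B c : ℝ) (hA0 : 0 < A)
    (hB0 : 0 ≤ B) (hAc : c < A)
    (hH : ∀ ν : ℕ, N ≤ ν → A * (ν : ℝ) ^ (j + 1) - B * (ν : ℝ) ^ j ≤ h ν) :
    ∀ᶠ ν : ℕ in Filter.atTop,
      c * (ν : ℝ) ^ (j + 2) ≤ ((j : ℝ) + 2) * ∑ μ ∈ Finset.range ν, h μ := by
  obtain ⟨K, hK0, hK⟩ : ∃ K : ℝ, 0 ≤ K ∧ A * (N : ℝ) ^ (j + 1) = K :=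
    ⟨_, by positivity, rfl⟩
  have hall : ∀ μ : ℕ, A * (μ : ℝ) ^ (j + 1) - B * (μ : ℝ) ^ j ≤
      h μ + (if μ < N then K else 0) := by
    intro μ
    by_cases hμ : μ < N
    · rw [if_pos hμ]
      have h1 : (μ : ℝ) ^ (j + 1) ≤ (N : ℝ) ^ (j + 1) :=
        pow_le_pow_left₀ (Nat.cast_nonneg _) (by exact_mod_cast hμ.le) _
      have h2 := mul_le_mul_of_nonneg_left h1 hA0.le
      have h3 : 0 ≤ B * (μ : ℝ) ^ j := by positivity
      have h4 := h0 μ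
      linarith
    · rw [if_neg hμ, add_zero]
      exact hH μ (not_lt.1 hμ)
  obtain ⟨D, hD0, hD⟩ : ∃ D : ℝ, 0 ≤ D ∧ D = ((j : ℝ) + 2) * (A + B + N * K) :=
    ⟨_, by positivity, rfl⟩
  have hS : ∀ ν : ℕ, 1 ≤ ν → A * (ν : ℝ) ^ (j + 2) - D * (ν : ℝ) ^ (j + 1) ≤
      ((j : ℝ) + 2) * ∑ μ ∈ Finset.range ν, h μ := by
    intro ν hν
    have hν1 : (1 : ℝ) ≤ ν := by exact_mod_cast hν
    have h1 : ∑ μ ∈ Finset.range ν, (A * (μ : ℝ) ^ (j + 1) - B * (μ : ℝ) ^ j) ≤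
        ∑ μ ∈ Finset.range ν, (h μ + (if μ < N then K else 0)) :=
      Finset.sum_le_sum fun μ _ => hall μ
    rw [Finset.sum_sub_distrib, Finset.sum_add_distrib, ← Finset.mul_sum, ← Finset.mul_sum] at h1
    have h2 : ∑ μ ∈ Finset.range ν, (if μ < N then K else 0) ≤ N * K := by
      rw [← Finset.sum_filter, Finset.sum_const, nsmul_eq_mul]
      refine mul_le_mul_of_nonneg_right ?_ hK0
      have h3 : ((Finset.range ν).filter fun μ => μ < N) ⊆ Finset.range N := by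
        intro μ hμ
        rw [Finset.mem_filter] at hμ
        exact Finset.mem_range.2 hμ.2
      have h4 := Finset.card_le_card h3
      rw [Finset.card_range] at h4
      exact_mod_cast h4
    have h4 : ∑ μ ∈ Finset.range ν, (μ : ℝ) ^ j ≤ (ν : ℝ) ^ (j + 1) := by
      have h5 : ∀ μ ∈ Finset.range ν, (μ : ℝ) ^ j ≤ (ν : ℝ) ^ j := fun μ hμ =>
        pow_le_pow_left₀ (Nat.cast_nonneg _) (by exact_mod_cast (Finset.mem_range.1 hμ).le) _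
      have h6 := Finset.sum_le_sum h5
      rw [Finset.sum_const, Finset.card_range, nsmul_eq_mul] at h6
      calc ∑ μ ∈ Finset.range ν, (μ : ℝ) ^ j ≤ (ν : ℝ) * (ν : ℝ) ^ j := h6
        _ = (ν : ℝ) ^ (j + 1) := by ring
    have h5 := H4b_sum (j + 1) ν
    push_cast at h5
    have h6 : (1 : ℝ) ≤ (ν : ℝ) ^ (j + 1) := one_le_pow₀ hν1
    have h7 := mul_le_mul_of_nonneg_left h4 hB0
    have h8 := mul_le_mul_of_nonneg_left h5 hA0.le
    have hK1 : (0 : ℝ) ≤ N * K := by positivity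
    have h9 : N * K ≤ N * K * (ν : ℝ) ^ (j + 1) := by
      calc N * K = N * K * 1 := by ring
        _ ≤ _ := mul_le_mul_of_nonneg_left h6 hK1
    have h10 : A * ∑ μ ∈ Finset.range ν, (μ : ℝ) ^ (j + 1) ≤ ∑ μ ∈ Finset.range ν, h μ +
        B * (ν : ℝ) ^ (j + 1) + N * K * (ν : ℝ) ^ (j + 1) := by linarith
    have hj2 : (0 : ℝ) ≤ (j : ℝ) + 2 := by positivity
    have h11 := mul_le_mul_of_nonneg_left h10 hj2
    have e1 : A * ((ν : ℝ) ^ (j + 1 + 1) - ((j : ℝ) + 1 + 1) * (ν : ℝ) ^ (j + 1)) =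
        A * (ν : ℝ) ^ (j + 2) - ((j : ℝ) + 2) * A * (ν : ℝ) ^ (j + 1) := by ring
    have e2 : A * (((j : ℝ) + 1 + 1) * ∑ μ ∈ Finset.range ν, (μ : ℝ) ^ (j + 1)) =
        ((j : ℝ) + 2) * (A * ∑ μ ∈ Finset.range ν, (μ : ℝ) ^ (j + 1)) := by ring
    rw [e1, e2] at h8
    have e3 : D * (ν : ℝ) ^ (j + 1) = ((j : ℝ) + 2) * A * (ν : ℝ) ^ (j + 1) +
        ((j : ℝ) + 2) * (B * (ν : ℝ) ^ (j + 1) + N * K * (ν : ℝ) ^ (j + 1)) := by
      rw [hD]; ring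
    rw [e3]
    have e4 : ((j : ℝ) + 2) * (∑ μ ∈ Finset.range ν, h μ + B * (ν : ℝ) ^ (j + 1) +
        N * K * (ν : ℝ) ^ (j + 1)) = ((j : ℝ) + 2) * ∑ μ ∈ Finset.range ν, h μ +
        ((j : ℝ) + 2) * (B * (ν : ℝ) ^ (j + 1) + N * K * (ν : ℝ) ^ (j + 1)) := by ring
    rw [e4] at h11
    linarith
  have hAc0 : 0 < A - c := by linarith
  obtain ⟨M, hM⟩ := exists_nat_ge (D / (A - c))
  filter_upwards [Filter.eventually_ge_atTop (max M 1)] with ν hν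
  have h1 : 1 ≤ ν := le_trans (le_max_right _ _) hν
  have h2 : (M : ℝ) ≤ ν := by exact_mod_cast le_trans (le_max_left _ _) hν
  have h3 : D ≤ (A - c) * ν := by
    have h4 : D / (A - c) ≤ ν := hM.trans h2
    rw [div_le_iff₀ hAc0] at h4
    linarith
  have h5 := hS ν h1
  have h6 : D * (ν : ℝ) ^ (j + 1) ≤ (A - c) * (ν : ℝ) ^ (j + 2) := by
    calc D * (ν : ℝ) ^ (j + 1) ≤ (A - c) * ν * (ν : ℝ) ^ (j + 1) :=
          mul_le_mul_of_nonneg_right h3 (by positivity)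
      _ = (A - c) * (ν : ℝ) ^ (j + 2) := by ring
  have e4 : c * (ν : ℝ) ^ (j + 2) = A * (ν : ℝ) ^ (j + 2) - (A - c) * (ν : ℝ) ^ (j + 2) := by
    ring
  rw [e4]
  linarith

/-- the arithmetic of the lower bound of `H P` -/
private theorem H4b_arith (j l m : ℕ) (E E' δ C HP x y SQ S1 : ℝ) (hl : (0 : ℝ) < l)
    (hm : (m : ℝ) * δ = E - E') (h3 : (E - (m : ℝ) * δ) * x ≤ ((j : ℝ) + 1) * SQ)
    (h5 : SQ - C * y ≤ S1) (h7 : S1 ≤ l * HP) :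
    E' / (((j : ℝ) + 1) * l) * x - C / l * y ≤ HP := by
  have hj0 : (0 : ℝ) < (j : ℝ) + 1 := by positivity
  have hjl : (0 : ℝ) < ((j : ℝ) + 1) * l := mul_pos hj0 hl
  rw [hm] at h3
  have h9 : SQ ≤ l * HP + C * y := by linarith
  have h10 := mul_le_mul_of_nonneg_left h9 hj0.le
  have h11 : (E - (E - E')) * x = E' * x := by ring
  have h8 : E' * x ≤ ((j : ℝ) + 1) * (l * HP + C * y) := by linarith
  have h12 : E' / (((j : ℝ) + 1) * l) * x = E' * x / (((j : ℝ) + 1) * l) := by ring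
  have h13 : E' * x / (((j : ℝ) + 1) * l) ≤ HP + C / l * y := by
    rw [div_le_iff₀ hjl]
    have h14 : (HP + C / l * y) * (((j : ℝ) + 1) * l) = ((j : ℝ) + 1) * (l * HP + C * y) := by
      field_simp
    rw [h14]
    exact h8
  linarith

theorem bez_one (P : Ideal (MvPolynomial (Fin n) Ω)) [P.IsPrime] {l : ℕ} (hl : 1 ≤ l)
    {f : MvPolynomial (Fin n) Ω} (hf : f ∈ V Ω n l) (hfP : f ∉ P)
    (s : Finset (Ideal (MvPolynomial (Fin n) Ω)))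
    (hs : ∀ Q ∈ s, Q ∈ (P ⊔ Ideal.span {f}).minimalPrimes) :
    ∑ Q ∈ s, e Q ≤ dm P * l * e P := by
  classical
  have heP := e_ge_one P
  rcases s.eq_empty_or_nonempty with rfl | hne
  · rw [Finset.sum_empty]
    exact mul_nonneg (mul_nonneg (Nat.cast_nonneg _) (Nat.cast_nonneg _)) (by linarith)
  have hprime : ∀ Q ∈ s, Q.IsPrime := fun Q hQ => (hs Q hQ).1.1
  have hle : ∀ Q ∈ s, P ⊔ Ideal.span {f} ≤ Q := fun Q hQ => (hs Q hQ).1.2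
  have hdm : ∀ Q ∈ s, dm Q + 1 = dm P := fun Q hQ => krull P Q hfP (hs Q hQ)
  obtain ⟨Q0, hQ0⟩ := id hne
  obtain ⟨j, hj⟩ : ∃ j, dm P = j + 1 := ⟨dm Q0, (hdm Q0 hQ0).symm⟩
  have hdj : ∀ Q ∈ s, dm Q = j := fun Q hQ => by have := hdm Q hQ; omega
  obtain ⟨E, hE⟩ : ∃ E : ℝ, ∑ Q ∈ s, e Q = E := ⟨_, rfl⟩
  have hl0 : (0 : ℝ) < l := by exact_mod_cast hl
  have hj0 : (0 : ℝ) < (j : ℝ) + 1 := by positivity
  have hjl : (0 : ℝ) < ((j : ℝ) + 1) * l := mul_pos hj0 hl0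
  rw [hE]
  suffices hsuf : E / (((j : ℝ) + 1) * l) ≤ e P by
    rw [div_le_iff₀ hjl] at hsuf
    rw [hj]
    push_cast
    linarith
  apply e_ge_of
  intro c hc
  rw [lt_div_iff₀ hjl] at hc
  rw [hj]
  by_cases hc0 : c ≤ 0
  · refine Filter.Eventually.of_forall fun ν => ?_
    have h1 : c * (ν : ℝ) ^ (j + 1 + 1) ≤ 0 :=
      mul_nonpos_of_nonpos_of_nonneg hc0 (pow_nonneg (Nat.cast_nonneg _) _)
    have h2 : (0 : ℝ) ≤ (((j + 1 : ℕ) : ℝ) + 1) * (S P ν : ℝ) :=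
      mul_nonneg (by positivity) (Nat.cast_nonneg _)
    linarith
  push Not at hc0
  have hcard : (0 : ℝ) < s.card := by exact_mod_cast Finset.card_pos.2 hne
  obtain ⟨E', hE'1, hE'2⟩ : ∃ E' : ℝ, c * (((j : ℝ) + 1) * l) < E' ∧ E' < E :=
    exists_between hc
  have hE'0 : 0 < E' := lt_trans (mul_pos hc0 hjl) hE'1
  obtain ⟨δ, hδ0, hδ⟩ : ∃ δ : ℝ, 0 < δ ∧ (s.card : ℝ) * δ = E - E' :=
    ⟨(E - E') / s.card, div_pos (by linarith) hcard, by field_simp⟩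
  have hev : ∀ᶠ ν : ℕ in Filter.atTop, ∀ Q ∈ s,
      (e Q - δ) * (ν : ℝ) ^ (j + 1) ≤ ((j : ℝ) + 1) * S Q ν := by
    rw [Filter.eventually_all_finset]
    intro Q hQ
    have := hprime Q hQ
    have h1 := e_eventually Q (c := e Q - δ) (by linarith)
    rw [hdj Q hQ] at h1
    exact h1
  obtain ⟨ν0, hν0⟩ := Filter.eventually_atTop.1 hev
  obtain ⟨C, hC0, hC⟩ := S_inf_ge j s (fun Q hQ => ⟨hprime Q hQ, hdj Q hQ⟩)
  have hlim := H4b_lim (fun μ => (H P μ : ℝ)) (fun μ => Nat.cast_nonneg _) j (max ν0 1)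
    (E' / (((j : ℝ) + 1) * l)) (C / l) c (div_pos hE'0 hjl) (div_nonneg hC0 hl0.le)
    (by rw [lt_div_iff₀ hjl]; exact hE'1) (by
      intro ν hν
      have h1 : ν0 ≤ ν := le_trans (le_max_left _ _) hν
      have h2 : 1 ≤ ν := le_trans (le_max_right _ _) hν
      have h3 : ∑ Q ∈ s, (e Q - δ) * (ν : ℝ) ^ (j + 1) ≤ ∑ Q ∈ s, ((j : ℝ) + 1) * (S Q ν : ℝ) :=
        Finset.sum_le_sum fun Q hQ => hν0 ν h1 Q hQ
      rw [← Finset.sum_mul, ← Finset.mul_sum, Finset.sum_sub_distrib, Finset.sum_const,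
        nsmul_eq_mul, hE] at h3
      have h5 := hC ν h2
      have h6 : (S (s.inf id) ν : ℝ) ≤ (S (P ⊔ Ideal.span {f}) ν : ℝ) := by
        unfold S
        push_cast
        refine Finset.sum_le_sum fun μ _ => ?_
        exact_mod_cast H_anti (Finset.le_inf fun Q hQ => hle Q hQ) μ
      have h7 : (S (P ⊔ Ideal.span {f}) ν : ℝ) ≤ (l : ℝ) * H P ν := by
        exact_mod_cast S_sup_le P hf hfP ν
      exact H4b_arith j l s.card E E' δ C (H P ν) _ _ _ _ hl0 hδ h3 h5 (h6.trans h7))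
  filter_upwards [hlim] with ν hν
  have h3 : ∑ μ ∈ Finset.range ν, (H P μ : ℝ) = (S P ν : ℝ) := by
    unfold S
    push_cast
    rfl
  rw [h3] at hν
  push_cast
  have e5 : ((j : ℝ) + 1 + 1) * (S P ν : ℝ) = ((j : ℝ) + 2) * (S P ν : ℝ) := by ring
  rw [e5]
  exact hν

end DR
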