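import Pool.Agent.Lib.MP_a325a5_ag.DR.T3
import Pool.Agent.Lib.MP_a325a5_ag.DR.T1

/-! DR_PROOF 5.1. There are q^n elements in `Mu q` (Ω algebraically closed, characteristic 0). -/

open MvPolynomial

namespace DR

variable {Ω : Type} [Field Ω] {n : ℕ}

theorem card_Mu [IsAlgClosed Ω] [CharZero Ω] {q : ℕ} (hq : 0 < q) :
    (Mu Ω n q).ncard = q ^ n ∧ (Mu Ω n q).Finite := by
  haveI : NeZero q := ⟨hq.ne'⟩
  haveI : NeZero (q : Ω) := ⟨by exact_mod_cast hq.ne'⟩
  have h1 : Nat.card (rootsOfUnity q Ω) = q := HasEnoughRootsOfUnity.natCard_rootsOfUnity Ω q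
  haveI : Finite (rootsOfUnity q Ω) := Nat.finite_of_card_ne_zero (by rw [h1]; exact hq.ne')
  let F : (Fin n → rootsOfUnity q Ω) ≃ Mu Ω n q :=
    { toFun := fun f => ⟨fun i => (f i : Ωˣ), fun i => (mem_rootsOfUnity q _).mp (f i).2⟩
      invFun := fun ξ i => ⟨ξ.1 i, (mem_rootsOfUnity q _).mpr (ξ.2 i)⟩
      left_inv := fun f => rfl
      right_inv := fun ξ => rfl }
  have h2 : Nat.card (Mu Ω n q) = q ^ n := by
    rw [← Nat.card_congr F, Nat.card_fun, h1, Nat.card_eq_fintype_card, Fintype.card_fin]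
  haveI : Finite (Mu Ω n q) := Finite.of_equiv _ F
  exact ⟨h2, Set.toFinite _⟩

/-- double counting for a finite group acting on a type -/
private theorem K1_count {G α : Type} [Group G] [DecidableEq α] [DecidableEq G] (act : G → α → α)
    (hact : ∀ g h P, act g (act h P) = act (g * h) P) (hone : ∀ P, act 1 P = P)
    (M : Finset G) (h1 : (1 : G) ∈ M) (hmul : ∀ g ∈ M, ∀ h ∈ M, g * h ∈ M) (hinv : ∀ g ∈ M, g⁻¹ ∈ M)
    (SS : Finset α) (w : α → ℝ) (N : α → ℕ) (hN : ∀ P, N P = (M.filter fun g => act g P ∈ SS).card)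
    (hw : ∀ g ∈ M, ∀ P ∈ SS, w (act g P) = w P) :
    (M.card : ℝ) * ∑ P ∈ SS, w P / N P =
      ∑ T ∈ (M ×ˢ SS).image (fun p => act p.1 p.2), w T := by
  have hNinv : ∀ g ∈ M, ∀ P, N (act g P) = N P := by
    intro g hg P
    rw [hN, hN]
    apply Finset.card_bij (fun h _ => h * g)
    · intro h hh
      rw [Finset.mem_filter] at hh ⊢
      refine ⟨hmul h hh.1 g hg, ?_⟩
      rw [← hact]
      exact hh.2
    · intro a _ b _ hab
      exact mul_right_cancel hab
    · intro h hh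
      rw [Finset.mem_filter] at hh
      refine ⟨h * g⁻¹, ?_, by simp⟩
      rw [Finset.mem_filter]
      refine ⟨hmul h hh.1 _ (hinv g hg), ?_⟩
      rw [hact]
      simpa using hh.2
  have e1 : (M.card : ℝ) * ∑ P ∈ SS, w P / N P = ∑ p ∈ M ×ˢ SS, w p.2 / N p.2 := by
    rw [Finset.sum_product]
    simp only [Finset.sum_const, nsmul_eq_mul]
  rw [e1, ← Finset.sum_fiberwise_of_maps_to
    (g := fun p : G × α => act p.1 p.2) (t := (M ×ˢ SS).image (fun p => act p.1 p.2))
    (fun p hp => Finset.mem_image_of_mem _ hp)]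
  refine Finset.sum_congr rfl fun T hT => ?_
  obtain ⟨p0, hp0, hpT⟩ := Finset.mem_image.mp hT
  rw [Finset.mem_product] at hp0
  have e2 : ∀ p ∈ (M ×ˢ SS).filter (fun p => act p.1 p.2 = T), w p.2 / N p.2 = w T / N T := by
    intro p hp
    rw [Finset.mem_filter, Finset.mem_product] at hp
    obtain ⟨⟨ha, hb⟩, hc⟩ := hp
    rw [← hc, hw _ ha _ hb, hNinv _ ha]
  rw [Finset.sum_congr rfl e2, Finset.sum_const, nsmul_eq_mul]
  have e3 : ((M ×ˢ SS).filter (fun p => act p.1 p.2 = T)).card = N T := by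
    rw [hN]
    apply Finset.card_bij (fun p _ => p.1⁻¹)
    · intro p hp
      rw [Finset.mem_filter, Finset.mem_product] at hp
      rw [Finset.mem_filter]
      refine ⟨hinv _ hp.1.1, ?_⟩
      rw [← hp.2, hact]
      simpa [hone] using hp.1.2
    · intro a ha b hb hab
      rw [Finset.mem_filter, Finset.mem_product] at ha hb
      have h2 : a.1 = b.1 := inv_injective hab
      have h3 : a.2 = b.2 := by
        have h4 : act a.1 a.2 = act a.1 b.2 := by rw [ha.2, h2, hb.2]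
        have h5 := congrArg (act a.1⁻¹) h4
        rw [hact, hact] at h5
        simpa [hone] using h5
      exact Prod.ext h2 h3
    · intro g hg
      rw [Finset.mem_filter] at hg
      refine ⟨(g⁻¹, act g T), ?_, by simp⟩
      rw [Finset.mem_filter, Finset.mem_product]
      refine ⟨⟨hinv _ hg.1, hg.2⟩, ?_⟩
      rw [hact]
      simp [hone]
  rw [e3]
  have e4 : (N T : ℝ) ≠ 0 := by
    have : 0 < N T := by
      rw [hN]
      apply Finset.card_pos.mpr
      refine ⟨p0.1⁻¹, ?_⟩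
      rw [Finset.mem_filter]
      refine ⟨hinv _ hp0.1, ?_⟩
      rw [← hpT, hact]
      simpa [hone] using hp0.2
    exact_mod_cast this.ne'
  field_simp

private theorem K1_tr_mul (ξ η : Fin n → Ωˣ) :
    (tr ξ : MvPolynomial (Fin n) Ω ≃+* _).toRingHom.comp (tr η).toRingHom = (tr (ξ * η)).toRingHom := by
  apply MvPolynomial.ringHom_ext
  · intro a
    simp [tr, trh]
  · intro i
    simp [tr, trh, mul_comm, mul_left_comm]

private theorem K1_tm_mul (ξ η : Fin n → Ωˣ) (P : Ideal (MvPolynomial (Fin n) Ω)) :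
    (P.map (tr η).toRingHom).map (tr ξ).toRingHom = P.map (tr (ξ * η)).toRingHom := by
  rw [Ideal.map_map, K1_tr_mul]

private theorem K1_tm_one (P : Ideal (MvPolynomial (Fin n) Ω)) :
    P.map (tr (1 : Fin n → Ωˣ)).toRingHom = P := by
  have : (tr (1 : Fin n → Ωˣ) : MvPolynomial (Fin n) Ω ≃+* _).toRingHom = RingHom.id _ := by
    apply MvPolynomial.ringHom_ext
    · intro a
      simp [tr, trh]
    · intro i
      simp [tr, trh]
  rw [this, Ideal.map_id]

theorem k_one [IsAlgClosed Ω] [CharZero Ω] {q : ℕ} (hq : 0 < q) (ρ : Ω ≃+* Ω) (j : ℕ)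
    (SS ZZ : Finset (Ideal (MvPolynomial (Fin n) Ω))) (hSS : ∀ P ∈ SS, P.IsPrime ∧ dm P = j)
    (hZ : ∀ P ∈ ZZ, P.IsPrime ∧ dm P = j) (h : ∀ P ∈ SS, P.comap (th q ρ) ∈ ZZ) (hj : j ≤ n) :
    (q : ℝ) ^ j * ∑ P ∈ SS, e P / nq (SS : Set (Ideal (MvPolynomial (Fin n) Ω))) q P ≤
      ∑ Q ∈ ZZ, e Q := by
  classical
  obtain ⟨hc, hf⟩ := card_Mu (Ω := Ω) (n := n) hq
  have hM : ∀ ξ, ξ ∈ hf.toFinset ↔ ξ ∈ Mu Ω n q := fun ξ => hf.mem_toFinset
  have hcard : hf.toFinset.card = q ^ n := by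
    rw [← hc, Set.ncard_eq_toFinset_card _ hf]
  have hprime : ∀ (ξ : Fin n → Ωˣ) (P : Ideal (MvPolynomial (Fin n) Ω)), P.IsPrime →
      (P.map (tr ξ).toRingHom).IsPrime := by
    intro ξ P hP
    exact Ideal.map_isPrime_of_equiv (tr ξ)
  have key := K1_count (G := Fin n → Ωˣ) (α := Ideal (MvPolynomial (Fin n) Ω))
    (fun ξ P => P.map (tr ξ).toRingHom) (fun ξ η P => K1_tm_mul ξ η P) (fun P => K1_tm_one P)
    hf.toFinset (by rw [hM]; intro i; simp)
    (by
      intro a ha b hb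
      rw [hM] at ha hb ⊢
      intro i
      rw [Pi.mul_apply, mul_pow, ha i, hb i, mul_one])
    (by
      intro a ha
      rw [hM] at ha ⊢
      intro i
      rw [Pi.inv_apply, inv_pow, ha i, inv_one])
    SS e (fun P => nq (SS : Set (Ideal (MvPolynomial (Fin n) Ω))) q P)
    (by
      intro P
      simp only [nq]
      rw [← Set.ncard_coe_finset]
      congr 1
      ext ξ
      simp [hM])
    (by
      intro ξ _ P hP
      haveI := (hSS P hP).1
      exact sym_e (sym_tr ξ) P)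
  rw [hcard] at key
  have hle : ∑ T ∈ (hf.toFinset ×ˢ SS).image (fun p => p.2.map (tr p.1).toRingHom), e T ≤
      (q : ℝ) ^ (n - j) * ∑ Q ∈ ZZ, e Q := by
    have hmaps : ∀ T ∈ (hf.toFinset ×ˢ SS).image (fun p => p.2.map (tr p.1).toRingHom),
        T.comap (th q ρ) ∈ ZZ := by
      intro T hT
      obtain ⟨p, hp, rfl⟩ := Finset.mem_image.mp hT
      rw [Finset.mem_product, hM] at hp
      rw [th_tr ρ hp.1]
      exact h _ hp.2
    rw [← Finset.sum_fiberwise_of_maps_to hmaps, Finset.mul_sum]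
    refine Finset.sum_le_sum fun Q hQ => ?_
    haveI := (hZ Q hQ).1
    have h3 := th_sum hq ρ Q
      (((hf.toFinset ×ˢ SS).image (fun p => p.2.map (tr p.1).toRingHom)).filter
        fun T => T.comap (th q ρ) = Q)
      (by
        intro T hT
        rw [Finset.mem_filter] at hT
        obtain ⟨hT, hTQ⟩ := hT
        obtain ⟨p, hp, rfl⟩ := Finset.mem_image.mp hT
        rw [Finset.mem_product] at hp
        exact ⟨hprime _ _ (hSS _ hp.2).1, hTQ⟩)
    rw [(hZ Q hQ).2] at h3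
    exact h3
  rw [← key] at hle
  have hq' : (0 : ℝ) < (q : ℝ) ^ (n - j) := by positivity
  have hsplit : ((q ^ n : ℕ) : ℝ) = (q : ℝ) ^ (n - j) * (q : ℝ) ^ j := by
    rw [← pow_add, Nat.sub_add_cancel hj]
    push_cast
    ring
  rw [hsplit, mul_assoc] at hle
  exact le_of_mul_le_mul_left hle hq'

end DR
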