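import Pool.Agent.Lib.MP_a325a5_ag.DR.ADef

/-! Elementary facts on the products `MM`. -/

open NumberField MvPolynomial

namespace DR

theorem MM_le (P : ℕ → Finset ℕ) (X r : ℕ) (hP : ∀ i, 1 ≤ i → i ≤ r → ∀ q ∈ P i, q ≤ 8 * X)
    (i : ℕ) (hi : i ≤ r) : ∀ m ∈ MM P i, m ≤ (8 * X) ^ i := by
  induction i with
  | zero =>
    intro m hm
    have : m = 1 := hm
    simp [this]
  | succ i ih =>
    rintro m ⟨a, ha, q, hq, rfl⟩
    rw [pow_succ]
    exact Nat.mul_le_mul (ih (by omega) a ha) (hP (i + 1) (by omega) hi q hq)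

theorem MM_coprime (P : ℕ → Finset ℕ) (M r : ℕ)
    (hP : ∀ i, 1 ≤ i → i ≤ r → ∀ q ∈ P i, q.Prime ∧ ¬ q ∣ M) (i : ℕ) (hi : i ≤ r) :
    ∀ m ∈ MM P i, m.Coprime M ∧ 0 < m := by
  induction i with
  | zero =>
    intro m hm
    have : m = 1 := hm
    subst this
    exact ⟨Nat.coprime_one_left M, one_pos⟩
  | succ i ih =>
    rintro m ⟨a, ha, q, hq, rfl⟩
    obtain ⟨h1, h2⟩ := ih (by omega) a ha
    obtain ⟨h3, h4⟩ := hP (i + 1) (by omega) hi q hq
    exact ⟨Nat.Coprime.mul_left h1 ((Nat.Prime.coprime_iff_not_dvd h3).2 h4),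
      Nat.mul_pos h2 h3.pos⟩

/-- every product is the product of a set of at most `i` primes -/
theorem MM_prod (P : ℕ → Finset ℕ) (r : ℕ)
    (hd : ∀ i j, 1 ≤ i → i < j → j ≤ r → Disjoint (P i) (P j)) (i : ℕ) (hi : i ≤ r) :
    ∀ m ∈ MM P i, ∃ S : Finset ℕ, S ⊆ (Finset.Icc 1 i).biUnion P ∧ S.card ≤ i ∧ m = ∏ q ∈ S, q := by
  induction i with
  | zero =>
    intro m hm
    have : m = 1 := hm
    exact ⟨∅, by simp, by simp, by simp [this]⟩
  | succ i ih =>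
    rintro m ⟨a, ha, q, hq, rfl⟩
    obtain ⟨S, hS, hc, hp⟩ := ih (by omega) a ha
    have hqS : q ∉ S := by
      intro h
      obtain ⟨j, hj, hqj⟩ := Finset.mem_biUnion.1 (hS h)
      rw [Finset.mem_Icc] at hj
      exact Finset.disjoint_left.1 (hd j (i + 1) hj.1 (by omega) hi) hqj hq
    refine ⟨insert q S, ?_, ?_, ?_⟩
    · intro x hx
      rcases Finset.mem_insert.1 hx with rfl | hx
      · exact Finset.mem_biUnion.2 ⟨i + 1, Finset.mem_Icc.2 ⟨by omega, le_rfl⟩, hq⟩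
      · obtain ⟨j, hj, hxj⟩ := Finset.mem_biUnion.1 (hS hx)
        rw [Finset.mem_Icc] at hj
        exact Finset.mem_biUnion.2 ⟨j, Finset.mem_Icc.2 ⟨hj.1, by omega⟩, hxj⟩
    · rw [Finset.card_insert_of_notMem hqS]
      omega
    · rw [Finset.prod_insert hqS, hp, mul_comm]

private theorem MMf_dvd (P : ℕ → Finset ℕ) (r : ℕ) (hP : ∀ i, 1 ≤ i → i ≤ r → ∀ q ∈ P i, q.Prime)
    (hd : ∀ i j, 1 ≤ i → i < j → j ≤ r → Disjoint (P i) (P j)) (i : ℕ) (hi : i < r)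
    {m q : ℕ} (hm : m ∈ MM P i) (hq : q ∈ P (i + 1)) : ¬ q ∣ m := by
  intro h
  obtain ⟨S, hS, -, rfl⟩ := MM_prod P r hd i hi.le m hm
  have hqp := hP (i + 1) (by omega) hi q hq
  obtain ⟨p, hp, hqp'⟩ := (Prime.dvd_finsetProd_iff hqp.prime _).1 h
  obtain ⟨j, hj, hpj⟩ := Finset.mem_biUnion.1 (hS hp)
  rw [Finset.mem_Icc] at hj
  have hpp := hP j hj.1 (by omega) p hpj
  have : q = p := (Nat.prime_dvd_prime_iff_eq hqp hpp).1 hqp'
  subst this
  exact Finset.disjoint_left.1 (hd j (i + 1) hj.1 (by omega) hi) hpj hq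

/-- the products are different: distinct primes at distinct levels -/
theorem MM_card (P : ℕ → Finset ℕ) (r : ℕ) (hP : ∀ i, 1 ≤ i → i ≤ r → ∀ q ∈ P i, q.Prime)
    (hd : ∀ i j, 1 ≤ i → i < j → j ≤ r → Disjoint (P i) (P j)) (i : ℕ) (hi : i ≤ r) :
    (MM P i).Finite ∧ (MM P i).ncard = ∏ j ∈ Finset.Icc 1 i, (P j).card := by
  induction i with
  | zero =>
    have h : MM P 0 = {1} := rfl
    rw [h]
    simp
  | succ i ih =>
    obtain ⟨hf, hc⟩ := ih (by omega)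
    have himg : MM P (i + 1) = (fun x : ℕ × ℕ => x.1 * x.2) '' (MM P i ×ˢ (P (i + 1) : Set ℕ)) := by
      ext m
      constructor
      · rintro ⟨a, ha, q, hq, rfl⟩
        exact ⟨(a, q), ⟨ha, hq⟩, rfl⟩
      · rintro ⟨⟨a, q⟩, ⟨ha, hq⟩, rfl⟩
        exact ⟨a, ha, q, hq, rfl⟩
    have hinj : Set.InjOn (fun x : ℕ × ℕ => x.1 * x.2) (MM P i ×ˢ (P (i + 1) : Set ℕ)) := by
      rintro ⟨a, q⟩ ⟨ha, hq⟩ ⟨b, q'⟩ ⟨hb, hq'⟩ h
      simp only at ha hq hb hq' h
      have hqp := hP (i + 1) (by omega) hi q hq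
      have hqp' := hP (i + 1) (by omega) hi q' hq'
      have h1 : q ∣ b * q' := by
        rw [← h]
        exact dvd_mul_left _ _
      have h2 : q = q' := by
        rcases (Nat.Prime.dvd_mul hqp).1 h1 with h3 | h3
        · exact absurd h3 (MMf_dvd P r hP hd i (by omega) hb hq)
        · exact (Nat.prime_dvd_prime_iff_eq hqp hqp').1 h3
      subst h2
      have h3 : a = b := Nat.eq_of_mul_eq_mul_right hqp.pos h
      rw [h3]
    refine ⟨?_, ?_⟩
    · rw [himg]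
      exact (hf.prod (Finset.finite_toSet _)).image _
    · rw [himg, hinj.ncard_image, Set.ncard_prod, hc, Set.ncard_coe_finset,
        Finset.prod_Icc_succ_top (by omega)]

end DR
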