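import Pool.Agent.Lib.MP_a325a5_ag.DR.ADef
import Pool.Agent.Lib.MP_a325a5_ag.F.C2

/-! 7.5 (Ω = AlgebraicClosure K, ι = algebraMap): action of automorphisms, powers. fr_mul: F/C2. `exists_rho`: both ι and ι ∘ fr q make Ω an algebraic closure of k (fr q is bijective: F/C2 fr_bijective). -/

open NumberField MvPolynomial

namespace DR

variable {M : ℕ} {k K : Type} [Field k] [NumberField k] [Field K] [NumberField K] [Algebra k K]
  {n : ℕ}

/-- the embedding of `k` -/
noncomputable def io (k K : Type) [Field k] [Field K] [Algebra k K] : k →+* AlgebraicClosure K :=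
  (algebraMap K (AlgebraicClosure K)).comp (algebraMap k K)

theorem sm_ne_zero (Z : BMF.Cyc M k) (g : Fin n → K) (hg : ∀ i, g i ≠ 0) (m : ℕ)
    {z : Fin n → AlgebraicClosure K} (hz : z ∈ sm (io k K) Z g m) : ∀ i, z i ≠ 0 := by
  obtain ⟨τ, _, rfl⟩ := hz
  intro i
  exact pow_ne_zero m ((map_ne_zero_iff τ τ.injective).2 (hg i))

theorem sm_act (Z : BMF.Cyc M k) (g : Fin n → K) (m : ℕ)
    {γ : AlgebraicClosure K ≃+* AlgebraicClosure K} (hγ : ∀ x, γ (io k K x) = io k K x)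
    {z : Fin n → AlgebraicClosure K} (hz : z ∈ sm (io k K) Z g m) :
    (fun i => γ (z i)) ∈ sm (io k K) Z g m := by
  obtain ⟨τ, hτ, rfl⟩ := hz
  refine ⟨(γ : AlgebraicClosure K →+* AlgebraicClosure K).comp τ, fun x => ?_, ?_⟩
  · rw [RingHom.comp_apply, hτ]
    exact hγ x
  · funext i
    rw [RingHom.comp_apply]
    exact map_pow γ _ _

theorem exists_rho (Z : BMF.Cyc M k) {q : ℕ} (hq : q.Coprime M) :
    ∃ ρ : AlgebraicClosure K ≃+* AlgebraicClosure K, ∀ x, ρ (io k K (Z.fr q x)) = io k K x := by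
  have h1 : Algebra.IsAlgebraic k K :=
    Algebra.IsAlgebraic.tower_top (K := ℚ) k
  have h2 : Algebra.IsAlgebraic k (AlgebraicClosure K) := Algebra.IsAlgebraic.trans k K _
  have h3 : IsAlgClosure k (AlgebraicClosure K) := ⟨inferInstance, h2⟩
  let e : k ≃+* k := RingEquiv.ofBijective (Z.fr q) (BMF.fr_bijective Z hq)
  refine ⟨IsAlgClosure.equivOfEquiv (AlgebraicClosure K) (AlgebraicClosure K) e.symm,
    fun x => ?_⟩
  have h4 : ∀ y : k, io k K y = algebraMap k (AlgebraicClosure K) y := fun y =>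
    (IsScalarTower.algebraMap_apply k K (AlgebraicClosure K) y).symm
  rw [h4, h4, IsAlgClosure.equivOfEquiv_algebraMap]
  congr 1
  exact e.symm_apply_apply x

theorem sm_rho (Z : BMF.Cyc M k) (g : Fin n → K) {m q : ℕ} (hm : m.Coprime M) (hq : q.Coprime M)
    {ρ : AlgebraicClosure K ≃+* AlgebraicClosure K} (hρ : ∀ x, ρ (io k K (Z.fr q x)) = io k K x)
    {z : Fin n → AlgebraicClosure K} (hz : z ∈ sm (io k K) Z g m) :
    (fun i => ρ (z i ^ q)) ∈ sm (io k K) Z g (m * q) := by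
  obtain ⟨τ, hτ, rfl⟩ := hz
  refine ⟨(ρ : AlgebraicClosure K →+* AlgebraicClosure K).comp τ, fun x => ?_, ?_⟩
  · rw [← BMF.fr_mul Z hm hq, RingHom.comp_apply, RingHom.comp_apply, hτ]
    exact hρ x
  · funext i
    rw [RingHom.comp_apply, pow_mul]
    change ρ ((τ (g i) ^ m) ^ q) = (ρ (τ (g i)) ^ m) ^ q
    rw [map_pow, map_pow]

end DR
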