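import Pool.Agent.Lib.MP_a325a5_ag.DR.PT1

/-! 7.5: transitivity, cardinality, evaluation. `sm_trans`: two embeddings of K which agree on k differ by an automorphism of Ω over ι(k) (IsAlgClosed lift / IsAlgClosure.equiv). -/

open NumberField MvPolynomial

namespace DR

variable {M : ℕ} {k K : Type} [Field k] [NumberField k] [Field K] [NumberField K] [Algebra k K]
  {n : ℕ}

theorem PT2_clos {E Ω : Type} [Field E] [CharZero E] [Field Ω] [CharZero Ω] [IsAlgClosed Ω]
    [Algebra.IsAlgebraic ℚ Ω] (τ : E →+* Ω) : letI := τ.toAlgebra; IsAlgClosure E Ω := by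
  let a1 : Algebra E Ω := τ.toAlgebra
  have t1 : IsScalarTower ℚ E Ω := IsScalarTower.rat
  have i1 : Algebra.IsAlgebraic E Ω := Algebra.IsAlgebraic.tower_top (K := ℚ) E
  exact ⟨inferInstance, i1⟩

theorem PT2_equiv0 {E A B : Type} [Field E] [Field A] [Field B] [Algebra E A] [Algebra E B]
    [IsAlgClosure E A] [IsAlgClosure E B] :
    ∃ γ : A ≃+* B, ∀ x, γ (algebraMap E A x) = algebraMap E B x :=
  ⟨(IsAlgClosure.equiv E A B).toRingEquiv, fun x => (IsAlgClosure.equiv E A B).commutes x⟩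

/-- two embeddings into the algebraic closure differ by an automorphism -/
theorem PT2_equiv {E Ω : Type} [Field E] [CharZero E] [Field Ω] [CharZero Ω] [IsAlgClosed Ω]
    [Algebra.IsAlgebraic ℚ Ω] (τ τ' : E →+* Ω) : ∃ γ : Ω ≃+* Ω, ∀ x, γ (τ x) = τ' x :=
  @PT2_equiv0 E Ω Ω _ _ _ τ.toAlgebra τ'.toAlgebra (PT2_clos τ) (PT2_clos τ')

theorem PT2_card {k K Ω : Type} [Field k] [CharZero k] [Field K] [Algebra k K]
    [FiniteDimensional k K] [Field Ω] [IsAlgClosed Ω] {n : ℕ} (j : k →+* Ω) (G : Fin n → K) :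
    ({z : Fin n → Ω | ∃ τ : K →+* Ω, (∀ x, τ (algebraMap k K x) = j x) ∧
      z = fun i => τ (G i)}).Finite ∧
    ({z : Fin n → Ω | ∃ τ : K →+* Ω, (∀ x, τ (algebraMap k K x) = j x) ∧
      z = fun i => τ (G i)}).ncard =
      Module.finrank k (IntermediateField.adjoin k (Set.range G)) := by
  let a1 : Algebra k Ω := j.toAlgebra
  set F := IntermediateField.adjoin k (Set.range G) with hF
  have hm : ∀ i, G i ∈ F := fun i => IntermediateField.subset_adjoin k _ ⟨i, rfl⟩
  set r : (F →ₐ[k] Ω) → Fin n → Ω := fun σ i => σ ⟨G i, hm i⟩ with hr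
  have hinj : Function.Injective r := by
    intro σ σ' h
    refine IntermediateField.algHom_ext_of_eq_adjoin k hF ?_
    rintro _ ⟨i, rfl⟩
    exact congrFun h i
  have hset : {z : Fin n → Ω | ∃ τ : K →+* Ω, (∀ x, τ (algebraMap k K x) = j x) ∧
      z = fun i => τ (G i)} = r '' Set.univ := by
    ext z
    constructor
    · rintro ⟨τ, hτ, rfl⟩
      let τ' : K →ₐ[k] Ω := { τ with commutes' := hτ }
      exact ⟨τ'.comp F.val, trivial, rfl⟩
    · rintro ⟨σ, -, rfl⟩
      obtain ⟨τ, hτ⟩ := IsAlgClosed.surjective_domRestrict_of_isAlgebraic (K := k) (L := F)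
        (M := Ω) (E := K) σ
      refine ⟨τ.toRingHom, fun x => τ.commutes x, ?_⟩
      funext i
      have := congrArg (fun s : F →ₐ[k] Ω => s ⟨G i, hm i⟩) hτ
      exact this.symm
  have hfin : Finite (F →ₐ[k] Ω) := inferInstance
  rw [hset]
  refine ⟨Set.finite_univ.image r, ?_⟩
  rw [Set.ncard_image_of_injective _ hinj, Set.ncard_univ, Nat.card_eq_fintype_card,
    AlgHom.card k F Ω]

theorem PT2_alg (K : Type) [Field K] [NumberField K] :
    Algebra.IsAlgebraic ℚ (AlgebraicClosure K) :=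
  Algebra.IsAlgebraic.trans ℚ K (AlgebraicClosure K)

theorem sm_trans (Z : BMF.Cyc M k) (g : Fin n → K) {m : ℕ} (hm : m.Coprime M)
    {z z' : Fin n → AlgebraicClosure K} (hz : z ∈ sm (io k K) Z g m) (hz' : z' ∈ sm (io k K) Z g m) :
    ∃ γ : AlgebraicClosure K ≃+* AlgebraicClosure K, (∀ x, γ (io k K x) = io k K x) ∧
      z' = fun i => γ (z i) := by
  obtain ⟨τ, h1, rfl⟩ := hz
  obtain ⟨τ', h2, rfl⟩ := hz'
  have := PT2_alg K
  obtain ⟨γ, hγ⟩ := PT2_equiv τ τ'
  refine ⟨γ, fun x => ?_, ?_⟩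
  · conv_lhs => rw [← h1, hγ, h2]
  · funext i
    rw [map_pow, hγ]

theorem sm_ev (Z : BMF.Cyc M k) (g : Fin n → K) {m : ℕ} (hm : m.Coprime M)
    (G : MvPolynomial (Fin n) k) {z : Fin n → AlgebraicClosure K} (hz : z ∈ sm (io k K) Z g m) :
    eval z (MvPolynomial.map (io k K) G) = 0 ↔ ev (Z.fr m) m g G = 0 := by
  obtain ⟨τ, h1, rfl⟩ := hz
  have h2 : eval (fun i => τ (g i) ^ m) (MvPolynomial.map (io k K) G) =
      τ (ev (Z.fr m) m g G) := by
    rw [eval_map, ev, coe_eval₂Hom, MvPolynomial.eval₂_comp_left]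
    have h3 : io k K = τ.comp ((algebraMap k K).comp (Z.fr m)) := RingHom.ext fun x => (h1 x).symm
    have h4 : (fun i => τ (g i) ^ m) = (τ ∘ fun i => g i ^ m) := by
      funext i
      simp
    rw [h3, h4]
  rw [h2, map_eq_zero]

theorem sm_card (Z : BMF.Cyc M k) (g : Fin n → K) {m : ℕ} (hm : m.Coprime M) :
    (sm (io k K) Z g m).Finite ∧ (sm (io k K) Z g m).ncard = dg k g m := by
  have hfd : FiniteDimensional k K := by
    have : IsScalarTower ℚ k K := IsScalarTower.rat
    exact Module.Finite.of_restrictScalars_finite ℚ k K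
  let φ : k ≃+* k := RingEquiv.ofBijective (Z.fr m) (BMF.fr_bijective Z hm)
  have hφ : ∀ x, φ x = Z.fr m x := fun x => rfl
  have h := PT2_card (K := K) ((io k K).comp φ.symm.toRingHom) (fun i => g i ^ m)
  have hs : sm (io k K) Z g m = {z : Fin n → AlgebraicClosure K | ∃ τ : K →+* AlgebraicClosure K,
      (∀ x, τ (algebraMap k K x) = ((io k K).comp φ.symm.toRingHom) x) ∧
      z = fun i => τ (g i ^ m)} := by
    ext z
    constructor
    · rintro ⟨τ, h1, rfl⟩
      refine ⟨τ, fun x => ?_, ?_⟩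
      · have h2 := h1 (φ.symm x)
        rw [← hφ, RingEquiv.apply_symm_apply] at h2
        exact h2
      · funext i
        rw [map_pow]
    · rintro ⟨τ, h1, rfl⟩
      refine ⟨τ, fun x => ?_, ?_⟩
      · rw [h1, ← hφ]
        show io k K (φ.symm (φ x)) = _
        rw [RingEquiv.symm_apply_apply]
      · funext i
        rw [map_pow]
  rw [hs]
  exact h

end DR
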