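import Pool.Agent.Lib.MP_a325a5_ag.DR.PT2
import Pool.Agent.Lib.MP_a325a5_ag.F.E2

/-! 7.5: the sets s(m) are disjoint (n-variable version of F/E2 ker_ev_ne: heights; g 0 is not a root of unity). -/

open NumberField MvPolynomial

namespace DR

variable {M : ℕ} {k K : Type} [Field k] [NumberField k] [Field K] [NumberField K] [Algebra k K]
  {n : ℕ}

private theorem PT3_minpoly {Ω : Type} [Field Ω] [CharZero Ω] (τ : K →+* Ω) (x : K) :
    minpoly ℚ (τ x) = minpoly ℚ x := by
  have h : τ x = τ.toRatAlgHom x := rfl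
  rw [h]
  exact minpoly.algHom_eq τ.toRatAlgHom τ.injective x

theorem sm_disj (Z : BMF.Cyc M k) (g : Fin n → K) (hn : 1 ≤ n) (hg : ∀ i, g i ≠ 0) (hI : MInd g)
    {m m' : ℕ} (hm : m.Coprime M) (hm' : m'.Coprime M) (hm0 : 0 < m) (hm0' : 0 < m')
    (hne : m ≠ m') : Disjoint (sm (io k K) Z g m) (sm (io k K) Z g m') := by
  rw [Set.disjoint_left]
  rintro z ⟨τ, -, hτ⟩ ⟨τ', -, hτ'⟩
  have i0 : Fin n := ⟨0, hn⟩
  have hnt : ∀ a : ℕ, 0 < a → g i0 ^ a ≠ 1 := by
    intro a ha h1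
    have h2 := hI (fun i => if i = i0 then (a : ℤ) else 0) (by
      rw [Finset.prod_eq_single i0]
      · rw [if_pos rfl, zpow_natCast, h1]
      · intro i _ hi
        rw [if_neg hi, zpow_zero]
      · intro h
        exact absurd (Finset.mem_univ _) h)
    have h3 := congrFun h2 i0
    simp at h3
    omega
  have h1 : τ (g i0 ^ m) = τ' (g i0 ^ m') := by
    rw [map_pow, map_pow]
    have := congrFun (hτ.symm.trans hτ') i0
    exact this
  refine BMF.e2_core (F := ℚ) (g i0) (hg i0) hnt hne ?_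
  rw [← PT3_minpoly τ (g i0 ^ m), h1, PT3_minpoly τ']

end DR
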