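import Pool.Agent.Lib.MP_a325a5_ag.DR.PT2

/-! 7.6: rationality. -/

open NumberField MvPolynomial

namespace DR

/-- the values of the embeddings separate linearly independent elements -/
theorem PT4_dep {k K Ω ι' : Type} [Field k] [Field K] [Field Ω] [Algebra k K] [Algebra k Ω]
    [FiniteDimensional k K] [Algebra.IsSeparable k K] [IsAlgClosed Ω] (s : Finset ι')
    (v : ι' → K) (hv : LinearIndependent k (fun a : s => v a)) (c : ι' → Ω)
    (h : ∀ τ : K →ₐ[k] Ω, ∑ a ∈ s, c a * τ (v a) = 0) : ∀ a ∈ s, c a = 0 := by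
  classical
  -- the functional `T ↦ ∑ c a * T (v a)`
  let φ : (K →ₗ[k] Ω) →ₗ[Ω] Ω :=
    { toFun := fun T => ∑ a ∈ s, c a * T (v a)
      map_add' := fun T T' => by
        simp only [LinearMap.add_apply, mul_add, Finset.sum_add_distrib]
      map_smul' := fun r T => by
        simp only [LinearMap.smul_apply, smul_eq_mul, RingHom.id_apply, Finset.mul_sum]
        exact Finset.sum_congr rfl fun a _ => by ring }
  have hli := linearIndependent_toLinearMap k K Ω
  have hcard : Fintype.card (K →ₐ[k] Ω) = Module.finrank Ω (K →ₗ[k] Ω) := by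
    rw [Module.finrank_linearMap_self, AlgHom.card]
  have hspan : Submodule.span Ω (Set.range (AlgHom.toLinearMap : (K →ₐ[k] Ω) → K →ₗ[k] Ω)) = ⊤ :=
    hli.span_eq_top_of_card_eq_finrank' hcard
  have hφ : φ = 0 := by
    apply LinearMap.ext_on hspan
    rintro _ ⟨τ, rfl⟩
    exact h τ
  intro a ha
  -- a linear map which is one at `v a` and zero at the others
  obtain ⟨T, hT⟩ := LinearMap.exists_extend
    ((Module.Basis.span hv).constr k (fun a' : s => if a' = ⟨a, ha⟩ then (1 : Ω) else 0))
  have hTv : ∀ a' : s, T (v a') = if a' = ⟨a, ha⟩ then (1 : Ω) else 0 := by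
    intro a'
    have h1 := Module.Basis.constr_basis (Module.Basis.span hv) k
      (fun a' : s => if a' = ⟨a, ha⟩ then (1 : Ω) else 0) a'
    rw [← hT, LinearMap.comp_apply, Submodule.subtype_apply, Module.Basis.span_apply] at h1
    exact h1
  have h2 : φ T = c a := by
    show ∑ a' ∈ s, c a' * T (v a') = c a
    rw [Finset.sum_eq_single_of_mem a ha]
    · rw [hTv ⟨a, ha⟩, if_pos rfl, mul_one]
    · intro b hb hba
      rw [hTv ⟨b, hb⟩, if_neg (fun e => hba (congrArg Subtype.val e)), mul_zero]
  rw [← h2, hφ]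
  rfl

variable {M : ℕ} {k K : Type} [Field k] [NumberField k] [Field K] [NumberField K] [Algebra k K]
  {n : ℕ}

theorem ratl (Z : BMF.Cyc M k) (g : Fin n → K) {m : ℕ} (hm : m.Coprime M) (hm0 : 0 < m)
    (F : MvPolynomial (Fin n) (AlgebraicClosure K)) (hF : F ≠ 0)
    (hz : ∀ z ∈ sm (io k K) Z g m, eval z F = 0) :
    ∃ A : MvPolynomial (Fin n) k, A ≠ 0 ∧ (∀ b ∈ A.support, ∃ a ∈ F.support, b = m • a) ∧
      ev (RingHom.id k) 1 g A = 0 := by
  classical
  by_contra hcon
  push Not at hcon
  have hfr := BMF.fr_bijective Z hm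
  let e : k ≃+* k := RingEquiv.ofBijective (Z.fr m) hfr
  -- the twisted embedding of `k`
  let j : k →+* AlgebraicClosure K := (io k K).comp (e.symm : k ≃+* k).toRingHom
  have hj : ∀ x, j (Z.fr m x) = io k K x := by
    intro x
    show io k K (e.symm (e x)) = io k K x
    rw [RingEquiv.symm_apply_apply]
  have hzero : ∀ a ∈ F.support, coeff a F = 0 := by
    refine @PT4_dep k K (AlgebraicClosure K) (Fin n →₀ ℕ) _ _ _ _ (j.toAlgebra) _ _ _ F.support
      (fun a => ∏ i, g i ^ (m * a i)) ?_ (fun a => coeff a F) ?_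
    · rw [linearIndependent_iff']
      intro t c hc a hat
      by_contra hca
      -- the polynomial `A`
      obtain ⟨A, hA⟩ : ∃ A : MvPolynomial (Fin n) k,
          A = ∑ b ∈ t, monomial (m • (b : Fin n →₀ ℕ)) (c b) := ⟨_, rfl⟩
      have hinj : ∀ b b' : Fin n →₀ ℕ, m • b = m • b' → b = b' := by
        intro b b' hbb
        ext i
        have h1 := DFunLike.congr_fun hbb i
        rw [Finsupp.smul_apply, Finsupp.smul_apply, smul_eq_mul, smul_eq_mul] at h1
        exact Nat.eq_of_mul_eq_mul_left hm0 h1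
      have hcoef : coeff (m • (a : Fin n →₀ ℕ)) A = c a := by
        rw [hA, coeff_sum, Finset.sum_eq_single_of_mem a hat]
        · rw [coeff_monomial, if_pos rfl]
        · intro b _ hba
          rw [coeff_monomial, if_neg]
          intro hbb
          exact hba (Subtype.ext (hinj _ _ hbb))
      have hA0 : A ≠ 0 := by
        rintro h0
        rw [h0, coeff_zero] at hcoef
        exact hca hcoef.symm
      refine hcon A hA0 ?_ ?_
      · intro b hb
        rw [mem_support_iff, hA, coeff_sum] at hb
        obtain ⟨b', hb', hb2⟩ := Finset.exists_ne_zero_of_sum_ne_zero hb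
        rw [coeff_monomial] at hb2
        by_cases h1 : m • (b' : Fin n →₀ ℕ) = b
        · exact ⟨b', b'.2, h1.symm⟩
        · rw [if_neg h1] at hb2
          exact absurd rfl hb2
      · rw [hA, map_sum, ← hc]
        apply Finset.sum_congr rfl
        intro b _
        show eval₂Hom ((algebraMap k K).comp (RingHom.id k)) (fun i => g i ^ 1)
          (monomial (m • (b : Fin n →₀ ℕ)) (c b)) = c b • ∏ i, g i ^ (m * (b : Fin n →₀ ℕ) i)
        rw [coe_eval₂Hom, eval₂_monomial, Algebra.smul_def, RingHom.comp_apply, RingHom.id_apply]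
        congr 1
        rw [Finsupp.prod_fintype _ _ (fun i => pow_zero _)]
        apply Finset.prod_congr rfl
        intro i _
        rw [pow_one, Finsupp.smul_apply, smul_eq_mul]
    · intro τ
      have hτ : ∀ x, τ (algebraMap k K (Z.fr m x)) = io k K x := by
        intro x
        rw [← hj x]
        exact @AlgHom.commutes k K (AlgebraicClosure K) _ _ _ _ (j.toAlgebra) τ (Z.fr m x)
      have h1 := hz (fun i => τ (g i) ^ m)
        ⟨@AlgHom.toRingHom k K (AlgebraicClosure K) _ _ _ _ (j.toAlgebra) τ, hτ, rfl⟩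
      rw [eval_eq'] at h1
      rw [← h1]
      apply Finset.sum_congr rfl
      intro a _
      congr 1
      rw [map_prod]
      apply Finset.prod_congr rfl
      intro i _
      rw [map_pow, pow_mul]
  apply hF
  ext a
  by_cases ha : a ∈ F.support
  · rw [hzero a ha, coeff_zero]
  · rw [coeff_zero]
    exact notMem_support_iff.mp ha

end DR
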