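import Pool.Agent.Lib.MP_a325a5_ag.DR.GDef

/-! Character part of DR_PROOF 4.1: a finite subgroup Σ of the torus, Λ = its annihilator; |Σ| ≤ [Z^n : Λ] ≤ |det| ≤ n! l^n if Λ contains n independent vectors with entries at most l; otherwise
a vector w ≠ 0 orthogonal to Λ ∩ [-l,l]^n. -/

open MvPolynomial

namespace DR

variable {Ω : Type} [Field Ω]

/-- the subgroup has at most as many elements as the quotient of the character lattice by the
lattice generated by the rows of a nonsingular matrix of characters which are trivial on it -/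
theorem S1_card (n : ℕ) (Sg : Subgroup (Fin n → Ωˣ)) [Finite Sg] (M : Matrix (Fin n) (Fin n) ℤ)
    (hM : M.det ≠ 0) (h : ∀ j, ∀ ξ ∈ Sg, ∏ i, ξ i ^ M j i = 1) :
    Nat.card Sg ≤ M.det.natAbs := by
  classical
  -- the linear map whose values on the basis are the rows
  set f : (Fin n → ℤ) →ₗ[ℤ] (Fin n → ℤ) := Matrix.toLin' M.transpose with hf
  have hdet : LinearMap.det f = M.det := by
    rw [hf, LinearMap.det_toLin', Matrix.det_transpose]
  have hinj : Function.Injective f := by
    rw [← LinearMap.ker_eq_bot]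
    by_contra hne
    have := (LinearMap.det_eq_zero_iff_ker_ne_bot (f := f)).2 hne
    rw [hdet] at this
    exact hM this
  set N : Submodule ℤ (Fin n → ℤ) := LinearMap.range f with hN
  let e : (Fin n → ℤ) ≃ₗ[ℤ] N := LinearEquiv.ofInjective f hinj
  have hcard : M.det.natAbs = Nat.card ((Fin n → ℤ) ⧸ N) := by
    rw [← Submodule.natAbs_det_equiv N e, ← hdet]
    rfl
  have hfin : Finite ((Fin n → ℤ) ⧸ N) := by
    apply Nat.finite_of_card_ne_zero
    rw [← hcard]
    exact Int.natAbs_ne_zero.2 hM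
  have : Fintype ((Fin n → ℤ) ⧸ N) := Fintype.ofFinite _
  have : Fintype Sg := Fintype.ofFinite _
  -- the characters
  let ev (ξ : Fin n → Ωˣ) : (Fin n → ℤ) →+ Additive Ωˣ :=
    { toFun := fun a => Additive.ofMul (∏ i, ξ i ^ a i)
      map_zero' := by simp
      map_add' := fun a b => by
        rw [← ofMul_mul, ← Finset.prod_mul_distrib]
        congr 1
        exact Finset.prod_congr rfl fun i _ => zpow_add _ _ _ }
  have hev : ∀ ξ ∈ Sg, N ≤ LinearMap.ker (ev ξ).toIntLinearMap := by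
    intro ξ hξ
    rw [hN, LinearMap.range_le_ker_iff]
    apply LinearMap.pi_ext'
    intro j
    apply LinearMap.ext_ring
    have h1 : f (Pi.single j 1) = M j := by
      rw [hf, Matrix.toLin'_apply, Matrix.mulVec_single_one]
      rfl
    show Additive.ofMul (∏ i, ξ i ^ (f (Pi.single j 1)) i) = 0
    rw [h1, h j ξ hξ]
    rfl
  let ch (ξ : Sg) : Multiplicative ((Fin n → ℤ) ⧸ N) →* Ω :=
    (Units.coeHom Ω).comp
      (AddMonoidHom.toMultiplicativeLeft
        (N.liftQ (ev ξ.1).toIntLinearMap (hev ξ.1 ξ.2)).toAddMonoidHom)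
  have hch : ∀ (ξ : Sg) (a : Fin n → ℤ),
      ch ξ (Multiplicative.ofAdd (Submodule.Quotient.mk a)) = ((∏ i, ξ.1 i ^ a i : Ωˣ) : Ω) :=
    fun ξ a => rfl
  have hchi : Function.Injective ch := by
    intro ξ η hξη
    apply Subtype.ext
    funext i
    have h1 := congrArg (fun g => g (Multiplicative.ofAdd (Submodule.Quotient.mk (Pi.single i 1))))
      hξη
    simp only [hch] at h1
    have h2 : ∀ ζ : Fin n → Ωˣ, ∏ k, ζ k ^ ((Pi.single i (1 : ℤ) : Fin n → ℤ) k) = ζ i := by
      intro ζ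
      rw [Finset.prod_eq_single i]
      · rw [Pi.single_eq_same, zpow_one]
      · intro k _ hk
        rw [Pi.single_eq_of_ne hk, zpow_zero]
      · intro h
        exact absurd (Finset.mem_univ i) h
    rw [h2, h2] at h1
    exact Units.ext h1
  have hli := (linearIndependent_monoidHom (Multiplicative ((Fin n → ℤ) ⧸ N)) Ω).comp ch hchi
  have h3 := hli.fintype_card_le_finrank
  rw [Module.finrank_fintype_fun_eq_card] at h3
  rw [hcard, Nat.card_eq_fintype_card, Nat.card_eq_fintype_card]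
  exact h3.trans (le_of_eq (Fintype.card_congr Multiplicative.toAdd))

/-- clearing denominators in a nonzero rational linear form -/
theorem S1_clear (n : ℕ) (φ : (Fin n → ℚ) →ₗ[ℚ] ℚ) (h : φ ≠ 0) :
    ∃ w : Fin n → ℤ, w ≠ 0 ∧ ∀ a : Fin n → ℤ, φ (fun i => (a i : ℚ)) = 0 → ∑ i, w i * a i = 0 := by
  classical
  set c : Fin n → ℚ := fun i => φ (Pi.single i 1) with hc
  set D : ℕ := ∏ i, (c i).den with hD
  have hD0 : (D : ℚ) ≠ 0 := by
    rw [hD]
    exact_mod_cast Finset.prod_ne_zero_iff.2 fun i _ => (c i).den_nz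
  have hw : ∀ i, ∃ z : ℤ, (z : ℚ) = D * c i := by
    intro i
    obtain ⟨q, hq⟩ : (c i).den ∣ D := Finset.dvd_prod_of_mem _ (Finset.mem_univ i)
    refine ⟨q * (c i).num, ?_⟩
    rw [hq]
    push_cast
    have h2 : ((c i).den : ℚ) * c i = (c i).num := by
      rw [mul_comm]
      exact Rat.mul_den_eq_num (c i)
    rw [← h2]
    ring
  choose w hw using hw
  have hφ : ∀ v : Fin n → ℚ, φ v = ∑ i, c i * v i := by
    intro v
    conv_lhs => rw [← Finset.univ_sum_single v]
    rw [map_sum]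
    refine Finset.sum_congr rfl fun i _ => ?_
    have h1 : (Pi.single i (v i) : Fin n → ℚ) = v i • Pi.single i 1 := by
      rw [← Pi.single_smul, smul_eq_mul, mul_one]
    rw [h1, map_smul, smul_eq_mul, mul_comm]
  refine ⟨w, fun h0 => h ?_, fun a ha => ?_⟩
  · apply LinearMap.ext
    intro v
    rw [hφ, LinearMap.zero_apply]
    refine Finset.sum_eq_zero fun i _ => ?_
    have h1 := hw i
    rw [h0, Pi.zero_apply, Int.cast_zero] at h1
    rcases mul_eq_zero.1 h1.symm with h2 | h2
    · exact absurd h2 hD0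
    · rw [h2, zero_mul]
  · have h1 : ((∑ i, w i * a i : ℤ) : ℚ) = D * φ (fun i => (a i : ℚ)) := by
      rw [hφ, Finset.mul_sum]
      push_cast
      refine Finset.sum_congr rfl fun i _ => ?_
      rw [hw, mul_assoc]
    rw [ha, mul_zero] at h1
    exact_mod_cast h1

theorem char_or (n l : ℕ) (Sg : Subgroup (Fin n → Ωˣ)) [Finite Sg] :
    Nat.card Sg ≤ n.factorial * l ^ n ∨ ∃ w : Fin n → ℤ, w ≠ 0 ∧ ∀ a : Fin n → ℤ,
      (∀ i, |a i| ≤ l) → (∀ ξ ∈ Sg, ∏ i, ξ i ^ a i = 1) → ∑ i, w i * a i = 0 := by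
  classical
  set A : Set (Fin n → ℤ) := {a | (∀ i, |a i| ≤ l) ∧ ∀ ξ ∈ Sg, ∏ i, ξ i ^ a i = 1} with hA
  set cst : (Fin n → ℤ) → Fin n → ℚ := fun a i => (a i : ℚ) with hcst
  by_cases hspan : Submodule.span ℚ (cst '' A) = ⊤
  · left
    obtain ⟨b, hb1, hb2, hb3⟩ := exists_linearIndependent ℚ (cst '' A)
    rw [hspan] at hb2
    let B : Module.Basis b ℚ (Fin n → ℚ) := Module.Basis.mk hb3 (by
      rw [Subtype.range_coe]
      exact hb2.ge)
    have hfinb : Finite b := Module.Finite.finite_basis B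
    have : Fintype b := Fintype.ofFinite _
    have hcb : Fintype.card b = n := by
      rw [← Module.finrank_eq_card_basis B, Module.finrank_fin_fun]
    let eqv : Fin n ≃ b := (Fintype.equivFinOfCardEq hcb).symm
    have hpre : ∀ j : Fin n, ∃ a ∈ A, cst a = (eqv j).1 := fun j => hb1 (eqv j).2
    choose M hM1 hM2 using hpre
    have hli : LinearIndependent ℚ fun j : Fin n => cst (M j) := by
      have := hb3.comp eqv eqv.injective
      have h2 : (fun j : Fin n => cst (M j)) = (fun x : b => (x : Fin n → ℚ)) ∘ eqv := by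
        funext j
        exact hM2 j
      rw [h2]
      exact this
    have hu : IsUnit ((Matrix.of M).map (Int.cast : ℤ → ℚ)) :=
      Matrix.linearIndependent_rows_iff_isUnit.1 hli
    have hdet : (Matrix.of M).det ≠ 0 := by
      intro h0
      rw [Matrix.isUnit_iff_isUnit_det] at hu
      have h1 : ((Matrix.of M).map (Int.cast : ℤ → ℚ)).det = (((Matrix.of M).det : ℤ) : ℚ) :=
        (Int.cast_det (Matrix.of M)).symm
      rw [h1, h0, Int.cast_zero] at hu
      exact not_isUnit_zero hu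
    refine (S1_card n Sg (Matrix.of M) hdet fun j ξ hξ => (hM1 j).2 ξ hξ).trans ?_
    have h4 := Matrix.det_le (A := Matrix.of M) (abv := (AbsoluteValue.abs : AbsoluteValue ℤ ℤ))
      (x := (l : ℤ)) (fun i j => (hM1 i).1 j)
    rw [Fintype.card_fin, AbsoluteValue.abs_apply, nsmul_eq_mul] at h4
    zify
    exact h4
  · right
    obtain ⟨φ, hφ0, hφ⟩ := Submodule.exists_le_ker_of_lt_top _ (lt_top_iff_ne_top.2 hspan)
    obtain ⟨w, hw0, hw⟩ := S1_clear n φ hφ0
    refine ⟨w, hw0, fun a ha1 ha2 => hw a ?_⟩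
    exact hφ (Submodule.subset_span ⟨a, ⟨ha1, ha2⟩, rfl⟩)

end DR
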