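import Pool.Agent.Lib.MP_a325a5_ag.DR.H2a

/-! Elementary properties of `th q ρ`. -/

open MvPolynomial

namespace DR

variable {Ω : Type} [Field Ω] {n : ℕ}

private theorem T2a_C (q : ℕ) (ρ : Ω ≃+* Ω) (a : Ω) :
    th q ρ (C a : MvPolynomial (Fin n) Ω) = C (ρ.symm a) := by
  simp [th]

private theorem T2a_X (q : ℕ) (ρ : Ω ≃+* Ω) (i : Fin n) :
    th q ρ (X i : MvPolynomial (Fin n) Ω) = X i ^ q := by
  simp [th]

theorem th_eval (q : ℕ) (ρ : Ω ≃+* Ω) (f : MvPolynomial (Fin n) Ω) (z : Fin n → Ω) :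
    eval z (th q ρ f) = ρ.symm (eval (fun i => ρ (z i ^ q)) f) := by
  have h : ((eval z).comp (th q ρ) : MvPolynomial (Fin n) Ω →+* Ω) =
      (ρ.symm : Ω ≃+* Ω).toRingHom.comp (eval (fun i => ρ (z i ^ q))) := by
    apply MvPolynomial.ringHom_ext
    · intro a
      simp [T2a_C]
    · intro i
      rw [RingHom.comp_apply, T2a_X, RingHom.comp_apply, eval_X, map_pow, eval_X]
      exact (ρ.symm_apply_apply _).symm
  exact congrArg (fun g => g f) h

theorem th_mem_V {q l : ℕ} (ρ : Ω ≃+* Ω) {f : MvPolynomial (Fin n) Ω} (hf : f ∈ V Ω n l) :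
    th q ρ f ∈ V Ω n (q * l) := by
  classical
  intro i
  rw [degreeOf_le_iff]
  intro m hm
  have h1 : m ∈ (expand q (MvPolynomial.map (ρ.symm : Ω ≃+* Ω).toRingHom f)).support := hm
  have h2 := support_expand_subset _ h1
  rw [Finset.mem_image] at h2
  obtain ⟨u, hu, rfl⟩ := h2
  have h3 : u ∈ f.support := support_map_subset _ _ hu
  have h4 := (degreeOf_le_iff.1 (hf i)) u h3
  change q * u i ≤ q * l
  exact Nat.mul_le_mul_left q h4

theorem th_ne_zero {q : ℕ} (hq : 0 < q) (ρ : Ω ≃+* Ω) {f : MvPolynomial (Fin n) Ω} (hf : f ≠ 0) :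
    th q ρ f ≠ 0 := by
  have h1 : MvPolynomial.map (ρ.symm : Ω ≃+* Ω).toRingHom f ≠ 0 := by
    intro h
    apply hf
    apply MvPolynomial.map_injective (ρ.symm : Ω ≃+* Ω).toRingHom ρ.symm.injective
    rw [h, map_zero]
  exact (expand_ne_zero hq).2 h1

theorem th_comap_mx (q : ℕ) (ρ : Ω ≃+* Ω) (z : Fin n → Ω) :
    (mx z).comap (th q ρ) = mx (fun i => ρ (z i ^ q)) := by
  ext f
  rw [Ideal.mem_comap, mx, mx, RingHom.mem_ker, RingHom.mem_ker, th_eval]
  exact map_eq_zero_iff _ ρ.symm.injective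

theorem th_integral {q : ℕ} (hq : 0 < q) (ρ : Ω ≃+* Ω) :
    (th q ρ : MvPolynomial (Fin n) Ω →+* _).IsIntegral := by
  intro f
  induction f using MvPolynomial.induction_on with
  | C a =>
    have h1 : (C a : MvPolynomial (Fin n) Ω) = th q ρ (C (ρ a)) := by
      rw [T2a_C, ρ.symm_apply_apply]
    rw [h1]
    exact RingHom.isIntegralElem_map _
  | add f g hf hg => exact RingHom.IsIntegralElem.add _ hf hg
  | mul_X f i hf =>
    refine RingHom.IsIntegralElem.mul _ hf ?_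
    refine ⟨Polynomial.X ^ q - Polynomial.C (X i), Polynomial.monic_X_pow_sub_C _ hq.ne', ?_⟩
    rw [Polynomial.eval₂_sub, Polynomial.eval₂_X_pow, Polynomial.eval₂_C, T2a_X, sub_self]

private theorem T2a_fix {q : ℕ} (ρ : Ω ≃+* Ω) {ξ : Fin n → Ωˣ} (hξ : ξ ∈ Mu Ω n q)
    (f : MvPolynomial (Fin n) Ω) : tr ξ (th q ρ f) = th q ρ f := by
  have h : ((tr ξ).toRingHom.comp (th q ρ) : MvPolynomial (Fin n) Ω →+* _) = th q ρ := by
    apply MvPolynomial.ringHom_ext
    · intro a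
      rw [RingHom.comp_apply, T2a_C]
      change trh ξ (C _) = _
      simp [trh]
    · intro i
      rw [RingHom.comp_apply, T2a_X]
      change trh ξ (X i ^ q) = _
      have h1 : (ξ i : Ω) ^ q = 1 := by
        have := hξ i
        rw [← Units.val_pow_eq_pow_val, this, Units.val_one]
      simp only [trh, AlgHom.toRingHom_eq_coe, RingHom.coe_coe, map_pow, aeval_X]
      rw [mul_pow, ← C_pow, h1, C_1, one_mul]
  exact congrArg (fun g => g f) h

theorem th_tr {q : ℕ} (ρ : Ω ≃+* Ω) {ξ : Fin n → Ωˣ} (hξ : ξ ∈ Mu Ω n q)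
    (P : Ideal (MvPolynomial (Fin n) Ω)) :
    (P.map (tr ξ).toRingHom).comap (th q ρ) = P.comap (th q ρ) := by
  ext f
  rw [Ideal.mem_comap, Ideal.mem_comap]
  constructor
  · intro h
    have h1 : P.map (tr ξ).toRingHom ≤ P.comap (tr ξ).symm.toRingHom := by
      rw [Ideal.map_le_iff_le_comap]
      intro g hg
      rw [Ideal.mem_comap, Ideal.mem_comap]
      change (tr ξ).symm (tr ξ g) ∈ P
      rw [(tr ξ).symm_apply_apply]
      exact hg
    have h2 : (tr ξ).symm (th q ρ f) ∈ P := h1 h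
    rwa [← T2a_fix ρ hξ f, (tr ξ).symm_apply_apply] at h2
  · intro h
    have h1 : (tr ξ).toRingHom (th q ρ f) ∈ P.map (tr ξ).toRingHom := Ideal.mem_map_of_mem _ h
    rw [← T2a_fix ρ hξ f]
    exact h1

end DR
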