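import Pool.Agent.Lib.MP_a325a5_ag.DR.T2a
import Pool.Agent.Lib.MP_a325a5_ag.DR.T1

/-! DR_PROOF 3.1: the dimension is preserved (th injective and integral; semilinear: split th = expand ∘ cf, sym_dm for cf). -/

open MvPolynomial

namespace DR

variable {Ω : Type} [Field Ω] {n : ℕ}

private theorem T2b_tr {K R S : Type} [Field K] [CommRing R] [CommRing S] [IsDomain R] [IsDomain S]
    [Algebra K R] [Algebra K S] (f : R →ₐ[K] S) (hinj : Function.Injective f)
    (hint : f.toRingHom.IsIntegral) : Algebra.trdeg K R = Algebra.trdeg K S := by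
  let : Algebra R S := f.toRingHom.toAlgebra
  have : IsScalarTower K R S := IsScalarTower.of_algHom f
  have : Algebra.IsIntegral R S := ⟨hint⟩
  have : FaithfulSMul R S := (faithfulSMul_iff_algebraMap_injective R S).mpr hinj
  have : Algebra.IsAlgebraic R S := Algebra.IsIntegral.isAlgebraic
  have h1 : Algebra.trdeg K R + Algebra.trdeg R S = Algebra.trdeg K S := trdeg_add_eq K R
  have h2 : Algebra.trdeg R S = 0 := trdeg_eq_zero
  rw [h2, add_zero] at h1
  exact h1

private theorem T2b_expand {q : ℕ} (hq : 0 < q) (P : Ideal (MvPolynomial (Fin n) Ω)) [P.IsPrime] :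
    dm (P.comap (expand q : MvPolynomial (Fin n) Ω →ₐ[Ω] MvPolynomial (Fin n) Ω)) = dm P := by
  have hint : (expand q : MvPolynomial (Fin n) Ω →ₐ[Ω] MvPolynomial (Fin n) Ω).toRingHom.IsIntegral := by
    have h1 := th_integral (n := n) hq (RingEquiv.refl Ω)
    have h2 : th q (RingEquiv.refl Ω) =
        (expand q : MvPolynomial (Fin n) Ω →ₐ[Ω] MvPolynomial (Fin n) Ω).toRingHom := by
      apply MvPolynomial.ringHom_ext
      · intro a
        simp [th]
      · intro i
        simp [th]
    rw [h2] at h1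
    exact h1
  have hp : (P.comap (expand q : MvPolynomial (Fin n) Ω →ₐ[Ω] MvPolynomial (Fin n) Ω)).IsPrime :=
    Ideal.IsPrime.comap _
  unfold dm
  congr 1
  refine T2b_tr (Ideal.quotientMapₐ P
    (expand q : MvPolynomial (Fin n) Ω →ₐ[Ω] MvPolynomial (Fin n) Ω) le_rfl) ?_ ?_
  · exact Ideal.quotientMap_injective
  · intro x
    obtain ⟨y, rfl⟩ := Ideal.Quotient.mk_surjective x
    exact RingHom.IsIntegral.quotient _ hint _

theorem th_dm {q : ℕ} (hq : 0 < q) (ρ : Ω ≃+* Ω) (P : Ideal (MvPolynomial (Fin n) Ω)) [P.IsPrime] :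
    dm (P.comap (th q ρ)) = dm P := by
  rw [← T2b_expand hq P]
  have hp : (P.comap (expand q : MvPolynomial (Fin n) Ω →ₐ[Ω] MvPolynomial (Fin n) Ω)).IsPrime :=
    Ideal.IsPrime.comap _
  rw [← sym_dm (sym_cf ρ.symm) (P.comap (th q ρ))]
  congr 1
  apply le_antisymm
  · rw [Ideal.map_le_iff_le_comap]
    intro f hf
    exact hf
  · intro f hf
    have h1 : (cf ρ f : MvPolynomial (Fin n) Ω) ∈ P.comap (th q ρ) := by
      rw [Ideal.mem_comap]
      have h2 : th q ρ (cf ρ f) = expand q f := by
        change expand q (MvPolynomial.map _ (MvPolynomial.map _ f)) = expand q f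
        rw [MvPolynomial.map_map]
        have h3 : ((ρ.symm : Ω ≃+* Ω).toRingHom.comp (ρ : Ω →+* Ω)) = RingHom.id Ω := by
          ext x
          exact ρ.symm_apply_apply x
        have h4 : MvPolynomial.map ((ρ.symm : Ω ≃+* Ω).toRingHom.comp (ρ : Ω →+* Ω)) f = f := by
          rw [h3, MvPolynomial.map_id]
        exact congrArg _ h4
      rw [h2]
      exact hf
    have h5 : (cf ρ.symm).toRingHom (cf ρ f) = f := by
      change MvPolynomial.map _ (MvPolynomial.map _ f) = f
      rw [MvPolynomial.map_map]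
      have h3 : ((ρ.symm : Ω →+* Ω).comp (ρ : Ω →+* Ω)) = RingHom.id Ω := by
        ext x
        exact ρ.symm_apply_apply x
      have h4 : MvPolynomial.map ((ρ.symm : Ω →+* Ω).comp (ρ : Ω →+* Ω)) f = f := by
        rw [h3, MvPolynomial.map_id]
      exact h4
    have h6 := Ideal.mem_map_of_mem (cf ρ.symm).toRingHom h1
    rwa [h5] at h6

end DR
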