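import Pool.Agent.Lib.MP_a325a5_ag.DR.AR3
import Pool.Agent.Lib.MP_a325a5_ag.DR.AR7
import Pool.Agent.Lib.MP_a325a5_ag.DR.AR8
import Pool.Agent.Lib.MP_a325a5_ag.DR.MMf
import Pool.Agent.Lib.MP_a325a5_ag.F.N1
import Pool.Agent.Lib.MP_a325a5_ag.F.N4

/-! 8.1-8.3: constants, auxiliary polynomial, primes. h0 n = K_0 + 1, rr n = r, c0 = η/(8 r). -/

open NumberField MvPolynomial

namespace DR

/-- `i_0 = 2 * h0 n` -/
def h0 (n : ℕ) : ℕ := (n + 2) * (n - 1) + 1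

/-- number of levels -/
def rr (n : ℕ) : ℕ := (n + 1) * (2 * h0 n) + (n + 2) * (n - 1) + 2

section
variable {M : ℕ} {k K : Type} [Field k] [NumberField k] [Field K] [NumberField K] [Algebra k K]
  {n : ℕ}

private theorem U1_tot (Z : BMF.Cyc M k) (g : Fin n → K) :
    M.totient * dg k g 1 ≤ Module.finrank ℚ K := by
  have : FiniteDimensional k K := Module.Finite.of_restrictScalars_finite ℚ k K
  rw [← BMF.N4_finrank Z, ← BMF.N4_tower (k := k) (K := K)]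
  refine Nat.mul_le_mul_left _ ?_
  unfold dg
  exact Submodule.finrank_le (IntermediateField.adjoin k
    (Set.range fun i => g i ^ 1)).toSubalgebra.toSubmodule

/-- the auxiliary polynomial -/
private theorem U1_poly (Z : BMF.Cyc M k) (g : Fin n → K) (hg : ∀ i, g i ≠ 0) (hn : 1 ≤ n)
    (T : ℕ) (hT : 1 ≤ T) (C1 : ℕ) (hC1 : C1 = n * T * (2 * T + 7)) (D : ℕ)
    (hDK : D = Module.finrank ℚ K) (h : ℝ) (hh : ∀ i, BMF.ht (g i) ≤ h) (h128 : 128 ≤ D)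
    (h2 : (2 * C1) ^ n ≤ D) (h3 : C1 ≤ D) (hy : (n : ℝ) * C1 * ((om k g : ℝ) * h) ≤ 1) :
    ∃ G : MvPolynomial (Fin n) k, G ∈ V k n (C1 * om k g) ∧
      van T (toK K (RingHom.id k) G) g ∧ G ≠ 0 ∧ House ((M.totient : ℝ) * D) G ∧
      M.totient * (C1 * om k g + 1) ^ n ≤ D ^ 2 ∧ C1 * om k g ≤ D ^ 2 := by
  obtain ⟨hom1, A, hAV, hA0, hAg⟩ := om_spec (k := k) g hn
  have hpow := om_pow_le (k := k) g hn
  have htd := U1_tot Z g
  rw [← hDK] at htd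
  obtain ⟨o, ho⟩ : ∃ o, o = om k g := ⟨_, rfl⟩
  obtain ⟨d', hd'⟩ : ∃ d', d' = dg k g 1 := ⟨_, rfl⟩
  rw [← ho] at hom1 hAV hpow hy ⊢
  rw [← hd'] at hpow htd
  obtain ⟨L, hL⟩ : ∃ L, L = C1 * o := ⟨_, rfl⟩
  rw [← hL]
  have htot : 0 < M.totient := Nat.totient_pos.2 Z.pos
  have hC1pos : 1 ≤ C1 := by
    rw [hC1]
    exact Nat.mul_pos (Nat.mul_pos hn hT) (by omega)
  have hL1 : 1 ≤ L := by rw [hL]; exact Nat.mul_pos hC1pos hom1
  have hN : M.totient * (L + 1) ^ n ≤ D ^ 2 := by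
    calc M.totient * (L + 1) ^ n ≤ M.totient * ((2 * C1) * o) ^ n := by
          refine Nat.mul_le_mul_left _ (Nat.pow_le_pow_left ?_ n)
          rw [mul_assoc, ← hL]
          omega
      _ = (2 * C1) ^ n * (M.totient * o ^ n) := by rw [mul_pow]; ring
      _ ≤ D * D := by
          refine Nat.mul_le_mul h2 (le_trans (Nat.mul_le_mul_left _ hpow) htd)
      _ = D ^ 2 := (sq D).symm
  have hoD : o ≤ D := by
    calc o ≤ o ^ n := Nat.le_self_pow (by omega) o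
      _ ≤ d' := hpow
      _ ≤ M.totient * d' := Nat.le_mul_of_pos_left _ htot
      _ ≤ D := htd
  have hLD : L ≤ D ^ 2 := by
    rw [hL, sq]
    exact Nat.mul_le_mul h3 hoD
  have hTo : T * o ≤ L := by
    rw [hL, hC1]
    refine Nat.mul_le_mul_right _ ?_
    calc T = 1 * T * 1 := by ring
      _ ≤ n * T * (2 * T + 7) := Nat.mul_le_mul (Nat.mul_le_mul_right _ hn) (by omega)
  have hdim := vanSub_dim T L o g hn hTo hA0 hAV hAg
  have hr : (2 * T + 7) * ((L + 1) ^ n - Module.finrank k (vanSub k T L g)) < (L + 1) ^ n := by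
    obtain ⟨v, hv⟩ : ∃ v, v = Module.finrank k (vanSub k T L g) := ⟨_, rfl⟩
    rw [← hv] at hdim ⊢
    have h4 : (L + 1) ^ n - v ≤ n * T * o * (L + 1) ^ (n - 1) := by omega
    calc (2 * T + 7) * ((L + 1) ^ n - v) ≤ (2 * T + 7) * (n * T * o * (L + 1) ^ (n - 1)) :=
          Nat.mul_le_mul_left _ h4
      _ = L * (L + 1) ^ (n - 1) := by rw [hL, hC1]; ring
      _ < (L + 1) * (L + 1) ^ (n - 1) :=
          Nat.mul_lt_mul_of_pos_right (Nat.lt_succ_self L) (pow_pos (Nat.succ_pos L) _)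
      _ = (L + 1) ^ n := by
          rw [← pow_succ', Nat.sub_add_cancel hn]
  have hy' : (L : ℝ) * ∑ i, BMF.ht (g i) ≤ 1 := by
    have h5 : ∑ i, BMF.ht (g i) ≤ n * h := by
      calc ∑ i, BMF.ht (g i) ≤ ∑ _i : Fin n, h := Finset.sum_le_sum fun i _ => hh i
        _ = n * h := by rw [Finset.sum_const, Finset.card_univ, Fintype.card_fin, nsmul_eq_mul]
    calc (L : ℝ) * ∑ i, BMF.ht (g i) ≤ L * (n * h) :=
          mul_le_mul_of_nonneg_left h5 (Nat.cast_nonneg _)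
      _ = n * C1 * (o * h) := by rw [hL, Nat.cast_mul]; ring
      _ ≤ 1 := hy
  obtain ⟨G, ⟨hG1, hG2⟩, hG3, hG4⟩ := box_exists Z T L g hg (by rw [← hDK]; exact h128)
    (by rw [← hDK]; exact hN) (by rw [← hDK]; exact hLD) hy' hr
  rw [← hDK] at hG4
  exact ⟨G, hG1, hG2, hG3, hG4, hN, hLD⟩

private theorem U1_split (s : ℕ) : ∀ (r : ℕ) (W : Finset ℕ), r * s ≤ W.card →
    ∃ P : ℕ → Finset ℕ, (∀ i, 1 ≤ i → i ≤ r → P i ⊆ W ∧ (P i).card = s) ∧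
      ∀ i j, 1 ≤ i → i < j → j ≤ r → Disjoint (P i) (P j) := by
  intro r
  induction r with
  | zero =>
    intro W _
    exact ⟨fun _ => ∅, fun i h1 h2 => by omega, fun i j h1 h2 h3 => by omega⟩
  | succ r ih =>
    intro W hW
    rw [Nat.succ_mul] at hW
    obtain ⟨S, hS, hSc⟩ := Finset.exists_subset_card_eq (show s ≤ W.card by omega)
    have hc : (W \ S).card = W.card - S.card := Finset.card_sdiff_of_subset hS
    obtain ⟨P, hP1, hP2⟩ := ih (W \ S) (by rw [hc, hSc]; omega)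
    refine ⟨fun i => if i = r + 1 then S else P i, fun i h1 h2 => ?_, fun i j h1 h2 h3 => ?_⟩
    · by_cases h : i = r + 1
      · simp only [h, if_true]
        exact ⟨hS, hSc⟩
      · simp only [h, if_false]
        obtain ⟨a1, a2⟩ := hP1 i h1 (by omega)
        exact ⟨a1.trans Finset.sdiff_subset, a2⟩
    · have hi : i ≠ r + 1 := by omega
      simp only [hi, if_false]
      by_cases h : j = r + 1
      · simp only [h, if_true]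
        obtain ⟨a1, -⟩ := hP1 i h1 (by omega)
        exact Finset.disjoint_of_subset_left a1 Finset.sdiff_disjoint
      · simp only [h, if_false]
        exact hP2 i j h1 h2 (by omega)

/-- the sets of primes -/
private theorem U1_primes (Z : BMF.Cyc M k) (g : Fin n → K) (hg : ∀ i, g i ≠ 0) (r : ℕ)
    (D : ℕ) (hDK : D = Module.finrank ℚ K) (X : ℕ) (P0 : Finset ℕ)
    (hP0 : ∀ p ∈ P0, p.Prime ∧ (X : ℝ) < p ∧ (p : ℝ) ≤ 8 * X)
    (hP0c : (X : ℝ) ^ (3 / 4 : ℝ) ≤ P0.card)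
    (hnum : ((r : ℝ) + 2) * Real.logb 2 D + 2 + r * ((X : ℝ) ^ (1 / 2 : ℝ) + 1) ≤
      (X : ℝ) ^ (3 / 4 : ℝ)) :
    ∃ P : ℕ → Finset ℕ,
        (∀ i, 1 ≤ i → i ≤ r → ∀ q ∈ P i, q.Prime ∧ ¬ q ∣ M ∧ X < q ∧ q ≤ 8 * X) ∧
        (∀ i, 1 ≤ i → i ≤ r → (X : ℝ) ^ (1 / 2 : ℝ) ≤ (P i).card) ∧
        (∀ i j, 1 ≤ i → i < j → j ≤ r → Disjoint (P i) (P j)) ∧
        (∀ i ≤ r, ∀ m ∈ MM P i, dg k g m = dg k g 1) := by
  classical
  obtain ⟨R, hRP, hR1, hR2⟩ := good_primes (k := k) g hg r P0 (fun p hp => (hP0 p hp).1)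
  obtain ⟨W, hW⟩ : ∃ W, W = (P0 \ R) \ M.primeFactors := ⟨_, rfl⟩
  obtain ⟨s, hs⟩ : ∃ s, s = ⌈(X : ℝ) ^ (1 / 2 : ℝ)⌉₊ := ⟨_, rfl⟩
  have hs1 : (X : ℝ) ^ (1 / 2 : ℝ) ≤ s := by rw [hs]; exact Nat.le_ceil _
  have hs2 : (s : ℝ) ≤ (X : ℝ) ^ (1 / 2 : ℝ) + 1 := by
    rw [hs]
    exact (Nat.ceil_lt_add_one (Real.rpow_nonneg (Nat.cast_nonneg _) _)).le
  have hdpos := dg_pos' (k := k) g 1
  have htot : 0 < M.totient := Nat.totient_pos.2 Z.pos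
  have hdD : dg k g 1 ≤ D := by
    rw [hDK]
    exact le_trans (Nat.le_mul_of_pos_left _ htot) (U1_tot Z g)
  have hWcard : r * s ≤ W.card := by
    have h1 : P0.card ≤ W.card + R.card + M.primeFactors.card := by
      have h2 : P0 ⊆ (W ∪ R) ∪ M.primeFactors := by
        intro p hp
        by_cases hpR : p ∈ R
        · exact Finset.mem_union_left _ (Finset.mem_union_right _ hpR)
        · by_cases hpM : p ∈ M.primeFactors
          · exact Finset.mem_union_right _ hpM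
          · refine Finset.mem_union_left _ (Finset.mem_union_left _ ?_)
            rw [hW]
            exact Finset.mem_sdiff.2 ⟨Finset.mem_sdiff.2 ⟨hp, hpR⟩, hpM⟩
      refine (Finset.card_le_card h2).trans ((Finset.card_union_le _ _).trans ?_)
      exact Nat.add_le_add_right (Finset.card_union_le _ _) _
    have h3 : (P0.card : ℝ) ≤ W.card + R.card + M.primeFactors.card := by exact_mod_cast h1
    have h4 := BMF.card_primes_dvd (K := K) Z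
    rw [← hDK] at h4
    have h5 : Real.logb 2 (dg k g 1) ≤ Real.logb 2 D :=
      Real.logb_le_logb_of_le (by norm_num) (by exact_mod_cast hdpos) (by exact_mod_cast hdD)
    have h6 : (R.card : ℝ) ≤ r * Real.logb 2 D :=
      hR1.trans (mul_le_mul_of_nonneg_left h5 (Nat.cast_nonneg _))
    have h7 : (r : ℝ) * s ≤ r * ((X : ℝ) ^ (1 / 2 : ℝ) + 1) :=
      mul_le_mul_of_nonneg_left hs2 (Nat.cast_nonneg _)
    have h8 : ((r * s : ℕ) : ℝ) ≤ W.card := by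
      push_cast
      linarith
    exact_mod_cast h8
  obtain ⟨P, hP1, hP2⟩ := U1_split s r W hWcard
  have hPW : ∀ i, 1 ≤ i → i ≤ r → ∀ q ∈ P i, q ∈ P0 ∧ q ∉ R ∧ q ∉ M.primeFactors := by
    intro i h1 h2 q hq
    have h3 := (hP1 i h1 h2).1 hq
    rw [hW, Finset.mem_sdiff, Finset.mem_sdiff] at h3
    exact ⟨h3.1.1, h3.1.2, h3.2⟩
  refine ⟨P, ?_, ?_, hP2, ?_⟩
  · intro i h1 h2 q hq
    obtain ⟨a1, a2, a3⟩ := hPW i h1 h2 q hq
    obtain ⟨b1, b2, b3⟩ := hP0 q a1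
    refine ⟨b1, fun hdvd => a3 (Nat.mem_primeFactors.2 ⟨b1, hdvd, Z.pos.ne'⟩), ?_, ?_⟩
    · exact_mod_cast b2
    · exact_mod_cast b3
  · intro i h1 h2
    rw [(hP1 i h1 h2).2]
    exact hs1
  · intro i hi m hm
    obtain ⟨S, hS1, hS2, hS3⟩ := MM_prod P r hP2 i hi m hm
    rw [hS3]
    refine hR2 S ?_ (hS2.trans hi)
    intro q hq
    obtain ⟨j, hj, hqj⟩ := Finset.mem_biUnion.1 (hS1 hq)
    rw [Finset.mem_Icc] at hj
    obtain ⟨a1, a2, -⟩ := hPW j hj.1 (hj.2.trans hi) q hqj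
    exact Finset.mem_sdiff.2 ⟨a1, a2⟩

end

/-- the orders of vanishing, from the last level -/
private noncomputable def U1_T (c : ℝ) : ℕ → ℕ
  | 0 => 1
  | i + 1 => U1_T c i + ⌈(8 + 6 * (U1_T c i : ℝ)) / c⌉₊

private theorem U1_T_pos (c : ℝ) (i : ℕ) : 1 ≤ U1_T c i := by
  induction i with
  | zero => exact le_refl _
  | succ i ih => exact ih.trans (Nat.le_add_right _ _)

private theorem U1_num (n : ℕ) (η : ℝ) (hη : 0 < η) (r : ℕ) (c0 : ℝ) (hc0 : 0 < c0) (C1 : ℕ)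
    (X0 : ℝ) : ∃ D0 : ℝ, ∀ x : ℝ, D0 ≤ x → 128 ≤ x ∧ (2 * (C1 : ℝ)) ^ n ≤ x ∧ (C1 : ℝ) ≤ x ∧
      (n : ℝ) + 1 ≤ x ∧ (n : ℝ) * C1 ≤ x ^ (3 * η / 4) ∧ (8 : ℝ) ^ r ≤ x ^ (η / 8) ∧
      2 * X0 + 4 ≤ x ^ c0 ∧ 4 * (r : ℝ) ≤ (x ^ c0 / 2) ^ (1 / 4 : ℝ) ∧
      4 * ((r : ℝ) + 2) ≤ (x ^ c0 / 2) ^ (3 / 4 : ℝ) ∧
      4 * (((r : ℝ) + 2) * Real.logb 2 x) ≤ (x ^ c0 / 2) ^ (3 / 4 : ℝ) ∧
      Real.log 2 ≤ c0 / 2 * Real.log x ∧ 1 ≤ Real.log x := by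
  have hl2 : 0 < Real.log 2 := Real.log_pos (by norm_num)
  have hc : Filter.Tendsto (fun x : ℝ => x ^ c0 / 2) Filter.atTop Filter.atTop :=
    (tendsto_rpow_atTop hc0).atTop_div_const (by norm_num)
  have e1 : ∀ᶠ x : ℝ in Filter.atTop, (n : ℝ) * C1 ≤ x ^ (3 * η / 4) :=
    (tendsto_rpow_atTop (by positivity)).eventually_ge_atTop _
  have e2 : ∀ᶠ x : ℝ in Filter.atTop, (8 : ℝ) ^ r ≤ x ^ (η / 8) :=
    (tendsto_rpow_atTop (by positivity)).eventually_ge_atTop _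
  have e3 : ∀ᶠ x : ℝ in Filter.atTop, 2 * X0 + 4 ≤ x ^ c0 :=
    (tendsto_rpow_atTop hc0).eventually_ge_atTop _
  have e4 : ∀ᶠ x : ℝ in Filter.atTop, 4 * (r : ℝ) ≤ (x ^ c0 / 2) ^ (1 / 4 : ℝ) :=
    ((tendsto_rpow_atTop (by norm_num : (0 : ℝ) < 1 / 4)).comp hc).eventually_ge_atTop _
  have e5 : ∀ᶠ x : ℝ in Filter.atTop, 4 * ((r : ℝ) + 2) ≤ (x ^ c0 / 2) ^ (3 / 4 : ℝ) :=
    ((tendsto_rpow_atTop (by norm_num : (0 : ℝ) < 3 / 4)).comp hc).eventually_ge_atTop _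
  have e6 : ∀ᶠ x : ℝ in Filter.atTop, ‖Real.log x‖ ≤
      (Real.log 2 / (8 * ((r : ℝ) + 2))) * ‖x ^ (c0 * (3 / 4))‖ :=
    (isLittleO_log_rpow_atTop (r := c0 * (3 / 4)) (by positivity)).bound (by positivity)
  have e7 : ∀ᶠ x : ℝ in Filter.atTop, max 1 (2 * Real.log 2 / c0) ≤ Real.log x :=
    Real.tendsto_log_atTop.eventually_ge_atTop _
  have e8 : ∀ᶠ x : ℝ in Filter.atTop,
      max (max 128 ((2 * (C1 : ℝ)) ^ n)) (max (C1 : ℝ) ((n : ℝ) + 1)) ≤ x :=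
    Filter.eventually_ge_atTop _
  obtain ⟨x0, hx0⟩ := Filter.eventually_atTop.1
    (e1.and (e2.and (e3.and (e4.and (e5.and (e6.and (e7.and e8)))))))
  refine ⟨x0, fun x hx => ?_⟩
  obtain ⟨a1, a2, a3, a4, a5, a6, a7, a8⟩ := hx0 x hx
  rw [max_le_iff, max_le_iff, max_le_iff] at a8
  rw [max_le_iff] at a7
  obtain ⟨⟨b1, b2⟩, b3, b4⟩ := a8
  obtain ⟨b5, b6⟩ := a7
  have hx0' : (0 : ℝ) < x := by linarith
  have hxc : 0 < x ^ c0 := Real.rpow_pos_of_pos hx0' _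
  refine ⟨b1, b2, b3, b4, a1, a2, a3, a4, a5, ?_, ?_, b5⟩
  · have hpos : 0 < x ^ (c0 * (3 / 4)) := Real.rpow_pos_of_pos hx0' _
    rw [Real.norm_of_nonneg (by linarith), Real.norm_of_nonneg hpos.le] at a6
    have h1 : x ^ (c0 * (3 / 4)) / 2 ≤ (x ^ c0 / 2) ^ (3 / 4 : ℝ) := by
      rw [Real.div_rpow hxc.le (by norm_num), ← Real.rpow_mul hx0'.le]
      have h2 : (2 : ℝ) ^ (3 / 4 : ℝ) ≤ 2 := by
        calc (2 : ℝ) ^ (3 / 4 : ℝ) ≤ (2 : ℝ) ^ (1 : ℝ) :=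
              Real.rpow_le_rpow_of_exponent_le (by norm_num) (by norm_num)
          _ = 2 := Real.rpow_one 2
      exact div_le_div_of_nonneg_left hpos.le (by positivity) h2
    have hr2 : (0 : ℝ) < (r : ℝ) + 2 := by positivity
    have h3 : 4 * (((r : ℝ) + 2) * Real.logb 2 x) ≤ x ^ (c0 * (3 / 4)) / 2 := by
      rw [Real.logb]
      have h4 : Real.log x / Real.log 2 ≤ 1 / (8 * ((r : ℝ) + 2)) * x ^ (c0 * (3 / 4)) := by
        rw [div_le_iff₀ hl2]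
        calc Real.log x ≤ Real.log 2 / (8 * ((r : ℝ) + 2)) * x ^ (c0 * (3 / 4)) := a6
          _ = 1 / (8 * ((r : ℝ) + 2)) * x ^ (c0 * (3 / 4)) * Real.log 2 := by ring
      calc 4 * (((r : ℝ) + 2) * (Real.log x / Real.log 2)) ≤
          4 * (((r : ℝ) + 2) * (1 / (8 * ((r : ℝ) + 2)) * x ^ (c0 * (3 / 4)))) := by
            refine mul_le_mul_of_nonneg_left (mul_le_mul_of_nonneg_left h4 hr2.le) (by norm_num)
        _ = x ^ (c0 * (3 / 4)) / 2 := by field_simp; norm_num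
    exact h3.trans h1
  · have h1 : 2 * Real.log 2 ≤ Real.log x * c0 := by
      rw [div_le_iff₀ hc0] at b6
      exact b6
    linarith

theorem arith_data (n : ℕ) (hn : 1 ≤ n) (η : ℝ) (h0' : 0 < η) (h1 : η ≤ 1) :
    ∃ C1 : ℕ, 1 ≤ C1 ∧ ∃ D0 : ℝ, ∀ (M : ℕ) (k K : Type) [Field k] [NumberField k] [Field K]
      [NumberField K] [Algebra k K] (Z : BMF.Cyc M k) (g : Fin n → K), (∀ i, g i ≠ 0) → MInd g →
      ∀ h : ℝ, (∀ i, BMF.ht (g i) ≤ h) → D0 ≤ Module.finrank ℚ K →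
      (om k g : ℝ) * h < (Module.finrank ℚ K : ℝ) ^ (-η) →
      ∃ (X : ℕ) (P : ℕ → Finset ℕ) (G : MvPolynomial (Fin n) k), 2 ≤ X ∧
        (Module.finrank ℚ K : ℝ) ^ (η / (8 * rr n)) / 2 ≤ X ∧
        (8 * (X : ℝ)) ^ rr n ≤ (Module.finrank ℚ K : ℝ) ^ (η / 4) ∧
        (∀ i, 1 ≤ i → i ≤ rr n → ∀ q ∈ P i, q.Prime ∧ ¬ q ∣ M ∧ X < q ∧ q ≤ 8 * X) ∧
        (∀ i, 1 ≤ i → i ≤ rr n → (X : ℝ) ^ (1 / 2 : ℝ) ≤ (P i).card) ∧
        (∀ i j, 1 ≤ i → i < j → j ≤ rr n → Disjoint (P i) (P j)) ∧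
        (∀ i ≤ rr n, ∀ m ∈ MM P i, dg k g m = dg k g 1) ∧
        G ≠ 0 ∧ G ∈ V k n (C1 * om k g) ∧ ∀ m ∈ MM P (rr n), ev (Z.fr m) m g G = 0 := by
  have hr0 : 0 < rr n := by unfold rr; omega
  obtain ⟨r, hr⟩ : ∃ r, r = rr n := ⟨_, rfl⟩
  rw [← hr] at hr0 ⊢
  have hrR : (0 : ℝ) < r := by exact_mod_cast hr0
  obtain ⟨c0, hc0⟩ : ∃ c0, c0 = η / (8 * (r : ℝ)) := ⟨_, rfl⟩
  have hc0pos : 0 < c0 := by rw [hc0]; positivity
  obtain ⟨T, hT⟩ : ∃ T, T = U1_T c0 r := ⟨_, rfl⟩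
  have hT1 : 1 ≤ T := by rw [hT]; exact U1_T_pos _ _
  obtain ⟨C1, hC1⟩ : ∃ C1, C1 = n * T * (2 * T + 7) := ⟨_, rfl⟩
  have hC1pos : 1 ≤ C1 := by
    rw [hC1]
    exact Nat.mul_pos (Nat.mul_pos hn hT1) (by omega)
  obtain ⟨X0, hX01, hprimes⟩ := BMF.exists_primes
  obtain ⟨D0, hD0⟩ := U1_num n η h0' r c0 hc0pos C1 X0
  refine ⟨C1, hC1pos, D0, ?_⟩
  intro M k K _ _ _ _ _ Z g hg hI h hh hD hom
  obtain ⟨D, hDK⟩ : ∃ D, D = Module.finrank ℚ K := ⟨_, rfl⟩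
  rw [← hDK] at hD hom ⊢
  obtain ⟨n1, n2, n3, n4, n5, n6, n7, n8, n9, n10, n11, n12⟩ := hD0 (D : ℝ) hD
  have hDpos : (0 : ℝ) < D := by linarith
  have hD1 : (1 : ℝ) ≤ D := by linarith
  rw [← hc0]
  -- the size of `X`
  obtain ⟨X, hX⟩ : ∃ X, X = ⌊(D : ℝ) ^ c0⌋₊ := ⟨_, rfl⟩
  have hXc : 0 < (D : ℝ) ^ c0 := Real.rpow_pos_of_pos hDpos _
  have hXle : (X : ℝ) ≤ (D : ℝ) ^ c0 := by rw [hX]; exact Nat.floor_le hXc.le
  have hXge : (D : ℝ) ^ c0 / 2 ≤ X := by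
    have h2 : (D : ℝ) ^ c0 < X + 1 := by rw [hX]; exact Nat.lt_floor_add_one _
    linarith
  have hX0 : X0 ≤ X := by linarith
  have hX2 : (2 : ℝ) ≤ X := by linarith
  have hXpos : (0 : ℝ) < X := by linarith
  have hX8 : (8 * (X : ℝ)) ^ r ≤ (D : ℝ) ^ (η / 4) := by
    calc (8 * (X : ℝ)) ^ r ≤ (8 * (D : ℝ) ^ c0) ^ r := by gcongr
      _ = 8 ^ r * (D : ℝ) ^ (η / 8) := by
          rw [mul_pow, ← Real.rpow_natCast ((D : ℝ) ^ c0) r, ← Real.rpow_mul hDpos.le, hc0]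
          congr 2
          field_simp
      _ ≤ (D : ℝ) ^ (η / 8) * (D : ℝ) ^ (η / 8) := by gcongr
      _ = (D : ℝ) ^ (η / 4) := by
          rw [← Real.rpow_add hDpos]
          congr 1
          ring
  -- primes
  obtain ⟨P0, hP01, hP02⟩ := hprimes X hX0
  have hy0 : 0 < (D : ℝ) ^ c0 / 2 := by positivity
  have hz34 : ((D : ℝ) ^ c0 / 2) ^ (3 / 4 : ℝ) ≤ (X : ℝ) ^ (3 / 4 : ℝ) :=
    Real.rpow_le_rpow hy0.le hXge (by norm_num)
  have hz14 : ((D : ℝ) ^ c0 / 2) ^ (1 / 4 : ℝ) ≤ (X : ℝ) ^ (1 / 4 : ℝ) :=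
    Real.rpow_le_rpow hy0.le hXge (by norm_num)
  have hX12 : 4 * ((r : ℝ) * (X : ℝ) ^ (1 / 2 : ℝ)) ≤ (X : ℝ) ^ (3 / 4 : ℝ) := by
    have h2 : (X : ℝ) ^ (3 / 4 : ℝ) = (X : ℝ) ^ (1 / 4 : ℝ) * (X : ℝ) ^ (1 / 2 : ℝ) := by
      rw [← Real.rpow_add hXpos]
      norm_num
    rw [h2, ← mul_assoc]
    exact mul_le_mul_of_nonneg_right (n8.trans hz14) (Real.rpow_nonneg hXpos.le _)
  obtain ⟨P, hP1, hP2, hP3, hP4⟩ := U1_primes Z g hg r D hDK X P0 hP01 hP02 (by linarith)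
  -- heights
  have hh0 : 0 ≤ h := (BMF.ht_nonneg (g ⟨0, hn⟩)).trans (hh _)
  have hoh : 0 ≤ (om k g : ℝ) * h := mul_nonneg (Nat.cast_nonneg _) hh0
  have hnC : (0 : ℝ) ≤ (n : ℝ) * C1 := by positivity
  have hηsplit : (D : ℝ) ^ (-η) * ((D : ℝ) ^ (η / 4) * (D : ℝ) ^ (3 * η / 4)) = 1 := by
    rw [← Real.rpow_add hDpos, ← Real.rpow_add hDpos, show -η + (η / 4 + 3 * η / 4) = 0 by ring,
      Real.rpow_zero]
  have hD4 : 1 ≤ (D : ℝ) ^ (η / 4) := Real.one_le_rpow hD1 (by positivity)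
  have hDη : 0 < (D : ℝ) ^ (-η) := Real.rpow_pos_of_pos hDpos _
  have hkey : (D : ℝ) ^ (η / 4) * ((n : ℝ) * C1 * ((om k g : ℝ) * h)) ≤ 1 := by
    calc (D : ℝ) ^ (η / 4) * ((n : ℝ) * C1 * ((om k g : ℝ) * h)) ≤
        (D : ℝ) ^ (η / 4) * ((D : ℝ) ^ (3 * η / 4) * (D : ℝ) ^ (-η)) := by
          gcongr
      _ = (D : ℝ) ^ (-η) * ((D : ℝ) ^ (η / 4) * (D : ℝ) ^ (3 * η / 4)) := by ring
      _ = 1 := hηsplit
  have hkey0 : 0 ≤ (n : ℝ) * C1 * ((om k g : ℝ) * h) := mul_nonneg hnC hoh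
  have hy : (n : ℝ) * C1 * ((om k g : ℝ) * h) ≤ 1 := by
    refine le_trans ?_ hkey
    calc (n : ℝ) * C1 * ((om k g : ℝ) * h) = 1 * ((n : ℝ) * C1 * ((om k g : ℝ) * h)) := by ring
      _ ≤ (D : ℝ) ^ (η / 4) * ((n : ℝ) * C1 * ((om k g : ℝ) * h)) :=
          mul_le_mul_of_nonneg_right hD4 hkey0
  -- the polynomial
  obtain ⟨G, hG1, hG2, hG3, hG4, hG5, hG6⟩ := U1_poly Z g hg hn T hT1 C1 hC1 D hDK h hh
    (by exact_mod_cast n1) (by exact_mod_cast n2) (by exact_mod_cast n3) hy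
  refine ⟨X, P, G, by exact_mod_cast hX2, hXge, hX8, hP1, hP2, hP3, hP4, hG3, hG1, ?_⟩
  obtain ⟨L, hL⟩ : ∃ L, L = C1 * om k g := ⟨_, rfl⟩
  rw [← hL] at hG1 hG5 hG6
  have htot : 1 ≤ M.totient := Nat.totient_pos.2 Z.pos
  have hsum : ∑ i, BMF.ht (g i) ≤ n * h := by
    calc ∑ i, BMF.ht (g i) ≤ ∑ _i : Fin n, h := Finset.sum_le_sum fun i _ => hh i
      _ = n * h := by rw [Finset.sum_const, Finset.card_univ, Fintype.card_fin, nsmul_eq_mul]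
  have hlogX : c0 / 2 * Real.log D ≤ Real.log X := by
    have h2 : Real.log ((D : ℝ) ^ c0 / 2) ≤ Real.log X := Real.log_le_log hy0 hXge
    rw [Real.log_div hXc.ne' (by norm_num), Real.log_rpow hDpos] at h2
    linarith
  refine extrap_all Z g hg L r (A := (M.totient : ℝ) * D) (X := X) (Y1 := 1) ?_ (by linarith)
    hG1 hG4 P ?_ (fun j => U1_T c0 (r - j)) ?_ ?_ ?_ ?_ ?_
  · have : (1 : ℝ) ≤ M.totient := by exact_mod_cast htot
    calc (1 : ℝ) = 1 * 1 := by ring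
      _ ≤ (M.totient : ℝ) * D := mul_le_mul this hD1 zero_le_one (by linarith)
  · intro i i1 i2 q hq
    obtain ⟨a1, a2, a3, a4⟩ := hP1 i i1 i2 q hq
    exact ⟨a1, a2, by exact_mod_cast a3, by exact_mod_cast a4⟩
  · intro j hj
    have h2 : r - j = (r - (j + 1)) + 1 := by omega
    show U1_T c0 (r - (j + 1)) ≤ U1_T c0 (r - j)
    rw [h2]
    exact Nat.le_add_right _ _
  · show 1 ≤ U1_T c0 (r - r)
    exact U1_T_pos _ _
  · show van (U1_T c0 (r - 0)) (toK K (RingHom.id k) G) g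
    rw [Nat.sub_zero, ← hT]
    exact hG2
  · calc (8 * (X : ℝ)) ^ r * (L * ∑ i, BMF.ht (g i)) ≤
        (D : ℝ) ^ (η / 4) * (L * (n * h)) := by
          refine mul_le_mul hX8 (mul_le_mul_of_nonneg_left hsum (Nat.cast_nonneg _))
            (mul_nonneg (Nat.cast_nonneg _) (Finset.sum_nonneg fun i _ => BMF.ht_nonneg _))
            (by linarith)
      _ = (D : ℝ) ^ (η / 4) * ((n : ℝ) * C1 * ((om k g : ℝ) * h)) := by
          rw [hL, Nat.cast_mul]; ring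
      _ ≤ 1 := hkey
  · intro j hj
    have h2 : r - j = (r - (j + 1)) + 1 := by omega
    obtain ⟨u, hu⟩ : ∃ u, u = U1_T c0 (r - (j + 1)) := ⟨_, rfl⟩
    have h3 : U1_T c0 (r - j) = u + ⌈(8 + 6 * (u : ℝ)) / c0⌉₊ := by
      rw [h2, hu]
      rfl
    show Real.log (((L : ℝ) + 1) ^ n * ((M.totient : ℝ) * D)) +
      (U1_T c0 (r - (j + 1)) : ℕ) * Real.log ((n : ℝ) * L + 1) + 1 <
      (((U1_T c0 (r - j) : ℕ) : ℝ) - (U1_T c0 (r - (j + 1)) : ℕ) + 1) * Real.log X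
    rw [h3, ← hu]
    have hlogD : 0 < Real.log D := by linarith
    have hLR : (0 : ℝ) ≤ L := Nat.cast_nonneg _
    have b1 : Real.log (((L : ℝ) + 1) ^ n * ((M.totient : ℝ) * D)) ≤ 3 * Real.log D := by
      have h4 : ((L : ℝ) + 1) ^ n * ((M.totient : ℝ) * D) ≤ (D : ℝ) ^ 3 := by
        have h5 : (M.totient : ℝ) * ((L : ℝ) + 1) ^ n ≤ (D : ℝ) ^ 2 := by exact_mod_cast hG5
        calc ((L : ℝ) + 1) ^ n * ((M.totient : ℝ) * D) =
            (M.totient : ℝ) * ((L : ℝ) + 1) ^ n * D := by ring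
          _ ≤ (D : ℝ) ^ 2 * D := mul_le_mul_of_nonneg_right h5 hDpos.le
          _ = (D : ℝ) ^ 3 := by ring
      have h6 : (0 : ℝ) < ((L : ℝ) + 1) ^ n * ((M.totient : ℝ) * D) := by
        have : (0 : ℝ) < M.totient := by exact_mod_cast htot
        positivity
      calc Real.log (((L : ℝ) + 1) ^ n * ((M.totient : ℝ) * D)) ≤ Real.log ((D : ℝ) ^ 3) :=
            Real.log_le_log h6 h4
        _ = 3 * Real.log D := by rw [Real.log_pow]; norm_num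
    have b2 : Real.log ((n : ℝ) * L + 1) ≤ 3 * Real.log D := by
      have h4 : (n : ℝ) * L + 1 ≤ (D : ℝ) ^ 3 := by
        have h5 : (L : ℝ) ≤ (D : ℝ) ^ 2 := by exact_mod_cast hG6
        have h6 : (1 : ℝ) ≤ (D : ℝ) ^ 2 := one_le_pow₀ hD1
        calc (n : ℝ) * L + 1 ≤ n * (D : ℝ) ^ 2 + (D : ℝ) ^ 2 := by gcongr
          _ = ((n : ℝ) + 1) * (D : ℝ) ^ 2 := by ring
          _ ≤ D * (D : ℝ) ^ 2 := by gcongr
          _ = (D : ℝ) ^ 3 := by ring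
      calc Real.log ((n : ℝ) * L + 1) ≤ Real.log ((D : ℝ) ^ 3) :=
            Real.log_le_log (by positivity) h4
        _ = 3 * Real.log D := by rw [Real.log_pow]; norm_num
    have huR : (0 : ℝ) ≤ u := Nat.cast_nonneg _
    have b3 : (8 + 6 * (u : ℝ)) / c0 ≤ (⌈(8 + 6 * (u : ℝ)) / c0⌉₊ : ℝ) := Nat.le_ceil _
    have b4 : (0 : ℝ) < (8 + 6 * (u : ℝ)) / c0 + 1 := by positivity
    have b5 : ((8 + 6 * (u : ℝ)) / c0 + 1) * (c0 / 2 * Real.log D) =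
        (4 + 3 * (u : ℝ)) * Real.log D + c0 / 2 * Real.log D := by
      field_simp
      ring
    push_cast
    have b6 : (u : ℝ) * Real.log ((n : ℝ) * L + 1) ≤ u * (3 * Real.log D) :=
      mul_le_mul_of_nonneg_left b2 huR
    have b7 : ((8 + 6 * (u : ℝ)) / c0 + 1) * (c0 / 2 * Real.log D) ≤
        ((u : ℝ) + (⌈(8 + 6 * (u : ℝ)) / c0⌉₊ : ℝ) - u + 1) * Real.log X := by
      have h4 : (8 + 6 * (u : ℝ)) / c0 + 1 ≤ (u : ℝ) + (⌈(8 + 6 * (u : ℝ)) / c0⌉₊ : ℝ) - u + 1 := by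
        linarith
      refine mul_le_mul h4 hlogX (by positivity) (by linarith)
    refine lt_of_lt_of_le ?_ b7
    rw [b5]
    have b8 : 0 < c0 / 2 * Real.log D := by positivity
    nlinarith

end DR
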