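import Pool.Agent.Lib.MP_a325a5_ag.DR.ADef
import Pool.Agent.Lib.MP_a325a5_ag.DR.AR2
import Pool.Agent.Lib.MP_a325a5_ag.F.Hc
import Pool.Agent.Lib.MP_a325a5_ag.F.P1

/-! 8.5, algebraic part: from a polynomial relation A(g) = 0 whose exponents lie in a hyperplane a.w = const to n' < n new numbers β (in a finite extension K' containing a root of unity of order M Δ). -/

open NumberField MvPolynomial

namespace DR

section U3ht

open BMF

/-- height as archimedean part minus the norm of the denominator ideal -/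
private theorem U3_ht_div {L : Type} [Field L] [NumberField L] (a b : 𝓞 L) (ha : a ≠ 0) :
    (Module.finrank ℚ L : ℝ) * ht ((a : L) / (b : L)) =
      (∑ σ : L →+* ℂ, Real.log (max ‖σ a‖ ‖σ b‖)) -
        Real.log (Ideal.absNorm (Ideal.span {a, b})) := by
  have hx : (![a, b] : Fin 2 → 𝓞 L) ≠ 0 := fun h => ha (congrFun h 0)
  have hx' : (![(a : L), (b : L)] : Fin 2 → L) ≠ 0 := fun h => ha (by
    have h0 : (a : L) = 0 := congrFun h 0
    exact_mod_cast h0)
  have h1 := NumberField.absNorm_mul_finprod_finitePlace_eq_one hx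
  have h2 := NumberField.mulHeight_eq hx'
  rw [ht_eq, Height.logHeight₁_eq_log_mulHeight₁, Height.mulHeight₁_div_eq_mulHeight,
    mul_div_cancel₀ _ finrank_pos.ne', h2]
  have e0 : Set.range (![a, b] : Fin 2 → 𝓞 L) = {a, b} := by
    simp [Set.pair_comm]
  rw [e0] at h1
  have e1 : (∏ᶠ v : FinitePlace L, ⨆ i, v ((![(a : L), (b : L)] : Fin 2 → L) i)) =
      ∏ᶠ v : FinitePlace L, ⨆ i, v ((![a, b] : Fin 2 → 𝓞 L) i : L) := by
    refine finprod_congr fun v => ?_
    congr 1
    funext i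
    fin_cases i <;> rfl
  rw [e1]
  have hN : (Ideal.absNorm (Ideal.span {a, b}) : ℝ) ≠ 0 := by
    intro h
    rw [h, zero_mul] at h1
    exact zero_ne_one h1
  have e2 : (∏ᶠ v : FinitePlace L, ⨆ i, v ((![a, b] : Fin 2 → 𝓞 L) i : L)) =
      (Ideal.absNorm (Ideal.span {a, b}) : ℝ)⁻¹ := eq_inv_of_mul_eq_one_right h1
  rw [e2]
  have hmax : ∀ v : InfinitePlace L, ⨆ i, v ((![(a : L), (b : L)] : Fin 2 → L) i) =
      max (v a) (v b) := by
    intro v
    refine le_antisymm (ciSup_le fun i => ?_) (max_le ?_ ?_)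
    · fin_cases i
      · exact le_max_left _ _
      · exact le_max_right _ _
    · exact le_ciSup_of_le (Set.finite_range _).bddAbove 0 le_rfl
    · exact le_ciSup_of_le (Set.finite_range _).bddAbove 1 le_rfl
  have hpos : ∀ v : InfinitePlace L, 0 < max (v a) (v b) := fun v =>
    lt_max_of_lt_left (InfinitePlace.pos_iff.2 (by exact_mod_cast ha))
  simp only [hmax]
  rw [Real.log_mul (Finset.prod_ne_zero_iff.2 fun w _ => (pow_pos (hpos w) _).ne')
    (inv_ne_zero hN), Real.log_inv, Real.log_prod fun w _ => (pow_pos (hpos w) _).ne',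
    ← sub_eq_add_neg]
  congr 1
  simp only [Real.log_pow]
  exact (sum_emb fun w : InfinitePlace L => Real.log (max (w a) (w b))).symm

private theorem U3_sum_emb {L K : Type} [Field L] [NumberField L] [Field K] [NumberField K]
    [Algebra L K] (f : (L →+* ℂ) → ℝ) :
    ∑ τ : K →+* ℂ, f (τ.comp (algebraMap L K)) = (Module.finrank L K : ℝ) * ∑ σ, f σ := by
  classical
  rw [← Finset.sum_fiberwise_of_maps_to (g := fun τ : K →+* ℂ => τ.comp (algebraMap L K))
    (t := Finset.univ) (fun _ _ => Finset.mem_univ _), Finset.mul_sum]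
  refine Finset.sum_congr rfl fun σ _ => ?_
  have h1 : ∀ τ ∈ Finset.univ.filter (fun τ : K →+* ℂ => τ.comp (algebraMap L K) = σ),
      f (τ.comp (algebraMap L K)) = f σ := fun τ hτ => by rw [(Finset.mem_filter.1 hτ).2]
  rw [Finset.sum_congr rfl h1, Finset.sum_const, nsmul_eq_mul]
  congr 1
  norm_cast
  let _ := σ.toAlgebra
  have h2 : Fintype.card (K →ₐ[L] ℂ) = Module.finrank L K := AlgHom.card L K ℂ
  rw [← h2, ← Fintype.card_coe]
  refine Fintype.card_congr ⟨fun τ => ⟨τ.1, fun x => ?_⟩, fun φ => ⟨φ.toRingHom, ?_⟩, ?_, ?_⟩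
  · exact RingHom.congr_fun (Finset.mem_filter.1 τ.2).2 x
  · refine Finset.mem_filter.2 ⟨Finset.mem_univ _, ?_⟩
    ext x
    exact φ.commutes x
  · intro τ
    rfl
  · intro φ
    rfl

theorem U3_ht_algebraMap {L K : Type} [Field L] [NumberField L] [Field K] [NumberField K]
    [Algebra L K] (x : L) : ht (algebraMap L K x) = ht x := by
  rcases eq_or_ne x 0 with rfl | hx
  · rw [map_zero, ht_zero, ht_zero]
  obtain ⟨a, b, hb, hab⟩ := IsFractionRing.div_surjective (A := 𝓞 L) x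
  have hb0 : b ≠ 0 := nonZeroDivisors.ne_zero hb
  have ha0 : a ≠ 0 := by
    rintro rfl
    apply hx
    rw [← hab]
    simp
  have hab' : (a : L) / (b : L) = x := hab
  set a' : 𝓞 K := algebraMap (𝓞 L) (𝓞 K) a with ha'
  set b' : 𝓞 K := algebraMap (𝓞 L) (𝓞 K) b with hb'
  have ca : (a' : K) = algebraMap L K a := rfl
  have cb : (b' : K) = algebraMap L K b := rfl
  have ha'0 : a' ≠ 0 := by
    intro h
    apply ha0
    have : (a' : K) = 0 := by rw [h]; rfl
    rw [ca] at this
    have h3 := (map_eq_zero _).1 this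
    exact_mod_cast h3
  have hx' : (a' : K) / (b' : K) = algebraMap L K x := by
    rw [← hab', map_div₀, ca, cb]
  have h1 := U3_ht_div a b ha0
  have h2 := U3_ht_div a' b' ha'0
  rw [hab'] at h1
  rw [hx'] at h2
  have h3 : Ideal.span {a', b'} = (Ideal.span {a, b}).map (algebraMap (𝓞 L) (𝓞 K)) := by
    rw [Ideal.map_span, Set.image_pair]
  have h4 : Module.finrank (𝓞 L) (𝓞 K) = Module.finrank L K :=
    (IsFractionRing.finrank_eq (𝓞 L) L (𝓞 K) K).symm
  have h5 : Ideal.absNorm (Ideal.span {a', b'}) =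
      Ideal.absNorm (Ideal.span {a, b}) ^ Module.finrank L K := by
    rw [h3, Ideal.absNorm_algebraMap, h4]
  have h6 : ∑ τ : K →+* ℂ, Real.log (max ‖τ a'‖ ‖τ b'‖) =
      (Module.finrank L K : ℝ) * ∑ σ : L →+* ℂ, Real.log (max ‖σ a‖ ‖σ b‖) :=
    U3_sum_emb (K := K) fun σ : L →+* ℂ => Real.log (max ‖σ a‖ ‖σ b‖)
  rw [h5, h6] at h2
  have h7 : Module.finrank ℚ K = Module.finrank ℚ L * Module.finrank L K :=
    (Module.finrank_mul_finrank ℚ L K).symm
  have h8 : (0 : ℝ) < Module.finrank L K := by exact_mod_cast Module.finrank_pos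
  rw [h7] at h2
  push_cast at h2
  rw [Real.log_pow, ← mul_sub, ← h1] at h2
  have h9 : (Module.finrank L K : ℝ) * (Module.finrank ℚ L) * ht (algebraMap L K x) =
      (Module.finrank L K : ℝ) * (Module.finrank ℚ L) * ht x := by linarith
  exact mul_left_cancel₀ (mul_pos h8 finrank_pos).ne' h9

end U3ht

section U3lin

open Matrix

/-- the matrix of the chosen coordinates -/
private def U3_mat {n r : ℕ} (B : Fin r → Fin n → ℤ) (I : Fin r → Fin n) :
    Matrix (Fin r) (Fin r) ℤ := Matrix.of fun l j => B l (I j)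

private theorem U3_inj {n r : ℕ} {B : Fin r → Fin n → ℤ} {I : Fin r → Fin n}
    (h : (U3_mat B I).det ≠ 0) : Function.Injective I := by
  intro i j hij
  by_contra hne
  exact h (Matrix.det_zero_of_column_eq hne fun k => by simp [U3_mat, hij])

/-- solution of the linear system by minors, all coordinates -/
private theorem U3_solve {n r : ℕ} {B : Fin r → Fin n → ℤ} {I : Fin r → Fin n}
    (v : Fin n → ℤ) (h0 : (U3_mat B I).det ≠ 0)
    (hz : ∀ i, (U3_mat (Fin.snoc B v : Fin (r + 1) → Fin n → ℤ)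
      (Fin.snoc I i : Fin (r + 1) → Fin n)).det = 0) (i : Fin n) :
    (U3_mat B I).det * v i =
      ∑ l, ((U3_mat B I).updateRow l fun j => v (I j)).det * B l i := by
  set A := U3_mat B I with hA
  set b : Fin r → ℤ := fun j => v (I j) with hb
  set c : Fin r → ℤ := Matrix.cramer Aᵀ b with hc
  have hcl : ∀ l, c l = (A.updateRow l b).det := fun l => Matrix.cramer_transpose_apply _ _ _
  have hcA : c ᵥ* A = A.det • b := by
    have h1 := Matrix.mulVec_cramer Aᵀ b
    rw [Matrix.mulVec_transpose, Matrix.det_transpose] at h1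
    exact h1
  -- block matrix
  let P : Matrix (Fin r ⊕ Unit) (Fin r ⊕ Unit) ℤ :=
    Matrix.fromBlocks A (Matrix.of fun l _ => B l i) (Matrix.of fun _ j => b j)
      (Matrix.of fun _ _ => v i)
  have hP : P.det = 0 := by
    rw [← hz i]
    let e : Fin r ⊕ Unit ≃ Fin (r + 1) :=
      (Equiv.sumCongr (Equiv.refl (Fin r)) (Equiv.equivPUnit (Fin 1)).symm).trans finSumFinEquiv
    have he1 : ∀ l : Fin r, e (Sum.inl l) = Fin.castSucc l := fun l => rfl
    have he2 : ∀ u : Unit, e (Sum.inr u) = Fin.last r := fun u => by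
      apply Fin.ext
      simp [e]
    have h2 : P = (U3_mat (Fin.snoc B v : Fin (r + 1) → Fin n → ℤ)
      (Fin.snoc I i : Fin (r + 1) → Fin n)).submatrix e e := by
      ext x y
      rcases x with l | u <;> rcases y with j | u'
      · simp only [Matrix.submatrix_apply, he1, U3_mat, Matrix.of_apply, Fin.snoc_castSucc]
        rfl
      · simp only [Matrix.submatrix_apply, he1, he2, U3_mat, Matrix.of_apply, Fin.snoc_castSucc,
          Fin.snoc_last]
        rfl
      · simp only [Matrix.submatrix_apply, he1, he2, U3_mat, Matrix.of_apply, Fin.snoc_castSucc,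
          Fin.snoc_last]
        rfl
      · simp only [Matrix.submatrix_apply, he2, U3_mat, Matrix.of_apply, Fin.snoc_last]
        rfl
    rw [h2, Matrix.det_submatrix_equiv_self]
  let U : Matrix (Fin r ⊕ Unit) (Fin r ⊕ Unit) ℤ :=
    Matrix.fromBlocks 1 0 (Matrix.of fun _ l => - c l) (Matrix.of fun _ _ => A.det)
  have hUP : U * P = Matrix.fromBlocks A (Matrix.of fun l _ => B l i) 0
      (Matrix.of fun _ _ => A.det * v i - ∑ l, c l * B l i) := by
    rw [Matrix.fromBlocks_multiply]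
    congr 1
    · simp
    · simp
    · ext u j
      have h3 := congrFun hcA j
      simp only [Matrix.vecMul, dotProduct, Pi.smul_apply, smul_eq_mul] at h3
      simp only [Matrix.add_apply, Matrix.mul_apply, Matrix.of_apply, Matrix.zero_apply,
        Finset.univ_unique, Finset.sum_singleton, neg_mul, Finset.sum_neg_distrib]
      linarith
    · ext u j
      simp only [Matrix.add_apply, Matrix.mul_apply, Matrix.of_apply,
        Finset.univ_unique, Finset.sum_singleton, neg_mul, Finset.sum_neg_distrib]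
      ring
  have h4 : (U * P).det = 0 := by rw [Matrix.det_mul, hP, mul_zero]
  rw [hUP, Matrix.det_fromBlocks_zero₂₁] at h4
  have h5 := (mul_eq_zero.1 h4).resolve_left h0
  rw [Matrix.det_unique] at h5
  simp only [Matrix.of_apply] at h5
  simp only [← hcl]
  linarith

private theorem U3_lin (n b : ℕ) (hb : 1 ≤ b) (S : Finset (Fin n → ℤ))
    (hS : ∀ v ∈ S, ∀ i, |v i| ≤ b) (hne : ∃ v ∈ S, v ≠ 0) (w : Fin n → ℤ) (hw : w ≠ 0)
    (hort : ∀ v ∈ S, ∑ i, w i * v i = 0) :
    ∃ (r Δ : ℕ) (B : Fin r → Fin n → ℤ) (γ : (Fin n → ℤ) → Fin r → ℤ), 1 ≤ r ∧ r < n ∧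
      1 ≤ Δ ∧ Δ ≤ n.factorial * b ^ n ∧ (∀ l, B l ∈ S) ∧
      (∀ c : Fin r → ℤ, (∀ i, ∑ l, c l * B l i = 0) → c = 0) ∧
      ∀ v ∈ S, (∀ l, |γ v l| ≤ Δ) ∧ ∀ i, (Δ : ℤ) * v i = ∑ l, γ v l * B l i := by
  classical
  let R : Set ℕ := {r | ∃ (B : Fin r → Fin n → ℤ) (I : Fin r → Fin n), (∀ l, B l ∈ S) ∧
    (U3_mat B I).det ≠ 0}
  have hRn : ∀ r ∈ R, r ≤ n := by
    rintro r ⟨B, I, _, h0⟩
    have := Fintype.card_le_of_injective I (U3_inj h0)
    simpa using this
  have h1R : 1 ∈ R := by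
    obtain ⟨v, hv, hv0⟩ := hne
    obtain ⟨i, hi⟩ := Function.ne_iff.1 hv0
    refine ⟨fun _ => v, fun _ => i, fun _ => hv, ?_⟩
    rw [Matrix.det_unique]
    exact hi
  have hfin : R.Finite := (Set.finite_Iic n).subset hRn
  obtain ⟨r, hr, hmax⟩ := Set.exists_max_image R id hfin ⟨1, h1R⟩
  have h1r : 1 ≤ r := hmax 1 h1R
  -- maximal determinant
  obtain ⟨B0, I0, hB0, hd0⟩ := hr
  have hne' : Nonempty ((Fin r → S) × (Fin r → Fin n)) := ⟨⟨fun l => ⟨B0 l, hB0 l⟩, I0⟩⟩
  obtain ⟨⟨B', I⟩, hBI⟩ := Finite.exists_max (α := (Fin r → S) × (Fin r → Fin n))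
    fun p => |(U3_mat (fun l => (p.1 l : Fin n → ℤ)) p.2).det|
  let B : Fin r → Fin n → ℤ := fun l => B' l
  have hBS : ∀ l, B l ∈ S := fun l => (B' l).2
  have hdet : (U3_mat B I).det ≠ 0 := by
    intro h0
    have h2 := hBI ⟨fun l => ⟨B0 l, hB0 l⟩, I0⟩
    have h3 : |(U3_mat B0 I0).det| ≤ |(U3_mat B I).det| := h2
    rw [h0, abs_zero] at h3
    exact hd0 (abs_eq_zero.1 (le_antisymm h3 (abs_nonneg _)))
  have hIinj := U3_inj hdet
  have hzero : ∀ v ∈ S, ∀ i, (U3_mat (Fin.snoc B v : Fin (r + 1) → Fin n → ℤ)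
      (Fin.snoc I i : Fin (r + 1) → Fin n)).det = 0 := by
    intro v hv i
    by_contra hcon
    have : r + 1 ∈ R := by
      refine ⟨_, _, ?_, hcon⟩
      intro l
      refine Fin.lastCases ?_ (fun l => ?_) l
      · rw [Fin.snoc_last]; exact hv
      · rw [Fin.snoc_castSucc]; exact hBS l
    have := hmax _ this
    simp only [id_eq] at this
    omega
  have hindep : ∀ c : Fin r → ℤ, (∀ i, ∑ l, c l * B l i = 0) → c = 0 := by
    intro c hc
    refine Matrix.eq_zero_of_vecMul_eq_zero hdet ?_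
    funext j
    exact hc (I j)
  set D : ℤ := (U3_mat B I).det with hD
  refine ⟨r, D.natAbs, B, fun v l => D.sign * ((U3_mat B I).updateRow l fun j => v (I j)).det,
    h1r, ?_, ?_, ?_, hBS, hindep, ?_⟩
  · refine lt_of_le_of_ne (hRn r ⟨B, I, hBS, hdet⟩) ?_
    rintro rfl
    apply hw
    have hbij : Function.Bijective I := Finite.injective_iff_bijective.1 hIinj
    have h5 : (U3_mat B I) *ᵥ (fun j => w (I j)) = 0 := by
      funext l
      have h6 : ∑ j, B l (I j) * w (I j) = ∑ i, B l i * w i :=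
        Function.Bijective.sum_comp hbij fun i => B l i * w i
      have h7 := hort _ (hBS l)
      simp only [Matrix.mulVec, dotProduct, U3_mat, Matrix.of_apply, Pi.zero_apply]
      rw [h6, ← h7]
      exact Finset.sum_congr rfl fun i _ => mul_comm _ _
    have h8 := Matrix.eq_zero_of_mulVec_eq_zero hdet h5
    funext i
    obtain ⟨j, rfl⟩ := hbij.2 i
    exact congrFun h8 j
  · exact Int.natAbs_pos.2 hdet
  · have h9 : |D| ≤ (r.factorial : ℤ) * (b : ℤ) ^ r := by
      have := Matrix.det_le (A := U3_mat B I) (abv := (AbsoluteValue.abs : AbsoluteValue ℤ ℤ))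
        (x := (b : ℤ)) (fun l j => hS _ (hBS l) _)
      simpa [nsmul_eq_mul] using this
    have h10 : D.natAbs ≤ r.factorial * b ^ r := by
      have h11 : (D.natAbs : ℤ) = |D| := Int.natCast_natAbs D
      have : (D.natAbs : ℤ) ≤ ((r.factorial * b ^ r : ℕ) : ℤ) := by
        rw [h11]; push_cast; exact h9
      exact_mod_cast this
    have hrn : r ≤ n := hRn r ⟨B, I, hBS, hdet⟩
    exact h10.trans (Nat.mul_le_mul (Nat.factorial_le hrn) (Nat.pow_le_pow_right hb hrn))
  · intro v hv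
    constructor
    · intro l
      have h12 : |((U3_mat B I).updateRow l fun j => v (I j)).det| ≤ |D| := by
        have h13 := hBI ⟨Function.update B' l ⟨v, hv⟩, I⟩
        have h14 : U3_mat (fun m => ((Function.update B' l ⟨v, hv⟩ : Fin r → S) m : Fin n → ℤ)) I =
            (U3_mat B I).updateRow l fun j => v (I j) := by
          ext m j
          rcases eq_or_ne m l with rfl | hml
          · simp [U3_mat]
          · simp [U3_mat, hml, B]
        simp only [h14] at h13
        exact h13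
      rw [abs_mul, Int.natCast_natAbs]
      have h15 : |D.sign| = 1 := by
        rcases lt_trichotomy D 0 with h | h | h
        · rw [Int.sign_eq_neg_one_of_neg h]; rfl
        · exact absurd h hdet
        · rw [Int.sign_eq_one_of_pos h]; rfl
      rw [h15, one_mul]
      exact h12
    · intro i
      have h16 := U3_solve (B := B) (I := I) v hdet (hzero v hv) i
      rw [Int.natCast_natAbs, ← Int.sign_mul_self_eq_abs, mul_assoc, h16, Finset.mul_sum]
      exact Finset.sum_congr rfl fun l _ => by ring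

end U3lin

private theorem U3_deg {K Ω : Type} [Field K] [Field Ω] [Algebra K Ω] {Δ : ℕ} (hΔ : 1 ≤ Δ) :
    ∀ (s : ℕ) (y : Fin s → Ω), (∀ i, ∃ c : K, y i ^ Δ = algebraMap K Ω c) →
      Module.finrank K (IntermediateField.adjoin K (Set.range y)) ≤ Δ ^ s := by
  intro s
  induction s with
  | zero =>
    intro y _
    rw [Set.range_eq_empty, IntermediateField.adjoin_empty, IntermediateField.finrank_bot, pow_zero]
  | succ s ih =>
    intro y hy
    have h1 : Set.range y = {y (Fin.last s)} ∪ Set.range (fun i : Fin s => y i.castSucc) := by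
      ext x
      constructor
      · rintro ⟨i, rfl⟩
        refine Fin.lastCases (Or.inl rfl) (fun j => Or.inr ⟨j, rfl⟩) i
      · rintro (h | ⟨j, rfl⟩)
        · exact ⟨_, h.symm⟩
        · exact ⟨_, rfl⟩
    rw [h1, IntermediateField.adjoin_union]
    refine (IntermediateField.finrank_sup_le _ _).trans ?_
    rw [pow_succ, mul_comm]
    refine Nat.mul_le_mul (ih _ fun i => hy _) ?_
    obtain ⟨c, hc⟩ := hy (Fin.last s)
    have hp : Polynomial.aeval (y (Fin.last s)) (Polynomial.X ^ Δ - Polynomial.C c) = 0 := by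
      simp [hc]
    have hm : (Polynomial.X ^ Δ - Polynomial.C c : Polynomial K).Monic :=
      Polynomial.monic_X_pow_sub_C c (by omega)
    have hint : IsIntegral K (y (Fin.last s)) := ⟨_, hm, by
      rw [← Polynomial.aeval_def]; exact hp⟩
    rw [IntermediateField.adjoin.finrank hint]
    have h2 := Polynomial.natDegree_le_of_dvd (minpoly.dvd K _ hp) hm.ne_zero
    rwa [Polynomial.natDegree_X_pow_sub_C] at h2

private theorem U3_field {K : Type} [Field K] [NumberField K] {M Δ r : ℕ} (hM : 0 < M)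
    (hΔ : 1 ≤ Δ) {ζ : K} (hζ : IsPrimitiveRoot ζ M) (x : Fin r → K) :
    ∃ (K' : Type) (_ : Field K') (_ : NumberField K') (_ : Algebra K K') (β : Fin r → K')
      (ζ' : K'), (∀ l, β l ^ Δ = algebraMap K K' (x l)) ∧ IsPrimitiveRoot ζ' (M * Δ) ∧
      Module.finrank K K' ≤ Δ ^ (r + 1) := by
  let Ω := AlgebraicClosure K
  have hM' : NeZero M := ⟨hM.ne'⟩
  have hN : NeZero (M * Δ) := ⟨(Nat.mul_pos hM hΔ).ne'⟩
  have hchar : CharZero Ω := charZero_of_injective_algebraMap (algebraMap K Ω).injective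
  have hNΩ : NeZero ((M * Δ : ℕ) : Ω) := ⟨Nat.cast_ne_zero.2 hN.out⟩
  have hNK : NeZero ((M * Δ : ℕ) : K) := ⟨Nat.cast_ne_zero.2 hN.out⟩
  obtain ⟨z, hz⟩ := HasEnoughRootsOfUnity.exists_primitiveRoot Ω (M * Δ)
  have hβ : ∀ l, ∃ β : Ω, β ^ Δ = algebraMap K Ω (x l) := fun l =>
    IsAlgClosed.exists_pow_nat_eq _ hΔ
  choose β hβ using hβ
  have hzΔ : ∃ c : K, z ^ Δ = algebraMap K Ω c := by
    have h1 : IsPrimitiveRoot (algebraMap K Ω ζ) M :=
      hζ.map_of_injective (algebraMap K Ω).injective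
    have h2 : (z ^ Δ) ^ M = 1 := by rw [← pow_mul, mul_comm]; exact hz.pow_eq_one
    obtain ⟨i, _, hi⟩ := h1.eq_pow_of_pow_eq_one h2
    exact ⟨ζ ^ i, by rw [map_pow, hi]⟩
  let y : Fin (r + 1) → Ω := Fin.snoc β z
  have hyΔ : ∀ i, ∃ c : K, y i ^ Δ = algebraMap K Ω c := by
    intro i
    refine Fin.lastCases ?_ (fun l => ?_) i
    · simp only [y, Fin.snoc_last]; exact hzΔ
    · simp only [y, Fin.snoc_castSucc]; exact ⟨_, hβ l⟩
  let K' : IntermediateField K Ω := IntermediateField.adjoin K (Set.range y)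
  have hfd : FiniteDimensional K K' := by
    refine IntermediateField.finiteDimensional_adjoin fun x _ => ?_
    exact (Algebra.IsAlgebraic.isAlgebraic x).isIntegral
  have hnf : NumberField K' := NumberField.of_module_finite K K'
  have hyK : ∀ i, y i ∈ K' := fun i => IntermediateField.subset_adjoin K _ ⟨i, rfl⟩
  have hβK : ∀ l, β l ∈ K' := fun l => by
    have := hyK l.castSucc
    simpa [y] using this
  have hzK : z ∈ K' := by
    have := hyK (Fin.last r)
    simpa [y] using this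
  refine ⟨K', inferInstance, hnf, inferInstance, fun l => ⟨β l, hβK l⟩, ⟨z, hzK⟩, ?_, ?_, ?_⟩
  · intro l
    apply Subtype.ext
    exact hβ l
  · exact IsPrimitiveRoot.of_map_of_injective (f := algebraMap K' Ω) hz (algebraMap K' Ω).injective
  · exact U3_deg hΔ (r + 1) y hyΔ

/-- the cyclotomic subfield contains all roots of unity and the image of the smaller one -/
private theorem U3_cyc {k K' : Type} [Field k] [NumberField k] [Field K'] [NumberField K']
    {M N : ℕ} (Z : BMF.Cyc M k) (ψ : k →+* K') (hMN : M ∣ N) (hN : 0 < N) {ζ' : K'}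
    (hζ' : IsPrimitiveRoot ζ' N) :
    ∃ (k' : Type) (_ : Field k') (_ : NumberField k') (_ : Algebra k' K') (_ : BMF.Cyc N k'),
      (∀ x : K', x ^ N = 1 → ∃ y : k', algebraMap k' K' y = x) ∧
      (∀ a : k, ∃ y : k', algebraMap k' K' y = ψ a) := by
  obtain ⟨k', i1, i2, i3, ⟨Z'⟩⟩ := BMF.exists_cyc hN hζ'
  have hN' : NeZero N := ⟨hN.ne'⟩
  have h1 : ∀ x : K', x ^ N = 1 → ∃ y : k', algebraMap k' K' y = x := by
    intro x hx
    have h2 : IsPrimitiveRoot (algebraMap k' K' Z'.ζ) N :=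
      Z'.prim.map_of_injective (algebraMap k' K').injective
    obtain ⟨i, _, hi⟩ := h2.eq_pow_of_pow_eq_one hx
    exact ⟨Z'.ζ ^ i, by rw [map_pow, hi]⟩
  refine ⟨k', i1, i2, i3, Z', h1, ?_⟩
  let f : k' →ₐ[ℚ] K' := RingHom.toRatAlgHom (algebraMap k' K')
  let g : k →ₐ[ℚ] K' := RingHom.toRatAlgHom ψ
  have h3 : IntermediateField.adjoin ℚ {Z.ζ} ≤ f.fieldRange.comap g := by
    rw [IntermediateField.adjoin_le_iff]
    rintro _ rfl
    have h4 : (ψ Z.ζ) ^ N = 1 := by
      rw [← map_pow]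
      obtain ⟨d, rfl⟩ := hMN
      rw [pow_mul, Z.prim.pow_eq_one, one_pow, map_one]
    obtain ⟨y, hy⟩ := h1 _ h4
    exact ⟨y, hy⟩
  rw [Z.gen] at h3
  intro a
  obtain ⟨y, hy⟩ := h3 (show a ∈ (⊤ : IntermediateField ℚ k) from trivial)
  exact ⟨y, hy⟩

section U3aux

open BMF

private theorem U3_ev {k K : Type} [Field k] [NumberField k] [Field K] [NumberField K]
    [Algebra k K] {n : ℕ} (g : Fin n → K) (A : MvPolynomial (Fin n) k) :
    ev (RingHom.id k) 1 g A = ∑ a ∈ A.support, algebraMap k K (coeff a A) * ∏ i, g i ^ a i := by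
  unfold ev
  rw [coe_eval₂Hom, eval₂_eq']
  refine Finset.sum_congr rfl fun a _ => ?_
  simp only [pow_one]
  rfl

private theorem U3_ht_le {K : Type} [Field K] [NumberField K] {n b : ℕ} (g : Fin n → K)
    (h : ℝ) (hh : ∀ i, ht (g i) ≤ h) (v : Fin n → ℤ) (hv : ∀ i, |v i| ≤ b) :
    ht (∏ i, g i ^ v i) ≤ n * b * h := by
  classical
  have h1 : ∀ s : Finset (Fin n), ht (∏ i ∈ s, g i ^ v i) ≤ ∑ i ∈ s, (b : ℝ) * h := by
    intro s
    induction s using Finset.induction_on with
    | empty => simp [ht_one]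
    | insert a s ha ih =>
      rw [Finset.prod_insert ha, Finset.sum_insert ha]
      refine (ht_mul_le _ _).trans (add_le_add ?_ ih)
      rw [ht_zpow]
      have h2 : |(v a : ℝ)| ≤ b := by exact_mod_cast hv a
      exact mul_le_mul h2 (hh a) (ht_nonneg _) (Nat.cast_nonneg _)
  refine (h1 Finset.univ).trans_eq ?_
  rw [Finset.sum_const, Finset.card_univ, Fintype.card_fin, nsmul_eq_mul, mul_assoc]

private theorem U3_prod_zpow {K : Type} [Field K] {n r : ℕ} (g : Fin n → K) (hg : ∀ i, g i ≠ 0)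
    (B : Fin r → Fin n → ℤ) (c : Fin r → ℤ) :
    ∏ l, (∏ i, g i ^ B l i) ^ c l = ∏ i, g i ^ ∑ l, c l * B l i := by
  simp only [← Finset.prod_zpow]
  rw [Finset.prod_comm]
  refine Finset.prod_congr rfl fun i _ => ?_
  have h1 : ∀ s : Finset (Fin r), ∏ l ∈ s, (g i ^ B l i) ^ c l = g i ^ ∑ l ∈ s, c l * B l i := by
    classical
    intro s
    induction s using Finset.induction_on with
    | empty => simp
    | insert a s ha ih =>
      rw [Finset.prod_insert ha, Finset.sum_insert ha, ih, zpow_add₀ (hg i), ← zpow_mul, mul_comm (B a i)]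
  exact h1 _

end U3aux

theorem reduce_hom (n : ℕ) (M : ℕ) (k K : Type) [Field k] [NumberField k] [Field K]
    [NumberField K] [Algebra k K] (Z : BMF.Cyc M k) (g : Fin n → K) (hg : ∀ i, g i ≠ 0)
    (hI : MInd g) (h : ℝ) (hh : ∀ i, BMF.ht (g i) ≤ h) (b : ℕ) (hb : 1 ≤ b)
    (A : MvPolynomial (Fin n) k) (hA : A ∈ V k n b) (hA0 : A ≠ 0)
    (hAg : ev (RingHom.id k) 1 g A = 0) (w : Fin n → ℤ) (hw : w ≠ 0)
    (hwt : ∀ a ∈ A.support, ∀ a' ∈ A.support, wgt w a = wgt w a') :
    ∃ (n' Δ : ℕ), 1 ≤ n' ∧ n' < n ∧ 1 ≤ Δ ∧ Δ ≤ n.factorial * b ^ n ∧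
      ∃ (M' : ℕ) (k' K' : Type) (_ : Field k') (_ : NumberField k') (_ : Field K')
        (_ : NumberField K') (_ : Algebra k' K') (_ : BMF.Cyc M' k') (β : Fin n' → K')
        (Q : MvPolynomial (Fin n') k'),
        (∀ i, β i ≠ 0) ∧ MInd β ∧ (∀ i, BMF.ht (β i) ≤ n * b * h / Δ) ∧
        Module.finrank ℚ K' ≤ Module.finrank ℚ K * Δ ^ (n' + 1) ∧
        Q ∈ V k' n' (2 * Δ) ∧ Q ≠ 0 ∧ ev (RingHom.id k') 1 β Q = 0 := by
  classical
  -- the support
  have hsupp : A.support.Nonempty := MvPolynomial.support_nonempty.2 hA0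
  obtain ⟨a0, ha0⟩ := hsupp
  have hab : ∀ a ∈ A.support, ∀ i, a i ≤ b := fun a ha i =>
    (MvPolynomial.degreeOf_le_iff.1 (hA i)) a ha
  -- a second element
  have hsec : ∃ a ∈ A.support, a ≠ a0 := by
    by_contra hcon
    push Not at hcon
    have h1 : A.support = {a0} := by
      ext a
      rw [Finset.mem_singleton]
      exact ⟨hcon a, fun h => h ▸ ha0⟩
    rw [U3_ev, h1, Finset.sum_singleton] at hAg
    rcases mul_eq_zero.1 hAg with h2 | h2
    · exact (MvPolynomial.mem_support_iff.1 ha0) ((map_eq_zero _).1 h2)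
    · exact Finset.prod_ne_zero_iff.2 (fun i _ => pow_ne_zero _ (hg i)) h2
  let df : (Fin n →₀ ℕ) × (Fin n →₀ ℕ) → Fin n → ℤ := fun p i => (p.1 i : ℤ) - p.2 i
  let S : Finset (Fin n → ℤ) := (A.support ×ˢ A.support).image df
  have hS : ∀ v ∈ S, ∀ i, |v i| ≤ b := by
    intro v hv i
    obtain ⟨⟨a, a'⟩, hp, rfl⟩ := Finset.mem_image.1 hv
    rw [Finset.mem_product] at hp
    have h1 := hab a hp.1 i
    have h2 := hab a' hp.2 i
    simp only [df]
    rw [abs_le]
    constructor <;> omega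
  have hne : ∃ v ∈ S, v ≠ 0 := by
    obtain ⟨a, ha, hne⟩ := hsec
    refine ⟨df (a, a0), Finset.mem_image.2 ⟨(a, a0), Finset.mem_product.2 ⟨ha, ha0⟩, rfl⟩, ?_⟩
    intro h0
    apply hne
    ext i
    have := congrFun h0 i
    simp only [df, Pi.zero_apply] at this
    omega
  have hort : ∀ v ∈ S, ∑ i, w i * v i = 0 := by
    intro v hv
    obtain ⟨⟨a, a'⟩, hp, rfl⟩ := Finset.mem_image.1 hv
    rw [Finset.mem_product] at hp
    have h1 := hwt a hp.1 a' hp.2
    simp only [wgt] at h1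
    simp only [df, mul_sub, Finset.sum_sub_distrib]
    rw [h1, sub_self]
  obtain ⟨r, Δ, B, γ, hr1, hrn, hΔ1, hΔb, hBS, hBind, hγ⟩ := U3_lin n b hb S hS hne w hw hort
  -- fields
  have hζ : IsPrimitiveRoot (algebraMap k K Z.ζ) M :=
    Z.prim.map_of_injective (algebraMap k K).injective
  let x : Fin r → K := fun l => ∏ i, g i ^ B l i
  obtain ⟨K', i1, i2, i3, β, ζ', hβ, hζ', hdeg⟩ := U3_field Z.pos hΔ1 hζ x
  let ψ : k →+* K' := (algebraMap K K').comp (algebraMap k K)
  obtain ⟨k', j1, j2, j3, Z', hroot, hcoef⟩ := U3_cyc Z ψ (Dvd.intro Δ rfl)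
    (Nat.mul_pos Z.pos hΔ1) hζ'
  have hx0 : ∀ l, x l ≠ 0 := fun l =>
    Finset.prod_ne_zero_iff.2 fun i _ => zpow_ne_zero _ (hg i)
  have hβ0 : ∀ l, β l ≠ 0 := by
    intro l h0
    have h1 := hβ l
    rw [h0, zero_pow (by omega)] at h1
    exact hx0 l ((map_eq_zero _).1 h1.symm)
  let G : Fin n → K' := fun i => algebraMap K K' (g i)
  have hG0 : ∀ i, G i ≠ 0 := fun i => (map_ne_zero _).2 (hg i)
  have hxG : ∀ l, β l ^ Δ = ∏ i, G i ^ B l i := by
    intro l
    rw [hβ l, map_prod]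
    exact Finset.prod_congr rfl fun i _ => map_zpow₀ _ _ _
  have hβc : ∀ c : Fin r → ℤ, (∏ l, β l ^ c l) ^ Δ = ∏ i, G i ^ ∑ l, c l * B l i := by
    intro c
    rw [← U3_prod_zpow G hG0 B c, ← Finset.prod_pow]
    refine Finset.prod_congr rfl fun l _ => ?_
    rw [← hxG l, ← zpow_natCast, ← zpow_natCast, ← zpow_mul, ← zpow_mul, mul_comm]
  -- data attached to exponents
  let va : (Fin n →₀ ℕ) → Fin n → ℤ := fun a => df (a, a0)
  have hva : ∀ a ∈ A.support, va a ∈ S := fun a ha =>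
    Finset.mem_image.2 ⟨(a, a0), Finset.mem_product.2 ⟨ha, ha0⟩, rfl⟩
  let Γ : (Fin n →₀ ℕ) → Fin r → ℤ := fun a => γ (va a)
  have hΓ : ∀ a ∈ A.support, ∀ l, |Γ a l| ≤ Δ := fun a ha => (hγ _ (hva a ha)).1
  have hΓB : ∀ a ∈ A.support, ∀ i, (Δ : ℤ) * va a i = ∑ l, Γ a l * B l i :=
    fun a ha => (hγ _ (hva a ha)).2
  let ε : (Fin n →₀ ℕ) → K' := fun a => (∏ i, G i ^ va a i) / ∏ l, β l ^ Γ a l
  have hε : ∀ a ∈ A.support, ε a ^ Δ = 1 := by
    intro a ha
    have h1 : (∏ i, G i ^ va a i) ^ Δ = ∏ i, G i ^ ∑ l, Γ a l * B l i := by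
      rw [← Finset.prod_pow]
      refine Finset.prod_congr rfl fun i _ => ?_
      rw [← hΓB a ha i, ← zpow_natCast, ← zpow_mul, mul_comm]
    simp only [ε]
    rw [div_pow, hβc, h1]
    exact div_self (Finset.prod_ne_zero_iff.2 fun i _ => zpow_ne_zero _ (hG0 i))
  have hc : ∀ a : Fin n →₀ ℕ, ∃ c : k', a ∈ A.support →
      algebraMap k' K' c = ψ (coeff a A) * ε a := by
    intro a
    by_cases ha : a ∈ A.support
    · obtain ⟨y, hy⟩ := hroot (ε a) (by rw [mul_comm, pow_mul, hε a ha, one_pow])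
      obtain ⟨y', hy'⟩ := hcoef (coeff a A)
      exact ⟨y' * y, fun _ => by rw [map_mul, hy, hy']⟩
    · exact ⟨0, fun h => absurd h ha⟩
  choose c hc using hc
  have hε0 : ∀ a, ε a ≠ 0 := fun a => div_ne_zero
    (Finset.prod_ne_zero_iff.2 fun i _ => zpow_ne_zero _ (hG0 i))
    (Finset.prod_ne_zero_iff.2 fun i _ => zpow_ne_zero _ (hβ0 i))
  have hc0 : ∀ a ∈ A.support, c a ≠ 0 := by
    intro a ha h0
    have h1 := hc a ha
    rw [h0, map_zero] at h1
    rcases mul_eq_zero.1 h1.symm with h2 | h2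
    · exact (MvPolynomial.mem_support_iff.1 ha) ((map_eq_zero _).1 h2)
    · exact hε0 a h2
  let E : (Fin n →₀ ℕ) → (Fin r →₀ ℕ) := fun a =>
    Finsupp.equivFunOnFinite.symm fun l => (Γ a l + Δ).toNat
  have hE : ∀ a ∈ A.support, ∀ l, ((E a l : ℕ) : ℤ) = Γ a l + Δ := by
    intro a ha l
    have h1 := (abs_le.1 (hΓ a ha l)).1
    have h2 : E a l = (Γ a l + Δ).toNat := rfl
    rw [h2, Int.toNat_of_nonneg (by linarith)]
  have hEinj : ∀ a ∈ A.support, ∀ a' ∈ A.support, E a = E a' → a = a' := by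
    intro a ha a' ha' he
    have h1 : ∀ l, Γ a l = Γ a' l := by
      intro l
      have h2 := hE a ha l
      have h3 := hE a' ha' l
      rw [he] at h2
      linarith
    ext i
    have h2 := hΓB a ha i
    have h3 := hΓB a' ha' i
    simp only [h1] at h2
    rw [← h3] at h2
    have h4 : va a i = va a' i := mul_left_cancel₀ (by
      have : (0 : ℤ) < Δ := by exact_mod_cast hΔ1
      exact this.ne') h2
    simp only [va, df] at h4
    omega
  let Q : MvPolynomial (Fin r) k' := ∑ a ∈ A.support, monomial (E a) (c a)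
  refine ⟨r, Δ, hr1, hrn, hΔ1, hΔb, M * Δ, k', K', j1, j2, i1, i2, j3, Z', β, Q, hβ0, ?_, ?_, ?_,
    ?_, ?_, ?_⟩
  · -- multiplicative independence
    intro e he
    have h1 := hβc e
    rw [he, one_pow] at h1
    have h2 : algebraMap K K' (∏ i, g i ^ ∑ l, e l * B l i) = 1 := by
      rw [map_prod]
      have h3 : ∀ i, algebraMap K K' (g i ^ ∑ l, e l * B l i) = G i ^ ∑ l, e l * B l i :=
        fun i => map_zpow₀ _ _ _
      simp only [h3]
      exact h1.symm
    have h4 : ∏ i, g i ^ (fun i => ∑ l, e l * B l i) i = 1 := by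
      apply (algebraMap K K').injective
      rw [map_one]
      exact h2
    have h5 := hI _ h4
    exact hBind e fun i => congrFun h5 i
  · intro l
    have hΔ' : (0 : ℝ) < Δ := by exact_mod_cast hΔ1
    rw [le_div_iff₀ hΔ', mul_comm, ← BMF.ht_pow, hβ l, U3_ht_algebraMap]
    exact U3_ht_le g h hh _ (hS _ (hBS l))
  · have h1 : Module.finrank ℚ K' = Module.finrank ℚ K * Module.finrank K K' :=
      (Module.finrank_mul_finrank ℚ K K').symm
    rw [h1]
    exact Nat.mul_le_mul_left _ hdeg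
  · refine Submodule.sum_mem _ fun a ha l => ?_
    refine MvPolynomial.degreeOf_le_iff.2 fun m hm => ?_
    have h1 : m = E a := by
      have := MvPolynomial.support_monomial_subset hm
      simpa using this
    rw [h1]
    have h2 := hE a ha l
    have h3 := (abs_le.1 (hΓ a ha l)).2
    have h4 : ((E a l : ℕ) : ℤ) ≤ ((2 * Δ : ℕ) : ℤ) := by
      rw [h2]; push_cast; linarith
    exact_mod_cast h4
  · intro hQ
    have h1 : coeff (E a0) Q = c a0 := by
      simp only [Q]
      rw [MvPolynomial.coeff_sum, Finset.sum_eq_single a0]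
      · simp
      · intro a ha hne
        rw [MvPolynomial.coeff_monomial, if_neg]
        intro he
        exact hne (hEinj a ha a0 ha0 he)
      · intro h0
        exact absurd ha0 h0
    rw [hQ, MvPolynomial.coeff_zero] at h1
    exact hc0 a0 ha0 h1.symm
  · have h1 : ev (RingHom.id k') 1 β Q =
        ∑ a ∈ A.support, algebraMap k' K' (c a) * ∏ l, β l ^ E a l := by
      simp only [Q, map_sum]
      refine Finset.sum_congr rfl fun a _ => ?_
      unfold ev
      rw [coe_eval₂Hom, eval₂_monomial, Finsupp.prod_fintype _ _ (fun _ => pow_zero _)]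
      simp
    have h2 : ∀ a ∈ A.support, algebraMap k' K' (c a) * ∏ l, β l ^ E a l =
        ((∏ l, β l ^ Δ) * ∏ i, G i ^ (-(a0 i : ℤ))) *
          (ψ (coeff a A) * ∏ i, G i ^ a i) := by
      intro a ha
      have h3 : ∏ l, β l ^ E a l = (∏ l, β l ^ Γ a l) * ∏ l, β l ^ Δ := by
        rw [← Finset.prod_mul_distrib]
        refine Finset.prod_congr rfl fun l _ => ?_
        rw [← zpow_natCast, hE a ha l, zpow_add₀ (hβ0 l), zpow_natCast]
      have h4 : ∏ i, G i ^ va a i = (∏ i, G i ^ (-(a0 i : ℤ))) * ∏ i, G i ^ a i := by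
        rw [← Finset.prod_mul_distrib]
        refine Finset.prod_congr rfl fun i _ => ?_
        rw [← zpow_natCast (G i) (a i), ← zpow_add₀ (hG0 i)]
        congr 1
        simp only [va, df]
        ring
      have h5 : ε a * ∏ l, β l ^ Γ a l = ∏ i, G i ^ va a i :=
        div_mul_cancel₀ _ (Finset.prod_ne_zero_iff.2 fun i _ => zpow_ne_zero _ (hβ0 i))
      rw [hc a ha, h3]
      calc ψ (coeff a A) * ε a * ((∏ l, β l ^ Γ a l) * ∏ l, β l ^ Δ) =
          ψ (coeff a A) * (ε a * ∏ l, β l ^ Γ a l) * ∏ l, β l ^ Δ := by ring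
        _ = _ := by rw [h5, h4]; ring
    rw [h1, Finset.sum_congr rfl h2, ← Finset.mul_sum]
    have h6 : ∑ a ∈ A.support, ψ (coeff a A) * ∏ i, G i ^ a i =
        algebraMap K K' (ev (RingHom.id k) 1 g A) := by
      rw [U3_ev, map_sum]
      refine Finset.sum_congr rfl fun a _ => ?_
      rw [map_mul, map_prod]
      congr 1
      exact Finset.prod_congr rfl fun i _ => (map_pow _ _ _).symm
    rw [h6, hAg, map_zero, mul_zero]
end DR
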