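import Pool.Agent.Lib.MP_a325a5_ag.DR.U3

/-! 8.5, conclusion. -/

open NumberField MvPolynomial

namespace DR

private theorem U4_dg_le {k K : Type} [Field k] [NumberField k] [Field K] [NumberField K]
    [Algebra k K] {n : ℕ} (g : Fin n → K) : dg k g 1 ≤ Module.finrank ℚ K := by
  have : FiniteDimensional k K := Module.Finite.of_restrictScalars_finite ℚ k K
  have h1 : dg k g 1 ≤ Module.finrank k K := by
    unfold dg
    exact Submodule.finrank_le (IntermediateField.adjoin k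
      (Set.range fun i => g i ^ 1)).toSubalgebra.toSubmodule
  have h2 : Module.finrank ℚ k * Module.finrank k K = Module.finrank ℚ K :=
    Module.finrank_mul_finrank ℚ k K
  have h3 : 0 < Module.finrank ℚ k := Module.finrank_pos
  rw [← h2]
  exact h1.trans (Nat.le_mul_of_pos_left _ h3)

/-- the inequality at the end -/
private theorem U4_real (n : ℕ) (hn : 1 ≤ n) (η C1 c B E D o b h F : ℝ) (h0 : 0 < η)
    (hC1 : 1 ≤ C1) (hc : 0 < c) (hB : 1 ≤ B) (hE : 1 ≤ E) (hD : 1 ≤ D)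
    (hb : 0 < b) (hbC : b ≤ C1 * D ^ (η / 2) * o) (hoh : o * h < D ^ (-η))
    (hF1 : 1 ≤ F) (hF : F ≤ B * D ^ E)
    (hfin : c * F ^ (-(η / (4 * E))) ≤ 2 * n * b * h)
    (hthr : |2 * n * C1 * B ^ (η / (4 * E)) / c| ^ (4 / η) < D) : False := by
  have hn' : (1 : ℝ) ≤ n := by exact_mod_cast hn
  have hD0 : (0 : ℝ) < D := by linarith
  have hB0 : (0 : ℝ) < B := by linarith
  have hE0 : (0 : ℝ) < E := by linarith
  have hF0 : (0 : ℝ) < F := by linarith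
  have hη' : 0 < η / (4 * E) := by positivity
  have e1 : B ^ (-(η / (4 * E))) * D ^ (-(η / 4)) ≤ F ^ (-(η / (4 * E))) := by
    have e2 : (B * D ^ E) ^ (-(η / (4 * E))) ≤ F ^ (-(η / (4 * E))) :=
      Real.rpow_le_rpow_of_nonpos hF0 hF (by linarith)
    have e3 : (B * D ^ E) ^ (-(η / (4 * E))) = B ^ (-(η / (4 * E))) * D ^ (-(η / 4)) := by
      rw [Real.mul_rpow hB0.le (Real.rpow_nonneg hD0.le _), ← Real.rpow_mul hD0.le]
      congr 2
      field_simp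
    rw [← e3]
    exact e2
  have hpos : 0 < c * F ^ (-(η / (4 * E))) := mul_pos hc (Real.rpow_pos_of_pos hF0 _)
  have hh : 0 < h := by
    by_contra hh
    have : 2 * n * b * h ≤ 0 := mul_nonpos_of_nonneg_of_nonpos (by positivity) (not_lt.mp hh)
    linarith
  have e4 : 2 * n * b * h ≤ 2 * n * C1 * D ^ (η / 2) * (o * h) := by
    have : b * h ≤ C1 * D ^ (η / 2) * o * h := mul_le_mul_of_nonneg_right hbC hh.le
    calc 2 * n * b * h = 2 * n * (b * h) := by ring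
      _ ≤ 2 * n * (C1 * D ^ (η / 2) * o * h) := mul_le_mul_of_nonneg_left this (by positivity)
      _ = 2 * n * C1 * D ^ (η / 2) * (o * h) := by ring
  have e5 : 2 * n * C1 * D ^ (η / 2) * (o * h) < 2 * n * C1 * D ^ (η / 2) * D ^ (-η) :=
    mul_lt_mul_of_pos_left hoh (by positivity)
  have e6 : c * (B ^ (-(η / (4 * E))) * D ^ (-(η / 4))) < 2 * n * C1 * D ^ (η / 2) * D ^ (-η) :=
    lt_of_le_of_lt (mul_le_mul_of_nonneg_left e1 hc.le) (lt_of_le_of_lt hfin (lt_of_le_of_lt e4 e5))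
  -- multiply by `B ^ η' * D ^ (η / 2) / c`
  have e7 : D ^ (η / 4) < 2 * n * C1 * B ^ (η / (4 * E)) / c := by
    have hm : 0 < B ^ (η / (4 * E)) * D ^ (η / 2) / c := by positivity
    have e8 := mul_lt_mul_of_pos_right e6 hm
    have l1 : c * (B ^ (-(η / (4 * E))) * D ^ (-(η / 4))) * (B ^ (η / (4 * E)) * D ^ (η / 2) / c)
        = D ^ (η / 4) := by
      have a1 : B ^ (-(η / (4 * E))) * B ^ (η / (4 * E)) = 1 := by
        rw [← Real.rpow_add hB0, neg_add_cancel, Real.rpow_zero]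
      have a2 : D ^ (-(η / 4)) * D ^ (η / 2) = D ^ (η / 4) := by
        rw [← Real.rpow_add hD0]
        congr 1
        ring
      calc c * (B ^ (-(η / (4 * E))) * D ^ (-(η / 4))) * (B ^ (η / (4 * E)) * D ^ (η / 2) / c)
          = (c / c) * (B ^ (-(η / (4 * E))) * B ^ (η / (4 * E))) * (D ^ (-(η / 4)) * D ^ (η / 2)) := by
            ring
        _ = D ^ (η / 4) := by rw [a1, a2, div_self hc.ne']; ring
    have l2 : 2 * n * C1 * D ^ (η / 2) * D ^ (-η) * (B ^ (η / (4 * E)) * D ^ (η / 2) / c)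
        = 2 * n * C1 * B ^ (η / (4 * E)) / c := by
      have a2 : D ^ (η / 2) * D ^ (-η) * D ^ (η / 2) = 1 := by
        rw [← Real.rpow_add hD0, ← Real.rpow_add hD0]
        have : η / 2 + -η + η / 2 = 0 := by ring
        rw [this, Real.rpow_zero]
      calc 2 * n * C1 * D ^ (η / 2) * D ^ (-η) * (B ^ (η / (4 * E)) * D ^ (η / 2) / c)
          = 2 * n * C1 * B ^ (η / (4 * E)) / c * (D ^ (η / 2) * D ^ (-η) * D ^ (η / 2)) := by ring
        _ = 2 * n * C1 * B ^ (η / (4 * E)) / c := by rw [a2, mul_one]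
    rw [l1, l2] at e8
    exact e8
  have e9 : D ^ (η / 4) < |2 * n * C1 * B ^ (η / (4 * E)) / c| := lt_of_lt_of_le e7 (le_abs_self _)
  have e10 : D < |2 * n * C1 * B ^ (η / (4 * E)) / c| ^ (4 / η) := by
    have := Real.rpow_lt_rpow (Real.rpow_nonneg hD0.le _) e9 (show 0 < 4 / η by positivity)
    rw [← Real.rpow_mul hD0.le] at this
    have e : η / 4 * (4 / η) = 1 := by field_simp
    rw [e, Real.rpow_one] at this
    exact this
  linarith

theorem no_hom (n : ℕ) (hn : 1 ≤ n) (IH : ∀ n', 1 ≤ n' → n' < n → Un n') (η : ℝ) (h0 : 0 < η)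
    (h1 : η ≤ 1) (C : ℝ) :
    ∃ D0 : ℝ, ∀ (M : ℕ) (k K : Type) [Field k] [NumberField k] [Field K]
      [NumberField K] [Algebra k K] (_ : BMF.Cyc M k) (g : Fin n → K), (∀ i, g i ≠ 0) → MInd g →
      ∀ h : ℝ, (∀ i, BMF.ht (g i) ≤ h) → D0 ≤ Module.finrank ℚ K →
      (om k g : ℝ) * h < (Module.finrank ℚ K : ℝ) ^ (-η) →
      ∀ b : ℕ, 1 ≤ b → (b : ℝ) ≤ C * (Module.finrank ℚ K : ℝ) ^ (η / 2) * om k g →
      ∀ (A : MvPolynomial (Fin n) k), A ∈ V k n b → A ≠ 0 → ev (RingHom.id k) 1 g A = 0 →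
      ∀ w : Fin n → ℤ, w ≠ 0 → ¬ ∀ a ∈ A.support, ∀ a' ∈ A.support, wgt w a = wgt w a' := by
  set C1 : ℝ := max C 1 with hC1
  have hC11 : 1 ≤ C1 := le_max_right _ _
  set B : ℝ := ((n.factorial : ℝ) * C1 ^ n) ^ n with hB
  set E : ℝ := ((1 + 2 * n * n : ℕ) : ℝ) with hE
  have hfac : (1 : ℝ) ≤ n.factorial := by exact_mod_cast Nat.succ_le_of_lt n.factorial_pos
  have hB1 : 1 ≤ B := one_le_pow₀ (by nlinarith [one_le_pow₀ hC11 (n := n)])
  have hE1 : 1 ≤ E := by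
    rw [hE]
    exact_mod_cast Nat.le_add_right 1 _
  have hη' : 0 < η / (4 * E) := by positivity
  choose! c hc0 hc using fun (n' : ℕ) (h : 1 ≤ n' ∧ n' < n) => IH n' h.1 h.2 (η / (4 * E)) hη'
  refine ⟨1 + ∑ n' ∈ Finset.range n, |2 * n * C1 * B ^ (η / (4 * E)) / c n'| ^ (4 / η), ?_⟩
  intro M k K _ _ _ _ _ Z g hg hI h hh hD hoh b hb hbC A hA hA0 hAg w hw hwt
  obtain ⟨n', Δ, hn1, hn2, hΔ1, hΔ2, M', k', K', i1, i2, i3, i4, i5, Z', β, Q, hβ, hβI, hβh, hfr,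
    hQ, hQ0, hQβ⟩ := reduce_hom n M k K Z g hg hI h hh b hb A hA hA0 hAg w hw hwt
  have key := hc n' ⟨hn1, hn2⟩ M' k' K' Z' β hβ hβI (2 * Δ) Q (by omega) hQ hQ0 hQβ
    (n * b * h / Δ) hβh
  obtain ⟨ho1, -⟩ := om_spec (k := k) g hn
  have hoD : om k g ≤ Module.finrank ℚ K := by
    have e1 := om_pow_le (k := k) g hn
    have e2 : om k g ≤ om k g ^ n := Nat.le_self_pow (by omega) _
    exact e2.trans (e1.trans (U4_dg_le g))
  have hDpos : 0 < Module.finrank ℚ K := Module.finrank_pos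
  have hD1 : (1 : ℝ) ≤ (Module.finrank ℚ K : ℝ) := by exact_mod_cast hDpos
  have hD0' : (0 : ℝ) < (Module.finrank ℚ K : ℝ) := by linarith
  have ho1' : (1 : ℝ) ≤ (om k g : ℝ) := by exact_mod_cast ho1
  have hoD' : (om k g : ℝ) ≤ (Module.finrank ℚ K : ℝ) := by exact_mod_cast hoD
  have hb' : (0 : ℝ) < (b : ℝ) := by exact_mod_cast hb
  have hbC' : (b : ℝ) ≤ C1 * (Module.finrank ℚ K : ℝ) ^ (η / 2) * om k g := by
    refine hbC.trans ?_
    have e : C ≤ C1 := le_max_left _ _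
    have e2 : 0 ≤ (Module.finrank ℚ K : ℝ) ^ (η / 2) := Real.rpow_nonneg hD0'.le _
    have e3 := mul_le_mul_of_nonneg_right e e2
    exact mul_le_mul_of_nonneg_right e3 (by linarith)
  have hbD : (b : ℝ) ≤ C1 * (Module.finrank ℚ K : ℝ) ^ 2 := by
    have e1 : (Module.finrank ℚ K : ℝ) ^ (η / 2) ≤ (Module.finrank ℚ K : ℝ) := by
      have := Real.rpow_le_rpow_of_exponent_le hD1 (show η / 2 ≤ 1 by linarith)
      rwa [Real.rpow_one] at this
    calc (b : ℝ) ≤ C1 * (Module.finrank ℚ K : ℝ) ^ (η / 2) * om k g := hbC'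
      _ ≤ C1 * (Module.finrank ℚ K : ℝ) * (Module.finrank ℚ K : ℝ) := by
          apply mul_le_mul (mul_le_mul_of_nonneg_left e1 (by linarith)) hoD' (by linarith)
          positivity
      _ = C1 * (Module.finrank ℚ K : ℝ) ^ 2 := by ring
  have hΔ2' : (Δ : ℝ) ≤ n.factorial * (b : ℝ) ^ n := by exact_mod_cast hΔ2
  have hΔ1' : (1 : ℝ) ≤ (Δ : ℝ) := by exact_mod_cast hΔ1
  have hF' : (Module.finrank ℚ K' : ℝ) ≤ B * (Module.finrank ℚ K : ℝ) ^ E := by
    have e1 : (Module.finrank ℚ K' : ℝ) ≤ (Module.finrank ℚ K : ℝ) * (Δ : ℝ) ^ (n' + 1) := by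
      exact_mod_cast hfr
    have e2 : (Δ : ℝ) ^ (n' + 1) ≤ (Δ : ℝ) ^ n := pow_le_pow_right₀ hΔ1' (by omega)
    have e3 : (Δ : ℝ) ≤ (n.factorial : ℝ) * C1 ^ n * ((Module.finrank ℚ K : ℝ) ^ 2) ^ n := by
      calc (Δ : ℝ) ≤ n.factorial * (b : ℝ) ^ n := hΔ2'
        _ ≤ n.factorial * (C1 * (Module.finrank ℚ K : ℝ) ^ 2) ^ n :=
            mul_le_mul_of_nonneg_left (pow_le_pow_left₀ hb'.le hbD n) (by linarith)
        _ = (n.factorial : ℝ) * C1 ^ n * ((Module.finrank ℚ K : ℝ) ^ 2) ^ n := by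
            rw [mul_pow]
            ring
    have e4 : (Δ : ℝ) ^ n ≤ B * (((Module.finrank ℚ K : ℝ) ^ 2) ^ n) ^ n := by
      rw [hB, ← mul_pow]
      exact pow_le_pow_left₀ (by linarith) e3 n
    have e5 : (Module.finrank ℚ K : ℝ) ^ E =
        (Module.finrank ℚ K : ℝ) * (((Module.finrank ℚ K : ℝ) ^ 2) ^ n) ^ n := by
      rw [hE, Real.rpow_natCast, ← pow_mul, ← pow_mul, pow_add, pow_one, ← mul_assoc]
    rw [e5]
    calc (Module.finrank ℚ K' : ℝ) ≤ (Module.finrank ℚ K : ℝ) * (Δ : ℝ) ^ (n' + 1) := e1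
      _ ≤ (Module.finrank ℚ K : ℝ) * (B * (((Module.finrank ℚ K : ℝ) ^ 2) ^ n) ^ n) :=
          mul_le_mul_of_nonneg_left (e2.trans e4) hD0'.le
      _ = B * ((Module.finrank ℚ K : ℝ) * (((Module.finrank ℚ K : ℝ) ^ 2) ^ n) ^ n) := by ring
  have hF1 : (1 : ℝ) ≤ (Module.finrank ℚ K' : ℝ) := by
    have : 0 < Module.finrank ℚ K' := Module.finrank_pos
    exact_mod_cast this
  have hfin : c n' * (Module.finrank ℚ K' : ℝ) ^ (-(η / (4 * E))) ≤ 2 * n * b * h := by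
    refine key.trans (le_of_eq ?_)
    push_cast
    have : (Δ : ℝ) ≠ 0 := by linarith
    field_simp
  refine U4_real n hn η C1 (c n') B E (Module.finrank ℚ K : ℝ) (om k g : ℝ) b h
    (Module.finrank ℚ K' : ℝ) h0 hC11 (hc0 n' ⟨hn1, hn2⟩) hB1 hE1 hD1 hb' hbC' hoh hF1 hF'
    hfin ?_
  have e1 : |2 * n * C1 * B ^ (η / (4 * E)) / c n'| ^ (4 / η) ≤
      ∑ n' ∈ Finset.range n, |2 * n * C1 * B ^ (η / (4 * E)) / c n'| ^ (4 / η) :=
    Finset.single_le_sum (f := fun n' : ℕ => |2 * n * C1 * B ^ (η / (4 * E)) / c n'| ^ (4 / η))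
      (fun i _ => Real.rpow_nonneg (abs_nonneg _) _) (Finset.mem_range.mpr hn2)
  linarith

end DR
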