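import Pool.Agent.Lib.MP_a325a5_ag.DR.U1
import Pool.Agent.Lib.MP_a325a5_ag.DR.U4
import Pool.Agent.Lib.MP_a325a5_ag.DR.PT3
import Pool.Agent.Lib.MP_a325a5_ag.DR.PT4
import Pool.Agent.Lib.MP_a325a5_ag.DR.G7

/-! 8.4, 8.6: the data of the geometric theorem exist if om h < D^(-η) and D is large: contradiction. -/

open NumberField MvPolynomial

namespace DR

section U5
variable {M : ℕ} {k K : Type} [Field k] [NumberField k] [Field K] [NumberField K] [Algebra k K]
  {n : ℕ}

private theorem U5_coprime {q : ℕ} (hq : q.Prime) (h : ¬ q ∣ M) : q.Coprime M :=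
  (Nat.Prime.coprime_iff_not_dvd hq).2 h

omit [NumberField k] in
private theorem U5_const (G : MvPolynomial (Fin n) k) (hG : G ∈ V k n 0) : ∃ c, G = C c := by
  refine ⟨coeff 0 G, ?_⟩
  ext m
  rw [coeff_C]
  split_ifs with h
  · rw [h]
  · by_contra h1
    have h2 : m ∈ G.support := mem_support_iff.2 h1
    apply h
    ext i
    have h3 := (degreeOf_le_iff.1 (hG i)) m h2
    simp only [Finsupp.coe_zero, Pi.zero_apply]
    omega

private theorem U5_rat (Z : BMF.Cyc M k) (g : Fin n → K) {m : ℕ} (hm : m.Coprime M)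
    (hm0 : 0 < m) {ν : ℕ} {F : MvPolynomial (Fin n) (AlgebraicClosure K)}
    (hF : F ∈ V (AlgebraicClosure K) n ν) (hF0 : F ≠ 0) {z : Fin n → AlgebraicClosure K}
    (hz : z ∈ sm (io k K) Z g m)
    (hv : ∀ γ : AlgebraicClosure K ≃+* AlgebraicClosure K, (∀ x, γ (io k K x) = io k K x) →
      eval (fun j => γ (z j)) F = 0) :
    ∃ A ∈ V k n (m * ν), A ≠ 0 ∧ (∀ b ∈ A.support, ∃ a ∈ F.support, b = m • a) ∧
      ev (RingHom.id k) 1 g A = 0 := by
  obtain ⟨A, hA0, hA1, hA2⟩ := ratl Z g hm hm0 F hF0 (by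
    intro z' hz'
    obtain ⟨γ, h1, h2⟩ := sm_trans Z g hm hz hz'
    rw [h2]
    exact hv γ h1)
  refine ⟨A, fun i => ?_, hA0, hA1, hA2⟩
  rw [degreeOf_le_iff]
  intro b hb
  obtain ⟨a, ha, rfl⟩ := hA1 b hb
  have h1 := (degreeOf_le_iff.1 (hF i)) a ha
  rw [Finsupp.smul_apply, smul_eq_mul]
  exact Nat.mul_le_mul_left m h1

private theorem U5_dg_le (g : Fin n → K) (m : ℕ) : dg k g m ≤ Module.finrank ℚ K := by
  have : Module.Finite k K := Module.Finite.of_restrictScalars_finite ℚ k K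
  have h1 : dg k g m ≤ Module.finrank k K :=
    Submodule.finrank_le (IntermediateField.toSubalgebra
      (IntermediateField.adjoin k (Set.range fun i => g i ^ m))).toSubmodule
  have h2 := Module.finrank_mul_finrank ℚ k K
  have h3 : 0 < Module.finrank ℚ k := Module.finrank_pos
  calc dg k g m ≤ Module.finrank k K := h1
    _ ≤ Module.finrank ℚ k * Module.finrank k K := Nat.le_mul_of_pos_left _ h3
    _ = _ := h2

/-- cardinality of a union of orbits -/
private theorem U5_card (Z : BMF.Cyc M k) (g : Fin n → K) (hn : 1 ≤ n) (hg : ∀ i, g i ≠ 0)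
    (hI : MInd g) (S : Set ℕ) (hS : S.Finite) (hc : ∀ m ∈ S, m.Coprime M ∧ 0 < m) (d : ℕ)
    (hd : ∀ m ∈ S, d ≤ dg k g m) (E : Set (Fin n → AlgebraicClosure K)) (hE : E.Finite)
    (hSE : ∀ m ∈ S, sm (io k K) Z g m ⊆ E) : S.ncard * d ≤ E.ncard := by
  classical
  let t : ℕ → Finset (Fin n → AlgebraicClosure K) := fun m =>
    if h : (sm (io k K) Z g m).Finite then h.toFinset else ∅
  have ht : ∀ m ∈ S, (t m : Set (Fin n → AlgebraicClosure K)) = sm (io k K) Z g m := by
    intro m hm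
    have h := (sm_card Z g (hc m hm).1).1
    show ((if h : (sm (io k K) Z g m).Finite then h.toFinset else ∅ : Finset _) :
      Set (Fin n → AlgebraicClosure K)) = _
    rw [dif_pos h, Set.Finite.coe_toFinset]
  have hdis : ((hS.toFinset : Finset ℕ) : Set ℕ).PairwiseDisjoint t := by
    intro m hm m' hm' hne
    rw [Set.Finite.coe_toFinset] at hm hm'
    have h1 := sm_disj Z g hn hg hI (hc m hm).1 (hc m' hm').1 (hc m hm).2 (hc m' hm').2 hne
    rw [← ht m hm, ← ht m' hm'] at h1
    exact Finset.disjoint_coe.1 h1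
  have h2 := Finset.card_biUnion hdis
  have h3 : ∀ m ∈ hS.toFinset, d ≤ (t m).card := by
    intro m hm
    rw [Set.Finite.mem_toFinset] at hm
    have h4 := (sm_card Z g (hc m hm).1).2
    rw [← ht m hm, Set.ncard_coe_finset] at h4
    rw [h4]
    exact hd m hm
  have h4 : hS.toFinset.card * d ≤ ∑ m ∈ hS.toFinset, (t m).card := by
    have := Finset.card_nsmul_le_sum hS.toFinset (fun m => (t m).card) d h3
    simpa using this
  have h5 : ((hS.toFinset.biUnion t : Finset _) : Set (Fin n → AlgebraicClosure K)) ⊆ E := by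
    intro z hz
    rw [Finset.coe_biUnion] at hz
    simp only [Set.mem_iUnion] at hz
    obtain ⟨m, hm, hz⟩ := hz
    rw [Set.Finite.coe_toFinset] at hm
    rw [ht m hm] at hz
    exact hSE m hm hz
  have h6 := Set.ncard_le_ncard h5 hE
  rw [Set.ncard_coe_finset, h2] at h6
  rw [Set.ncard_eq_toFinset_card S hS]
  exact h4.trans h6

end U5

private theorem U5_large (n r : ℕ) (hr : 1 ≤ r) (C1 : ℕ) (hC1 : 1 ≤ C1) (c0 : ℝ)
    (hc0 : 0 < c0) : ∃ X0 : ℝ, ∀ X : ℕ, X0 ≤ X →
      (2 * (8 : ℝ) ^ n + n * n.factorial * 8 ^ (n + 1) ≤ (X : ℝ) ^ (1 / (4 * r : ℝ))) ∧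
      ((2 * C1) ^ n * (3 * n.factorial * n.factorial) < 8 * X) ∧
      ((n.factorial : ℝ) * C1 ^ n < (X : ℝ) ^ (1 / 2 : ℝ)) ∧
      ∀ D : ℝ, 1 ≤ D → D ^ c0 / 2 ≤ X → ∀ t : ℕ, (X : ℝ) ^ (1 / 2 : ℝ) ≤ t → ∀ y : ℝ, 0 < y →
        y ≤ n.factorial * C1 ^ n * D ^ (2 * n) →
        4 * Real.log y ≤ t * (1 / (4 * r : ℝ)) * Real.log X := by
  have hr' : (0 : ℝ) < r := by exact_mod_cast hr
  have e1 : ∀ᶠ X : ℝ in Filter.atTop, 2 * (8 : ℝ) ^ n + n * n.factorial * 8 ^ (n + 1) ≤
      X ^ (1 / (4 * r : ℝ)) := (tendsto_rpow_atTop (by positivity)).eventually_ge_atTop _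
  have e2 : ∀ᶠ X : ℝ in Filter.atTop, (((2 * C1) ^ n * (3 * n.factorial * n.factorial) : ℕ) : ℝ) <
      X := Filter.eventually_gt_atTop _
  have e3 : ∀ᶠ X : ℝ in Filter.atTop, (n.factorial : ℝ) * C1 ^ n < X ^ (1 / 2 : ℝ) :=
    (tendsto_rpow_atTop (by norm_num)).eventually_gt_atTop _
  have e4 : ∀ᶠ X : ℝ in Filter.atTop, 4 * r * (4 * Real.log (n.factorial * C1 ^ n) / Real.log 2 +
      16 * n / c0) ≤ X ^ (1 / 2 : ℝ) :=
    (tendsto_rpow_atTop (by norm_num)).eventually_ge_atTop _
  have e5 : ∀ᶠ X : ℝ in Filter.atTop, 2 ≤ X := Filter.eventually_ge_atTop 2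
  obtain ⟨X0, hX0⟩ := Filter.eventually_atTop.1 (e1.and (e2.and (e3.and (e4.and e5))))
  refine ⟨X0, fun X hX => ?_⟩
  obtain ⟨h1, h2, h3, h4, h5⟩ := hX0 X hX
  refine ⟨h1, ?_, h3, ?_⟩
  · have h6 : (2 * C1) ^ n * (3 * n.factorial * n.factorial) < X := by exact_mod_cast h2
    omega
  · intro D hD hDX t ht y hy hyD
    have hl2 : 0 < Real.log 2 := Real.log_pos (by norm_num)
    have hlX : Real.log 2 ≤ Real.log X := Real.log_le_log (by norm_num) h5
    have hB : (1 : ℝ) ≤ n.factorial * C1 ^ n := by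
      have h6 : (1 : ℝ) ≤ n.factorial := by exact_mod_cast Nat.factorial_pos n
      have h7 : (1 : ℝ) ≤ (C1 : ℝ) ^ n := one_le_pow₀ (by exact_mod_cast hC1)
      nlinarith
    have hlB : 0 ≤ Real.log (n.factorial * C1 ^ n) := Real.log_nonneg hB
    have hD0 : 0 < D := by linarith
    have hDc : D ^ c0 ≤ 2 * X := by linarith
    have hlD : c0 * Real.log D ≤ 2 * Real.log X := by
      have h6 := Real.log_le_log (Real.rpow_pos_of_pos hD0 c0) hDc
      rw [Real.log_rpow hD0, Real.log_mul (by norm_num) (by linarith)] at h6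
      linarith
    have hlD' : Real.log D ≤ 2 * Real.log X / c0 := by
      rw [le_div_iff₀ hc0]
      linarith
    have hly : Real.log y ≤ Real.log (n.factorial * C1 ^ n) + 2 * n * Real.log D := by
      have h6 := Real.log_le_log hy hyD
      rw [Real.log_mul (by linarith) (by positivity), Real.log_pow] at h6
      push_cast at h6
      exact h6
    have hlB' : Real.log (n.factorial * C1 ^ n) ≤
        Real.log (n.factorial * C1 ^ n) / Real.log 2 * Real.log X := by
      rw [div_mul_eq_mul_div, le_div_iff₀ hl2]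
      exact mul_le_mul_of_nonneg_left hlX hlB
    have h6 : 4 * Real.log y ≤ (4 * Real.log (n.factorial * C1 ^ n) / Real.log 2 +
        16 * n / c0) * Real.log X := by
      have h7 : 2 * (n : ℝ) * Real.log D ≤ 2 * n * (2 * Real.log X / c0) :=
        mul_le_mul_of_nonneg_left hlD' (by positivity)
      have h8 : (4 * Real.log (n.factorial * C1 ^ n) / Real.log 2 +
        16 * n / c0) * Real.log X = 4 * (Real.log (n.factorial * C1 ^ n) / Real.log 2 *
          Real.log X) + 4 * (2 * n * (2 * Real.log X / c0)) := by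
        ring
      rw [h8]
      linarith
    refine h6.trans (mul_le_mul_of_nonneg_right ?_ (by linarith))
    rw [mul_one_div, le_div_iff₀ (by positivity)]
    linarith

theorem core (n : ℕ) (hn : 1 ≤ n) (IH : ∀ n', 1 ≤ n' → n' < n → Un n') (η : ℝ) (h0 : 0 < η)
    (h1 : η ≤ 1) :
    ∃ D0 : ℝ, ∀ (M : ℕ) (k K : Type) [Field k] [NumberField k] [Field K]
      [NumberField K] [Algebra k K] (_ : BMF.Cyc M k) (g : Fin n → K), (∀ i, g i ≠ 0) → MInd g →
      ∀ h : ℝ, (∀ i, BMF.ht (g i) ≤ h) → D0 ≤ Module.finrank ℚ K →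
      (Module.finrank ℚ K : ℝ) ^ (-η) ≤ (om k g : ℝ) * h := by
  obtain ⟨C1, hC1, D1, hD1⟩ := arith_data n hn η h0 h1
  have hrr : 1 ≤ rr n := by unfold rr; omega
  have hh0 : 1 ≤ DR.h0 n := by unfold DR.h0; omega
  have hh0r : 2 * DR.h0 n ≤ rr n := by
    unfold rr
    have : 1 * (2 * DR.h0 n) ≤ (n + 1) * (2 * DR.h0 n) := Nat.mul_le_mul_right _ (by omega)
    omega
  have hr0 : (0 : ℝ) < rr n := by exact_mod_cast hrr
  have hc0 : 0 < η / (8 * rr n) := by positivity
  obtain ⟨X0, hX0⟩ := U5_large n (rr n) hrr C1 hC1 (η / (8 * rr n)) hc0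
  obtain ⟨D2, hD2⟩ := no_hom n hn IH η h0 h1 (3 * n.factorial * n.factorial * C1)
  obtain ⟨D3, hD3⟩ := Filter.eventually_atTop.1
    ((tendsto_rpow_atTop hc0).eventually_ge_atTop (2 * X0))
  refine ⟨max (max D1 D2) (max D3 1), ?_⟩
  intro M k K _ _ _ _ _ Z g hg hI h hh hD
  by_contra hcon
  rw [not_le] at hcon
  have hDa : D1 ≤ (Module.finrank ℚ K : ℝ) := le_trans (le_trans (le_max_left _ _)
    (le_max_left _ _)) hD
  have hDb : D2 ≤ (Module.finrank ℚ K : ℝ) := le_trans (le_trans (le_max_right _ _)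
    (le_max_left _ _)) hD
  have hDc : D3 ≤ (Module.finrank ℚ K : ℝ) := le_trans (le_trans (le_max_left _ _)
    (le_max_right _ _)) hD
  have hDd : 1 ≤ (Module.finrank ℚ K : ℝ) := le_trans (le_trans (le_max_right _ _)
    (le_max_right _ _)) hD
  obtain ⟨X, P, G, hX2, hXD, h8X, hPq, hPc, hPd, hdg, hG0, hGV, hGv⟩ :=
    hD1 M k K Z g hg hI h hh hDa hcon
  have hXX0 : X0 ≤ (X : ℝ) := by
    have := hD3 _ hDc
    linarith
  obtain ⟨c6, d6, e6, g5⟩ := hX0 X hXX0
  have hom1 : 1 ≤ om k g := (om_spec (k := k) g hn).1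
  have hMl : ∀ i, i ≤ rr n → ∀ m ∈ MM P i, m ≤ (8 * X) ^ i := fun i hi =>
    MM_le P X (rr n) (fun i h1 h2 q hq => (hPq i h1 h2 q hq).2.2.2) i hi
  have hMc : ∀ i, i ≤ rr n → ∀ m ∈ MM P i, m.Coprime M ∧ 0 < m := fun i hi =>
    MM_coprime P M (rr n) (fun i h1 h2 q hq => ⟨(hPq i h1 h2 q hq).1, (hPq i h1 h2 q hq).2.1⟩) i hi
  have hMf : ∀ i, i ≤ rr n → (MM P i).Finite ∧
      (MM P i).ncard = ∏ j ∈ Finset.Icc 1 i, (P j).card := fun i hi =>
    MM_card P (rr n) (fun i h1 h2 q hq => (hPq i h1 h2 q hq).1) hPd i hi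
  let E : ℕ → Set (Fin n → AlgebraicClosure K) := fun i =>
    {z | i ≤ rr n ∧ ∃ m ∈ MM P i, z ∈ sm (io k K) Z g m}
  have hEf : ∀ i, (E i).Finite := by
    intro i
    by_cases hi : i ≤ rr n
    · refine Set.Finite.subset (Set.Finite.biUnion (hMf i hi).1
        (fun m hm => (sm_card Z g (hMc i hi m hm).1).1)) ?_
      rintro z ⟨_, m, hm, hz⟩
      exact Set.mem_biUnion hm hz
    · refine Set.Finite.subset Set.finite_empty ?_
      rintro z ⟨h2, _⟩
      exact absurd h2 hi
  have hcop : ∀ i, 1 ≤ i → i ≤ rr n → ∀ q ∈ P i, q.Coprime M := fun i h1 h2 q hq =>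
    U5_coprime (hPq i h1 h2 q hq).1 (hPq i h1 h2 q hq).2.1
  classical
  let ρ : ℕ → (AlgebraicClosure K ≃+* AlgebraicClosure K) := fun q =>
    if h : q.Coprime M then Classical.choose (exists_rho (K := K) Z h) else RingEquiv.refl _
  have hρ : ∀ q, q.Coprime M → ∀ x, ρ q (io k K (Z.fr q x)) = io k K x := by
    intro q hq x
    show (if h : q.Coprime M then Classical.choose (exists_rho (K := K) Z h)
      else RingEquiv.refl _ : AlgebraicClosure K ≃+* AlgebraicClosure K) _ = _
    rw [dif_pos hq]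
    exact Classical.choose_spec (exists_rho (K := K) Z hq) x
  have hX1 : 1 ≤ 8 * X := by omega
  have hMm : ∀ i, i ≤ rr n → ∀ m ∈ MM P i, m ≤ (8 * X) ^ rr n := fun i hi m hm =>
    (hMl i hi m hm).trans (Nat.pow_le_pow_right hX1 hi)
  have homD : (om k g : ℝ) ≤ (Module.finrank ℚ K : ℝ) := by
    have h2 : om k g ≤ om k g ^ n := Nat.le_self_pow (by omega) _
    have h3 := h2.trans ((om_pow_le (k := k) g hn).trans (U5_dg_le g 1))
    exact_mod_cast h3
  have h8D : (8 * (X : ℝ)) ^ rr n ≤ (Module.finrank ℚ K : ℝ) := by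
    refine h8X.trans ?_
    calc (Module.finrank ℚ K : ℝ) ^ (η / 4) ≤ (Module.finrank ℚ K : ℝ) ^ (1 : ℝ) :=
          Real.rpow_le_rpow_of_exponent_le hDd (by linarith)
      _ = _ := Real.rpow_one _
  let d : Dat (AlgebraicClosure K) n :=
    { X := X
      r := rr n
      h0 := DR.h0 n
      L := C1 * om k g
      om := om k g
      C1 := C1
      t := ⌈(X : ℝ) ^ (1 / 2 : ℝ)⌉₊
      P := P
      E := E
      Γ := {γ | ∀ x, γ (io k K x) = io k K x}
      ρ := ρ
      hn := hn
      hX := hX2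
      hL := Nat.mul_pos hC1 hom1
      hom := hom1
      hC1 := hC1
      hP := fun i h2 h3 q hq => ⟨(hPq i (by omega) h3 q hq).1, (hPq i (by omega) h3 q hq).2.2⟩
      hE := by
        rintro i z ⟨_, m, _, hz⟩
        exact sm_ne_zero Z g hg m hz
      hEf := hEf
      hΓ1 := fun x => rfl
      hΓs := by
        intro γ hγ x
        rw [RingEquiv.symm_apply_eq]
        exact (hγ x).symm
      hΓE := by
        rintro γ hγ i z ⟨h2, m, hm, hz⟩
        exact ⟨h2, m, hm, sm_act Z g m hγ hz⟩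
      hρ := by
        intro i h2 h3 q hq z hz
        obtain ⟨i', rfl⟩ : ∃ i', i = i' + 1 := ⟨i - 1, by omega⟩
        rw [Nat.add_sub_cancel] at hz
        obtain ⟨h4, m, hm, hz⟩ := hz
        have hqc := hcop (i' + 1) (by omega) h3 q hq
        exact ⟨h3, m * q, ⟨m, hm, q, hq, rfl⟩,
          sm_rho Z g (hMc i' h4 m hm).1 hqc (hρ q hqc) hz⟩
      g1 := by
        refine ⟨MvPolynomial.map (io k K) G, fun i => ?_, ?_, ?_⟩
        · rw [degreeOf_le_iff]
          intro b hb
          exact (degreeOf_le_iff.1 (hGV i)) b (support_map_subset _ _ hb)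
        · intro h2
          apply hG0
          apply map_injective (io k K) (io k K).injective
          rw [h2, map_zero]
        · rintro z ⟨h2, m, hm, hz⟩
          exact (sm_ev Z g (hMc _ h2 m hm).1 G hz).2 (hGv m hm)
      g2 := by
        rintro z ⟨h2, m, hm, hz⟩ ν F hF hF0 hFz
        obtain ⟨hm1, hm2⟩ := hMc _ h2 m hm
        obtain ⟨A, hA, hA0, _, hAg⟩ := U5_rat Z g hm1 hm2 hF hF0 hz hFz
        have h3 : 1 ≤ m * ν := by
          by_contra h4
          have h5 : m * ν = 0 := by omega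
          rw [h5] at hA
          obtain ⟨c, rfl⟩ := U5_const A hA
          apply hA0
          have h6 : algebraMap k K c = 0 := by
            simpa [ev] using hAg
          rw [(map_eq_zero (algebraMap k K)).1 h6, map_zero]
        exact (om_le g h3 hA hA0 hAg).trans (Nat.mul_le_mul_right ν (hMl _ h2 m hm))
      g3 := by
        rintro i h2 h3 z ⟨_, m, hm, hz⟩ w hw F hF hF0 hFw hFz
        obtain ⟨hm1, hm2⟩ := hMc _ h3 m hm
        obtain ⟨A, hA, hA0, hAs, hAg⟩ := U5_rat Z g hm1 hm2 hF hF0 hz hFz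
        have hA' := V_mono (Nat.mul_le_mul_right (3 * n.factorial * n.factorial *
          ((8 * X) ^ rr n * (C1 * om k g))) (hMm i h3 m hm)) hA
        refine hD2 M k K Z g hg hI h hh hDb hcon _ ?_ ?_ A hA' hA0 hAg w hw ?_
        · have h4 := Nat.factorial_pos n
          have h5 : 0 < (8 * X) ^ rr n := Nat.pow_pos hX1
          have h6 : 0 < om k g := hom1
          exact Nat.succ_le_of_lt (by positivity)
        · push_cast
          have h4 : (8 * (X : ℝ)) ^ rr n * (8 * (X : ℝ)) ^ rr n ≤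
              (Module.finrank ℚ K : ℝ) ^ (η / 2) := by
            calc (8 * (X : ℝ)) ^ rr n * (8 * (X : ℝ)) ^ rr n ≤
                (Module.finrank ℚ K : ℝ) ^ (η / 4) * (Module.finrank ℚ K : ℝ) ^ (η / 4) :=
                  mul_le_mul h8X h8X (by positivity) (by positivity)
              _ = (Module.finrank ℚ K : ℝ) ^ (η / 2) := by
                  rw [← Real.rpow_add (by linarith)]
                  congr 1
                  ring
          calc (8 * (X : ℝ)) ^ rr n * (3 * (n.factorial : ℝ) * n.factorial *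
                ((8 * (X : ℝ)) ^ rr n * (C1 * (om k g : ℝ)))) =
                3 * (n.factorial : ℝ) * n.factorial * C1 *
                ((8 * (X : ℝ)) ^ rr n * (8 * (X : ℝ)) ^ rr n) * (om k g : ℝ) := by ring
            _ ≤ 3 * (n.factorial : ℝ) * n.factorial * C1 *
                (Module.finrank ℚ K : ℝ) ^ (η / 2) * (om k g : ℝ) := by
              refine mul_le_mul_of_nonneg_right ?_ (by positivity)
              exact mul_le_mul_of_nonneg_left h4 (by positivity)
        · intro a ha a' ha'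
          obtain ⟨c, hc, rfl⟩ := hAs a ha
          obtain ⟨c', hc', rfl⟩ := hAs a' ha'
          have h4 : ∀ c : Fin n →₀ ℕ, wgt w (m • c) = m * wgt w c := by
            intro c
            unfold wgt
            rw [Finset.mul_sum]
            refine Finset.sum_congr rfl fun i _ => ?_
            rw [Finsupp.smul_apply, smul_eq_mul]
            push_cast
            ring
          rw [h4, h4, hFw c hc c' hc']
      g4 := le_rfl
      g4' := by
        have h2 := U5_card Z g hn hg hI (MM P (2 * DR.h0 n)) (hMf _ hh0r).1 (hMc _ hh0r)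
          (om k g ^ n) (fun m hm => (om_pow_le (k := k) g hn).trans
            (hdg _ hh0r m hm).ge) (E (2 * DR.h0 n)) (hEf _)
          (fun m hm z hz => ⟨hh0r, m, hm, hz⟩)
        refine le_trans (Nat.mul_le_mul_right _ ?_) h2
        rw [(hMf _ hh0r).2]
        have h3 : ((X : ℝ) ^ (1 / 2 : ℝ)) ^ (2 * DR.h0 n) ≤
            ∏ j ∈ Finset.Icc 1 (2 * DR.h0 n), ((P j).card : ℝ) := by
          have h4 : ((X : ℝ) ^ (1 / 2 : ℝ)) ^ (2 * DR.h0 n) =
              ∏ j ∈ Finset.Icc 1 (2 * DR.h0 n), (X : ℝ) ^ (1 / 2 : ℝ) := by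
            rw [Finset.prod_const, Nat.card_Icc, Nat.add_sub_cancel]
          rw [h4]
          refine Finset.prod_le_prod (fun j _ => by positivity) fun j hj => ?_
          rw [Finset.mem_Icc] at hj
          exact hPc j hj.1 (hj.2.trans hh0r)
        have h4 : ((X : ℝ) ^ (1 / 2 : ℝ)) ^ (2 * DR.h0 n) = (X : ℝ) ^ DR.h0 n := by
          rw [pow_mul, ← Real.rpow_natCast ((X : ℝ) ^ (1 / 2 : ℝ)) 2,
            ← Real.rpow_mul (by positivity)]
          norm_num
        rw [h4] at h3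
        exact_mod_cast h3
      g5 := fun i h2 h3 => Nat.ceil_le.2 (hPc i (by omega) h3)
      g5' := by
        refine g5 (Module.finrank ℚ K : ℝ) hDd hXD _ (Nat.le_ceil _) _ ?_ ?_
        · have h2 : (0 : ℝ) < n.factorial := by exact_mod_cast Nat.factorial_pos n
          have h3 : (0 : ℝ) < X := by exact_mod_cast (by omega : 0 < X)
          have h4 : (0 : ℝ) < ((C1 * om k g : ℕ) : ℝ) := by
            exact_mod_cast Nat.mul_pos hC1 hom1
          positivity
        · rw [mul_assoc]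
          refine mul_le_mul_of_nonneg_left ?_ (by positivity)
          calc ((8 * (X : ℝ)) ^ rr n * ((C1 * om k g : ℕ) : ℝ)) ^ n ≤
              ((Module.finrank ℚ K : ℝ) * (C1 * (Module.finrank ℚ K : ℝ))) ^ n := by
                refine pow_le_pow_left₀ (by positivity) ?_ n
                push_cast
                exact mul_le_mul h8D (mul_le_mul_of_nonneg_left homD (by positivity))
                  (by positivity) (by positivity)
            _ = (C1 : ℝ) ^ n * (Module.finrank ℚ K : ℝ) ^ (2 * n) := by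
                rw [mul_pow, mul_pow, two_mul, pow_add]
                ring
      g6a := le_rfl
      g6b := le_rfl
      g6c := c6
      g6d := d6
      g6e := e6 }
  exact d.false

end DR
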