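import Pool.Agent.Lib.MP_a325a5_ag.DR.U5
import Pool.Agent.Lib.MP_a325a5_ag.F.N3

/-! U_n for all n ≥ 1 (strong induction; D < D0: F/N3 ht_lower). -/

open NumberField MvPolynomial

namespace DR

private theorem U6_not_root {K : Type} [Field K] [NumberField K] {n : ℕ} {g : Fin n → K}
    (hg : MInd g) (i : Fin n) (m : ℕ) (hm : 0 < m) : g i ^ m ≠ 1 := by
  classical
  intro h
  have h1 : ∏ j, g j ^ (Pi.single i (m : ℤ) : Fin n → ℤ) j = 1 := by
    rw [Finset.prod_eq_single i]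
    · rw [Pi.single_eq_same, zpow_natCast, h]
    · intro j _ hj
      rw [Pi.single_eq_of_ne hj, zpow_zero]
    · intro hi
      exact absurd (Finset.mem_univ i) hi
  have h2 := congrFun (hg _ h1) i
  rw [Pi.single_eq_same, Pi.zero_apply] at h2
  omega

private theorem U6_step (n : ℕ) (hn : 1 ≤ n) (IH : ∀ n', 1 ≤ n' → n' < n → Un n') : Un n := by
  intro η hη
  obtain ⟨D0, hD0⟩ := core n hn IH (min η 1) (lt_min hη one_pos) (min_le_right _ _)
  obtain ⟨c1, hc1, hlow⟩ := BMF.ht_lower ⌈D0⌉₊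
  refine ⟨min 1 c1, lt_min one_pos hc1, ?_⟩
  intro M k K _ _ _ _ _ Z g hg0 hgI b A hb hA hA0 hev h hh
  have i0 : Fin n := ⟨0, hn⟩
  have hD1 : (1 : ℝ) ≤ Module.finrank ℚ K := by exact_mod_cast Module.finrank_pos
  have hh0 : 0 ≤ h := (BMF.ht_nonneg (g i0)).trans (hh i0)
  have hbR : (1 : ℝ) ≤ b := by exact_mod_cast hb
  have hpow0 : 0 ≤ (Module.finrank ℚ K : ℝ) ^ (-η) := Real.rpow_nonneg (by linarith) _
  by_cases hD : D0 ≤ Module.finrank ℚ K
  · have h1 := hD0 M k K Z g hg0 hgI h hh hD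
    have h2 : om k g ≤ b := Nat.sInf_le ⟨hb, A, hA, hA0, hev⟩
    have h3 : (om k g : ℝ) ≤ b := by exact_mod_cast h2
    have h4 : (Module.finrank ℚ K : ℝ) ^ (-η) ≤ (Module.finrank ℚ K : ℝ) ^ (-(min η 1)) :=
      Real.rpow_le_rpow_of_exponent_le hD1 (by linarith [min_le_left η 1])
    calc min 1 c1 * (Module.finrank ℚ K : ℝ) ^ (-η)
        ≤ 1 * (Module.finrank ℚ K : ℝ) ^ (-η) :=
          mul_le_mul_of_nonneg_right (min_le_left _ _) hpow0
      _ ≤ (om k g : ℝ) * h := by rw [one_mul]; exact h4.trans h1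
      _ ≤ b * h := mul_le_mul_of_nonneg_right h3 hh0
  · have h1 : Module.finrank ℚ K ≤ ⌈D0⌉₊ := by
      have h2 : (Module.finrank ℚ K : ℝ) ≤ ⌈D0⌉₊ := (not_le.mp hD).le.trans (Nat.le_ceil _)
      exact_mod_cast h2
    have h3 := hlow K h1 (g i0) (hg0 i0) (fun m hm => U6_not_root hgI i0 m hm)
    have h4 : (Module.finrank ℚ K : ℝ) ^ (-η) ≤ 1 :=
      Real.rpow_le_one_of_one_le_of_nonpos hD1 (by linarith)
    calc min 1 c1 * (Module.finrank ℚ K : ℝ) ^ (-η) ≤ c1 * 1 :=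
          mul_le_mul (min_le_right _ _) h4 hpow0 hc1.le
      _ ≤ 1 * h := by rw [mul_one, one_mul]; exact h3.trans (hh i0)
      _ ≤ b * h := mul_le_mul_of_nonneg_right hbR hh0

theorem un_all (n : ℕ) (hn : 1 ≤ n) : Un n := by
  induction n using Nat.strong_induction_on with
  | _ n ih => exact U6_step n hn (fun n' h1 h2 => ih n' h2 h1)

end DR
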